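import Pool.Agent.MKD.Geo

/-! Module MKD/ShapeProd: products with intervals.

`Col.prod`: generalise: for A₀ fixed and Col A B with A ⊆ A₀: Col (tw A₀ J ∪ tw A I) (tw A₀ J ∪ tw B I), by
induction on Col: for a slab step (A, A') (all cells in height 0, so the toggle direction is not 2 unless
A = A') the difference is tw (A \ A') (I \ J), closed under the same toggle, if moreover A \ A' and I \ J..:
a cell of tw A I which is neither in tw A₀ J nor in tw A' I lies over A \ A' at a height in I \ J. Use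
(c ± e l) 2 = c 2 and update (c ± e l) 2 0 = update c 2 0 ± e l for l ≠ 2. At the start tw A J ∪ tw A I = tw A I.
`prism_lo`: one slab in direction 2: tw A [a, a + 2] minus (tw A {a} ∪ tw B [a, a + 2]) = cells over A \ B in
the heights a + 1, a + 2: toggle l = 2, ε = -1 (a + 2 ↔ a + 1). `prism_hi`: heights a, a + 1: toggle l = 2,
ε = 1. (a is even.) -/

set_option autoImplicit false

namespace Pool.Agent.MKD

open Pool.Agent.MK

/-- A subcomplex of the line. -/
def ClosedI (I : Set ℤ) : Prop := ∀ z ∈ I, Odd z → z + 1 ∈ I ∧ z - 1 ∈ I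

private theorem upd_two94 (c : P) : Function.update c 2 0 2 = 0 := by simp

private theorem upd_ne94 (c : P) {i : Fin 5} (hi : i ≠ 2) : Function.update c 2 0 i = c i := by
  simp [hi]

private theorem upd_add_two94 (c : P) (ε : ℤ) :
    Function.update (c + ε • e 2) 2 0 = Function.update c 2 0 := by
  funext j
  by_cases hj : j = 2
  · subst hj; simp
  · simp [hj, e]

private theorem upd_add_ne94 (c : P) (ε : ℤ) {i : Fin 5} (hi : i ≠ 2) :
    Function.update (c + ε • e i) 2 0 = Function.update c 2 0 + ε • e i := by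
  funext j
  by_cases hj : j = 2
  · subst hj
    have : (2 : Fin 5) ≠ i := fun h => hi h.symm
    simp [e, this]
  · simp [hj, e]

private theorem add_two94 (c : P) (ε : ℤ) : (c + ε • e 2) 2 = c 2 + ε := by
  simp [e]

private theorem add_ne94 (c : P) (ε : ℤ) {i : Fin 5} (hi : i ≠ 2) : (c + ε • e i) 2 = c 2 := by
  have : (2 : Fin 5) ≠ i := fun h => hi h.symm
  simp [e, this]

private theorem sub_eq94 (c : P) (i : Fin 5) : c - e i = c + (-1 : ℤ) • e i := by
  rw [neg_one_zsmul, sub_eq_add_neg]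

private theorem add_eq94 (c : P) (i : Fin 5) : c + e i = c + (1 : ℤ) • e i := by
  rw [one_zsmul]

private theorem sub_smul94 (c : P) (ε : ℤ) (i : Fin 5) : c - ε • e i = c + (-ε) • e i := by
  rw [neg_zsmul, sub_eq_add_neg]

private theorem tw_mono94 {A B : Set P} {I J : Set ℤ} (h : A ⊆ B) (h' : I ⊆ J) :
    tw A I ⊆ tw B J := fun _ hc => ⟨h hc.1, h' hc.2⟩

private theorem icc94 {a : ℤ} (ha : Even a) : ClosedI (Set.Icc a (a + 2)) := by
  intro z hz ho
  rw [Set.mem_Icc] at hz
  obtain ⟨k, hk⟩ := ha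
  obtain ⟨j, hj⟩ := ho
  rw [Set.mem_Icc, Set.mem_Icc]
  omega

private theorem sing94 {a : ℤ} (ha : Even a) : ClosedI {a} := by
  intro z hz ho
  rw [Set.mem_singleton_iff] at hz
  subst hz
  exact absurd ha (Int.not_even_iff_odd.2 ho)

theorem closed_tw {A : Set P} {I : Set ℤ} (hA : Closed A) (hA0 : ∀ c ∈ A, c 2 = 0)
    (hI : ClosedI I) : Closed (tw A I) := by
  have key : ∀ c ∈ tw A I, ∀ i, Odd (c i) → ∀ ε : ℤ, (ε = 1 ∨ ε = -1) → c + ε • e i ∈ tw A I := by
    rintro c ⟨hc, hcI⟩ i hi ε hε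
    by_cases h2 : i = 2
    · subst h2
      refine ⟨?_, ?_⟩
      · show Function.update (c + ε • e 2) 2 0 ∈ A
        rw [upd_add_two94]
        exact hc
      · show (c + ε • e 2) 2 ∈ I
        rw [add_two94]
        rcases hε with rfl | rfl
        · exact (hI _ hcI hi).1
        · exact (hI _ hcI hi).2
    · refine ⟨?_, ?_⟩
      · show Function.update (c + ε • e i) 2 0 ∈ A
        rw [upd_add_ne94 c ε h2]
        have h3 := hA _ hc i (by rw [upd_ne94 c h2]; exact hi)
        rcases hε with rfl | rfl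
        · rw [← add_eq94]; exact h3.1
        · rw [← sub_eq94]; exact h3.2
      · show (c + ε • e i) 2 ∈ I
        rw [add_ne94 c ε h2]
        exact hcI
  intro c hc i hi
  rw [add_eq94, sub_eq94]
  exact ⟨key c hc i hi 1 (Or.inl rfl), key c hc i hi (-1) (Or.inr rfl)⟩

theorem finite_tw {A : Set P} {I : Set ℤ} (hA : A.Finite) (hI : I.Finite) : (tw A I).Finite := by
  refine ((hA.prod hI).image (fun p : P × ℤ => Function.update p.1 2 p.2)).subset ?_
  rintro c ⟨hc, hcI⟩
  refine ⟨(Function.update c 2 0, c 2), ⟨hc, hcI⟩, ?_⟩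
  simp

theorem Col.prod {A B : Set P} (h : Col A B) (hA : Closed A) (hA0 : ∀ c ∈ A, c 2 = 0)
    (hf : A.Finite) {I J : Set ℤ} (hI : ClosedI I) (hJ : ClosedI J) (hJI : J ⊆ I)
    (hIf : I.Finite) : Col (tw A I) (tw A J ∪ tw B I) := by
  have key : ∀ {A' B' : Set P}, Col A' B' → A' ⊆ A →
      Col (tw A J ∪ tw A' I) (tw A J ∪ tw B' I) := by
    intro A' B' h'
    induction h' with
    | refl R => intro _; exact Col.refl _
    | step hs _ ih =>
      rename_i R R' C _
      intro hRA
      obtain ⟨hR, hR', hsub, hfin, l, ε, hε, htog⟩ := hs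
      refine Col.step ⟨?_, ?_, ?_, ?_, l, ε, hε, ?_⟩ (ih (hsub.trans hRA))
      · exact closed_union (closed_tw hA hA0 hJ) (closed_tw hR (fun c hc => hA0 c (hRA hc)) hI)
      · exact closed_union (closed_tw hA hA0 hJ)
          (closed_tw hR' (fun c hc => hA0 c (hRA (hsub hc))) hI)
      · exact Set.union_subset_union_right _ (tw_mono94 hsub (Set.Subset.refl I))
      · refine (finite_tw (hf.subset hRA) hIf).subset ?_
        rintro c ⟨h1 | h1, h2⟩
        · exact absurd (Or.inl h1) h2
        · exact h1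
      · rintro c ⟨h1 | h1, h2⟩
        · exact absurd (Or.inl h1) h2
        · obtain ⟨hc, hcI⟩ := h1
          have hJc : c 2 ∉ J := fun h3 => h2 (Or.inl ⟨hRA hc, h3⟩)
          have hcR' : Function.update c 2 0 ∉ R' := fun h3 => h2 (Or.inr ⟨h3, hcI⟩)
          have ht := htog _ ⟨hc, hcR'⟩
          have hl : l ≠ 2 := by
            rintro rfl
            have h3 := (ht.1 (by rw [upd_two94]; exact Even.zero)).1
            have h4 := hA0 _ (hRA h3)
            rw [add_two94, upd_two94] at h4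
            omega
          rw [upd_ne94 c hl] at ht
          have hmem : ∀ δ : ℤ, Function.update c 2 0 + δ • e l ∈ R \ R' →
              c + δ • e l ∈ (tw A J ∪ tw R I) \ (tw A J ∪ tw R' I) := by
            rintro δ ⟨h3, h4⟩
            refine ⟨Or.inr ⟨?_, ?_⟩, ?_⟩
            · show Function.update (c + δ • e l) 2 0 ∈ R
              rw [upd_add_ne94 c δ hl]
              exact h3
            · show (c + δ • e l) 2 ∈ I
              rw [add_ne94 c δ hl]
              exact hcI
            · rintro (h5 | h5)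
              · have h6 : (c + δ • e l) 2 ∈ J := h5.2
                rw [add_ne94 c δ hl] at h6
                exact hJc h6
              · have h6 : Function.update (c + δ • e l) 2 0 ∈ R' := h5.1
                rw [upd_add_ne94 c δ hl] at h6
                exact h4 h6
          refine ⟨fun h3 => hmem ε (ht.1 h3), fun h3 => ?_⟩
          have h4 := ht.2 h3
          rw [sub_smul94] at h4 ⊢
          exact hmem (-ε) h4
  have h1 := key h (Set.Subset.refl A)
  have h2 : tw A J ∪ tw A I = tw A I :=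
    Set.union_eq_right.2 (tw_mono94 (Set.Subset.refl A) hJI)
  rw [h2] at h1
  exact h1

theorem prism_lo {A B : Set P} (hA : Closed A) (hB : Closed B) (hBA : B ⊆ A)
    (hA0 : ∀ c ∈ A, c 2 = 0) (hf : A.Finite) (a : ℤ) (ha : Even a) :
    Col (tw A (Set.Icc a (a + 2))) (tw A {a} ∪ tw B (Set.Icc a (a + 2))) := by
  have hev : Even (a) := by
    obtain ⟨k, hk⟩ := ha
    exact ⟨k, hk⟩
  have hsubI : ({a} : Set ℤ) ⊆ Set.Icc a (a + 2) := by
    intro z hz
    rw [Set.mem_singleton_iff] at hz
    rw [Set.mem_Icc]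
    omega
  refine Col.one ⟨?_, ?_, ?_, ?_, 2, -1, by norm_num, ?_⟩
  · exact closed_tw hA hA0 (icc94 ha)
  · exact closed_union (closed_tw hA hA0 (sing94 hev))
      (closed_tw hB (fun c hc => hA0 c (hBA hc)) (icc94 ha))
  · exact Set.union_subset (tw_mono94 (Set.Subset.refl A) hsubI)
      (tw_mono94 hBA (Set.Subset.refl _))
  · exact (finite_tw hf (Set.finite_Icc a (a + 2))).subset Set.sdiff_subset
  · rintro c ⟨⟨hc, hcI⟩, h2⟩
    have h3 : c 2 ≠ a := fun h => h2 (Or.inl ⟨hc, h⟩)
    have h4 : Function.update c 2 0 ∉ B := fun h => h2 (Or.inr ⟨h, hcI⟩)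
    rw [Set.mem_Icc] at hcI
    have hmem : ∀ δ : ℤ, (a ≤ c 2 + δ ∧ c 2 + δ ≤ a + 2) → c 2 + δ ≠ a →
        c + δ • e 2 ∈ tw A (Set.Icc a (a + 2)) \ (tw A {a} ∪ tw B (Set.Icc a (a + 2))) := by
      intro δ h5 h6
      refine ⟨⟨?_, ?_⟩, ?_⟩
      · show Function.update (c + δ • e 2) 2 0 ∈ A
        rw [upd_add_two94]
        exact hc
      · show (c + δ • e 2) 2 ∈ Set.Icc a (a + 2)
        rw [add_two94, Set.mem_Icc]
        exact h5
      · rintro (h7 | h7)
        · have h8 : (c + δ • e 2) 2 = a := h7.2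
          rw [add_two94] at h8
          exact h6 h8
        · have h8 : Function.update (c + δ • e 2) 2 0 ∈ B := h7.1
          rw [upd_add_two94] at h8
          exact h4 h8
    obtain ⟨k, hk⟩ := ha
    constructor
    · rintro ⟨j, hj⟩
      exact hmem (-1) (by omega) (by omega)
    · rintro ⟨j, hj⟩
      rw [sub_smul94]
      exact hmem (-(-1)) (by omega) (by omega)

theorem prism_hi {A B : Set P} (hA : Closed A) (hB : Closed B) (hBA : B ⊆ A)
    (hA0 : ∀ c ∈ A, c 2 = 0) (hf : A.Finite) (a : ℤ) (ha : Even a) :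
    Col (tw A (Set.Icc a (a + 2))) (tw A {a + 2} ∪ tw B (Set.Icc a (a + 2))) := by
  have hev : Even (a + 2) := by
    obtain ⟨k, hk⟩ := ha
    exact ⟨k + 1, by omega⟩
  have hsubI : ({a + 2} : Set ℤ) ⊆ Set.Icc a (a + 2) := by
    intro z hz
    rw [Set.mem_singleton_iff] at hz
    rw [Set.mem_Icc]
    omega
  refine Col.one ⟨?_, ?_, ?_, ?_, 2, 1, by norm_num, ?_⟩
  · exact closed_tw hA hA0 (icc94 ha)
  · exact closed_union (closed_tw hA hA0 (sing94 hev))
      (closed_tw hB (fun c hc => hA0 c (hBA hc)) (icc94 ha))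
  · exact Set.union_subset (tw_mono94 (Set.Subset.refl A) hsubI)
      (tw_mono94 hBA (Set.Subset.refl _))
  · exact (finite_tw hf (Set.finite_Icc a (a + 2))).subset Set.sdiff_subset
  · rintro c ⟨⟨hc, hcI⟩, h2⟩
    have h3 : c 2 ≠ a + 2 := fun h => h2 (Or.inl ⟨hc, h⟩)
    have h4 : Function.update c 2 0 ∉ B := fun h => h2 (Or.inr ⟨h, hcI⟩)
    rw [Set.mem_Icc] at hcI
    have hmem : ∀ δ : ℤ, (a ≤ c 2 + δ ∧ c 2 + δ ≤ a + 2) → c 2 + δ ≠ a + 2 →
        c + δ • e 2 ∈ tw A (Set.Icc a (a + 2)) \ (tw A {a + 2} ∪ tw B (Set.Icc a (a + 2))) := by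
      intro δ h5 h6
      refine ⟨⟨?_, ?_⟩, ?_⟩
      · show Function.update (c + δ • e 2) 2 0 ∈ A
        rw [upd_add_two94]
        exact hc
      · show (c + δ • e 2) 2 ∈ Set.Icc a (a + 2)
        rw [add_two94, Set.mem_Icc]
        exact h5
      · rintro (h7 | h7)
        · have h8 : (c + δ • e 2) 2 = a + 2 := h7.2
          rw [add_two94] at h8
          exact h6 h8
        · have h8 : Function.update (c + δ • e 2) 2 0 ∈ B := h7.1
          rw [upd_add_two94] at h8
          exact h4 h8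
    obtain ⟨k, hk⟩ := ha
    constructor
    · rintro ⟨j, hj⟩
      exact hmem (1) (by omega) (by omega)
    · rintro ⟨j, hj⟩
      rw [sub_smul94]
      exact hmem (-(1)) (by omega) (by omega)

end Pool.Agent.MKD
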