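import Pool.Agent.MKD.Geo
import Pool.Agent.MK.Expand
import Pool.Agent.MK.Skel

/-! Module MKD/Slab: removing a slab, and excision.

`slab_fe`: strong induction on the number of elements of R \ R' (finite). If it is empty R = R'.
Otherwise let (l, ε) be the toggle. Choose f ∈ R \ R' with f l even (exists: replace an element with
odd c l by its partner), with minimal ε * f l, and among these with (dirs f).card maximal. Then
b = f + ε e_l ∈ R \ R' (b l odd), f = b - ε e_l. f is free in R: let g = f ± e_i ∈ R, f i even. g ∉ R'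
(else f ∈ R', as R' is closed). If i = l and g = f - ε e_l: g l is odd, its partner g - ε e_l = f - 2 ε e_l ∈ R \ R'
has smaller ε * coordinate: contradiction. If i ≠ l: g l = f l, dirs g = dirs f ∪ {i}: contradiction to
maximality. So X := R \ {b, f} is closed: a cell of X with face f is f ± e_i with f i even, so b; a cell g ∈ X
with face b, g = b ± e_i, b i even, i ≠ l: its face g - ε e_l = f ± e_i ∈ R is a coface of f: excluded.
`expand` (MK/Expand) with X, b, i := l, ε := -ε: c = b - ε e_l = f ∉ X, the other facets of b are in R (closed)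
and different from b, f. So FE S₀ (K X) (K R), and (X, R') is a slab step with fewer cells. S₀ = {F₀ q₀}:
F₀ q₀ ∈ K Z for R' ⊆ Z ⊆ R by `F0_mem` (MK/Skel): q₀ ∈ R' ⊆ Z, q₀ - e 4 ∉ R ⊇ Z.
`Col.excise`: induction on Col: for a slab step R, R' with X ∩ R = C ⊆ R': (X ∪ R) \ (X ∪ R') = R \ R',
so (X ∪ R, X ∪ R') is a slab step; X ∩ R' = C. -/

set_option autoImplicit false

namespace Pool.Agent.MKD

open Pool.Agent.MK

private theorem sm_app (δ : ℤ) (j k : Fin 5) : (δ • e j) k = if k = j then δ else 0 := by
  simp [e]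

private theorem add_app (c : P) (δ : ℤ) (j k : Fin 5) :
    (c + δ • e j) k = c k + if k = j then δ else 0 := by
  rw [Pi.add_apply, sm_app]

private theorem cl_step {X : Set P} (hX : Closed X) {q : P} (hq : q ∈ X) {k : Fin 5} {δ : ℤ}
    (hk : Odd (q k)) (hδ : δ = 1 ∨ δ = -1) : q + δ • e k ∈ X := by
  rcases hδ with rfl | rfl
  · rw [one_smul]; exact (hX q hq k hk).1
  · rw [neg_smul, one_smul, ← sub_eq_add_neg]; exact (hX q hq k hk).2

private theorem odd_unit {δ : ℤ} (hδ : δ = 1 ∨ δ = -1) : Odd δ := by
  rcases hδ with rfl | rfl <;> decide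

private theorem slab_aux (q₀ : P) : ∀ n : ℕ, ∀ R R' : Set P, SlabStep R R' → (R \ R').ncard = n →
    q₀ ∈ R' → q₀ - e 4 ∉ R → FE {F₀ q₀} (K R') (K R) := by
  intro n
  induction n using Nat.strong_induction_on with
  | _ n IH =>
  intro R R' hS hn h1 h2
  obtain ⟨hR, hR', hsub, hfin, l, ε, hε, htog⟩ := hS
  have hodd : Odd ε := odd_unit hε
  have hεε : ε * ε = 1 := by rcases hε with rfl | rfl <;> norm_num
  have hε' : (-ε) = 1 ∨ (-ε) = -1 := by rcases hε with rfl | rfl <;> norm_num
  by_cases hemp : R \ R' = ∅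
  · have : R = R' := by
      apply Set.Subset.antisymm _ hsub
      rwa [Set.sdiff_eq_empty] at hemp
    rw [this]
    exact Relation.EqvGen.refl _
  -- choose f
  obtain ⟨c0, hc0⟩ := Set.nonempty_iff_ne_empty.2 hemp
  have hne : {f ∈ R \ R' | Even (f l)}.Nonempty := by
    by_cases h : Even (c0 l)
    · exact ⟨c0, hc0, h⟩
    · have ho : Odd (c0 l) := by rwa [Int.not_even_iff_odd] at h
      refine ⟨c0 - ε • e l, (htog c0 hc0).2 ho, ?_⟩
      have : (c0 - ε • e l) l = c0 l - ε := by
        rw [Pi.sub_apply, sm_app, if_pos rfl]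
      rw [this]
      exact ho.sub_odd hodd
  obtain ⟨f, ⟨hfD, hfe⟩, hmin⟩ := Set.exists_min_image {f ∈ R \ R' | Even (f l)}
    (fun f => 10 * (ε * f l) - ((dirs f).card : ℤ)) (hfin.subset (Set.sep_subset _ _)) hne
  have hcard5 : ∀ g : P, ((dirs g).card : ℤ) ≤ 5 := by
    intro g
    have := Finset.card_le_univ (dirs g)
    simp only [Fintype.card_fin] at this
    exact_mod_cast this
  have hcard0 : ∀ g : P, (0 : ℤ) ≤ ((dirs g).card : ℤ) := fun g => Int.natCast_nonneg _
  obtain ⟨b, hb⟩ : ∃ b, b = f + ε • e l := ⟨_, rfl⟩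
  have hbD : b ∈ R \ R' := by rw [hb]; exact (htog f hfD).1 hfe
  have hbl : b l = f l + ε := by rw [hb, add_app, if_pos rfl]
  have hbodd : Odd (b l) := by rw [hbl]; exact hfe.add_odd hodd
  have hfb : f = b + (-ε) • e l := by
    rw [hb]; funext k; simp only [add_app]; split_ifs <;> ring
  -- f is free
  have hfree : ∀ (i : Fin 5) (δ : ℤ), (δ = 1 ∨ δ = -1) → Even (f i) → f + δ • e i ∈ R →
      f + δ • e i = b := by
    intro i δ hδ hei hg
    have hgodd : Odd ((f + δ • e i) i) := by
      rw [add_app, if_pos rfl]; exact hei.add_odd (odd_unit hδ)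
    have hgD : f + δ • e i ∈ R \ R' := by
      refine ⟨hg, fun hg' => ?_⟩
      have hδ' : (-δ) = 1 ∨ (-δ) = -1 := by rcases hδ with rfl | rfl <;> norm_num
      have := cl_step hR' hg' hgodd hδ'
      have h3 : f + δ • e i + (-δ) • e i = f := by
        funext k; simp only [add_app]; split_ifs <;> ring
      rw [h3] at this
      exact hfD.2 this
    by_cases hil : i = l
    · subst hil
      by_cases hde : δ = ε
      · rw [hde, hb]
      · exfalso
        have hde' : δ = -ε := by
          rcases hδ with h | h <;> rcases hε with h' | h'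
          · exact absurd (h.trans h'.symm) hde
          · rw [h, h']; norm_num
          · rw [h, h']
          · exact absurd (h.trans h'.symm) hde
        have h3 := (htog _ hgD).2 hgodd
        have h4 : (f + δ • e i - ε • e i) i = f i - 2 * ε := by
          rw [Pi.sub_apply, add_app, sm_app, if_pos rfl, if_pos rfl, hde']; ring
        have h5 : Even ((f + δ • e i - ε • e i) i) := by
          rw [h4]; exact hei.sub (even_two_mul ε)
        have h6 := hmin _ ⟨h3, h5⟩
        rw [h4] at h6
        have h7 := hcard5 f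
        have h8 := hcard0 (f + δ • e i - ε • e i)
        have h9 : ε * (f i - 2 * ε) = ε * f i - 2 := by
          rw [mul_sub, mul_left_comm, hεε]; ring
        rw [h9] at h6
        linarith [hcard5 (f + δ • e i - ε • e i)]
    · exfalso
      have h3 : (f + δ • e i) l = f l := by
        rw [add_app, if_neg (fun h => hil h.symm), add_zero]
      have h4 := hmin _ ⟨hgD, by rw [h3]; exact hfe⟩
      rw [h3] at h4
      have h5 : dirs (f + δ • e i) = insert i (dirs f) := by
        ext k
        simp only [dirs, Finset.mem_filter, Finset.mem_univ, true_and, Finset.mem_insert]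
        rw [add_app]
        by_cases hk : k = i
        · subst hk
          simp only [if_true, true_or, iff_true]
          exact hei.add_odd (odd_unit hδ)
        · simp [hk]
      have h6 : i ∉ dirs f := by
        simp only [dirs, Finset.mem_filter, Finset.mem_univ, true_and]
        rwa [Int.not_odd_iff_even]
      have h7 : (dirs (f + δ • e i)).card = (dirs f).card + 1 := by
        rw [h5, Finset.card_insert_of_notMem h6]
      rw [h7] at h4
      push_cast at h4
      linarith
  have hfneb : f ≠ b := by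
    intro h
    have := congrFun h l
    rw [hbl] at this
    rcases hε with rfl | rfl <;> omega
  obtain ⟨X, hXdef⟩ : ∃ X : Set P, X = R \ {b, f} := ⟨_, rfl⟩
  have memX : ∀ c, c ∈ X ↔ c ∈ R ∧ c ≠ b ∧ c ≠ f := by
    intro c; rw [hXdef]; simp
  have hXcl' : ∀ c ∈ X, ∀ i, Odd (c i) → ∀ δ : ℤ, (δ = 1 ∨ δ = -1) → c + δ • e i ∈ X := by
    intro c hc i hi δ hδ
    obtain ⟨hcR, hcb, hcf⟩ := (memX c).1 hc
    have hδ' : (-δ) = 1 ∨ (-δ) = -1 := by rcases hδ with rfl | rfl <;> norm_num
    rw [memX]
    have hback : ∀ d, c + δ • e i = d → c = d + (-δ) • e i := by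
      intro d h; rw [← h]; funext k; simp only [add_app]; split_ifs <;> ring
    refine ⟨cl_step hR hcR hi hδ, ?_, ?_⟩
    · intro h
      have hc' := hback b h
      have hbi : Even (b i) := by
        rw [← h, add_app, if_pos rfl]; exact hi.add_odd (odd_unit hδ)
      have hil : i ≠ l := by
        rintro rfl
        exact (Int.not_odd_iff_even.2 hbi) hbodd
      have hfi : f i = b i := by rw [hb, add_app, if_neg hil, add_zero]
      have hcl : Odd (c l) := by
        rw [hc', add_app, if_neg (Ne.symm hil), add_zero]; exact hbodd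
      have h3 := cl_step hR hcR hcl hε'
      have h4 : c + (-ε) • e l = f + (-δ) • e i := by
        rw [hc', hfb]; funext k; simp only [add_app]; ring
      rw [h4] at h3
      have h5 := hfree i (-δ) hδ' (by rw [hfi]; exact hbi) h3
      have h6 := congrFun h5 l
      rw [add_app, if_neg (Ne.symm hil), add_zero, hbl] at h6
      rcases hε with rfl | rfl <;> omega
    · intro h
      have hc' := hback f h
      have hfi : Even (f i) := by
        rw [← h, add_app, if_pos rfl]; exact hi.add_odd (odd_unit hδ)
      rw [hc'] at hcb hcR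
      exact hcb (hfree i (-δ) hδ' hfi hcR)
  have hXcl : Closed X := by
    intro c hc i hi
    refine ⟨?_, ?_⟩
    · have := hXcl' c hc i hi 1 (Or.inl rfl)
      rwa [one_smul] at this
    · have := hXcl' c hc i hi (-1) (Or.inr rfl)
      rwa [neg_smul, one_smul, ← sub_eq_add_neg] at this
  have hU : X ∪ {b, b + (-ε) • e l} = R := by
    rw [← hfb, hXdef]
    ext c
    simp only [Set.mem_union, Set.mem_sdiff, Set.mem_insert_iff, Set.mem_singleton_iff]
    constructor
    · rintro (h | rfl | rfl)
      · exact h.1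
      · exact hbD.1
      · exact hfD.1
    · intro h
      by_cases h' : c = b ∨ c = f
      · exact Or.inr h'
      · exact Or.inl ⟨h, h'⟩
  have hq0X : q₀ ∈ X := by
    rw [memX]
    refine ⟨hsub h1, ?_, ?_⟩
    · rintro rfl; exact hbD.2 h1
    · rintro rfl; exact hfD.2 h1
  have hXR : X ⊆ R := by rw [hXdef]; exact Set.sdiff_subset
  have hE : FE {F₀ q₀} (K X) (K R) := by
    have := expand hXcl (b := b) (i := l) (ε := -ε) hε' hbodd ?_ ?_ (S₀ := {F₀ q₀}) ?_ ?_
    · rwa [hU] at this
    · rw [← hfb, memX]; tauto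
    · intro j hj δ hδ hor
      rw [memX]
      refine ⟨cl_step hR hbD.1 hj hδ, ?_, ?_⟩
      · intro h
        have := congrFun h j
        rw [add_app, if_pos rfl] at this
        rcases hδ with rfl | rfl <;> omega
      · intro h
        rw [hfb] at h
        have h3 := congrFun h j
        rw [add_app, add_app, if_pos rfl] at h3
        by_cases hjl : j = l
        · rw [if_pos hjl] at h3
          rcases hor with h4 | h4
          · exact h4 hjl
          · exact h4 (by linarith)
        · rw [if_neg hjl] at h3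
          rcases hδ with rfl | rfl <;> omega
    · rw [Set.singleton_subset_iff]
      exact F0_mem ⟨hq0X, fun h => h2 (hXR h)⟩
    · rw [Set.singleton_subset_iff, hU]
      exact F0_mem ⟨hXR hq0X, h2⟩
  have hR'X : R' ⊆ X := by
    intro c hc
    rw [memX]
    refine ⟨hsub hc, ?_, ?_⟩
    · rintro rfl; exact hbD.2 hc
    · rintro rfl; exact hfD.2 hc
  have hfin' : (X \ R').Finite := hfin.subset (Set.sdiff_subset_sdiff_left hXR)
  have hS' : SlabStep X R' := by
    refine ⟨hXcl, hR', hR'X, hfin', l, ε, hε, ?_⟩
    intro c hc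
    obtain ⟨hcR, hcb, hcf⟩ := (memX c).1 hc.1
    have hcD : c ∈ R \ R' := ⟨hcR, hc.2⟩
    constructor
    · intro hev
      have h3 := (htog c hcD).1 hev
      refine ⟨(memX _).2 ⟨h3.1, ?_, ?_⟩, h3.2⟩
      · intro h
        apply hcf
        rw [hb] at h
        exact add_right_cancel h
      · intro h
        have h4 := congrFun h l
        rw [add_app, if_pos rfl] at h4
        rw [← h4] at hfe
        exact (Int.not_odd_iff_even.2 hfe) (hev.add_odd hodd)
    · intro hod
      have h3 := (htog c hcD).2 hod
      refine ⟨(memX _).2 ⟨h3.1, ?_, ?_⟩, h3.2⟩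
      · intro h
        have h4 := congrFun h l
        rw [Pi.sub_apply, sm_app, if_pos rfl] at h4
        rw [← h4] at hbodd
        exact (Int.not_odd_iff_even.2 (hod.sub_odd hodd)) hbodd
      · intro h
        apply hcb
        rw [hb, ← h]
        funext k
        simp
  have hlt : (X \ R').ncard < n := by
    rw [← hn]
    apply Set.ncard_lt_ncard _ hfin
    refine ⟨Set.sdiff_subset_sdiff_left hXR, fun h => ?_⟩
    have := h hbD
    exact ((memX b).1 this.1).2.1 rfl
  exact Relation.EqvGen.trans _ _ _ (IH _ hlt X R' hS' rfl h1 (fun h => h2 (hXR h))) hE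

theorem slab_fe {R R' : Set P} (h : SlabStep R R') (q₀ : P) (h1 : q₀ ∈ R') (h2 : q₀ - e 4 ∉ R) :
    FE {F₀ q₀} (K R') (K R) :=
  slab_aux q₀ _ R R' h rfl h1 h2

theorem Col.subset {R C : Set P} (h : Col R C) : C ⊆ R := by
  induction h with
  | refl R => exact subset_rfl
  | step h _ ih => exact ih.trans h.2.2.1

theorem Col.excise {X R C : Set P} (hX : Closed X) (hC : X ∩ R = C) (h : Col R C) (q₀ : P)
    (h1 : q₀ ∈ X) (h2 : q₀ - e 4 ∉ X ∪ R) : FE {F₀ q₀} (K X) (K (X ∪ R)) := by
  induction h with
  | refl R =>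
    have : X ∪ R = X := by
      rw [Set.union_eq_left]
      rw [← hC]
      exact Set.inter_subset_left
    rw [this]
    exact Relation.EqvGen.refl _
  | @step R R' C h h' ih =>
    have hCR' := Col.subset h'
    have hC' : X ∩ R' = C := by
      apply Set.Subset.antisymm
      · rw [← hC]
        exact Set.inter_subset_inter_right X h.2.2.1
      · intro c hc
        exact ⟨(hC ▸ hc : c ∈ X ∩ R).1, hCR' hc⟩
    have hsub : X ∪ R' ⊆ X ∪ R := Set.union_subset_union_right X h.2.2.1
    have ih' := ih hC' (fun h => h2 (hsub h))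
    have hdiff : (X ∪ R) \ (X ∪ R') = R \ R' := by
      ext c
      constructor
      · rintro ⟨h3 | h3, h4⟩
        · exact absurd (Or.inl h3) h4
        · exact ⟨h3, fun h5 => h4 (Or.inr h5)⟩
      · rintro ⟨h3, h4⟩
        refine ⟨Or.inr h3, ?_⟩
        rintro (h5 | h5)
        · exact h4 (hCR' (hC ▸ ⟨h5, h3⟩))
        · exact h4 h5
    obtain ⟨a1, a2, a3, a4, l, ε, hε, ht⟩ := h
    have hstep : SlabStep (X ∪ R) (X ∪ R') :=
      ⟨closed_union hX a1, closed_union hX a2, hsub, by rw [hdiff]; exact a4, l, ε, hε, by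
        rw [hdiff]; exact ht⟩
    exact Relation.EqvGen.trans _ _ _ ih' (slab_fe hstep q₀ (Or.inl h1) h2)

end Pool.Agent.MKD
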