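import Pool.Agent.MKD.Cells
import Pool.Agent.MK.Asm

/-! Module MKD/Final: the family of complexes (part D). -/

set_option autoImplicit false

namespace Pool.Agent.MKD

open Pool.Agent.MK

theorem exists_fam (m : ℕ) (rels : List (List (ℕ × Bool)))
    (h : ∀ r ∈ rels, ∀ x ∈ r, 1 ≤ x.1 ∧ x.1 ≤ m) :
    ∃ (q₀ v₀ : P) (X : ℕ → List (ℕ × Bool) → Set P) (bound : List (ℕ × Bool) → ℕ) (c : ℕ → P)
      (cells : ℕ → List (ℕ × Bool) → List (List ℕ)), MK.Fam m rels q₀ v₀ X bound c cells := by
  obtain ⟨cells, hc, hr⟩ := exists_cells m rels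
  exact ⟨0, 0, fun _ w => fam m rels w, fun _ => 0, fun _ => shf, fun _ w => cells w,
    { fin := fun _ w _ _ => (fam_closed m rels w).2.1
      closed := fun _ w _ _ => (fam_closed m rels w).1
      dim := fun _ w _ _ => (fam_closed m rels w).2.2.1
      conn := fun _ w _ _ => (fam_closed m rels w).2.2.2.1
      marks := fun _ w _ _ => (fam_closed m rels w).2.2.2.2
      fe := fun _ w _ w' _ _ _ _ hw => fam_fe m rels w w' hw
      flat := fun _ w hw _ G _ y h1 h2 h3 => fam_label m rels w h hw y h1 h2 h3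
      cob := fun _ w hw _ hy G _ Λ hΛ => fam_cob m rels w h hw hy Λ hΛ
      rep := fun _ w _ _ => hr w
      comp := hc.comp Computable.snd
      comp_bound := Computable.const 0
      comp_pos := Computable.const _ }⟩

end Pool.Agent.MKD
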