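import Pool.Agent.MKD.Geo

/-! Module MKD/GeoCpx: the pieces are finite complexes of dimension ≤ 2.

Write z = c 2. Changing a coordinate i with c i odd by ± 1 (`e i j = if j = i then 1 else 0`; use
`fin_cases i` and simp to get the coordinates of c ± e i). For i = 2 (z odd): z / 2 = j, (z + 1) / 2 = j + 1,
(z - 1) / 2 = j, and the interval [2 j, 2 j + 2] contains both. For i ≠ 2 the height is unchanged. All goals
are linear after splitting the disjunctions (`omega`); the pieces with `cross` have z even. Dimension: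
(dirs c).card = ∑ i, if Odd (c i) then 1 else 0 (`Finset.card_filter`, `Fin.sum_univ_five`), or show that
three of the five coordinates are even in each case. Finiteness: contained in a box
(`Set.Finite.subset` of `Set.Finite.pi'` / `Set.finite_Icc` in `Fin 5 → ℤ`; crossing pages are ≤ m). -/

set_option autoImplicit false

namespace Pool.Agent.MKD

open Pool.Agent.MK

private def C2 (F : ℤ → ℤ → Prop) : Prop :=
  ∀ x y, F x y → (x % 2 = 1 → F (x + 1) y ∧ F (x - 1) y) ∧ (y % 2 = 1 → F x (y + 1) ∧ F x (y - 1))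

private def C1 (G : ℤ → Prop) : Prop := ∀ z, G z → z % 2 = 1 → G (z + 1) ∧ G (z - 1)

private theorem cprod67 {F N : ℤ → ℤ → Prop} {G : ℤ → Prop} (hF : C2 F) (hN : C2 N) (hG : C1 G) :
    Closed {c | F (c 0) (c 1) ∧ N (c 4) (c 3) ∧ G (c 2)} := by
  rintro c ⟨h1, h2, h3⟩ i hi
  have ho : c i % 2 = 1 := Int.odd_iff.1 hi
  fin_cases i
  · have := (hF _ _ h1).1 ho
    exact ⟨by simpa [e] using ⟨this.1, h2, h3⟩, by simpa [e] using ⟨this.2, h2, h3⟩⟩
  · have := (hF _ _ h1).2 ho
    exact ⟨by simpa [e] using ⟨this.1, h2, h3⟩, by simpa [e] using ⟨this.2, h2, h3⟩⟩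
  · have := hG _ h3 ho
    exact ⟨by simpa [e] using ⟨h1, h2, this.1⟩, by simpa [e] using ⟨h1, h2, this.2⟩⟩
  · have := (hN _ _ h2).2 ho
    exact ⟨by simpa [e] using ⟨h1, this.1, h3⟩, by simpa [e] using ⟨h1, this.2, h3⟩⟩
  · have := (hN _ _ h2).1 ho
    exact ⟨by simpa [e] using ⟨h1, this.1, h3⟩, by simpa [e] using ⟨h1, this.2, h3⟩⟩

private theorem cor67 {A B : P → Prop} (hA : Closed {c | A c}) (hB : Closed {c | B c}) :
    Closed {c | A c ∨ B c} := closed_union hA hB

private theorem cex67 {ι : Type} {A : ι → P → Prop} (h : ∀ s, Closed {c | A s c}) :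
    Closed {c | ∃ s, A s c} := by
  rintro c ⟨s, hs⟩ i hi
  exact ⟨⟨s, (h s c hs i hi).1⟩, ⟨s, (h s c hs i hi).2⟩⟩

private theorem ccongr67 {A B : P → Prop} (hA : Closed {c | A c}) (h : ∀ c, A c ↔ B c) :
    Closed {c | B c} := by
  have : {c | A c} = {c | B c} := by
    ext c
    exact h c
  rw [← this]
  exact hA

private theorem cat67 (T : Str) (β : Bool) : C1 (T.at_ β) := by
  intro z h hz
  rcases h with ⟨h1, h2, h3⟩ | ⟨h1, -⟩
  · constructor
    · right
      have : (z + 1) / 2 - 1 = z / 2 := by omega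
      rw [this]
      exact ⟨by omega, h1, h2, h3⟩
    · left
      have : (z - 1) / 2 = z / 2 := by omega
      rw [this]
      exact ⟨h1, h2, h3⟩
  · omega

private theorem cnu67 (k : Bool) : C2 (nuP k) := by
  intro u v h
  unfold nuP at *
  cases k <;> simp at * <;> omega

private theorem cen67 (k : Bool) : C2 (en k) := by
  intro u v h
  unfold en at *
  cases k <;> simp at * <;> omega

private theorem carc67 (s : ℕ) : C2 (arc s) := by
  intro u v h
  unfold arc at *
  omega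

private theorem crect67 (s : ℕ) : C2 (rect s) := by
  intro u v h
  unfold rect at *
  omega

private theorem clad67 (m : ℕ) : C2 (lad m) := by
  intro u v h
  unfold lad at *
  omega

private theorem ccross67 (T : Str) (s : ℕ) : C1 (T.cross s) := by
  intro z h hz
  have := h.1
  omega

theorem closed_disc (m : ℕ) (k : Bool) (T : Str) (h : T.OK m) : Closed (disc k T) := by
  have hrt : rt k = -4 ∨ rt k = -2 := by
    cases k <;> simp [rt]
  refine cor67 ?_ (cor67 ?_ (cor67 ?_ (cor67 ?_ (cor67 ?_ (cor67 ?_ (cor67 ?_ ?_))))))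
  · refine ccongr67 (cprod67 (F := fun x y => x = 0 ∧ y = 0) ?_ (cnu67 k) (cat67 T false)) ?_
    · intro x y hxy
      constructor <;> intro <;> omega
    · intro c
      tauto
  · refine ccongr67 (cprod67 (F := fun x y => x = 0 ∧ y = 2) ?_ (cnu67 k) (cat67 T true)) ?_
    · intro x y hxy
      constructor <;> intro <;> omega
    · intro c
      tauto
  · refine ccongr67 (cprod67 (F := fun x y => y = 0 ∧ rt k ≤ x ∧ x ≤ 0)
      (G := fun z => 2 * T.lo ≤ z ∧ z ≤ 2 * T.hi) ?_ (cen67 k) ?_) ?_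
    · intro x y hxy
      constructor <;> intro <;> omega
    · intro z hz hz2
      constructor <;> constructor <;> omega
    · intro c
      tauto
  · refine ccongr67 (cprod67 (F := fun x y => x = 0 ∧ 0 ≤ y ∧ y ≤ 2) ?_ (cen67 k) (cat67 T true)) ?_
    · intro x y hxy
      constructor <;> intro <;> omega
    · intro c
      tauto
  · refine ccongr67 (cprod67 (F := fun x y => x = rt k ∧ y = 0)
      (G := fun z => 2 * T.lo ≤ z ∧ z ≤ 2 * T.hi) ?_ (cnu67 k) ?_) ?_
    · intro x y hxy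
      constructor <;> intro <;> omega
    · intro z hz hz2
      constructor <;> constructor <;> omega
    · intro c
      tauto
  · refine ccongr67 (cprod67 (F := fun x y => y = 0 ∧ rt k ≤ x ∧ x ≤ 0)
      (G := fun z => z = 2 * T.lo ∨ z = 2 * T.hi) ?_ (cnu67 k) ?_) ?_
    · intro x y hxy
      constructor <;> intro <;> omega
    · intro z hz hz2
      omega
    · intro c
      tauto
  · refine cex67 fun s => ?_
    refine ccongr67 (cprod67 (carc67 s) (cnu67 k) (ccross67 T s)) ?_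
    intro c
    tauto
  · refine cex67 fun s => ?_
    refine ccongr67 (cprod67 (crect67 s) (cen67 k) (ccross67 T s)) ?_
    intro c
    tauto

theorem closed_Yp (m : ℕ) (lo hi : ℤ) : Closed (Yp m lo hi) := by
  refine ccongr67 (cprod67 (N := fun u v => u = 0 ∧ v = 0)
    (G := fun z => 2 * lo ≤ z ∧ z ≤ 2 * hi) (clad67 m) ?_ ?_) ?_
  · intro x y hxy
    constructor <;> intro <;> omega
  · intro z hz hz2
    constructor <;> constructor <;> omega
  · intro c
    tauto

private theorem dcard67 (c : P) :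
    ((dirs c).card : ℤ) = c 0 % 2 + c 1 % 2 + c 2 % 2 + c 3 % 2 + c 4 % 2 := by
  have h : ∀ x : ℤ, ((if Odd x then 1 else 0 : ℕ) : ℤ) = x % 2 := by
    intro x
    by_cases hx : Odd x
    · rw [if_pos hx, Int.odd_iff.1 hx]
      rfl
    · rw [if_neg hx]
      rw [Int.not_odd_iff_even, Int.even_iff] at hx
      rw [hx]
      rfl
  unfold dirs
  rw [Finset.card_filter, Fin.sum_univ_five]
  push_cast
  have h' : ∀ x : ℤ, (if Odd x then (1 : ℤ) else 0) = x % 2 := by
    intro x
    rw [← h x]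
    split_ifs <;> rfl
  simp only [h']

theorem card_disc (m : ℕ) (k : Bool) (T : Str) (h : T.OK m) : ∀ c ∈ disc k T, (dirs c).card ≤ 2 := by
  intro c hc
  have hcard := dcard67 c
  have hrt : rt k = -4 ∨ rt k = -2 := by
    cases k <;> simp [rt]
  have hnu : nuP k (c 4) (c 3) → c 3 % 2 + c 4 % 2 ≤ 1 := by
    unfold nuP
    cases k <;> simp <;> omega
  have hen : en k (c 4) (c 3) → c 3 % 2 + c 4 % 2 = 0 := by
    unfold en
    cases k <;> simp <;> omega
  rcases hc with hc | hc | hc | hc | hc | hc | hc | hc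
  · obtain ⟨h1, h2, h3, -⟩ := hc
    have := hnu h3
    omega
  · obtain ⟨h1, h2, h3, -⟩ := hc
    have := hnu h3
    omega
  · obtain ⟨h1, h2, h3, h4, h5⟩ := hc
    have := hen h1
    omega
  · obtain ⟨h1, h2, h3, h4, h5⟩ := hc
    have := hen h1
    omega
  · obtain ⟨h1, h2, h3, h4, h5⟩ := hc
    have := hnu h3
    omega
  · obtain ⟨h1, h2, h3, h4, h5⟩ := hc
    have := hnu h4
    omega
  · obtain ⟨s, h1, h2, h3⟩ := hc
    have := hnu h3
    have h1' := h1.1
    unfold arc at h2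
    omega
  · obtain ⟨s, h1, h2, h3⟩ := hc
    have := hen h3
    have h1' := h1.1
    unfold rect at h2
    omega

theorem card_Yp (m : ℕ) (lo hi : ℤ) : ∀ c ∈ Yp m lo hi, (dirs c).card ≤ 2 := by
  rintro c ⟨h1, h2, h3, h4, h5⟩
  have hcard := dcard67 c
  unfold lad at h1
  omega

private theorem fbox67 (A : Set P) (B : ℤ)
    (h : ∀ c ∈ A, ((-B ≤ c 0 ∧ c 0 ≤ B) ∧ (-B ≤ c 1 ∧ c 1 ≤ B) ∧ (-B ≤ c 2 ∧ c 2 ≤ B)) ∧
      (-B ≤ c 3 ∧ c 3 ≤ B) ∧ (-B ≤ c 4 ∧ c 4 ≤ B)) : A.Finite := by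
  refine (Set.finite_Icc (fun _ => -B : P) (fun _ => B)).subset ?_
  intro c hc
  obtain ⟨⟨h0, h1, h2⟩, h3, h4⟩ := h c hc
  constructor
  · intro i
    fin_cases i
    · exact h0.1
    · exact h1.1
    · exact h2.1
    · exact h3.1
    · exact h4.1
  · intro i
    fin_cases i
    · exact h0.2
    · exact h1.2
    · exact h2.2
    · exact h3.2
    · exact h4.2

theorem finite_disc (m : ℕ) (k : Bool) (T : Str) (h : T.OK m) : (disc k T).Finite := by
  refine fbox67 _ (4 + 2 * m + 2 * |T.lo| + 2 * |T.hi|) ?_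
  intro c hc
  have hlo1 := neg_abs_le T.lo
  have hlo2 := le_abs_self T.lo
  have hhi1 := neg_abs_le T.hi
  have hhi2 := le_abs_self T.hi
  have hl0 := abs_nonneg T.lo
  have hh0 := abs_nonneg T.hi
  generalize |T.lo| = L at *
  generalize |T.hi| = H at *
  have hrt : rt k = -4 ∨ rt k = -2 := by
    cases k <;> simp [rt]
  have hnu : nuP k (c 4) (c 3) → 0 ≤ c 3 ∧ c 3 ≤ 2 ∧ 0 ≤ c 4 ∧ c 4 ≤ 2 := by
    unfold nuP
    cases k <;> simp <;> omega
  have hen : en k (c 4) (c 3) → 0 ≤ c 3 ∧ c 3 ≤ 2 ∧ 0 ≤ c 4 ∧ c 4 ≤ 2 := by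
    unfold en
    cases k <;> simp <;> omega
  have hat : ∀ β, T.at_ β (c 2) → 2 * T.lo ≤ c 2 ∧ c 2 ≤ 2 * T.hi := by
    rintro β (⟨h1, h2, -⟩ | ⟨h1, h2, h3, -⟩) <;> omega
  have hcr : ∀ s, T.cross s (c 2) → s ≤ m ∧ 2 * T.lo ≤ c 2 ∧ c 2 ≤ 2 * T.hi := by
    rintro s ⟨h1, h2⟩
    have h3 := h.le (c 2 / 2)
    have h4 := h.out (c 2 / 2)
    by_cases h5 : c 2 / 2 ≤ T.lo ∨ T.hi ≤ c 2 / 2
    · have := h4 h5
      omega
    · omega
  rcases hc with hc | hc | hc | hc | hc | hc | hc | hc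
  · obtain ⟨h1, h2, h3, h4⟩ := hc
    have := hnu h3
    have := hat _ h4
    omega
  · obtain ⟨h1, h2, h3, h4⟩ := hc
    have := hnu h3
    have := hat _ h4
    omega
  · obtain ⟨h1, h2, h3, h4, h5⟩ := hc
    have := hen h1
    omega
  · obtain ⟨h1, h2, h3, h4, h5⟩ := hc
    have := hen h1
    have := hat _ h5
    omega
  · obtain ⟨h1, h2, h3, h4, h5⟩ := hc
    have := hnu h3
    omega
  · obtain ⟨h1, h2, h3, h4, h5⟩ := hc
    have := hnu h4
    omega
  · obtain ⟨s, h1, h2, h3⟩ := hc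
    have := hnu h3
    have := hcr s h1
    unfold arc at h2
    omega
  · obtain ⟨s, h1, h2, h3⟩ := hc
    have := hen h3
    have := hcr s h1
    unfold rect at h2
    omega

theorem finite_Yp (m : ℕ) (lo hi : ℤ) : (Yp m lo hi).Finite := by
  refine fbox67 _ (4 + 2 * m + 2 * |lo| + 2 * |hi|) ?_
  rintro c ⟨h1, h2, h3, h4, h5⟩
  have hlo1 := neg_abs_le lo
  have hlo2 := le_abs_self lo
  have hhi1 := neg_abs_le hi
  have hhi2 := le_abs_self hi
  have hl0 := abs_nonneg lo
  have hh0 := abs_nonneg hi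
  generalize |lo| = L at *
  generalize |hi| = H at *
  unfold lad at h1
  omega

theorem closed_XX (m : ℕ) (rs : List Str) (T : Str) (h : Adm m rs T) : Closed (XX m rs T) := by
  refine closed_union (closed_union (closed_Yp m T.lo T.hi) ?_) (closed_disc m true T h.okT)
  rintro c ⟨r, hr, hc⟩ i hi
  have := closed_disc m false r (h.okr r hr) c hc i hi
  exact ⟨⟨r, hr, this.1⟩, ⟨r, hr, this.2⟩⟩

theorem card_XX (m : ℕ) (rs : List Str) (T : Str) (h : Adm m rs T) :
    ∀ c ∈ XX m rs T, (dirs c).card ≤ 2 := by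
  rintro c ((hc | ⟨r, hr, hc⟩) | hc)
  · exact card_Yp m T.lo T.hi c hc
  · exact card_disc m false r (h.okr r hr) c hc
  · exact card_disc m true T h.okT c hc

theorem finite_XX (m : ℕ) (rs : List Str) (T : Str) (h : Adm m rs T) : (XX m rs T).Finite := by
  refine ((finite_Yp m T.lo T.hi).union ?_).union (finite_disc m true T h.okT)
  refine (rs.finite_toSet.biUnion (t := fun r => disc false r)
    fun r hr => finite_disc m false r (h.okr r hr)).subset ?_
  rintro c ⟨r, hr, hc⟩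
  exact Set.mem_biUnion hr hc

/-- The cells have nonnegative `u`, and the origin is a cell. -/
theorem zero_mem (m : ℕ) (rs : List Str) (T : Str) (h : Adm m rs T) : (0 : P) ∈ XX m rs T := by
  left
  left
  have h0 := h.zero
  refine ⟨Or.inl ⟨rfl, ?_, ?_⟩, rfl, rfl, ?_, ?_⟩
  · show (-4 : ℤ) ≤ 0
    norm_num
  · show (0 : ℤ) ≤ 2 * m
    omega
  · show 2 * T.lo ≤ (0 : ℤ)
    omega
  · show (0 : ℤ) ≤ 2 * T.hi
    omega

private theorem udisc67 (k : Bool) (T : Str) : ∀ c ∈ disc k T, 0 ≤ c 4 := by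
  intro c hc
  have hnu : nuP k (c 4) (c 3) → 0 ≤ c 4 := by
    unfold nuP
    cases k <;> simp <;> omega
  have hen : en k (c 4) (c 3) → 0 ≤ c 4 := by
    unfold en
    cases k <;> simp <;> omega
  rcases hc with hc | hc | hc | hc | hc | hc | hc | hc
  · exact hnu hc.2.2.1
  · exact hnu hc.2.2.1
  · exact hen hc.1
  · exact hen hc.1
  · exact hnu hc.2.2.1
  · exact hnu hc.2.2.2.1
  · obtain ⟨s, h1, h2, h3⟩ := hc
    exact hnu h3
  · obtain ⟨s, h1, h2, h3⟩ := hc
    exact hen h3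

theorem u_nonneg (m : ℕ) (rs : List Str) (T : Str) : ∀ c ∈ XX m rs T, 0 ≤ c 4 := by
  rintro c ((hc | ⟨r, hr, hc⟩) | hc)
  · have := hc.2.1
    omega
  · exact udisc67 false r c hc
  · exact udisc67 true T c hc

end Pool.Agent.MKD
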