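import Pool.Agent.MKD.DiscHol
import Pool.Agent.MKD.GeoCpx

/-! Module MKD/AllCob: every flat labelling of XX.

By `gauge` (X = XX, lo = T.lo, hi = T.hi) we may assume Λ q = std y q on the edges of Yp (Λ' = gau A Λ; Flat: flat_gau;
Cob: cob_gau). The edges of a disc with q 3 = q 4 = 0 lie in Yp: pieces 1, 2, 5, 6, 7 with u = v = 0 (r.lo ≥ T.lo
etc.; arc s in the ladder as s ≤ m). `triv_of_flat` for the discs gives Triv. If y s = 1 for s ≤ m then
std y q = 1 on the edges of Yp (the rungs of the ladder are at x = 2 s, s ≤ m), and `pot_of_flat` gives potentials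
ψ_D on the discs, equal to 1 in the base. Define ψ p = 1 if p 3 = 0 and p 4 = 0; otherwise ψ_r p if p is in the disc
of a relator r (unique: the level intervals are disjoint, Adm.disj), otherwise ψ_T p. A vertex outside the base
which lies in disc false r is not in disc true T (v = 0, u > 0 is not on the normal path of T). Each edge of XX is
in Yp or in a disc, its ends are then in this disc. -/

set_option autoImplicit false

namespace Pool.Agent.MKD

open Pool.Agent.MK

private theorem lev27 {m : ℕ} {k : Bool} {S : Str} (hS : S.OK m) {c : P} (hc : c ∈ disc k S) :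
    2 * S.lo ≤ c 2 ∧ c 2 ≤ 2 * S.hi := by
  have hat : ∀ β, S.at_ β (c 2) → 2 * S.lo ≤ c 2 ∧ c 2 ≤ 2 * S.hi := by
    rintro β (⟨h1, h2, -⟩ | ⟨h1, h2, h3, -⟩) <;> omega
  have hcr : ∀ s, S.cross s (c 2) → 2 * S.lo ≤ c 2 ∧ c 2 ≤ 2 * S.hi := by
    rintro s ⟨h1, h2⟩
    have h4 := hS.out (c 2 / 2)
    by_cases h5 : c 2 / 2 ≤ S.lo ∨ S.hi ≤ c 2 / 2
    · have := h4 h5
      omega
    · omega
  have hlt := hS.lt
  rcases hc with hc | hc | hc | hc | hc | hc | hc | hc
  · exact hat _ hc.2.2.2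
  · exact hat _ hc.2.2.2
  · exact hc.2.2.2.2
  · exact hat _ hc.2.2.2.2
  · exact hc.2.2.2
  · rcases hc.2.2.2.2 with h | h <;> omega
  · obtain ⟨s, h1, -⟩ := hc
    exact hcr s h1
  · obtain ⟨s, h1, -⟩ := hc
    exact hcr s h1

private theorem nor27 {k : Bool} {S : Str} {c : P} (hc : c ∈ disc k S) :
    nuP k (c 4) (c 3) ∨ en k (c 4) (c 3) := by
  rcases hc with hc | hc | hc | hc | hc | hc | hc | hc
  · exact Or.inl hc.2.2.1
  · exact Or.inl hc.2.2.1
  · exact Or.inr hc.1
  · exact Or.inr hc.1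
  · exact Or.inl hc.2.2.1
  · exact Or.inl hc.2.2.2.1
  · obtain ⟨s, -, -, h⟩ := hc
    exact Or.inl h
  · obtain ⟨s, -, -, h⟩ := hc
    exact Or.inr h

private theorem base27 {m : ℕ} {k : Bool} {S : Str} {lo hi : ℤ} (hS : S.OK m) (hlo : lo ≤ S.lo)
    (hhi : S.hi ≤ hi) {c : P} (hc : c ∈ disc k S) (h3 : c 3 = 0) (h4 : c 4 = 0) :
    c ∈ Yp m lo hi := by
  have hlev := lev27 hS hc
  have hen : ¬ en k (c 4) (c 3) := by
    rintro ⟨h, -⟩
    omega
  have hrt : rt k = -4 ∨ rt k = -2 := by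
    cases k <;> simp [rt]
  refine ⟨?_, h4, h3, by omega, by omega⟩
  rcases hc with hc | hc | hc | hc | hc | hc | hc | hc
  · obtain ⟨h1, h2, -⟩ := hc
    left
    omega
  · obtain ⟨h1, h2, -⟩ := hc
    right
    left
    omega
  · exact absurd hc.1 hen
  · exact absurd hc.1 hen
  · obtain ⟨h1, h2, -⟩ := hc
    left
    omega
  · obtain ⟨h1, h2, h5, -⟩ := hc
    left
    omega
  · obtain ⟨s, ⟨-, h1⟩, h2, -⟩ := hc
    have h5 := hS.le (c 2 / 2)
    unfold arc at h2
    unfold lad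
    omega
  · obtain ⟨s, -, -, h⟩ := hc
    exact absurd h hen

private theorem odd27 {q : P} {i : Fin 5} (h : dirs q = {i}) : Odd (q i) := by
  have h1 : i ∈ dirs q := by rw [h]; exact Finset.mem_singleton_self i
  simpa [dirs] using h1

private theorem even27 {q : P} {i j : Fin 5} (h : dirs q = {i}) (hj : j ≠ i) : ¬ Odd (q j) := by
  intro h1
  have h2 : j ∈ dirs q := by simp [dirs, h1]
  rw [h, Finset.mem_singleton] at h2
  exact hj h2

private theorem dirs27_add {q : P} {i : Fin 5} (h : dirs q = {i}) : dirs (q + e i) = ∅ := by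
  rw [Finset.eq_empty_iff_forall_notMem]
  intro j hj
  have hj' : Odd ((q + e i) j) := by simpa [dirs] using hj
  rw [Pi.add_apply] at hj'
  by_cases hji : j = i
  · subst hji
    have h1 := odd27 h
    simp only [e, if_true] at hj'
    rw [Int.odd_iff] at h1 hj'
    omega
  · have h1 := even27 h hji
    simp only [e, hji, if_false, add_zero] at hj'
    exact h1 hj'

private theorem dirs27_sub {q : P} {i : Fin 5} (h : dirs q = {i}) : dirs (q - e i) = ∅ := by
  rw [Finset.eq_empty_iff_forall_notMem]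
  intro j hj
  have hj' : Odd ((q - e i) j) := by simpa [dirs] using hj
  rw [Pi.sub_apply] at hj'
  by_cases hji : j = i
  · subst hji
    have h1 := odd27 h
    simp only [e, if_true] at hj'
    rw [Int.odd_iff] at h1 hj'
    omega
  · have h1 := even27 h hji
    simp only [e, hji, if_false, sub_zero] at hj'
    exact h1 hj'

private theorem flat27_mono {X Y : Set P} (hXY : X ⊆ Y) {Γ : Type} [Group Γ] {Λ : P → Γ}
    (h : Flat Y Λ) : Flat X Λ := fun q hq => h q (hXY hq)

private theorem uniq27 {rs : List Str} (hd : rs.Pairwise (fun r r' => r.hi < r'.lo)) :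
    ∀ r ∈ rs, ∀ r' ∈ rs, r = r' ∨ r.hi < r'.lo ∨ r'.hi < r.lo := by
  induction rs with
  | nil => intro r hr; simp at hr
  | cons a l ih =>
    rw [List.pairwise_cons] at hd
    intro r hr r' hr'
    rw [List.mem_cons] at hr hr'
    rcases hr with rfl | hr
    · rcases hr' with rfl | hr'
      · exact Or.inl rfl
      · exact Or.inr (Or.inl (hd.1 r' hr'))
    · rcases hr' with rfl | hr'
      · exact Or.inr (Or.inr (hd.1 r hr))
      · exact ih hd.2 r hr r' hr'

theorem all_cob {m : ℕ} {rs : List Str} {T : Str} (h : Adm m rs T) {Γ : Type} [Group Γ]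
    (Λ : P → Γ) (hF : Flat (XX m rs T) Λ) :
    ∃ y : ℕ → Γ, y 0 = 1 ∧ (∀ r ∈ rs, Triv r y) ∧ Triv T y ∧
      ((∀ s ≤ m, y s = 1) → Cob (XX m rs T) Λ) := by
  classical
  have hYX : Yp m T.lo T.hi ⊆ XX m rs T := fun c hc => Or.inl (Or.inl hc)
  have hrX : ∀ r ∈ rs, disc false r ⊆ XX m rs T := fun r hr c hc => Or.inl (Or.inr ⟨r, hr, hc⟩)
  have hTX : disc true T ⊆ XX m rs T := fun c hc => Or.inr hc
  obtain ⟨A, y, hy0, hstd⟩ := gauge (le_of_lt h.okT.lt) hYX hF
  have hF' : Flat (XX m rs T) (gau A Λ) := flat_gau hF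
  have hbr : ∀ r ∈ rs, ∀ q ∈ disc false r, q 3 = 0 → q 4 = 0 → q ∈ Yp m T.lo T.hi :=
    fun r hr q hq h3 h4 => base27 (h.okr r hr) (h.inT r hr).1 (h.inT r hr).2 hq h3 h4
  have hbT : ∀ q ∈ disc true T, q 3 = 0 → q 4 = 0 → q ∈ Yp m T.lo T.hi :=
    fun q hq h3 h4 => base27 h.okT le_rfl le_rfl hq h3 h4
  refine ⟨y, hy0, ?_, ?_, ?_⟩
  · intro r hr
    exact triv_of_flat (h.okr r hr) (flat27_mono (hrX r hr) hF')
      (fun q hq h3 h4 i hi => hstd q (hbr r hr q hq h3 h4) i hi)
  · exact triv_of_flat h.okT (flat27_mono hTX hF')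
      (fun q hq h3 h4 i hi => hstd q (hbT q hq h3 h4) i hi)
  · intro hy1
    refine cob_gau (A := A) ?_
    have hone : ∀ q ∈ Yp m T.lo T.hi, ∀ i, dirs q = {i} → gau A Λ q = 1 := by
      intro q hq i hi
      rw [hstd q hq i hi]
      unfold std
      split_ifs with hodd
      · apply hy1
        have h1 := hq.1
        rw [Int.odd_iff] at hodd
        unfold lad at h1
        omega
      · rfl
    have hr' : ∀ r, r ∈ rs → ∃ ψ : P → Γ,
        (∀ q ∈ disc false r, ∀ i, dirs q = {i} → gau A Λ q = (ψ (q - e i))⁻¹ * ψ (q + e i)) ∧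
        ∀ p ∈ disc false r, dirs p = ∅ → p 3 = 0 → p 4 = 0 → ψ p = 1 := fun r hr =>
      pot_of_flat (h.okr r hr) (flat27_mono (hrX r hr) hF')
        (fun q hq h3 h4 i hi => hone q (hbr r hr q hq h3 h4) i hi)
    choose! ψr hψr1 hψr2 using hr'
    obtain ⟨ψT, hψT1, hψT2⟩ := pot_of_flat h.okT (flat27_mono hTX hF')
      (fun q hq h3 h4 i hi => hone q (hbT q hq h3 h4) i hi)
    let ψ : P → Γ := fun p => if p 3 = 0 ∧ p 4 = 0 then 1 else
      if hp : ∃ r ∈ rs, p ∈ disc false r then ψr hp.choose p else ψT p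
    have hψ0 : ∀ p : P, p 3 = 0 → p 4 = 0 → ψ p = 1 := by
      intro p h3 h4
      simp only [ψ, h3, h4, and_self, if_true]
    have hψr : ∀ r ∈ rs, ∀ p ∈ disc false r, dirs p = ∅ → ψ p = ψr r p := by
      intro r hr p hp hd
      by_cases h34 : p 3 = 0 ∧ p 4 = 0
      · rw [hψ0 p h34.1 h34.2, hψr2 r hr p hp hd h34.1 h34.2]
      · have hex : ∃ r ∈ rs, p ∈ disc false r := ⟨r, hr, hp⟩
        have hval : ψ p = ψr hex.choose p := by
          simp only [ψ, if_neg h34, dif_pos hex]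
        have hsp := hex.choose_spec
        have hre : hex.choose = r := by
          have hl1 := lev27 (h.okr _ hsp.1) hsp.2
          have hl2 := lev27 (h.okr _ hr) hp
          rcases uniq27 h.disj _ hsp.1 _ hr with h1 | h1 | h1
          · exact h1
          · exfalso; omega
          · exfalso; omega
        rw [hval, hre]
    have hψT : ∀ p ∈ disc true T, dirs p = ∅ → ψ p = ψT p := by
      intro p hp hd
      by_cases h34 : p 3 = 0 ∧ p 4 = 0
      · rw [hψ0 p h34.1 h34.2, hψT2 p hp hd h34.1 h34.2]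
      · have hex : ¬ ∃ r ∈ rs, p ∈ disc false r := by
          rintro ⟨r, hr, hpr⟩
          have h1 := nor27 hpr
          have h2 := nor27 hp
          unfold nuP en at h1 h2
          simp at h1 h2
          apply h34
          omega
        simp only [ψ, if_neg h34, dif_neg hex]
    refine ⟨ψ, ?_⟩
    rintro q ((hq | ⟨r, hr, hq⟩) | hq) i hi
    · have hcl := closed_Yp m T.lo T.hi q hq i (odd27 hi)
      rw [hψ0 _ hcl.1.2.2.1 hcl.1.2.1, hψ0 _ hcl.2.2.2.1 hcl.2.2.1, hone q hq i hi]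
      simp
    · have hcl := closed_disc m false r (h.okr r hr) q hq i (odd27 hi)
      rw [hψr r hr _ hcl.1 (dirs27_add hi), hψr r hr _ hcl.2 (dirs27_sub hi)]
      exact hψr1 r hr q hq i hi
    · have hcl := closed_disc m true T h.okT q hq i (odd27 hi)
      rw [hψT _ hcl.1 (dirs27_add hi), hψT _ hcl.2 (dirs27_sub hi)]
      exact hψT1 q hq i hi

end Pool.Agent.MKD
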