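import Pool.Agent.MKD.GeoCpx

/-! Module MKD/DiscCol: the disc of a strand collapses to its return path.

kapS k T: return line and the two end rows. Slabs, in this order (z = c 2, v = c 3, u = c 4; `strand'` = the
cells of the disc with u = v = 0 which are not in kapS; they are (0, 0) where at_ false z and z not an
end, (0, 2) where at_ true z, arc s where cross s z):
 k = false:
 1. u ∈ {0, 1} over strand' : l = 4, ε = 1 (u: 0 ↔ 1);
 2. end cells (u = 2) with x > 0 (then cross s z for some s, 0 ≤ y ≤ 2): l = 0, ε = -1 (x even ↔ x - 1);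
 3. end cells with x = 0, y ∈ {1, 2}: l = 1, ε = -1 (y: 2 ↔ 1);
 4. end cells with y = 0, rt < x ≤ 0, z not an end: l = 0, ε = -1;
 5. u ∈ {2, 1} over kapS: l = 4, ε = -1 (u: 2 ↔ 1). Left: kapS.
 k = true: 1a. (u, v) ∈ {(0, 0), (0, 1)} over strand': l = 3, ε = 1; 1b. (u, v) ∈ {(0, 2), (1, 2)} over strand':
 l = 4, ε = 1; 2., 3., 4. with end cells (u, v) = (2, 2); 5a. (2, 2), (1, 2) over kapS: l = 4, ε = -1; 5b. (0, 2), (0, 1)
 over kapS: l = 3, ε = -1. -/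

set_option autoImplicit false

namespace Pool.Agent.MKD

open Pool.Agent.MK

/-- Return line and end rows. -/
def kapS (k : Bool) (T : Str) : Set P := {c | c 1 = 0 ∧ rt k ≤ c 0 ∧ c 0 ≤ 0 ∧ c 3 = 0 ∧ c 4 = 0 ∧
  2 * T.lo ≤ c 2 ∧ c 2 ≤ 2 * T.hi ∧ (c 0 = rt k ∨ c 2 = 2 * T.lo ∨ c 2 = 2 * T.hi)}

private def C2 (F : ℤ → ℤ → Prop) : Prop :=
  ∀ x y, F x y → (x % 2 = 1 → F (x + 1) y ∧ F (x - 1) y) ∧ (y % 2 = 1 → F x (y + 1) ∧ F x (y - 1))

private def C3 (F : ℤ → ℤ → ℤ → Prop) : Prop :=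
  ∀ x y z, F x y z → (x % 2 = 1 → F (x + 1) y z ∧ F (x - 1) y z) ∧
    (y % 2 = 1 → F x (y + 1) z ∧ F x (y - 1) z) ∧ (z % 2 = 1 → F x y (z + 1) ∧ F x y (z - 1))

/-- Product cells. -/
private def Pr (F : ℤ → ℤ → ℤ → Prop) (N : ℤ → ℤ → Prop) : Set P :=
  {c | F (c 0) (c 1) (c 2) ∧ N (c 4) (c 3)}

private theorem cpr26 {F : ℤ → ℤ → ℤ → Prop} {N : ℤ → ℤ → Prop} (hF : C3 F) (hN : C2 N) :
    Closed (Pr F N) := by
  rintro c ⟨h1, h2⟩ i hi
  have ho : c i % 2 = 1 := Int.odd_iff.1 hi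
  fin_cases i
  · have := (hF _ _ _ h1).1 ho
    exact ⟨by simpa [Pr, e] using ⟨this.1, h2⟩, by simpa [Pr, e] using ⟨this.2, h2⟩⟩
  · have := (hF _ _ _ h1).2.1 ho
    exact ⟨by simpa [Pr, e] using ⟨this.1, h2⟩, by simpa [Pr, e] using ⟨this.2, h2⟩⟩
  · have := (hF _ _ _ h1).2.2 ho
    exact ⟨by simpa [Pr, e] using ⟨this.1, h2⟩, by simpa [Pr, e] using ⟨this.2, h2⟩⟩
  · have := (hN _ _ h2).2 ho
    exact ⟨by simpa [Pr, e] using ⟨h1, this.1⟩, by simpa [Pr, e] using ⟨h1, this.2⟩⟩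
  · have := (hN _ _ h2).1 ho
    exact ⟨by simpa [Pr, e] using ⟨h1, this.1⟩, by simpa [Pr, e] using ⟨h1, this.2⟩⟩

private def Good (A : Set P) (l : Fin 5) (ε : ℤ) : Prop :=
  ∀ c ∈ A, (Even (c l) → c + ε • e l ∈ A) ∧ (Odd (c l) → c - ε • e l ∈ A)

private theorem pr4 {D : ℤ → ℤ → ℤ → Prop} {M : ℤ → ℤ → Prop} {ε : ℤ}
    (h : ∀ u v, M u v → (u % 2 = 0 → M (u + ε) v) ∧ (u % 2 = 1 → M (u - ε) v)) :
    Good (Pr D M) 4 ε := by
  rintro c ⟨h1, h2⟩
  refine ⟨fun hc => ?_, fun hc => ?_⟩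
  · simpa [Pr, e] using ⟨h1, (h _ _ h2).1 (Int.even_iff.1 hc)⟩
  · simpa [Pr, e] using ⟨h1, (h _ _ h2).2 (Int.odd_iff.1 hc)⟩

private theorem pr3 {D : ℤ → ℤ → ℤ → Prop} {M : ℤ → ℤ → Prop} {ε : ℤ}
    (h : ∀ u v, M u v → (v % 2 = 0 → M u (v + ε)) ∧ (v % 2 = 1 → M u (v - ε))) :
    Good (Pr D M) 3 ε := by
  rintro c ⟨h1, h2⟩
  refine ⟨fun hc => ?_, fun hc => ?_⟩
  · simpa [Pr, e] using ⟨h1, (h _ _ h2).1 (Int.even_iff.1 hc)⟩
  · simpa [Pr, e] using ⟨h1, (h _ _ h2).2 (Int.odd_iff.1 hc)⟩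

private theorem pr0 {D : ℤ → ℤ → ℤ → Prop} {M : ℤ → ℤ → Prop} {ε : ℤ}
    (h : ∀ x y z, D x y z → (x % 2 = 0 → D (x + ε) y z) ∧ (x % 2 = 1 → D (x - ε) y z)) :
    Good (Pr D M) 0 ε := by
  rintro c ⟨h1, h2⟩
  refine ⟨fun hc => ?_, fun hc => ?_⟩
  · simpa [Pr, e] using ⟨(h _ _ _ h1).1 (Int.even_iff.1 hc), h2⟩
  · simpa [Pr, e] using ⟨(h _ _ _ h1).2 (Int.odd_iff.1 hc), h2⟩

private theorem pr1 {D : ℤ → ℤ → ℤ → Prop} {M : ℤ → ℤ → Prop} {ε : ℤ}
    (h : ∀ x y z, D x y z → (y % 2 = 0 → D x (y + ε) z) ∧ (y % 2 = 1 → D x (y - ε) z)) :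
    Good (Pr D M) 1 ε := by
  rintro c ⟨h1, h2⟩
  refine ⟨fun hc => ?_, fun hc => ?_⟩
  · simpa [Pr, e] using ⟨(h _ _ _ h1).1 (Int.even_iff.1 hc), h2⟩
  · simpa [Pr, e] using ⟨(h _ _ _ h1).2 (Int.odd_iff.1 hc), h2⟩

private def S3 (T : Str) (x y z : ℤ) : Prop :=
  (x = 0 ∧ y = 0 ∧ T.at_ false z) ∨ (x = 0 ∧ y = 2 ∧ T.at_ true z) ∨
    ∃ s, T.cross s z ∧ arc s x y

private def K3 (k : Bool) (T : Str) (x y z : ℤ) : Prop :=
  y = 0 ∧ rt k ≤ x ∧ x ≤ 0 ∧ 2 * T.lo ≤ z ∧ z ≤ 2 * T.hi ∧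
    (x = rt k ∨ z = 2 * T.lo ∨ z = 2 * T.hi)

private def E5 (k : Bool) (T : Str) (x y z : ℤ) : Prop :=
  y = 0 ∧ rt k ≤ x ∧ x ≤ 0 ∧ 2 * T.lo ≤ z ∧ z ≤ 2 * T.hi

private def E4 (k : Bool) (T : Str) (x y z : ℤ) : Prop :=
  E5 k T x y z ∨ (x = 0 ∧ 0 ≤ y ∧ y ≤ 2 ∧ (T.at_ true z ∨ ∃ s, T.cross s z))

private def E3 (k : Bool) (T : Str) (x y z : ℤ) : Prop :=
  E4 k T x y z ∨ ∃ s, T.cross s z ∧ rect s x y

private theorem rt_cases (k : Bool) : rt k = -4 ∨ rt k = -2 := by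
  cases k <;> simp [rt]

private theorem cat26 (T : Str) (β : Bool) (z : ℤ) (h : T.at_ β z) (hz : z % 2 = 1) :
    T.at_ β (z + 1) ∧ T.at_ β (z - 1) := by
  rcases h with ⟨h1, h2, h3⟩ | ⟨h1, -⟩
  · constructor
    · right
      have : (z + 1) / 2 - 1 = z / 2 := by omega
      rw [this]
      exact ⟨by omega, h1, h2, h3⟩
    · left
      have : (z - 1) / 2 = z / 2 := by omega
      rw [this]
      exact ⟨h1, h2, h3⟩
  · omega

private theorem cS3 (T : Str) : C3 (S3 T) := by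
  rintro x y z (⟨h1, h2, h3⟩ | ⟨h1, h2, h3⟩ | ⟨s, h1, h2⟩)
  · refine ⟨fun h => by omega, fun h => by omega, fun h => ?_⟩
    have := cat26 T _ z h3 h
    exact ⟨Or.inl ⟨h1, h2, this.1⟩, Or.inl ⟨h1, h2, this.2⟩⟩
  · refine ⟨fun h => by omega, fun h => by omega, fun h => ?_⟩
    have := cat26 T _ z h3 h
    exact ⟨Or.inr (Or.inl ⟨h1, h2, this.1⟩), Or.inr (Or.inl ⟨h1, h2, this.2⟩)⟩
  · have hz := h1.1
    refine ⟨fun h => ?_, fun h => ?_, fun h => by omega⟩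
    · exact ⟨Or.inr (Or.inr ⟨s, h1, by unfold arc at *; omega⟩),
        Or.inr (Or.inr ⟨s, h1, by unfold arc at *; omega⟩)⟩
    · exact ⟨Or.inr (Or.inr ⟨s, h1, by unfold arc at *; omega⟩),
        Or.inr (Or.inr ⟨s, h1, by unfold arc at *; omega⟩)⟩

private theorem cK3 (k : Bool) (T : Str) : C3 (K3 k T) := by
  have hrt := rt_cases k
  intro x y z h
  unfold K3 at *
  refine ⟨fun h => ?_, fun h => ?_, fun h => ?_⟩ <;> constructor <;> omega

private theorem cE5 (k : Bool) (T : Str) : C3 (E5 k T) := by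
  have hrt := rt_cases k
  intro x y z h
  unfold E5 at *
  refine ⟨fun h => ?_, fun h => ?_, fun h => ?_⟩ <;> constructor <;> omega

private theorem cor26 {A B : ℤ → ℤ → ℤ → Prop} (hA : C3 A) (hB : C3 B) :
    C3 (fun x y z => A x y z ∨ B x y z) := by
  rintro x y z (h | h)
  · have := hA _ _ _ h
    exact ⟨fun h' => ⟨Or.inl (this.1 h').1, Or.inl (this.1 h').2⟩,
      fun h' => ⟨Or.inl (this.2.1 h').1, Or.inl (this.2.1 h').2⟩,
      fun h' => ⟨Or.inl (this.2.2 h').1, Or.inl (this.2.2 h').2⟩⟩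
  · have := hB _ _ _ h
    exact ⟨fun h' => ⟨Or.inr (this.1 h').1, Or.inr (this.1 h').2⟩,
      fun h' => ⟨Or.inr (this.2.1 h').1, Or.inr (this.2.1 h').2⟩,
      fun h' => ⟨Or.inr (this.2.2 h').1, Or.inr (this.2.2 h').2⟩⟩

private theorem cE4 (k : Bool) (T : Str) : C3 (E4 k T) := by
  refine cor26 (cE5 k T) ?_
  rintro x y z ⟨h1, h2, h3, h4⟩
  refine ⟨fun h => by omega, fun h => ⟨⟨h1, by omega, by omega, h4⟩, ⟨h1, by omega, by omega, h4⟩⟩,
    fun h => ?_⟩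
  rcases h4 with h4 | ⟨s, h4⟩
  · have := cat26 T _ z h4 h
    exact ⟨⟨h1, h2, h3, Or.inl this.1⟩, ⟨h1, h2, h3, Or.inl this.2⟩⟩
  · have := h4.1
    omega

private theorem cE3 (k : Bool) (T : Str) : C3 (E3 k T) := by
  refine cor26 (cE4 k T) ?_
  rintro x y z ⟨s, h1, h2⟩
  have hz := h1.1
  refine ⟨fun h => ?_, fun h => ?_, fun h => by omega⟩
  · exact ⟨⟨s, h1, by unfold rect at *; omega⟩, ⟨s, h1, by unfold rect at *; omega⟩⟩
  · exact ⟨⟨s, h1, by unfold rect at *; omega⟩, ⟨s, h1, by unfold rect at *; omega⟩⟩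

private theorem cnu26 (k : Bool) : C2 (nuP k) := by
  intro u v h
  unfold nuP at *
  cases k <;> simp at * <;> omega

private theorem cen26 (k : Bool) : C2 (en k) := by
  intro u v h
  unfold en at *
  cases k <;> simp at * <;> omega

private theorem en_nu (k : Bool) (u v : ℤ) (h : en k u v) : nuP k u v := by
  unfold en at h
  unfold nuP
  cases k <;> simp at * <;> omega

private theorem at_range (T : Str) (β : Bool) (z : ℤ) (h : T.at_ β z) :
    2 * T.lo ≤ z ∧ z ≤ 2 * T.hi := by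
  rcases h with ⟨h1, h2, -⟩ | ⟨h1, h2, h3, -⟩ <;> omega

private theorem cross_range {m : ℕ} (T : Str) (hT : T.OK m) (s : ℕ) (z : ℤ) (h : T.cross s z) :
    2 * T.lo ≤ z ∧ z ≤ 2 * T.hi := by
  obtain ⟨h1, h2⟩ := h
  by_cases h5 : z / 2 ≤ T.lo ∨ T.hi ≤ z / 2
  · have := hT.out (z / 2) h5
    omega
  · omega

private theorem K_E5 (k : Bool) (T : Str) (x y z : ℤ) (h : K3 k T x y z) : E5 k T x y z :=
  ⟨h.1, h.2.1, h.2.2.1, h.2.2.2.1, h.2.2.2.2.1⟩

private theorem S_E3 (k : Bool) (T : Str) (x y z : ℤ) (h : S3 T x y z) : E3 k T x y z := by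
  have hrt := rt_cases k
  rcases h with ⟨h1, h2, h3⟩ | ⟨h1, h2, h3⟩ | ⟨s, h1, h2⟩
  · have := at_range T _ z h3
    exact Or.inl (Or.inl ⟨h2, by omega, by omega, this.1, this.2⟩)
  · exact Or.inl (Or.inr ⟨h1, by omega, by omega, Or.inl h3⟩)
  · exact Or.inr ⟨s, h1, by unfold arc at h2; unfold rect; omega⟩

/-- First stage. -/
private def Ra (k : Bool) (T : Str) (N : ℤ → ℤ → Prop) : Set P :=
  (Pr (K3 k T) (nuP k) ∪ Pr (S3 T) N) ∪ Pr (E3 k T) (en k)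

/-- Second stage. -/
private def Rb (k : Bool) (T : Str) (E : ℤ → ℤ → ℤ → Prop) : Set P :=
  Pr (K3 k T) (nuP k) ∪ Pr E (en k)

private theorem disc_eq (m : ℕ) (k : Bool) (T : Str) (h : T.OK m) : disc k T = Ra k T (nuP k) := by
  have hlt := h.lt
  have hrt := rt_cases k
  ext c
  constructor
  · rintro (hc | hc | hc | hc | hc | hc | hc | hc)
    · exact Or.inl (Or.inr ⟨Or.inl ⟨hc.1, hc.2.1, hc.2.2.2⟩, hc.2.2.1⟩)
    · exact Or.inl (Or.inr ⟨Or.inr (Or.inl ⟨hc.1, hc.2.1, hc.2.2.2⟩), hc.2.2.1⟩)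
    · exact Or.inr ⟨Or.inl (Or.inl hc.2), hc.1⟩
    · exact Or.inr ⟨Or.inl (Or.inr ⟨hc.2.1, hc.2.2.1, hc.2.2.2.1, Or.inl hc.2.2.2.2⟩), hc.1⟩
    · obtain ⟨h1, h2, h3, h4, h5⟩ := hc
      exact Or.inl (Or.inl ⟨⟨h2, by omega, by omega, h4, h5, Or.inl h1⟩, h3⟩)
    · obtain ⟨h1, h2, h3, h4, h5⟩ := hc
      exact Or.inl (Or.inl ⟨⟨h1, h2, h3, by omega, by omega, Or.inr h5⟩, h4⟩)
    · obtain ⟨s, h1, h2, h3⟩ := hc
      exact Or.inl (Or.inr ⟨Or.inr (Or.inr ⟨s, h1, h2⟩), h3⟩)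
    · obtain ⟨s, h1, h2, h3⟩ := hc
      exact Or.inr ⟨Or.inr ⟨s, h1, h2⟩, h3⟩
  · rintro ((⟨⟨h1, h2, h3, h4, h5, h6⟩, h7⟩ | ⟨h1, h2⟩) | ⟨h1, h2⟩)
    · rcases h6 with h6 | h6
      · exact Or.inr (Or.inr (Or.inr (Or.inr (Or.inl ⟨h6, h1, h7, h4, h5⟩))))
      · exact Or.inr (Or.inr (Or.inr (Or.inr (Or.inr (Or.inl ⟨h1, h2, h3, h7, h6⟩)))))
    · rcases h1 with ⟨h1, h3, h4⟩ | ⟨h1, h3, h4⟩ | ⟨s, h3, h4⟩
      · exact Or.inl ⟨h1, h3, h2, h4⟩
      · exact Or.inr (Or.inl ⟨h1, h3, h2, h4⟩)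
      · exact Or.inr (Or.inr (Or.inr (Or.inr (Or.inr (Or.inr (Or.inl ⟨s, h3, h4, h2⟩))))))
    · rcases h1 with (h1 | ⟨h1, h3, h4, h5 | ⟨s, h5⟩⟩) | ⟨s, h3, h4⟩
      · exact Or.inr (Or.inr (Or.inl ⟨h2, h1⟩))
      · exact Or.inr (Or.inr (Or.inr (Or.inl ⟨h2, h1, h3, h4, h5⟩)))
      · exact Or.inr (Or.inr (Or.inr (Or.inr (Or.inr (Or.inr (Or.inr
          ⟨s, h5, by unfold rect; omega, h2⟩))))))
      · exact Or.inr (Or.inr (Or.inr (Or.inr (Or.inr (Or.inr (Or.inr ⟨s, h3, h4, h2⟩))))))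

private theorem stepA (m : ℕ) (k : Bool) (T : Str) (h : T.OK m) (N N' : ℤ → ℤ → Prop)
    (hN : ∀ u v, N u v → nuP k u v) (hN' : ∀ u v, N' u v → N u v)
    (he : ∀ u v, en k u v → N' u v) (cN : C2 N) (cN' : C2 N') (l : Fin 5) (ε : ℤ)
    (hε : ε = 1 ∨ ε = -1)
    (hg : Good (Pr (fun x y z => S3 T x y z ∧ ¬ K3 k T x y z) (fun u v => N u v ∧ ¬ N' u v)) l ε) :
    SlabStep (Ra k T N) (Ra k T N') := by
  have key : Ra k T N \ Ra k T N' =
      Pr (fun x y z => S3 T x y z ∧ ¬ K3 k T x y z) (fun u v => N u v ∧ ¬ N' u v) := by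
    ext c
    constructor
    · rintro ⟨(h1 | h1) | h1, h2⟩
      · exact absurd (Or.inl (Or.inl h1)) h2
      · have h3 : ¬ N' (c 4) (c 3) := fun h3 => h2 (Or.inl (Or.inr ⟨h1.1, h3⟩))
        exact ⟨⟨h1.1, fun h4 => h2 (Or.inl (Or.inl ⟨h4, hN _ _ h1.2⟩))⟩, h1.2, h3⟩
      · exact absurd (Or.inr h1) h2
    · rintro ⟨⟨h1, h2⟩, h3, h4⟩
      refine ⟨Or.inl (Or.inr ⟨h1, h3⟩), ?_⟩
      rintro ((h5 | h5) | h5)
      · exact h2 h5.1
      · exact h4 h5.2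
      · exact h4 (he _ _ h5.2)
  refine ⟨?_, ?_, ?_, ?_, l, ε, hε, ?_⟩
  · exact closed_union (closed_union (cpr26 (cK3 k T) (cnu26 k)) (cpr26 (cS3 T) cN))
      (cpr26 (cE3 k T) (cen26 k))
  · exact closed_union (closed_union (cpr26 (cK3 k T) (cnu26 k)) (cpr26 (cS3 T) cN'))
      (cpr26 (cE3 k T) (cen26 k))
  · rintro c ((h1 | h1) | h1)
    · exact Or.inl (Or.inl h1)
    · exact Or.inl (Or.inr ⟨h1.1, hN' _ _ h1.2⟩)
    · exact Or.inr h1
  · refine (finite_disc m k T h).subset ?_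
    rw [disc_eq m k T h]
    rintro c ⟨(h1 | h1) | h1, -⟩
    · exact Or.inl (Or.inl h1)
    · exact Or.inl (Or.inr ⟨h1.1, hN _ _ h1.2⟩)
    · exact Or.inr h1
  · rw [key]
    exact hg

private theorem stepB (m : ℕ) (k : Bool) (T : Str) (h : T.OK m) (E E' : ℤ → ℤ → ℤ → Prop)
    (hE : ∀ x y z, E x y z → E3 k T x y z) (hE' : ∀ x y z, E' x y z → E x y z)
    (hK : ∀ x y z, K3 k T x y z → E' x y z) (cE : C3 E) (cE' : C3 E') (l : Fin 5) (ε : ℤ)
    (hε : ε = 1 ∨ ε = -1)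
    (hg : Good (Pr (fun x y z => E x y z ∧ ¬ E' x y z) (en k)) l ε) :
    SlabStep (Rb k T E) (Rb k T E') := by
  have key : Rb k T E \ Rb k T E' = Pr (fun x y z => E x y z ∧ ¬ E' x y z) (en k) := by
    ext c
    constructor
    · rintro ⟨h1 | h1, h2⟩
      · exact absurd (Or.inl h1) h2
      · exact ⟨⟨h1.1, fun h3 => h2 (Or.inr ⟨h3, h1.2⟩)⟩, h1.2⟩
    · rintro ⟨⟨h1, h2⟩, h3⟩
      refine ⟨Or.inr ⟨h1, h3⟩, ?_⟩
      rintro (h5 | h5)
      · exact h2 (hK _ _ _ h5.1)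
      · exact h2 h5.1
  refine ⟨?_, ?_, ?_, ?_, l, ε, hε, ?_⟩
  · exact closed_union (cpr26 (cK3 k T) (cnu26 k)) (cpr26 cE (cen26 k))
  · exact closed_union (cpr26 (cK3 k T) (cnu26 k)) (cpr26 cE' (cen26 k))
  · rintro c (h1 | h1)
    · exact Or.inl h1
    · exact Or.inr ⟨hE' _ _ _ h1.1, h1.2⟩
  · refine (finite_disc m k T h).subset ?_
    rw [disc_eq m k T h]
    rintro c ⟨h1 | h1, -⟩
    · exact Or.inl (Or.inl h1)
    · exact Or.inr ⟨hE _ _ _ h1.1, h1.2⟩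
  · rw [key]
    exact hg

private theorem stepC (m : ℕ) (k : Bool) (T : Str) (h : T.OK m) (N N' : ℤ → ℤ → Prop)
    (hN : ∀ u v, N u v → nuP k u v) (hN' : ∀ u v, N' u v → N u v)
    (cN : C2 N) (cN' : C2 N') (l : Fin 5) (ε : ℤ)
    (hε : ε = 1 ∨ ε = -1)
    (hg : Good (Pr (K3 k T) (fun u v => N u v ∧ ¬ N' u v)) l ε) :
    SlabStep (Pr (K3 k T) N) (Pr (K3 k T) N') := by
  have key : Pr (K3 k T) N \ Pr (K3 k T) N' = Pr (K3 k T) (fun u v => N u v ∧ ¬ N' u v) := by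
    ext c
    constructor
    · rintro ⟨h1, h2⟩
      exact ⟨h1.1, h1.2, fun h3 => h2 ⟨h1.1, h3⟩⟩
    · rintro ⟨h1, h3, h4⟩
      exact ⟨⟨h1, h3⟩, fun h5 => h4 h5.2⟩
  refine ⟨cpr26 (cK3 k T) cN, cpr26 (cK3 k T) cN', fun c hc => ⟨hc.1, hN' _ _ hc.2⟩, ?_,
    l, ε, hε, ?_⟩
  · refine (finite_disc m k T h).subset ?_
    rw [disc_eq m k T h]
    rintro c ⟨h1, -⟩
    exact Or.inl (Or.inl ⟨h1.1, hN _ _ h1.2⟩)
  · rw [key]
    exact hg

private theorem Ra_Rb (k : Bool) (T : Str) : Ra k T (en k) = Rb k T (E3 k T) := by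
  ext c
  constructor
  · rintro ((h1 | h1) | h1)
    · exact Or.inl h1
    · exact Or.inr ⟨S_E3 k T _ _ _ h1.1, h1.2⟩
    · exact Or.inr h1
  · rintro (h1 | h1)
    · exact Or.inl (Or.inl h1)
    · exact Or.inr h1

private theorem Rb_Rc (k : Bool) (T : Str) : Rb k T (K3 k T) = Pr (K3 k T) (nuP k) := by
  ext c
  constructor
  · rintro (h1 | h1)
    · exact h1
    · exact ⟨h1.1, en_nu k _ _ h1.2⟩
  · exact Or.inl

private theorem colB (m : ℕ) (k : Bool) (T : Str) (h : T.OK m) :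
    Col (Rb k T (E3 k T)) (Rb k T (K3 k T)) := by
  have hrt := rt_cases k
  refine Col.step (R' := Rb k T (E4 k T)) ?_ (Col.step (R' := Rb k T (E5 k T)) ?_ (Col.one ?_))
  · refine stepB m k T h _ _ (fun _ _ _ h' => h') (fun _ _ _ h' => Or.inl h')
      (fun x y z h' => Or.inl (K_E5 k T x y z h')) (cE3 k T) (cE4 k T) 0 (-1) (Or.inr rfl) (pr0 ?_)
    rintro x y z ⟨h1, h2⟩
    rcases h1 with h1 | ⟨s, h3, h4⟩
    · exact absurd h1 h2
    · have hx : 0 < x := by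
        by_contra hx
        apply h2
        unfold rect at h4
        exact Or.inr ⟨by omega, by omega, by omega, Or.inr ⟨s, h3⟩⟩
      have hn : ∀ x', 0 < x' → ¬ E4 k T x' y z := by
        rintro x' hx' (h5 | h5)
        · have := h5.2.2.1
          omega
        · have := h5.1
          omega
      refine ⟨fun h5 => ⟨Or.inr ⟨s, h3, ?_⟩, hn _ (by omega)⟩,
        fun h5 => ⟨Or.inr ⟨s, h3, ?_⟩, hn _ (by omega)⟩⟩
      · unfold rect at *
        omega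
      · unfold rect at *
        omega
  · refine stepB m k T h _ _ (fun _ _ _ h' => Or.inl h') (fun _ _ _ h' => Or.inl h')
      (fun x y z h' => K_E5 k T x y z h') (cE4 k T) (cE5 k T) 1 (-1) (Or.inr rfl) (pr1 ?_)
    rintro x y z ⟨h1, h2⟩
    rcases h1 with h1 | ⟨h3, h4, h5, h6⟩
    · exact absurd h1 h2
    · have hz : 2 * T.lo ≤ z ∧ z ≤ 2 * T.hi := by
        rcases h6 with h6 | ⟨s, h6⟩
        · exact at_range T _ z h6
        · exact cross_range T h s z h6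
      have hy : y ≠ 0 := fun hy => h2 ⟨hy, by omega, by omega, hz.1, hz.2⟩
      refine ⟨fun h7 => ⟨Or.inr ⟨h3, by omega, by omega, h6⟩, fun h8 => ?_⟩,
        fun h7 => ⟨Or.inr ⟨h3, by omega, by omega, h6⟩, fun h8 => ?_⟩⟩
      · have := h8.1
        omega
      · have := h8.1
        omega
  · refine stepB m k T h _ _ (fun _ _ _ h' => Or.inl (Or.inl h')) (fun x y z h' => K_E5 k T x y z h')
      (fun x y z h' => h') (cE5 k T) (cK3 k T) 0 (-1) (Or.inr rfl) (pr0 ?_)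
    intro x y z h1
    unfold E5 K3 at *
    refine ⟨fun h7 => ?_, fun h7 => ?_⟩ <;> omega

theorem col_disc (m : ℕ) (k : Bool) (T : Str) (h : T.OK m) : Col (disc k T) (kapS k T) := by
  rw [disc_eq m k T h]
  cases k
  · have hk : kapS false T = Pr (K3 false T) (fun u v => u = 0 ∧ v = 0) := by
      ext c
      simp only [kapS, Pr, K3, Set.mem_setOf_eq]
      tauto
    rw [hk]
    refine Col.step (R' := Ra false T (en false)) ?_ ?_
    · refine stepA m false T h _ _ (fun _ _ h' => h') (en_nu false) (fun _ _ h' => h')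
        (cnu26 false) (cen26 false) 4 1 (Or.inl rfl) (pr4 ?_)
      intro u v h1
      unfold nuP en at *
      simp at *
      omega
    · rw [Ra_Rb]
      refine (colB m false T h).trans ?_
      rw [Rb_Rc]
      refine Col.one (stepC m false T h _ _ (fun _ _ h' => h') ?_ (cnu26 false) ?_ 4 (-1)
        (Or.inr rfl) (pr4 ?_))
      · intro u v h1
        unfold nuP
        simp at *
        omega
      · intro u v h1
        simp at *
        omega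
      · intro u v h1
        unfold nuP at *
        simp at *
        omega
  · have hk : kapS true T = Pr (K3 true T) (fun u v => u = 0 ∧ v = 0) := by
      ext c
      simp only [kapS, Pr, K3, Set.mem_setOf_eq]
      tauto
    rw [hk]
    refine Col.step (R' := Ra true T (fun u v => v = 2 ∧ 0 ≤ u ∧ u ≤ 2)) ?_
      (Col.step (R' := Ra true T (en true)) ?_ ?_)
    · refine stepA m true T h _ _ (fun _ _ h' => h') ?_ ?_ (cnu26 true) ?_ 3 1 (Or.inl rfl) (pr3 ?_)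
      · intro u v h1
        unfold nuP
        simp at *
        omega
      · intro u v h1
        unfold en at h1
        simp at *
        omega
      · intro u v h1
        simp at *
        omega
      · intro u v h1
        unfold nuP at *
        simp at *
        omega
    · refine stepA m true T h _ _ ?_ ?_ (fun _ _ h' => h') ?_ (cen26 true) 4 1 (Or.inl rfl) (pr4 ?_)
      · intro u v h1
        unfold nuP
        simp at *
        omega
      · intro u v h1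
        unfold en at h1
        simp at *
        omega
      · intro u v h1
        simp at *
        omega
      · intro u v h1
        unfold en at *
        simp at *
        omega
    · rw [Ra_Rb]
      refine (colB m true T h).trans ?_
      rw [Rb_Rc]
      refine Col.step (R' := Pr (K3 true T) (fun u v => u = 0 ∧ 0 ≤ v ∧ v ≤ 2)) ?_ (Col.one ?_)
      · refine stepC m true T h _ _ (fun _ _ h' => h') ?_ (cnu26 true) ?_ 4 (-1)
          (Or.inr rfl) (pr4 ?_)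
        · intro u v h1
          unfold nuP
          simp at *
          omega
        · intro u v h1
          simp at *
          omega
        · intro u v h1
          unfold nuP at *
          simp at *
          omega
      · refine stepC m true T h _ _ ?_ ?_ ?_ ?_ 3 (-1) (Or.inr rfl) (pr3 ?_)
        · intro u v h1
          unfold nuP
          simp at *
          omega
        · intro u v h1
          have h2 := h1.1
          have h3 := h1.2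
          omega
        · intro u v h1
          simp at *
          omega
        · intro u v h1
          simp at *
          omega
        · intro u v h1
          simp at *
          omega

end Pool.Agent.MKD
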