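import Pool.Agent.MKD.CobCol
import Pool.Agent.MKD.DiscCol

/-! Module MKD/ConnXX: the 1-skeleton of XX is connected.

Every vertex of Yp is joined to (0, 0, 0, 0, 0) in Yp: for y = 2 along the row to x = 0 and over the rung 0; in the
row y = 0 to x = 0; then along the levels (T.lo ≤ 0 ≤ T.hi). A vertex of a disc is joined in the disc to a vertex of
kapS ⊆ Yp (`conn_of_col`, `col_disc`; r.lo ≥ T.lo, r.hi ≤ T.hi). Stp is symmetric and monotone in X. -/

set_option autoImplicit false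

namespace Pool.Agent.MKD

open Pool.Agent.MK

private theorem cxx_even {v : P} (h : dirs v = ∅) (i : Fin 5) : v i % 2 = 0 := by
  have h1 : i ∉ dirs v := by
    rw [h]
    exact Finset.notMem_empty i
  unfold dirs at h1
  rw [Finset.mem_filter, not_and] at h1
  have h2 := h1 (Finset.mem_univ i)
  rw [Int.odd_iff] at h2
  omega

private theorem cxx_dirs {v : P} (h : ∀ i, v i % 2 = 0) : dirs v = ∅ := by
  unfold dirs
  refine Finset.filter_eq_empty_iff.2 fun i _ => ?_
  rw [Int.odd_iff, h i]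
  omega

private theorem cxx_symm {X : Set P} {x y : P} (h : Stp X x y) : Stp X y x := by
  obtain ⟨q, hq, i, hi, h | h⟩ := h
  · exact ⟨q, hq, i, hi, Or.inr ⟨h.2, h.1⟩⟩
  · exact ⟨q, hq, i, hi, Or.inl ⟨h.2, h.1⟩⟩

private theorem cxx_rsymm {X : Set P} {x y : P} (h : Relation.ReflTransGen (Stp X) x y) :
    Relation.ReflTransGen (Stp X) y x := by
  induction h with
  | refl => exact Relation.ReflTransGen.refl
  | tail _ h2 ih => exact Relation.ReflTransGen.head (cxx_symm h2) ih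

private theorem cxx_mono {X Y : Set P} (hXY : X ⊆ Y) {x y : P}
    (h : Relation.ReflTransGen (Stp X) x y) : Relation.ReflTransGen (Stp Y) x y := by
  induction h with
  | refl => exact Relation.ReflTransGen.refl
  | tail _ h2 ih =>
    obtain ⟨q, hq, i, hi, h3⟩ := h2
    exact ih.tail ⟨q, hXY hq, i, hi, h3⟩

private theorem cxx_line {X : Set P} {p : P} (hp : ∀ j, p j % 2 = 0) (i : Fin 5) (n : ℕ)
    (h : ∀ t : ℤ, 0 ≤ t → t ≤ 2 * n → p + t • e i ∈ X) :
    Relation.ReflTransGen (Stp X) p (p + (2 * n : ℤ) • e i) := by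
  induction n with
  | zero =>
    have h0 : p + (2 * ((0 : ℕ) : ℤ)) • e i = p := by simp
    rw [h0]
  | succ n ih =>
    refine (ih fun t h0 h1 => h t h0 (by push_cast; omega)).tail ?_
    refine ⟨p + (2 * n + 1 : ℤ) • e i, h _ (by omega) (by push_cast; omega), i, ?_,
      Or.inl ⟨?_, ?_⟩⟩
    · ext j
      unfold dirs
      rw [Finset.mem_filter, Finset.mem_singleton]
      have hj := hp j
      simp only [Pi.add_apply, Pi.smul_apply, smul_eq_mul, e, Finset.mem_univ, true_and,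
        Int.odd_iff]
      split_ifs with hji
      · constructor
        · intro _
          exact hji
        · intro _
          omega
      · constructor
        · intro h1
          omega
        · intro h1
          exact absurd h1 hji
    · rw [add_smul, one_smul]
      abel
    · have h1 : (2 * ((n + 1 : ℕ) : ℤ)) = 2 * n + 1 + 1 := by push_cast; ring
      rw [h1, add_smul _ (1 : ℤ), one_smul]
      abel

/-- A vertex of the base. -/
private def cxxV (x y z : ℤ) : P := ![x, y, z, 0, 0]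

private theorem cxxV_even {x y z : ℤ} (hx : x % 2 = 0) (hy : y % 2 = 0) (hz : z % 2 = 0) :
    ∀ j, cxxV x y z j % 2 = 0 := by
  intro j
  fin_cases j
  · exact hx
  · exact hy
  · exact hz
  · rfl
  · rfl

private theorem cxxV_0 (x y z t : ℤ) : cxxV x y z + t • e 0 = cxxV (x + t) y z := by
  funext j
  fin_cases j <;> simp [cxxV, e]

private theorem cxxV_1 (x y z t : ℤ) : cxxV x y z + t • e 1 = cxxV x (y + t) z := by
  funext j
  fin_cases j <;> simp [cxxV, e]

private theorem cxxV_2 (x y z t : ℤ) : cxxV x y z + t • e 2 = cxxV x y (z + t) := by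
  funext j
  fin_cases j <;> simp [cxxV, e]

private theorem cxxV_mem {m : ℕ} {lo hi x y z : ℤ} :
    cxxV x y z ∈ Yp m lo hi ↔ lad m x y ∧ 2 * lo ≤ z ∧ z ≤ 2 * hi := by
  constructor
  · rintro ⟨h1, _, _, h4, h5⟩
    exact ⟨h1, h4, h5⟩
  · rintro ⟨h1, h4, h5⟩
    exact ⟨h1, rfl, rfl, h4, h5⟩

private theorem cxx_row {m : ℕ} {lo hi x y z : ℤ} (hx : x % 2 = 0) (hy : y % 2 = 0)
    (hz : z % 2 = 0) (hz1 : 2 * lo ≤ z) (hz2 : z ≤ 2 * hi) (h0 : 0 ≤ x) (h1 : x ≤ 2 * m)
    (hy2 : y = 0 ∨ y = 2) :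
    Relation.ReflTransGen (Stp (Yp m lo hi)) (cxxV 0 y z) (cxxV x y z) := by
  obtain ⟨n, hn⟩ : ∃ n : ℕ, x = 2 * n := ⟨(x / 2).toNat, by omega⟩
  have h := cxx_line (X := Yp m lo hi) (cxxV_even (x := 0) (y := y) (z := z) rfl hy hz) 0 n
    (fun t ht0 ht1 => by
      rw [cxxV_0, cxxV_mem]
      refine ⟨?_, hz1, hz2⟩
      unfold lad
      omega)
  rw [cxxV_0, zero_add, ← hn] at h
  exact h

private theorem cxx_Yp {m : ℕ} {lo hi : ℤ} (h0 : lo ≤ 0 ∧ 0 ≤ hi) {v : P}
    (hv : v ∈ Yp m lo hi) (hd : dirs v = ∅) :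
    Relation.ReflTransGen (Stp (Yp m lo hi)) 0 v := by
  have he := cxx_even hd
  obtain ⟨h1, h2, h3, h4, h5⟩ := hv
  have hveq : v = cxxV (v 0) (v 1) (v 2) := by
    funext j
    fin_cases j
    · rfl
    · rfl
    · rfl
    · exact h3
    · exact h2
  have e0 := he 0
  have e1 := he 1
  have e2 := he 2
  rw [hveq]
  generalize v 0 = x at *
  generalize v 1 = y at *
  generalize v 2 = z at *
  -- the level
  have hlev : Relation.ReflTransGen (Stp (Yp m lo hi)) 0 (cxxV 0 0 z) := by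
    have hzero : (0 : P) = cxxV 0 0 0 := by
      funext j
      fin_cases j <;> rfl
    rw [hzero]
    rcases le_total 0 z with hz | hz
    · obtain ⟨n, hn⟩ : ∃ n : ℕ, z = 2 * n := ⟨(z / 2).toNat, by omega⟩
      have h := cxx_line (X := Yp m lo hi) (cxxV_even (x := 0) (y := 0) (z := 0) rfl rfl rfl) 2 n
        (fun t ht0 ht1 => by
          rw [cxxV_2, cxxV_mem]
          refine ⟨?_, ?_, ?_⟩
          · unfold lad
            omega
          · omega
          · omega)
      rw [cxxV_2, zero_add, ← hn] at h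
      exact h
    · obtain ⟨n, hn⟩ : ∃ n : ℕ, z = -(2 * n) := ⟨((-z) / 2).toNat, by omega⟩
      have h := cxx_line (X := Yp m lo hi) (cxxV_even (x := 0) (y := 0) (z := z) rfl rfl e2) 2 n
        (fun t ht0 ht1 => by
          rw [cxxV_2, cxxV_mem]
          refine ⟨?_, ?_, ?_⟩
          · unfold lad
            omega
          · omega
          · omega)
      rw [cxxV_2] at h
      have h6 : z + 2 * (n : ℤ) = 0 := by omega
      rw [h6] at h
      exact cxx_rsymm h
  refine hlev.trans ?_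
  rcases h1 with ⟨hy, hx1, hx2⟩ | ⟨hy, hx1, hx2⟩ | ⟨hy, _⟩
  · subst hy
    rcases le_total 0 x with hx | hx
    · exact cxx_row e0 rfl e2 h4 h5 hx hx2 (Or.inl rfl)
    · obtain ⟨n, hn⟩ : ∃ n : ℕ, x = -(2 * n) := ⟨((-x) / 2).toNat, by omega⟩
      have h := cxx_line (X := Yp m lo hi) (cxxV_even (x := x) (y := 0) (z := z) e0 rfl e2) 0 n
        (fun t ht0 ht1 => by
          rw [cxxV_0, cxxV_mem]
          refine ⟨?_, h4, h5⟩
          unfold lad
          omega)
      rw [cxxV_0] at h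
      have h6 : x + 2 * (n : ℤ) = 0 := by omega
      rw [h6] at h
      exact cxx_rsymm h
  · subst hy
    refine Relation.ReflTransGen.trans ?_ (cxx_row e0 rfl e2 h4 h5 hx1 hx2 (Or.inr rfl))
    have h := cxx_line (X := Yp m lo hi) (cxxV_even (x := 0) (y := 0) (z := z) rfl rfl e2) 1 1
      (fun t ht0 ht1 => by
        rw [cxxV_1, cxxV_mem]
        refine ⟨?_, h4, h5⟩
        unfold lad
        omega)
    rw [cxxV_1] at h
    have h6 : (0 : ℤ) + 2 * ((1 : ℕ) : ℤ) = 2 := by norm_num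
    rw [h6] at h
    exact h
  · omega

private theorem cxx_disc {m : ℕ} {k : Bool} {S T : Str} (hS : S.OK m) (h1 : T.lo ≤ S.lo)
    (h2 : S.hi ≤ T.hi) (h0 : T.lo ≤ 0 ∧ 0 ≤ T.hi) {X : Set P} (hX : disc k S ⊆ X)
    (hY : Yp m T.lo T.hi ⊆ X) {v : P} (hv : v ∈ disc k S) (hd : dirs v = ∅) :
    Relation.ReflTransGen (Stp X) 0 v := by
  obtain ⟨w, hw, hwd, hwv⟩ := conn_of_col (col_disc m k S hS) v hv hd
  refine Relation.ReflTransGen.trans ?_ (cxx_mono hX hwv)
  refine cxx_mono hY (cxx_Yp h0 ?_ hwd)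
  obtain ⟨w1, w2, w3, w4, w5, w6, w7, _⟩ := hw
  have hrt : rt k = -4 ∨ rt k = -2 := by
    cases k <;> simp [rt]
  refine ⟨Or.inl ⟨w1, ?_, ?_⟩, w5, w4, ?_, ?_⟩
  · omega
  · omega
  · omega
  · omega

theorem gconn_XX {m : ℕ} {rs : List Str} {T : Str} (h : Adm m rs T) : GConn (XX m rs T) 0 := by
  have h0 := h.zero
  refine ⟨zero_mem m rs T h, cxx_dirs fun i => rfl, ?_⟩
  intro v hv hd
  change Relation.ReflTransGen (Stp (XX m rs T)) 0 v
  have hY : Yp m T.lo T.hi ⊆ XX m rs T := fun c hc => Or.inl (Or.inl hc)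
  rcases hv with (hv | ⟨r, hr, hv⟩) | hv
  · exact cxx_mono hY (cxx_Yp h0 hv hd)
  · exact cxx_disc (h.okr r hr) (h.inT r hr).1 (h.inT r hr).2 h0
      (fun c hc => Or.inl (Or.inr ⟨r, hr, hc⟩)) hY hv hd
  · exact cxx_disc h.okT le_rfl le_rfl h0 (fun c hc => Or.inr hc) hY hv hd

end Pool.Agent.MKD
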