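import Pool.Agent.MKD.Lists
import Pool.Agent.MKE.Words

/-! Module MKD/Conv: words in letters as lists of crossings.

The letter x_g is the path over the page g and back over the page 0. Letters outside 1, ..., m are
dropped. `cval_conv`: induction on w, cval y false (c ++ d) = cval y false c * cval y (par c) d. -/

set_option autoImplicit false

namespace Pool.Agent.MKD

/-- The crossings of a letter (page `s` has the code `s + 1`). -/
def convL (m : ℕ) (a : ℕ × Bool) : List ℕ :=
  if 1 ≤ a.1 ∧ a.1 ≤ m then (if a.2 then [a.1 + 1, 1] else [1, a.1 + 1]) else []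

/-- The crossings of a word. -/
def conv (m : ℕ) (w : List (ℕ × Bool)) : List ℕ := w.flatMap (convL m)

theorem conv_append (m : ℕ) (a b : List (ℕ × Bool)) : conv m (a ++ b) = conv m a ++ conv m b := by
  simp [conv]

private theorem conv_par_cons (a : ℕ) (c : List ℕ) :
    par (a :: c) = (decide (a ≠ 0) ^^ par c) := by
  have h := par_append [a] c
  rw [List.singleton_append] at h
  rw [h]
  congr 1
  by_cases ha : a = 0
  · subst ha
    simp [par]
  · simp [par, ha]

private theorem conv_par_convL (m : ℕ) (a : ℕ × Bool) : par (convL m a) = false := by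
  unfold convL
  split_ifs
  · rw [conv_par_cons, conv_par_cons]
    simp [par]
  · rw [conv_par_cons, conv_par_cons]
    simp [par]
  · simp [par]

theorem wok_conv (m : ℕ) (w : List (ℕ × Bool)) : WOK m (conv m w) := by
  induction w with
  | nil => exact ⟨by simp [conv], by simp [conv, par]⟩
  | cons x w ih =>
    have h : conv m (x :: w) = convL m x ++ conv m w := by simp [conv]
    rw [h]
    constructor
    · intro a ha
      rw [List.mem_append] at ha
      rcases ha with ha | ha
      · unfold convL at ha
        split_ifs at ha with h1 h2
        · rw [List.mem_cons, List.mem_singleton] at ha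
          omega
        · rw [List.mem_cons, List.mem_singleton] at ha
          omega
        · exact absurd ha List.not_mem_nil
      · exact ih.1 a ha
    · rw [par_append, conv_par_convL, ih.2]
      rfl

theorem cval_append {Γ : Type} [Group Γ] (y : ℕ → Γ) (β : Bool) (c d : List ℕ) :
    cval y β (c ++ d) = cval y β c * cval y (β ^^ par c) d := by
  induction c generalizing β with
  | nil =>
    have h : par [] = false := by simp [par]
    rw [h, Bool.xor_false]
    simp [cval]
  | cons a c ih =>
    rw [List.cons_append, conv_par_cons]
    rcases a with _ | a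
    · have h : (β ^^ (decide ((0 : ℕ) ≠ 0) ^^ par c)) = (β ^^ par c) := by simp
      rw [h]
      have h1 : ∀ l : List ℕ, cval y β (0 :: l) = cval y β l := by
        intro l
        cases β <;> rfl
      rw [h1, h1]
      exact ih β
    · have h : (β ^^ (decide (a + 1 ≠ 0) ^^ par c)) = ((!β) ^^ par c) := by
        have h2 : decide (a + 1 ≠ 0) = true := by simp
        rw [h2]
        cases β <;> cases par c <;> rfl
      rw [h]
      cases β
      · change y a * cval y true (c ++ d) = y a * cval y true c * _
        rw [ih true, mul_assoc]
        rfl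
      · change (y a)⁻¹ * cval y false (c ++ d) = (y a)⁻¹ * cval y false c * _
        rw [ih false, mul_assoc]
        rfl

theorem cval_conv (m : ℕ) {Γ : Type} [Group Γ] (y : ℕ → Γ) (y0 : y 0 = 1) (w : List (ℕ × Bool))
    (hw : ∀ x ∈ w, 1 ≤ x.1 ∧ x.1 ≤ m) : cval y false (conv m w) = MKE.val y w := by
  induction w with
  | nil =>
    change (1 : Γ) = MKE.val y []
    simp [MKE.val]
  | cons x w ih =>
    have h : conv m (x :: w) = convL m x ++ conv m w := by simp [conv]
    have h2 : MKE.val y (x :: w) = MKE.val y [x] * MKE.val y w := by
      rw [← MKE.val_append]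
      rfl
    rw [h, cval_append, conv_par_convL, Bool.xor_false, h2,
      ih fun z hz => hw z (List.mem_cons_of_mem x hz)]
    congr 1
    have hx := hw x List.mem_cons_self
    obtain ⟨g, b⟩ := x
    unfold convL
    rw [if_pos hx]
    cases b
    · rw [if_neg (by simp), MKE.val_false]
      change y 0 * ((y g)⁻¹ * 1) = (y g)⁻¹
      rw [y0, one_mul, mul_one]
    · rw [if_pos rfl, MKE.val_true]
      change y g * ((y 0)⁻¹ * 1) = y g
      rw [y0, inv_one, mul_one, mul_one]

theorem cval_congr (m : ℕ) {Γ : Type} [Group Γ] (y y' : ℕ → Γ) (h : ∀ s ≤ m, y s = y' s)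
    (β : Bool) (W : List ℕ) (hW : ∀ a ∈ W, a ≤ m + 1) : cval y β W = cval y' β W := by
  induction W generalizing β with
  | nil => cases β <;> rfl
  | cons a W ih =>
    have hW' : ∀ a ∈ W, a ≤ m + 1 := fun b hb => hW b (List.mem_cons_of_mem a hb)
    have ha := hW a List.mem_cons_self
    rcases a with _ | a
    · cases β
      · exact ih false hW'
      · exact ih true hW'
    · have h1 := h a (by omega)
      cases β
      · change y a * cval y true W = y' a * cval y' true W
        rw [h1, ih true hW']
      · change (y a)⁻¹ * cval y false W = (y' a)⁻¹ * cval y' false W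
        rw [h1, ih false hW']

end Pool.Agent.MKD
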