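import Pool.Agent.MKE.Words

/-! Module MKD/GrpQuot: two words with the same value in all groups with the relators are equivalent.

E is an equivalence relation on words, compatible with concatenation, with x x⁻¹ ~ 1 and r ~ 1 for the
relators. The quotient of the set of words by E is a group (Type): product = concatenation, one = [],
inverse = FreeGroup.invRev (reverse and change the signs; invRev w ++ w ~ [] and w ++ invRev w ~ [] by
induction, using both [(g, b), (g, !b)] ~ []; well defined: if w ~ w' then invRev w ~ invRev w ++ w' ++ invRev w' ~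
invRev w ++ w ++ invRev w' ~ invRev w'). Let y g = class of [(g, true)]. Then MKE.val y w = class of w (val is
multiplicative: val_append, val_true, val_false; [(g, false)] is the inverse of [(g, true)]). So val y r = 1 for the
relators, and val y w = val y w' gives E w w'. -/

set_option autoImplicit false

namespace Pool.Agent.MKD

section GQ

variable (E : List (ℕ × Bool) → List (ℕ × Bool) → Prop) (hE : Equivalence E)
    (hc : ∀ a b w w', E w w' → E (a ++ (w ++ b)) (a ++ (w' ++ b)))
    (hx : ∀ g b, E [(g, b), (g, !b)] [])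

include hE hc in
theorem gq_app {a b w w' : List (ℕ × Bool)} (h1 : E a b) (h2 : E w w') : E (a ++ w) (b ++ w') := by
  have e1 := hc [] w a b h1
  have e2 := hc b [] w w' h2
  simp only [List.nil_append, List.append_nil] at e1 e2
  exact hE.trans e1 e2

theorem gq_invRev_cons (a : ℕ × Bool) (w : List (ℕ × Bool)) :
    FreeGroup.invRev (a :: w) = FreeGroup.invRev w ++ [(a.1, !a.2)] := by
  simp [FreeGroup.invRev]

include hE hc hx in
theorem gq_right (w : List (ℕ × Bool)) : E (w ++ FreeGroup.invRev w) [] := by
  induction w with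
  | nil => simpa [FreeGroup.invRev] using hE.refl []
  | cons a w ih =>
    have e1 := hc [a] [(a.1, !a.2)] _ _ ih
    have e2 : E ([a] ++ ([] ++ [(a.1, !a.2)])) [] := by
      simpa using hx a.1 a.2
    have e3 : a :: w ++ FreeGroup.invRev (a :: w) =
        [a] ++ ((w ++ FreeGroup.invRev w) ++ [(a.1, !a.2)]) := by
      rw [gq_invRev_cons]; simp
    rw [e3]
    exact hE.trans e1 e2

include hE hc hx in
theorem gq_left (w : List (ℕ × Bool)) : E (FreeGroup.invRev w ++ w) [] := by
  have h := gq_right E hE hc hx (FreeGroup.invRev w)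
  rwa [FreeGroup.invRev_invRev] at h

include hE hc hx in
theorem gq_inv {w w' : List (ℕ × Bool)} (h : E w w') :
    E (FreeGroup.invRev w) (FreeGroup.invRev w') := by
  have e1 : E (FreeGroup.invRev w ++ (w' ++ FreeGroup.invRev w')) (FreeGroup.invRev w ++ []) :=
    gq_app E hE hc (hE.refl _) (gq_right E hE hc hx w')
  have e2 : E (FreeGroup.invRev w ++ (w ++ FreeGroup.invRev w'))
      (FreeGroup.invRev w ++ (w' ++ FreeGroup.invRev w')) := hc _ _ _ _ h
  have e3 : E ((FreeGroup.invRev w ++ w) ++ FreeGroup.invRev w') ([] ++ FreeGroup.invRev w') :=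
    gq_app E hE hc (gq_left E hE hc hx w) (hE.refl _)
  rw [List.append_nil] at e1
  rw [List.nil_append, List.append_assoc] at e3
  exact hE.trans (hE.symm e1) (hE.trans (hE.symm e2) e3)

/-- The setoid. -/
def gqS : Setoid (List (ℕ × Bool)) := ⟨E, hE⟩

/-- The group of classes of words. -/
@[reducible] def gqG : Group (Quotient (gqS E hE)) where
  mul := Quotient.map₂ (fun a b => a ++ b) (fun _ _ h1 _ _ h2 => gq_app E hE hc h1 h2)
  mul_assoc := by
    rintro ⟨a⟩ ⟨b⟩ ⟨c⟩
    exact congrArg (Quotient.mk (gqS E hE)) (List.append_assoc a b c)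
  one := Quotient.mk _ []
  one_mul := by
    rintro ⟨a⟩
    exact congrArg (Quotient.mk (gqS E hE)) (List.nil_append a)
  mul_one := by
    rintro ⟨a⟩
    exact congrArg (Quotient.mk (gqS E hE)) (List.append_nil a)
  inv := Quotient.map FreeGroup.invRev (fun _ _ h => gq_inv E hE hc hx h)
  inv_mul_cancel := by
    rintro ⟨a⟩
    exact Quotient.sound (gq_left E hE hc hx a)

end GQ

theorem equiv_of_val (E : List (ℕ × Bool) → List (ℕ × Bool) → Prop) (hE : Equivalence E)
    (hc : ∀ a b w w', E w w' → E (a ++ (w ++ b)) (a ++ (w' ++ b)))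
    (hx : ∀ g b, E [(g, b), (g, !b)] []) (rels : List (List (ℕ × Bool))) (hr : ∀ r ∈ rels, E r [])
    (w w' : List (ℕ × Bool))
    (h : ∀ (G : Type) [Group G] (y : ℕ → G), (∀ r ∈ rels, MKE.val y r = 1) →
      MKE.val y w = MKE.val y w') : E w w' := by
  let _ := gqG E hE hc hx
  let y : ℕ → Quotient (gqS E hE) := fun g => Quotient.mk _ [(g, true)]
  have hone : (1 : Quotient (gqS E hE)) = Quotient.mk _ [] := rfl
  have hmul : ∀ a b : List (ℕ × Bool), (Quotient.mk (gqS E hE) a * Quotient.mk (gqS E hE) b) =
      Quotient.mk (gqS E hE) (a ++ b) := fun a b => rfl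
  have hinv : ∀ a : List (ℕ × Bool), (Quotient.mk (gqS E hE) a)⁻¹ =
      Quotient.mk (gqS E hE) (FreeGroup.invRev a) := fun a => rfl
  have hval : ∀ u : List (ℕ × Bool), MKE.val y u = Quotient.mk (gqS E hE) u := by
    intro u
    induction u with
    | nil =>
      rw [← hone]
      simp [MKE.val, ← FreeGroup.one_eq_mk]
    | cons a u ih =>
      have e : a :: u = [a] ++ u := rfl
      rw [e, MKE.val_append, ih, ← hmul]
      congr 1
      obtain ⟨g, b⟩ := a
      cases b with
      | true => exact MKE.val_true y g
      | false =>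
        rw [MKE.val_false]
        exact hinv [(g, true)]
  have h2 := h (Quotient (gqS E hE)) y (fun r hrr => by
    rw [hval, hone]
    exact Quotient.sound (hr r hrr))
  rw [hval, hval] at h2
  exact Quotient.exact h2

end Pool.Agent.MKD
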