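import Pool.Agent.MKD.Hol

/-! Module MKD/LabelEx: a labelling of XX from values y of the pages.

For a strand T with HolOK T y φ and a vertex over (x, y', z), z = 2 j, put
 Ψ_T(x, y', z) = 1 if x < 0 or j ≤ T.lo or j ≥ T.hi; otherwise φ (j - 1) if (y' = 2) = (T.pos (j - 1) = true), i.e.
 if the point is on the side where the strand comes from, and φ j if it is on the other side (if there is no
 crossing at j both are equal: stepV = 1). This is the product along the boundary curve of the disc.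
Λ q = std y q                     if q 3 = 0, q 4 = 0;
      (Ψ_T (q 0) (q 1) (q 2))⁻¹   if q 3 = 1, q 4 = 0;
      (Ψ_r (q 0) (q 1) (q 2))⁻¹   if q 3 = 0, q 4 = 1, where r ∈ rs is the relator with 2 r.lo ≤ q 2 ≤ 2 r.hi (unique
                                   by Adm.disj; 1 if there is none);
      1                           otherwise.
Flat: squares in Yp: rung times level: y s on both sides; others trivial. Squares of disc true T with an edge
in the base (v = 1, u = 0, over an edge of the boundary curve): label (Ψ p)⁻¹ for the vertical edges, std y below,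
1 above: std y (p, p') = (Ψ p)⁻¹ * Ψ p'. Check: level edges (z odd, interval j): the strand is at pos j at both
ends: Ψ = φ j at both ends (at the lower level j the point with side pos j: it is the side where the strand
comes from iff pos (j - 1) = pos j, and then there is no crossing and φ (j - 1) = φ j; at the upper level j + 1
it is the side where the strand comes from); ends of the strand: φ T.lo = 1, φ (T.hi - 1) = 1. Crossing at j over
s: row y' = 0 and row y' = 2 are constant, rung: std = y s = (Ψ bottom)⁻¹ * Ψ top in both directions of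
crossing. Return line, end rows: all 1. The other squares of the discs have only labels 1 (u, v both not in
the base, e.g. v = 2, or u = 1 over v = 2). Same for the relators with u.
Cob → y s = 1: φ potential; at the height z = 2 T.lo the rows are constant, rung 0 has label y 0 = 1, so the
two rows have the same value, and the rung of s gives y s = 1. -/

set_option autoImplicit false

namespace Pool.Agent.MKD

open Pool.Agent.MK

namespace LabelEx

variable {Γ : Type} [Group Γ]

open Classical in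
/-- The product along the boundary curve. -/
noncomputable def Psi (T : Str) (φ : ℤ → Γ) (x y z : ℤ) : Γ :=
  if x < 0 ∨ z / 2 ≤ T.lo ∨ T.hi ≤ z / 2 then 1
  else if (y = 2 ↔ T.pos (z / 2 - 1) = true) then φ (z / 2 - 1) else φ (z / 2)

/-- The boundary curve. -/
def Bc (k : Bool) (T : Str) (x y z : ℤ) : Prop :=
  (x = 0 ∧ y = 0 ∧ T.at_ false z) ∨ (x = 0 ∧ y = 2 ∧ T.at_ true z) ∨
  (x = rt k ∧ y = 0 ∧ 2 * T.lo ≤ z ∧ z ≤ 2 * T.hi) ∨
  (y = 0 ∧ rt k ≤ x ∧ x ≤ 0 ∧ (z = 2 * T.lo ∨ z = 2 * T.hi)) ∨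
  ∃ s, T.cross s z ∧ arc s x y

theorem rt_even (k : Bool) : rt k % 2 = 0 ∧ rt k < 0 := by
  cases k <;> simp [rt]

theorem l0 {k : Bool} {T : Str} {x y z : ℤ} (φ : ℤ → Γ) (hx : x % 2 = 1)
    (h : Bc k T x y z) : Psi T φ (x - 1) y z = Psi T φ (x + 1) y z := by
  rcases h with ⟨h, -, -⟩ | ⟨h, -, -⟩ | ⟨h, -, -⟩ | ⟨-, -, -, h⟩ | ⟨s, -, h⟩
  · omega
  · omega
  · have := (rt_even k).1
    omega
  · have h1 : x - 1 < 0 ∨ z / 2 ≤ T.lo ∨ T.hi ≤ z / 2 := by omega
    have h2 : x + 1 < 0 ∨ z / 2 ≤ T.lo ∨ T.hi ≤ z / 2 := by omega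
    rw [Psi, Psi, if_pos h1, if_pos h2]
  · have h0 : 1 ≤ x := by
      rcases h with h | h | h <;> omega
    have h1 : (x - 1 < 0) = False := by
      simp only [eq_iff_iff, iff_false]
      omega
    have h2 : (x + 1 < 0) = False := by
      simp only [eq_iff_iff, iff_false]
      omega
    simp only [Psi, h1, h2]

theorem l1 {m : ℕ} {k : Bool} {T : Str} (ok : T.OK m) {x y z : ℤ} {φ : ℤ → Γ} {w : ℕ → Γ}
    (hφ : HolOK T w φ) (hy : y % 2 = 1)
    (h : Bc k T x y z) : w (x / 2).toNat = (Psi T φ x (y - 1) z)⁻¹ * Psi T φ x (y + 1) z := by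
  rcases h with ⟨-, h, -⟩ | ⟨-, h, -⟩ | ⟨-, h, -⟩ | ⟨h, -, -, -⟩ | ⟨s, hc, h⟩
  · omega
  · omega
  · omega
  · omega
  · obtain ⟨hz, hc⟩ := hc
    have hx : x = 2 * s ∧ y = 1 := by
      rcases h with h | h | h <;> omega
    obtain ⟨rfl, rfl⟩ := hx
    have hs : ((2 * (s : ℤ)) / 2).toNat = s := by omega
    rw [hs]
    set j := z / 2 with hj
    have hlo : T.lo < j := by
      by_contra hcon
      have := ok.out j (Or.inl (not_lt.mp hcon))
      omega
    have hhi : j < T.hi := by
      by_contra hcon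
      have := ok.out j (Or.inr (not_lt.mp hcon))
      omega
    have hst := hφ.step j hlo hhi
    have hsv : stepV T w j = if T.pos (j - 1) then (w s)⁻¹ else w s := by
      unfold stepV
      rw [hc]
    rw [hsv] at hst
    have hn : ¬ ((2 * (s : ℤ)) < 0 ∨ j ≤ T.lo ∨ T.hi ≤ j) := by omega
    simp only [Psi, ← hj, if_neg hn]
    by_cases hp : T.pos (j - 1) = true
    · simp only [hp, if_true] at hst
      simp only [hp]
      norm_num
      rw [hst]
      group
    · simp only [hp] at hst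
      simp only [hp]
      norm_num
      norm_num at hst
      rw [hst]
      group

theorem l2 {m : ℕ} {k : Bool} {T : Str} (ok : T.OK m) {x y z : ℤ} {φ : ℤ → Γ} {w : ℕ → Γ}
    (hφ : HolOK T w φ) (hz : z % 2 = 1)
    (h : Bc k T x y z) : Psi T φ x y (z - 1) = Psi T φ x y (z + 1) := by
  have e1 : (z - 1) / 2 = z / 2 := by omega
  have e2 : (z + 1) / 2 = z / 2 + 1 := by omega
  have key : ∀ β : Bool, x = 0 → (y = 2 ↔ β = true) → T.at_ β z →
      Psi T φ x y (z - 1) = Psi T φ x y (z + 1) := by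
    intro β hx hy hat
    rcases hat with ⟨ha, hb, hc⟩ | ⟨ha, -⟩
    swap
    · omega
    have key1 : Psi T φ x y (z - 1) = φ (z / 2) := by
      rw [Psi, e1]
      by_cases hl : z / 2 = T.lo
      · rw [if_pos (by omega), hl, hφ.lo]
      · rw [if_neg (by omega)]
        have hlo : T.lo < z / 2 := by omega
        by_cases hpp : (y = 2 ↔ T.pos (z / 2 - 1) = true)
        · rw [if_pos hpp]
          have heq : T.pos (z / 2 - 1) = T.pos (z / 2) := by
            rw [hc, Bool.eq_iff_iff, ← hpp, hy]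
          have h0 := (ok.iff _ hlo hb).mpr heq
          have hst := hφ.step _ hlo hb
          unfold stepV at hst
          rw [h0] at hst
          rw [hst]
          simp
        · rw [if_neg hpp]
    have key2 : Psi T φ x y (z + 1) = φ (z / 2) := by
      rw [Psi, e2]
      have e3 : z / 2 + 1 - 1 = z / 2 := by omega
      rw [e3]
      by_cases hl : z / 2 + 1 = T.hi
      · rw [if_pos (by omega)]
        have : z / 2 = T.hi - 1 := by omega
        rw [this, hφ.hi]
      · rw [if_neg (by omega), if_pos (by rw [hc]; exact hy)]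
    rw [key1, key2]
  rcases h with ⟨h, h', h''⟩ | ⟨h, h', h''⟩ | ⟨h, -, -⟩ | ⟨-, -, -, h⟩ | ⟨s, ⟨hc, -⟩, -⟩
  · exact key false h (by rw [h']; simp) h''
  · exact key true h (by rw [h']; simp) h''
  · have hr := (rt_even k).2
    rw [Psi, Psi, if_pos (Or.inl (by omega)), if_pos (Or.inl (by omega))]
  · omega
  · omega

/-- Cells with `v` odd. -/
theorem mem3 {m : ℕ} {rs : List Str} {T : Str} {q : P} (hq : q ∈ XX m rs T) (h3 : q 3 % 2 = 1) :
    q 3 = 1 ∧ q 4 = 0 ∧ Bc true T (q 0) (q 1) (q 2) := by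
  rcases hq with (hq | ⟨r, -, hq⟩) | hq
  · have := hq.2.2.1
    omega
  · exfalso
    have hnu : ∀ u v : ℤ, nuP false u v → v = 0 := by
      intro u v h
      rcases h with ⟨h, -⟩ | h
      · cases h
      · exact h.2.1
    have hen : ∀ u v : ℤ, en false u v → v = 0 := by
      intro u v h
      simpa using h.2
    rcases hq with h | h | h | h | h | h | ⟨s, h⟩ | ⟨s, h⟩
    · have := hnu _ _ h.2.2.1
      omega
    · have := hnu _ _ h.2.2.1
      omega
    · have := hen _ _ h.1
      omega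
    · have := hen _ _ h.1
      omega
    · have := hnu _ _ h.2.2.1
      omega
    · have := hnu _ _ h.2.2.2.1
      omega
    · have := hnu _ _ h.2.2
      omega
    · have := hen _ _ h.2.2
      omega
  · have hnu : ∀ u v : ℤ, nuP true u v → v % 2 = 1 → v = 1 ∧ u = 0 := by
      intro u v h h2
      rcases h with ⟨-, h⟩ | ⟨h, -⟩
      · omega
      · cases h
    have hen : ∀ u v : ℤ, en true u v → v = 2 := by
      intro u v h
      simpa using h.2
    rcases hq with h | h | h | h | h | h | ⟨s, h⟩ | ⟨s, h⟩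
    · have h' := hnu _ _ h.2.2.1 h3
      exact ⟨h'.1, h'.2, Or.inl ⟨h.1, h.2.1, h.2.2.2⟩⟩
    · have h' := hnu _ _ h.2.2.1 h3
      exact ⟨h'.1, h'.2, Or.inr (Or.inl ⟨h.1, h.2.1, h.2.2.2⟩)⟩
    · have := hen _ _ h.1
      omega
    · have := hen _ _ h.1
      omega
    · have h' := hnu _ _ h.2.2.1 h3
      exact ⟨h'.1, h'.2, Or.inr (Or.inr (Or.inl ⟨h.1, h.2.1, h.2.2.2⟩))⟩
    · have h' := hnu _ _ h.2.2.2.1 h3
      exact ⟨h'.1, h'.2, Or.inr (Or.inr (Or.inr (Or.inl ⟨h.1, h.2.1, h.2.2.1, h.2.2.2.2⟩)))⟩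
    · have h' := hnu _ _ h.2.2 h3
      exact ⟨h'.1, h'.2, Or.inr (Or.inr (Or.inr (Or.inr ⟨s, h.1, h.2.1⟩)))⟩
    · have := hen _ _ h.2.2
      omega

/-- Cells with `u` odd. -/
theorem mem4 {m : ℕ} {rs : List Str} {T : Str} (okr : ∀ r ∈ rs, r.OK m)
    {q : P} (hq : q ∈ XX m rs T) (h4 : q 4 % 2 = 1) :
    (q 3 = 2 ∧ q 4 = 1) ∨ (q 3 = 0 ∧ q 4 = 1 ∧ ∃ r ∈ rs, 2 * r.lo ≤ q 2 ∧ q 2 ≤ 2 * r.hi ∧
      Bc false r (q 0) (q 1) (q 2)) := by
  rcases hq with (hq | ⟨r, hr, hq⟩) | hq
  · have := hq.2.1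
    omega
  · right
    have hnu : ∀ u v : ℤ, nuP false u v → u % 2 = 1 → v = 0 ∧ u = 1 := by
      intro u v h h2
      rcases h with ⟨h, -⟩ | h
      · cases h
      · omega
    have hen : ∀ u v : ℤ, en false u v → u = 2 := by
      intro u v h
      exact h.1
    have hat : ∀ β z, r.at_ β z → 2 * r.lo ≤ z ∧ z ≤ 2 * r.hi := by
      intro β z h
      rcases h with h | h
      · omega
      · omega
    have hcr : ∀ s z, r.cross s z → 2 * r.lo ≤ z ∧ z ≤ 2 * r.hi := by
      intro s z h
      obtain ⟨h1, h2⟩ := h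
      have hlo : r.lo < z / 2 := by
        by_contra hcon
        have := (okr r hr).out (z / 2) (Or.inl (not_lt.mp hcon))
        omega
      have hhi : z / 2 < r.hi := by
        by_contra hcon
        have := (okr r hr).out (z / 2) (Or.inr (not_lt.mp hcon))
        omega
      omega
    have hlt := (okr r hr).lt
    rcases hq with h | h | h | h | h | h | ⟨s, h⟩ | ⟨s, h⟩
    · have h' := hnu _ _ h.2.2.1 h4
      exact ⟨h'.1, h'.2, r, hr, (hat _ _ h.2.2.2).1, (hat _ _ h.2.2.2).2,
        Or.inl ⟨h.1, h.2.1, h.2.2.2⟩⟩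
    · have h' := hnu _ _ h.2.2.1 h4
      exact ⟨h'.1, h'.2, r, hr, (hat _ _ h.2.2.2).1, (hat _ _ h.2.2.2).2,
        Or.inr (Or.inl ⟨h.1, h.2.1, h.2.2.2⟩)⟩
    · have := hen _ _ h.1
      omega
    · have := hen _ _ h.1
      omega
    · have h' := hnu _ _ h.2.2.1 h4
      exact ⟨h'.1, h'.2, r, hr, h.2.2.2.1, h.2.2.2.2,
        Or.inr (Or.inr (Or.inl ⟨h.1, h.2.1, h.2.2.2⟩))⟩
    · have h' := hnu _ _ h.2.2.2.1 h4
      refine ⟨h'.1, h'.2, r, hr, ?_, ?_,
        Or.inr (Or.inr (Or.inr (Or.inl ⟨h.1, h.2.1, h.2.2.1, h.2.2.2.2⟩)))⟩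
      · have := h.2.2.2.2
        omega
      · have := h.2.2.2.2
        omega
    · have h' := hnu _ _ h.2.2 h4
      exact ⟨h'.1, h'.2, r, hr, (hcr _ _ h.1).1, (hcr _ _ h.1).2,
        Or.inr (Or.inr (Or.inr (Or.inr ⟨s, h.1, h.2.1⟩)))⟩
    · have := hen _ _ h.2.2
      omega
  · left
    have hnu : ∀ u v : ℤ, nuP true u v → u % 2 = 1 → v = 2 ∧ u = 1 := by
      intro u v h h2
      rcases h with ⟨-, h⟩ | ⟨h, -⟩
      · omega
      · cases h
    have hen : ∀ u v : ℤ, en true u v → u = 2 := by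
      intro u v h
      exact h.1
    rcases hq with h | h | h | h | h | h | ⟨s, h⟩ | ⟨s, h⟩
    · exact hnu _ _ h.2.2.1 h4
    · exact hnu _ _ h.2.2.1 h4
    · have := hen _ _ h.1
      omega
    · have := hen _ _ h.1
      omega
    · exact hnu _ _ h.2.2.1 h4
    · exact hnu _ _ h.2.2.2.1 h4
    · exact hnu _ _ h.2.2 h4
    · have := hen _ _ h.2.2
      omega

/-- No squares of the ladder. -/
theorem mem01 {m : ℕ} {rs : List Str} {T : Str} {q : P} (hq : q ∈ XX m rs T) (h0 : q 0 % 2 = 1)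
    (h1 : q 1 % 2 = 1) : q 4 = 2 := by
  have harc : ∀ (s : ℕ) (x y : ℤ), arc s x y → x % 2 = 1 → y % 2 = 1 → False := by
    intro s x y h hx hy
    rcases h with h | h | h <;> omega
  have hdisc : ∀ (k : Bool) (r : Str), q ∈ disc k r → q 4 = 2 := by
    intro k r hq
    rcases hq with h | h | h | h | h | h | ⟨s, h⟩ | ⟨s, h⟩
    · omega
    · omega
    · omega
    · omega
    · omega
    · omega
    · exact (harc _ _ _ h.2.1 h0 h1).elim
    · exact h.2.2.1
  rcases hq with (hq | ⟨r, -, hq⟩) | hq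
  · exfalso
    rcases hq.1 with h | h | h <;> omega
  · exact hdisc _ _ hq
  · exact hdisc _ _ hq

/-- The labels over the relators. -/
theorem exG {m : ℕ} {rs : List Str} {T : Str} (h : Adm m rs T) (w : ℕ → Γ)
    (hr : ∀ r ∈ rs, Triv r w) : ∃ G : ℤ → ℤ → ℤ → Γ, ∀ r ∈ rs, ∃ φ, HolOK r w φ ∧
      ∀ x y z, 2 * r.lo ≤ z → z ≤ 2 * r.hi → G x y z = Psi r φ x y z := by
  classical
  choose φ hφ using hr
  have huniq : ∀ r ∈ rs, ∀ r' ∈ rs, r = r' ∨ r.hi < r'.lo ∨ r'.hi < r.lo := by
    have hsym : Std.Symm (fun x y : Str => x = y ∨ x.hi < y.lo ∨ y.hi < x.lo) := by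
      constructor
      intro a b hab
      rcases hab with hab | hab | hab
      · exact Or.inl hab.symm
      · exact Or.inr (Or.inr hab)
      · exact Or.inr (Or.inl hab)
    apply List.Pairwise.forall_of_forall
    · intro x _
      exact Or.inl rfl
    · exact h.disj.imp (fun hab => Or.inr (Or.inl hab))
  refine ⟨fun x y z => if hz : ∃ r, ∃ _ : r ∈ rs, 2 * r.lo ≤ z ∧ z ≤ 2 * r.hi then
    Psi hz.choose (φ _ hz.choose_spec.choose) x y z else 1, ?_⟩
  intro r hr
  refine ⟨φ r hr, hφ r hr, ?_⟩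
  intro x y z h1 h2
  have hz : ∃ r, ∃ _ : r ∈ rs, 2 * r.lo ≤ z ∧ z ≤ 2 * r.hi := ⟨r, hr, h1, h2⟩
  simp only [dif_pos hz]
  have hsp := hz.choose_spec.choose_spec
  have hmem := hz.choose_spec.choose
  have heq : hz.choose = r := by
    rcases huniq _ hmem _ hr with h' | h' | h'
    · exact h'
    · omega
    · omega
  have gen : ∀ (a b : Str) (ha : a ∈ rs) (hb : b ∈ rs), a = b →
      Psi a (φ a ha) x y z = Psi b (φ b hb) x y z := by
    intro a b ha hb hab
    subst hab
    rfl
  exact gen _ _ _ _ heq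

/-- The labelling. -/
noncomputable def Lam (w : ℕ → Γ) (F G : ℤ → ℤ → ℤ → Γ) (q : P) : Γ :=
  if q 3 = 0 ∧ q 4 = 0 then std w q
  else if q 3 = 1 ∧ q 4 = 0 then (F (q 0) (q 1) (q 2))⁻¹
  else if q 3 = 0 ∧ q 4 = 1 then (G (q 0) (q 1) (q 2))⁻¹
  else 1

theorem lam0 (w : ℕ → Γ) (F G : ℤ → ℤ → ℤ → Γ) (q : P) (h : q 3 = 0 ∧ q 4 = 0) :
    Lam w F G q = std w q := by
  rw [Lam, if_pos h]

theorem lam3 (w : ℕ → Γ) (F G : ℤ → ℤ → ℤ → Γ) (q : P) (h : q 3 = 1 ∧ q 4 = 0) :
    Lam w F G q = (F (q 0) (q 1) (q 2))⁻¹ := by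
  rw [Lam, if_neg (by omega), if_pos h]

theorem lam4 (w : ℕ → Γ) (F G : ℤ → ℤ → ℤ → Γ) (q : P) (h : q 3 = 0 ∧ q 4 = 1) :
    Lam w F G q = (G (q 0) (q 1) (q 2))⁻¹ := by
  rw [Lam, if_neg (by omega), if_neg (by omega), if_pos h]

theorem lam1 (w : ℕ → Γ) (F G : ℤ → ℤ → ℤ → Γ) (q : P) (h : q 3 = 2 ∨ q 4 = 2 ∨ q 3 < 0 ∨ q 3 > 1 ∨ q 4 < 0 ∨ q 4 > 1) :
    Lam w F G q = 1 := by
  rw [Lam, if_neg (by omega), if_neg (by omega), if_neg (by omega)]

theorem e_same (i : Fin 5) : e i i = 1 := by simp [e]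

theorem e_ne {i j : Fin 5} (h : j ≠ i) : e i j = 0 := by simp [e, h]

theorem sub_same (q : P) (i : Fin 5) : (q - e i) i = q i - 1 := by
  simp [e]

theorem add_same (q : P) (i : Fin 5) : (q + e i) i = q i + 1 := by
  simp [e]

theorem sub_ne (q : P) {i j : Fin 5} (h : j ≠ i) : (q - e i) j = q j := by
  simp [e, h]

theorem add_ne (q : P) {i j : Fin 5} (h : j ≠ i) : (q + e i) j = q j := by
  simp [e, h]

theorem mod_of_odd {a : ℤ} (h : Odd a) : a % 2 = 1 := Int.odd_iff.mp h

theorem mod_of_not_odd {a : ℤ} (h : ¬ Odd a) : a % 2 = 0 := by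
  rw [Int.odd_iff] at h
  omega

/-- Flatness over a boundary curve. -/
theorem side {m : ℕ} {k : Bool} {T : Str} (ok : T.OK m) {φ : ℤ → Γ} {w : ℕ → Γ}
    (hφ : HolOK T w φ) {q : P} {i : Fin 5} (hi : i < 3) (hodd : q i % 2 = 1)
    (hev : ∀ l : Fin 5, l < 3 → l ≠ i → q l % 2 = 0)
    (h : Bc k T (q 0) (q 1) (q 2)) :
    std w q * (Psi T φ ((q + e i) 0) ((q + e i) 1) ((q + e i) 2))⁻¹ =
      (Psi T φ ((q - e i) 0) ((q - e i) 1) ((q - e i) 2))⁻¹ := by
  have hi3 : i = 0 ∨ i = 1 ∨ i = 2 := by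
    fin_cases i <;> simp_all
  rcases hi3 with rfl | rfl | rfl
  · have h1 := hev 1 (by decide) (by decide)
    have hstd : std w q = 1 := by
      rw [std, if_neg]
      rw [Int.odd_iff]
      omega
    rw [hstd, one_mul, add_same, sub_same, add_ne q (by decide : (1 : Fin 5) ≠ 0),
      add_ne q (by decide : (2 : Fin 5) ≠ 0), sub_ne q (by decide : (1 : Fin 5) ≠ 0),
      sub_ne q (by decide : (2 : Fin 5) ≠ 0), l0 φ hodd h]
  · have hstd : std w q = w (q 0 / 2).toNat := by
      rw [std, if_pos (Int.odd_iff.mpr hodd)]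
    rw [hstd, add_same, sub_same, add_ne q (by decide : (0 : Fin 5) ≠ 1),
      add_ne q (by decide : (2 : Fin 5) ≠ 1), sub_ne q (by decide : (0 : Fin 5) ≠ 1),
      sub_ne q (by decide : (2 : Fin 5) ≠ 1), l1 ok hφ hodd h]
    group
  · have h1 := hev 1 (by decide) (by decide)
    have hstd : std w q = 1 := by
      rw [std, if_neg]
      rw [Int.odd_iff]
      omega
    rw [hstd, one_mul, add_same, sub_same, add_ne q (by decide : (0 : Fin 5) ≠ 2),
      add_ne q (by decide : (1 : Fin 5) ≠ 2), sub_ne q (by decide : (0 : Fin 5) ≠ 2),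
      sub_ne q (by decide : (1 : Fin 5) ≠ 2), l2 ok hφ hodd h]

theorem flat {m : ℕ} {rs : List Str} {T : Str} (h : Adm m rs T)
    (w : ℕ → Γ) {φ : ℤ → Γ} (hφ : HolOK T w φ) {G : ℤ → ℤ → ℤ → Γ}
    (hG : ∀ r ∈ rs, ∃ φ, HolOK r w φ ∧
      ∀ x y z, 2 * r.lo ≤ z → z ≤ 2 * r.hi → G x y z = Psi r φ x y z) :
    Flat (XX m rs T) (Lam w (Psi T φ) G) := by
  intro q hq i j hij hd
  have hi : q i % 2 = 1 := by
    have : i ∈ dirs q := by rw [hd]; simp
    simp only [dirs, Finset.mem_filter, Finset.mem_univ, true_and] at this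
    exact mod_of_odd this
  have hj : q j % 2 = 1 := by
    have : j ∈ dirs q := by rw [hd]; simp
    simp only [dirs, Finset.mem_filter, Finset.mem_univ, true_and] at this
    exact mod_of_odd this
  have hk : ∀ l : Fin 5, l ≠ i → l ≠ j → q l % 2 = 0 := by
    intro l h1 h2
    have : l ∉ dirs q := by rw [hd]; simp [h1, h2]
    simp only [dirs, Finset.mem_filter, Finset.mem_univ, true_and] at this
    exact mod_of_not_odd this
  have hne : i ≠ j := ne_of_lt hij
  by_cases hj4 : j = 4
  · subst hj4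
    rcases mem4 h.okr hq hj with ⟨h3, h4⟩ | ⟨h3, h4, r, hr, hz1, hz2, hbc⟩
    · have hi3 : i ≠ 3 := by
        rintro rfl
        omega
      have hi4 : i ≠ 4 := hne
      rw [lam1, lam1, lam1, lam1]
      · right; right; right; left
        rw [add_ne q (by decide : (3 : Fin 5) ≠ 4)]
        omega
      · right; right; right; left
        rw [sub_ne q hi3.symm]
        omega
      · right; right; right; left
        rw [add_ne q hi3.symm]
        omega
      · right; right; right; left
        rw [sub_ne q (by decide : (3 : Fin 5) ≠ 4)]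
        omega
    · have hi3 : i ≠ 3 := by
        rintro rfl
        omega
      have hi4 : i ≠ 4 := hne
      have hlt3 : i < 3 := by
        fin_cases i <;> simp_all
      rw [lam0 w _ G (q - e 4) (by
          rw [sub_ne q (by decide : (3 : Fin 5) ≠ 4), sub_same]
          omega),
        lam4 w _ G (q + e i) (by
          rw [add_ne q hi3.symm, add_ne q hi4.symm]
          exact ⟨h3, h4⟩),
        lam4 w _ G (q - e i) (by
          rw [sub_ne q hi3.symm, sub_ne q hi4.symm]
          exact ⟨h3, h4⟩),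
        lam1 w _ G (q + e 4) (by
          right; left
          rw [add_same]
          omega), mul_one]
      obtain ⟨φ', hφ', hG'⟩ := hG r hr
      have hza : 2 * r.lo ≤ (q + e i) 2 ∧ (q + e i) 2 ≤ 2 * r.hi := by
        by_cases hi2 : i = 2
        · subst hi2
          rw [add_same]
          omega
        · rw [add_ne q (Ne.symm hi2)]
          exact ⟨hz1, hz2⟩
      have hzb : 2 * r.lo ≤ (q - e i) 2 ∧ (q - e i) 2 ≤ 2 * r.hi := by
        by_cases hi2 : i = 2
        · subst hi2
          rw [sub_same]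
          omega
        · rw [sub_ne q (Ne.symm hi2)]
          exact ⟨hz1, hz2⟩
      rw [hG' _ _ _ hza.1 hza.2, hG' _ _ _ hzb.1 hzb.2]
      have hstd : std w (q - e 4) = std w q := by
        rw [std, std, sub_ne q (by decide : (0 : Fin 5) ≠ 4), sub_ne q (by decide : (1 : Fin 5) ≠ 4)]
      rw [hstd]
      refine side (h.okr r hr) hφ' hlt3 hi ?_ hbc
      intro l hl hli
      exact hk l hli (by rintro rfl; exact absurd hl (by decide))
  · by_cases hj3 : j = 3
    · subst hj3
      obtain ⟨h3, h4, hbc⟩ := mem3 hq hj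
      have hi3 : i ≠ 3 := hne
      have hi4 : i ≠ 4 := by
        rintro rfl
        exact absurd hij (by decide)
      rw [lam0 w _ G (q - e 3) (by
          rw [sub_ne q (by decide : (4 : Fin 5) ≠ 3), sub_same]
          omega),
        lam3 w _ G (q + e i) (by
          rw [add_ne q hi3.symm, add_ne q hi4.symm]
          exact ⟨h3, h4⟩),
        lam3 w _ G (q - e i) (by
          rw [sub_ne q hi3.symm, sub_ne q hi4.symm]
          exact ⟨h3, h4⟩),
        lam1 w _ G (q + e 3) (by
          left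
          rw [add_same]
          omega), mul_one]
      have hstd : std w (q - e 3) = std w q := by
        rw [std, std, sub_ne q (by decide : (0 : Fin 5) ≠ 3), sub_ne q (by decide : (1 : Fin 5) ≠ 3)]
      rw [hstd]
      refine side h.okT hφ hij hi ?_ hbc
      intro l hl hli
      exact hk l hli (by rintro rfl; exact absurd hl (by decide))
    · have hj2 : j < 3 := by
        fin_cases j <;> simp_all
      have hi3 : i ≠ 3 := by
        rintro rfl
        exact absurd (hij.trans hj2) (by decide)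
      have hi4 : i ≠ 4 := by
        rintro rfl
        exact absurd (hij.trans hj2) (by decide)
      have h3 := hk 3 hi3.symm (Ne.symm hj3)
      have h4 := hk 4 hi4.symm (Ne.symm hj4)
      have c1 := sub_ne q (Ne.symm hj3)
      have c2 := add_ne q (Ne.symm hj3)
      have c3 := sub_ne q hi3.symm
      have c4 := add_ne q hi3.symm
      have d1 := sub_ne q (Ne.symm hj4)
      have d2 := add_ne q (Ne.symm hj4)
      have d3 := sub_ne q hi4.symm
      have d4 := add_ne q hi4.symm
      by_cases hb : q 3 = 0 ∧ q 4 = 0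
      · rw [lam0 w _ G (q - e j) (by rw [c1, d1]; exact hb),
          lam0 w _ G (q + e i) (by rw [c4, d4]; exact hb),
          lam0 w _ G (q - e i) (by rw [c3, d3]; exact hb),
          lam0 w _ G (q + e j) (by rw [c2, d2]; exact hb)]
        have hcases : (i = 0 ∧ j = 1) ∨ (i = 0 ∧ j = 2) ∨ (i = 1 ∧ j = 2) := by
          fin_cases i <;> fin_cases j <;> simp_all
        rcases hcases with ⟨rfl, rfl⟩ | ⟨rfl, rfl⟩ | ⟨rfl, rfl⟩
        · have := mem01 hq hi hj
          omega
        · have h1 := hk 1 (by decide) (by decide)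
          have gen : ∀ p : P, p 1 = q 1 → std w p = 1 := by
            intro p hp
            rw [std, if_neg]
            rw [Int.odd_iff]
            omega
          rw [gen _ (sub_ne q (by decide)), gen _ (add_ne q (by decide)),
            gen _ (sub_ne q (by decide)), gen _ (add_ne q (by decide))]
        · have gen : ∀ p : P, p 1 = q 1 → p 0 = q 0 → std w p = w (q 0 / 2).toNat := by
            intro p hp hp'
            rw [std, if_pos, hp']
            rw [Int.odd_iff]
            omega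
          have gen' : ∀ p : P, p 1 % 2 = 0 → std w p = 1 := by
            intro p hp
            rw [std, if_neg]
            rw [Int.odd_iff]
            omega
          rw [gen (q - e 2) (sub_ne q (by decide)) (sub_ne q (by decide)),
            gen (q + e 2) (add_ne q (by decide)) (add_ne q (by decide)),
            gen' (q + e 1) (by rw [add_same]; omega),
            gen' (q - e 1) (by rw [sub_same]; omega)]
          simp
      · rw [lam1, lam1, lam1, lam1]
        · rw [c2, d2]
          omega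
        · rw [c3, d3]
          omega
        · rw [c4, d4]
          omega
        · rw [c1, d1]
          omega

theorem cob {m : ℕ} {rs : List Str} {T : Str} (h : Adm m rs T)
    (w : ℕ → Γ) (w0 : w 0 = 1) {F G : ℤ → ℤ → ℤ → Γ}
    (hc : Cob (XX m rs T) (Lam w F G)) : ∀ s ≤ m, w s = 1 := by
  obtain ⟨φ, hφ⟩ := hc
  set c : ℤ → ℤ → P := fun x y => ![x, y, 2 * T.lo, 0, 0] with hcd
  have hlt := h.okT.lt
  have hmem : ∀ x y, lad m x y → c x y ∈ XX m rs T := by
    intro x y hl
    left; left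
    refine ⟨hl, rfl, rfl, ?_, ?_⟩
    · show 2 * T.lo ≤ 2 * T.lo
      exact le_refl _
    · show 2 * T.lo ≤ 2 * T.hi
      omega
  have hlam : ∀ x y, Lam w F G (c x y) = std w (c x y) := by
    intro x y
    exact lam0 _ _ _ _ ⟨rfl, rfl⟩
  have hs0 : ∀ x y, c x y - e 0 = c (x - 1) y := by
    intro x y
    funext i
    fin_cases i <;> simp [hcd, e]
  have ha0 : ∀ x y, c x y + e 0 = c (x + 1) y := by
    intro x y
    funext i
    fin_cases i <;> simp [hcd, e]
  have hs1 : ∀ x y, c x y - e 1 = c x (y - 1) := by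
    intro x y
    funext i
    fin_cases i <;> simp [hcd, e]
  have ha1 : ∀ x y, c x y + e 1 = c x (y + 1) := by
    intro x y
    funext i
    fin_cases i <;> simp [hcd, e]
  have hd0 : ∀ x y, x % 2 = 1 → y % 2 = 0 → dirs (c x y) = {0} := by
    intro x y hx hy
    ext i
    simp only [dirs, Finset.mem_filter, Finset.mem_univ, true_and, Finset.mem_singleton]
    fin_cases i
    · simp [hcd, Int.odd_iff, hx]
    · simp [hcd, Int.odd_iff, hy]
    · simp [hcd, Int.odd_iff]
    · simp [hcd, Int.odd_iff]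
    · simp [hcd, Int.odd_iff]
  have hd1 : ∀ x y, x % 2 = 0 → y % 2 = 1 → dirs (c x y) = {1} := by
    intro x y hx hy
    ext i
    simp only [dirs, Finset.mem_filter, Finset.mem_univ, true_and, Finset.mem_singleton]
    fin_cases i
    · simp [hcd, Int.odd_iff, hx]
    · simp [hcd, Int.odd_iff, hy]
    · simp [hcd, Int.odd_iff]
    · simp [hcd, Int.odd_iff]
    · simp [hcd, Int.odd_iff]
  have hrow : ∀ y : ℤ, (y = 0 ∨ y = 2) → ∀ s : ℕ, s ≤ m → φ (c (2 * s) y) = φ (c 0 y) := by
    intro y hy s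
    induction s with
    | zero => intro _; simp
    | succ s ih =>
      intro hs
      have hl : lad m (2 * (s : ℤ) + 1) y := by
        rcases hy with rfl | rfl
        · left
          refine ⟨rfl, ?_, ?_⟩
          · omega
          · omega
        · right; left
          refine ⟨rfl, ?_, ?_⟩
          · omega
          · omega
      have hq := hφ _ (hmem _ _ hl) 0 (hd0 _ _ (by omega) (by omega))
      rw [hlam, hs0, ha0] at hq
      have hstd : std w (c (2 * (s : ℤ) + 1) y) = 1 := by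
        rw [std, if_neg]
        show ¬ Odd y
        rw [Int.odd_iff]
        omega
      rw [hstd] at hq
      have e1 : 2 * (s : ℤ) + 1 - 1 = 2 * s := by ring
      have e2 : 2 * (s : ℤ) + 1 + 1 = 2 * ((s + 1 : ℕ) : ℤ) := by push_cast; ring
      rw [e1, e2] at hq
      have := (inv_mul_eq_one.mp hq.symm)
      rw [← this]
      exact ih (by omega)
  have hrung : ∀ s : ℕ, s ≤ m → w s = (φ (c (2 * s) 0))⁻¹ * φ (c (2 * s) 2) := by
    intro s hs
    have hl : lad m (2 * (s : ℤ)) 1 := by
      right; right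
      refine ⟨rfl, ?_, ?_, ?_⟩
      · omega
      · omega
      · omega
    have hq := hφ _ (hmem _ _ hl) 1 (hd1 _ _ (by omega) (by norm_num))
    rw [hlam, hs1, ha1] at hq
    have hstd : std w (c (2 * (s : ℤ)) 1) = w s := by
      have h1 : (c (2 * (s : ℤ)) 1) 1 = 1 := rfl
      have h0 : (c (2 * (s : ℤ)) 1) 0 = 2 * s := rfl
      rw [std, h1, h0, if_pos (by decide)]
      congr 1
      omega
    rw [hstd] at hq
    simpa using hq
  intro s hs
  have h0 := hrung 0 (Nat.zero_le _)
  rw [w0] at h0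
  have h0' : φ (c 0 0) = φ (c 0 2) := by
    have := inv_mul_eq_one.mp h0.symm
    simpa using this
  rw [hrung s hs, hrow 0 (Or.inl rfl) s hs, hrow 2 (Or.inr rfl) s hs, h0']
  simp

end LabelEx

theorem exists_label {m : ℕ} {rs : List Str} {T : Str} (h : Adm m rs T) {Γ : Type} [Group Γ]
    (y : ℕ → Γ) (y0 : y 0 = 1) (hr : ∀ r ∈ rs, Triv r y) (hT : Triv T y) :
    ∃ Λ : P → Γ, Flat (XX m rs T) Λ ∧ (Cob (XX m rs T) Λ → ∀ s ≤ m, y s = 1) := by
  obtain ⟨φ, hφ⟩ := hT
  obtain ⟨G, hG⟩ := LabelEx.exG h y hr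
  exact ⟨LabelEx.Lam y (LabelEx.Psi T φ) G, LabelEx.flat h y hφ hG,
    fun hc => LabelEx.cob h y y0 hc⟩

end Pool.Agent.MKD
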