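import Pool.Agent.MKD.WordEq
import Pool.Agent.MKD.GrpQuot
import Pool.Agent.MKD.Conv
import Pool.Agent.MKD.LabelEx
import Pool.Agent.MKD.AllCob
import Pool.Agent.MKD.ConnXX

/-! Module MKD/Fam: the family of complexes and its properties (D1)-(D4).

(D2): E w w' := ∀ a b, CE (conv (a ++ (w ++ b))) (conv (a ++ (w' ++ b))) with rl = rels.map (conv m);
`equiv_of_val`. Equivalence: CE_refl, CE_symm, CE_trans (wok_conv). x x⁻¹ ~ 1: conv is [g+1, 1, 1, g+1] or
[1, g+1, g+1, 1] or []: CE_cancel twice. r ~ 1: CE_relator with A = conv a (par A = false by wok_conv).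
Then E w w' with a = b = [] and the states (0, replicate N 0 ++ conv w), N = lenR rl.
(D3): y' s = y s for 1 ≤ s ≤ m, y' 0 = 1 (y' s = 1 for s = 0); cval_conv, cval_congr, triv_strOf, exists_label.
cval y β (replicate N 0 ++ W) = cval y β W.
(D4): all_cob gives y with y 0 = 1, Triv; by triv_strOf and cval_conv all val y r = 1 and val y w = 1; so y g = 1 for
g in 1..m, hence Cob. -/

set_option autoImplicit false

namespace Pool.Agent.MKD

open Pool.Agent.MK

/-- The complex of a word `w` (relators `rels`). -/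
def fam (m : ℕ) (rels : List (List (ℕ × Bool))) (w : List (ℕ × Bool)) : Set P :=
  XX m (rsOf 1 (rels.map (conv m)))
    (strOf 0 (List.replicate (lenR (rels.map (conv m))) 0 ++ conv m w))

private theorem wok27_append {m : ℕ} {A B : List ℕ} (hA : WOK m A) (hB : WOK m B) :
    WOK m (A ++ B) := by
  refine ⟨?_, ?_⟩
  · intro a ha
    rcases List.mem_append.1 ha with h | h
    · exact hA.1 a h
    · exact hB.1 a h
  · rw [par_append, hA.2, hB.2]
    rfl

private theorem wok27_zero (m N : ℕ) : WOK m (List.replicate N 0) := by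
  refine ⟨?_, ?_⟩
  · intro a ha
    rw [(List.mem_replicate.1 ha).2]
    omega
  · unfold par
    rw [List.countP_eq_zero.2]
    · rfl
    · intro a ha
      rw [(List.mem_replicate.1 ha).2]
      simp

private theorem wok27_two {m g : ℕ} (hg : g ≤ m) : WOK m [g + 1, g + 1] := by
  refine ⟨?_, ?_⟩
  · intro a ha
    simp only [List.mem_cons, List.not_mem_nil, or_false, or_self] at ha
    omega
  · unfold par
    simp

private theorem wok27_fam (m N : ℕ) (w : List (ℕ × Bool)) :
    WOK m (List.replicate N 0 ++ conv m w) := wok27_append (wok27_zero m N) (wok_conv m w)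

private theorem wok27_rels (m : ℕ) (rels : List (List (ℕ × Bool))) :
    ∀ ρ ∈ rels.map (conv m), WOK m ρ := by
  intro ρ hρ
  obtain ⟨r, -, rfl⟩ := List.mem_map.1 hρ
  exact wok_conv m r

private theorem fits27 (m : ℕ) (rels : List (List (ℕ × Bool))) (w : List (ℕ × Bool)) :
    Fits (rels.map (conv m)) 0
      (List.replicate (lenR (rels.map (conv m))) 0 ++ conv m w).length := by
  refine ⟨le_rfl, ?_⟩
  rw [List.length_append, List.length_replicate]
  push_cast
  omega

theorem adm_fam (m : ℕ) (rels : List (List (ℕ × Bool))) (w : List (ℕ × Bool)) :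
    Adm m (rsOf 1 (rels.map (conv m)))
      (strOf 0 (List.replicate (lenR (rels.map (conv m))) 0 ++ conv m w)) :=
  adm_strOf (wok27_rels m rels) (wok27_fam m _ w) (fits27 m rels w)

theorem fam_closed (m : ℕ) (rels : List (List (ℕ × Bool))) (w : List (ℕ × Bool)) :
    Closed (fam m rels w) ∧ (fam m rels w).Finite ∧ (∀ q ∈ fam m rels w, (dirs q).card ≤ 2) ∧
      GConn (fam m rels w) 0 ∧ Marks (fam m rels w) 0 := by
  have h := adm_fam m rels w
  refine ⟨closed_XX _ _ _ h, finite_XX _ _ _ h, card_XX _ _ _ h, gconn_XX h, zero_mem _ _ _ h, ?_⟩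
  intro hmem
  have h1 := u_nonneg _ _ _ _ hmem
  simp [e] at h1

private theorem nz27 (N : ℕ) (c : List ℕ) : nz (List.replicate N 0 ++ c) = nz c := by
  unfold nz
  rw [List.filter_append]
  have : (List.replicate N 0).filter (fun a => decide (a ≠ 0)) = [] := by
    rw [List.filter_eq_nil_iff]
    intro a ha
    rw [(List.mem_replicate.1 ha).2]
    simp
  rw [this, List.nil_append]

theorem fam_fe (m : ℕ) (rels : List (List (ℕ × Bool))) (w w' : List (ℕ × Bool))
    (h : ∀ (G : Type) [Group G] (y : ℕ → G), (∀ r ∈ rels, MKE.val y r = 1) →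
      MKE.val y w = MKE.val y w') : FE {F₀ 0} (K (fam m rels w)) (K (fam m rels w')) := by
  have hr := wok27_rels m rels
  have key := equiv_of_val (fun w w' => ∀ a b : List (ℕ × Bool),
    CE m (rels.map (conv m)) (conv m (a ++ (w ++ b))) (conv m (a ++ (w' ++ b))))
    ⟨fun w a b => CE_refl hr _, fun {w w'} h a b => CE_symm (h a b),
      fun {w w' w''} h h' a b => CE_trans (wok_conv m _) (h a b) (h' a b)⟩ ?_ ?_ rels ?_ w w' h
  · have h1 := key [] []
    rw [List.append_nil, List.append_nil, List.nil_append, List.nil_append] at h1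
    exact h1 0 0 _ _ (wok27_fam m _ w) (wok27_fam m _ w') (fits27 m rels w) (fits27 m rels w')
      (nz27 _ _) (nz27 _ _)
  · intro a b w w' h a' b'
    have h1 := h (a' ++ a) (b ++ b')
    simp only [List.append_assoc] at h1 ⊢
    exact h1
  · intro g b a b'
    rw [List.nil_append]
    have hconv : conv m (a ++ ([(g, b), (g, !b)] ++ b')) =
        conv m a ++ (convL m (g, b) ++ (convL m (g, !b) ++ conv m b')) := by
      rw [conv_append]
      simp [conv]
    rw [hconv, conv_append]
    by_cases hg : 1 ≤ g ∧ g ≤ m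
    · have ha := wok_conv m a
      have hb := wok_conv m b'
      cases b
      · have e1 : conv m a ++ (convL m (g, false) ++ (convL m (g, !false) ++ conv m b')) =
            (conv m a ++ [1]) ++ (g + 1) :: (g + 1) :: (1 :: conv m b') := by
          simp [convL, hg]
        have e2 : (conv m a ++ [1]) ++ (1 :: conv m b') =
            conv m a ++ (0 + 1) :: (0 + 1) :: conv m b' := by
          simp
        rw [e1]
        have w2 : WOK m (conv m a ++ (0 + 1) :: (0 + 1) :: conv m b') := by
          have : conv m a ++ (0 + 1) :: (0 + 1) :: conv m b' =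
            conv m a ++ ([0 + 1, 0 + 1] ++ conv m b') := by simp
          rw [this]
          exact wok27_append ha (wok27_append (wok27_two (by omega)) hb)
        refine CE_trans (c' := (conv m a ++ [1]) ++ (1 :: conv m b')) ?_ (CE_cancel hr ?_) ?_
        · rw [e2]; exact w2
        · rw [← e1, ← hconv]
          exact wok_conv m _
        · rw [e2]
          exact CE_cancel hr w2
      · have e1 : conv m a ++ (convL m (g, true) ++ (convL m (g, !true) ++ conv m b')) =
            (conv m a ++ [g + 1]) ++ (0 + 1) :: (0 + 1) :: ((g + 1) :: conv m b') := by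
          simp [convL, hg]
        have e2 : (conv m a ++ [g + 1]) ++ ((g + 1) :: conv m b') =
            conv m a ++ (g + 1) :: (g + 1) :: conv m b' := by
          simp
        rw [e1]
        have w2 : WOK m (conv m a ++ (g + 1) :: (g + 1) :: conv m b') := by
          have : conv m a ++ (g + 1) :: (g + 1) :: conv m b' =
            conv m a ++ ([g + 1, g + 1] ++ conv m b') := by simp
          rw [this]
          exact wok27_append ha (wok27_append (wok27_two hg.2) hb)
        refine CE_trans (c' := (conv m a ++ [g + 1]) ++ ((g + 1) :: conv m b')) ?_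
          (CE_cancel hr ?_) ?_
        · rw [e2]; exact w2
        · rw [← e1, ← hconv]
          exact wok_conv m _
        · rw [e2]
          exact CE_cancel hr w2
    · have e1 : convL m (g, b) = [] := by
        unfold convL
        rw [if_neg hg]
      have e2 : convL m (g, !b) = [] := by
        unfold convL
        rw [if_neg hg]
      rw [e1, e2, List.nil_append, List.nil_append]
      exact CE_refl hr _
  · intro r hrm a b
    rw [List.nil_append, conv_append, conv_append, conv_append]
    exact CE_relator hr (List.mem_map_of_mem hrm) (wok_conv m a).2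
      (wok27_append (wok_conv m a) (wok_conv m b))

private theorem cval27_zero {Γ : Type} [Group Γ] (y : ℕ → Γ) (β : Bool) (N : ℕ) (W : List ℕ) :
    cval y β (List.replicate N 0 ++ W) = cval y β W := by
  induction N with
  | zero => rfl
  | succ N ih =>
    rw [List.replicate_succ, List.cons_append]
    cases β <;> exact ih

private theorem val27_congr {G : Type} [Group G] {y y' : ℕ → G} {w : List (ℕ × Bool)}
    (h : ∀ x ∈ w, y x.1 = y' x.1) : MKE.val y w = MKE.val y' w := by
  unfold MKE.val
  rw [FreeGroup.lift_mk, FreeGroup.lift_mk]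
  congr 1
  apply List.map_congr_left
  intro x hx
  rw [h x hx]

theorem fam_label (m : ℕ) (rels : List (List (ℕ × Bool))) (w : List (ℕ × Bool))
    (hr : ∀ r ∈ rels, ∀ x ∈ r, 1 ≤ x.1 ∧ x.1 ≤ m) (hw : ∀ x ∈ w, 1 ≤ x.1 ∧ x.1 ≤ m)
    {G : Type} [Group G] (y : ℕ → G) (h1 : ∀ r ∈ rels, MKE.val y r = 1) (h2 : MKE.val y w = 1)
    (h3 : ∃ g, 1 ≤ g ∧ g ≤ m ∧ y g ≠ 1) :
    ∃ Λ : P → G, Flat (fam m rels w) Λ ∧ ¬ Cob (fam m rels w) Λ := by
  let y' : ℕ → G := fun s => if s = 0 then 1 else y s
  have hy0 : y' 0 = 1 := by simp [y']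
  have hyy : ∀ s, 1 ≤ s → y' s = y s := by
    intro s hs
    have : s ≠ 0 := by omega
    simp [y', this]
  have hval : ∀ v : List (ℕ × Bool), (∀ x ∈ v, 1 ≤ x.1 ∧ x.1 ≤ m) →
      MKE.val y' v = MKE.val y v := fun v hv => val27_congr fun x hx => hyy x.1 (hv x hx).1
  have hrs : ∀ r ∈ rsOf 1 (rels.map (conv m)), Triv r y' := by
    intro r hrm
    obtain ⟨l₁, ρ, l₂, hl, rfl⟩ := mem_rsOf.1 hrm
    have hρ : ρ ∈ rels.map (conv m) := by rw [hl]; simp
    obtain ⟨r0, hr0, rfl⟩ := List.mem_map.1 hρ
    rw [triv_strOf (wok_conv m r0), cval_conv m y' hy0 r0 (hr r0 hr0), hval r0 (hr r0 hr0)]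
    exact h1 r0 hr0
  have hT : Triv (strOf 0 (List.replicate (lenR (rels.map (conv m))) 0 ++ conv m w)) y' := by
    rw [triv_strOf (wok27_fam m _ w), cval27_zero, cval_conv m y' hy0 w hw, hval w hw]
    exact h2
  obtain ⟨Λ, hΛ1, hΛ2⟩ := exists_label (adm_fam m rels w) y' hy0 hrs hT
  refine ⟨Λ, hΛ1, fun hC => ?_⟩
  obtain ⟨g, hg1, hg2, hg3⟩ := h3
  apply hg3
  rw [← hyy g hg1]
  exact hΛ2 hC g hg2

theorem fam_cob (m : ℕ) (rels : List (List (ℕ × Bool))) (w : List (ℕ × Bool))
    (hr : ∀ r ∈ rels, ∀ x ∈ r, 1 ≤ x.1 ∧ x.1 ≤ m) (hw : ∀ x ∈ w, 1 ≤ x.1 ∧ x.1 ≤ m)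
    (h : ∀ (G : Type) [Group G] (y : ℕ → G), (∀ r ∈ rels, MKE.val y r = 1) → MKE.val y w = 1 →
      ∀ g, 1 ≤ g → g ≤ m → y g = 1)
    {Γ : Type} [Group Γ] (Λ : P → Γ) (hF : Flat (fam m rels w) Λ) : Cob (fam m rels w) Λ := by
  obtain ⟨y, hy0, hrs, hT, hC⟩ := all_cob (adm_fam m rels w) Λ hF
  have h1 : ∀ r ∈ rels, MKE.val y r = 1 := by
    intro r hrm
    have hρ : conv m r ∈ rels.map (conv m) := List.mem_map_of_mem hrm
    obtain ⟨l₁, l₂, hl⟩ := List.append_of_mem hρ
    have h2 := hrs _ (mem_rsOf.2 ⟨l₁, conv m r, l₂, hl, rfl⟩)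
    rw [triv_strOf (wok_conv m r), cval_conv m y hy0 r (hr r hrm)] at h2
    exact h2
  have h2 : MKE.val y w = 1 := by
    rw [triv_strOf (wok27_fam m _ w), cval27_zero, cval_conv m y hy0 w hw] at hT
    exact hT
  apply hC
  intro s hs
  rcases Nat.eq_zero_or_pos s with h0 | h0
  · rw [h0]; exact hy0
  · exact h Γ y h1 h2 s h0 hs

end Pool.Agent.MKD
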