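import Pool.Agent.MKD.ShapeC3b
import Pool.Agent.MKD.Slab

/-! Module MKD/MoveC3: inserting a relator.

r ∈ rs, T blank on the levels of r, T' = T with the crossings of r inserted.
(1) XX T ∩ R1 = C0, XM closed, XM ∩ R1 = C1, XM ∪ R1 = XX T ∪ R1 (elementary; the cells of XX T at the heights
2 r.lo ≤ z ≤ 2 r.hi with (u, v) inner are over x = 0, y = 0 or x = -4, since T is blank there).
(2) XM ∩ R2 = CA: for a cell c of R2: v = 0: in disc false r. v = 1: in XX T only x = y = 0, u = 0, kept only at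
the two ends; in C1: x = -2 or the ends. v = 2: the strip (flap) and x = y = 0, kept for u = 2 or at the ends; C1.
(3) XX T' ∩ R2 = CB: v = 0: yes. v = 1: the strand of T' = the strand of r on these levels, u = 0; the cells of
disc false r with u = 0 are the strand and kap'. v = 2: strand of r (any u) and the cells of the disc with
u = 2 (strip x ≥ -2, page 0 over t-levels, rectangles); the others are kap' with u ≤ 1.
(4) XM ∪ R2 = XX T' ∪ R2.
Then four applications of `Col.excise`:
XX T ~ XX T ∪ R1 = XM ∪ R1 ~ XM ~ XM ∪ R2 = XX T' ∪ R2 ~ XX T'. At the ends z = 2 r.lo, 2 r.hi: pos is false on both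
sides for T and T', r.cr = 0 there (OK.out). -/

set_option autoImplicit false

namespace Pool.Agent.MKD

open Pool.Agent.MK

private theorem fls75 {r : Str} {c : P} (h : c ∈ disc false r) :
    c 3 = 0 ∧ 0 ≤ c 4 ∧ c 4 ≤ 2 ∧ -2 ≤ c 0 := by
  have h7 : nuP false (c 4) (c 3) → c 3 = 0 ∧ 0 ≤ c 4 ∧ c 4 ≤ 2 := by
    unfold nuP
    simp
  have h8 : en false (c 4) (c 3) → c 3 = 0 ∧ 0 ≤ c 4 ∧ c 4 ≤ 2 := by
    unfold en
    simp
    omega
  have h9 : rt false = -2 := rfl
  rcases h with h | h | h | h | h | h | h | h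
  · have := h7 h.2.2.1
    omega
  · have := h7 h.2.2.1
    omega
  · have := h8 h.1
    omega
  · have := h8 h.1
    omega
  · have := h7 h.2.2.1
    omega
  · have := h7 h.2.2.2.1
    omega
  · obtain ⟨s, -, ha, hb⟩ := h
    have := h7 hb
    unfold arc at ha
    omega
  · obtain ⟨s, -, ha, hb⟩ := h
    have := h8 hb
    unfold rect at ha
    omega

private theorem cr75 {m : ℕ} {r : Str} (h : r.OK m) {s : ℕ} {z : ℤ} (hc : r.cross s z) :
    r.lo < z / 2 ∧ z / 2 < r.hi := by
  have h1 := hc.2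
  have h2 := h.out (z / 2)
  by_contra h3
  have := h2 (by omega)
  omega

private theorem flz75 {m : ℕ} {r : Str} (ho : r.OK m) {c : P} (h : c ∈ disc false r) :
    2 * r.lo ≤ c 2 ∧ c 2 ≤ 2 * r.hi := by
  have hat : ∀ β, r.at_ β (c 2) → 2 * r.lo ≤ c 2 ∧ c 2 ≤ 2 * r.hi := by
    rintro β (⟨h1, h2, -⟩ | ⟨h1, h2, h3, -⟩) <;> omega
  have hlt := ho.lt
  rcases h with h | h | h | h | h | h | h | h
  · exact hat _ h.2.2.2
  · exact hat _ h.2.2.2
  · exact h.2.2.2.2
  · exact hat _ h.2.2.2.2
  · exact h.2.2.2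
  · omega
  · obtain ⟨s, ha, -, -⟩ := h
    have := cr75 ho ha
    omega
  · obtain ⟨s, ha, -, -⟩ := h
    have := cr75 ho ha
    omega

private theorem upd75 (c : P) : Function.update c 3 0 0 = c 0 ∧ Function.update c 3 0 1 = c 1 ∧
    Function.update c 3 0 2 = c 2 ∧ Function.update c 3 0 3 = 0 ∧ Function.update c 3 0 4 = c 4 := by
  refine ⟨?_, ?_, ?_, ?_, ?_⟩
  · exact Function.update_of_ne (by decide) _ _
  · exact Function.update_of_ne (by decide) _ _
  · exact Function.update_of_ne (by decide) _ _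
  · exact Function.update_self _ _ _
  · exact Function.update_of_ne (by decide) _ _

/-- Coordinates of a cell of `R2`. -/
private theorem R2c75 {m : ℕ} {r : Str} (ho : r.OK m) {c : P} (h : c ∈ R2 r) :
    0 ≤ c 4 ∧ c 4 ≤ 2 ∧ -2 ≤ c 0 ∧ 2 * r.lo ≤ c 2 ∧ c 2 ≤ 2 * r.hi ∧ 0 ≤ c 3 ∧ c 3 ≤ 2 := by
  obtain ⟨h1, h2, h3⟩ := h
  have h4 := fls75 h1
  have h5 := flz75 ho h1
  obtain ⟨u0, u1, u2, u3, u4⟩ := upd75 c
  rw [u0, u4] at h4
  rw [u2] at h5
  omega

private theorem upz75 {c : P} (h : c 3 = 0) : Function.update c 3 0 = c := by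
  funext i
  by_cases hi : i = 3
  · subst hi
    rw [Function.update_self, h]
  · rw [Function.update_of_ne hi]

private theorem T0_75 {m : ℕ} {rs : List Str} {T : Str} {c : P} (h : c ∈ XX m rs T)
    (hv : c 3 ≠ 0) : c ∈ disc true T := by
  rcases h with (h | ⟨r, -, h⟩) | h
  · exact absurd h.2.2.1 hv
  · exact absurd (fls75 h).1 hv
  · exact h

/-- The cells of `disc true T` at the heights of `r`, if `T` is blank there. -/
private theorem bl75 {r T : Str} (hb : Blank r T) {c : P} (h : c ∈ disc true T)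
    (h1 : 2 * r.lo ≤ c 2) (h2 : c 2 ≤ 2 * r.hi) :
    (c 0 = 0 ∧ c 1 = 0 ∧ nuP true (c 4) (c 3)) ∨ (c 4 = 2 ∧ c 3 = 2 ∧ c 1 = 0 ∧ -4 ≤ c 0 ∧ c 0 ≤ 0) ∨
      c 0 = -4 := by
  have hlo := hb.lo
  have hhi := hb.hi
  have hat : ¬ T.at_ true (c 2) := by
    rintro (⟨h3, h4, h5⟩ | ⟨h0, h3, h4, h5⟩)
    · rw [hb.pos _ (by omega) (by omega)] at h5
      exact absurd h5 (by decide)
    · rw [hb.pos _ (by omega) (by omega)] at h5
      exact absurd h5 (by decide)
  have hcr : ∀ s, ¬ T.cross s (c 2) := by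
    rintro s ⟨h3, h4⟩
    rw [hb.cr _ (by omega) (by omega)] at h4
    omega
  rcases h with h | h | h | h | h | h | h | h
  · exact Or.inl ⟨h.1, h.2.1, h.2.2.1⟩
  · exact absurd h.2.2.2 hat
  · obtain ⟨⟨h3, h4⟩, h5, h6, h7, -⟩ := h
    have h8 : rt true = -4 := rfl
    right
    left
    exact ⟨h3, by simpa using h4, h5, by omega, h7⟩
  · exact absurd h.2.2.2.2 hat
  · exact Or.inr (Or.inr h.1)
  · obtain ⟨h3, h4, h5, h6, h7⟩ := h
    omega
  · obtain ⟨s, h3, -⟩ := h
    exact absurd h3 (hcr s)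
  · obtain ⟨s, h3, -⟩ := h
    exact absurd h3 (hcr s)

private theorem nut75 {u v : ℤ} : nuP true u v ↔ (u = 0 ∧ 0 ≤ v ∧ v ≤ 2) ∨ (v = 2 ∧ 0 ≤ u ∧ u ≤ 2) := by
  unfold nuP
  simp

private theorem nuf75 {u v : ℤ} : nuP false u v ↔ v = 0 ∧ 0 ≤ u ∧ u ≤ 2 := by
  unfold nuP
  simp

private theorem ent75 {u v : ℤ} : en true u v ↔ u = 2 ∧ v = 2 := by
  unfold en
  simp

private theorem enf75 {u v : ℤ} : en false u v ↔ u = 2 ∧ v = 0 := by
  unfold en
  simp

/-- Cells of the base. -/
private theorem base75 {m : ℕ} {rs : List Str} {T : Str} {c : P} (h1 : c 1 = 0) (h2 : -4 ≤ c 0)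
    (h3 : c 0 ≤ 0) (h4 : c 4 = 0) (h5 : c 3 = 0) (h6 : 2 * T.lo ≤ c 2) (h7 : c 2 ≤ 2 * T.hi) :
    c ∈ XX m rs T := by
  left
  left
  exact ⟨Or.inl ⟨h1, h2, by omega⟩, h4, h5, h6, h7⟩

/-- Cells of the strip. -/
private theorem strip75 {m : ℕ} {rs : List Str} {T : Str} {c : P} (h1 : c 1 = 0) (h2 : -4 ≤ c 0)
    (h3 : c 0 ≤ 0) (h4 : c 4 = 2) (h5 : c 3 = 2) (h6 : 2 * T.lo ≤ c 2) (h7 : c 2 ≤ 2 * T.hi) :
    c ∈ XX m rs T := by
  right
  right
  right
  left
  exact ⟨ent75.2 ⟨h4, h5⟩, h1, h2, h3, h6, h7⟩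

private theorem mem_false75 {m : ℕ} {rs : List Str} {r T : Str} (hr : r ∈ rs) {c : P}
    (h : c ∈ disc false r) : c ∈ XX m rs T := Or.inl (Or.inr ⟨r, hr, h⟩)

theorem inter_R1 {m : ℕ} {rs : List Str} {r T : Str} (h : Adm m rs T) (hr : r ∈ rs)
    (hb : Blank r T) : XX m rs T ∩ R1 r = C0 r := by
  have hlo := hb.lo
  have hhi := hb.hi
  ext c
  constructor
  · rintro ⟨hX, hR⟩
    refine ⟨hR, ?_⟩
    by_contra hcon
    rw [not_or, not_not] at hcon
    obtain ⟨hi, hx⟩ := hcon
    have hR' := hR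
    obtain ⟨hy, hx1, hx2, hnu, hz1, hz2⟩ := hR'
    have hv : c 3 ≠ 0 := by
      unfold inn at hi
      omega
    have := bl75 hb (T0_75 hX hv) hz1 hz2
    unfold inn at hi
    omega
  · rintro ⟨hR, hor⟩
    refine ⟨?_, hR⟩
    obtain ⟨hy, hx1, hx2, hnu, hz1, hz2⟩ := hR
    have hnu' := nut75.1 hnu
    rcases hor with hi | hx
    · have hc : (c 4 = 0 ∧ c 3 = 0) ∨ (c 4 = 2 ∧ c 3 = 2) := by
        unfold inn at hi
        omega
      rcases hc with ⟨hu, hv⟩ | ⟨hu, hv⟩
      · exact base75 hy (by omega) hx2 hu hv (by omega) (by omega)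
      · exact strip75 hy (by omega) hx2 hu hv (by omega) (by omega)
    · right
      left
      exact ⟨hx, hy, hnu, Or.inl ⟨by omega, by omega, hb.pos _ (by omega) (by omega)⟩⟩

private theorem closed_C1_75 (r : Str) : Closed (C1 r) := by
  rintro c ⟨⟨hy, hx1, hx2, hnu, hz1, hz2⟩, hor⟩ i hi
  have ho : c i % 2 = 1 := Int.odd_iff.1 hi
  have hnu' := nut75.1 hnu
  fin_cases i
  · constructor
    · refine ⟨⟨?_, ?_, ?_, nut75.2 ?_, ?_, ?_⟩, ?_⟩ <;> simp [e, inn] at * <;> omega
    · refine ⟨⟨?_, ?_, ?_, nut75.2 ?_, ?_, ?_⟩, ?_⟩ <;> simp [e, inn] at * <;> omega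
  · constructor
    · refine ⟨⟨?_, ?_, ?_, nut75.2 ?_, ?_, ?_⟩, ?_⟩ <;> simp [e, inn] at * <;> omega
    · refine ⟨⟨?_, ?_, ?_, nut75.2 ?_, ?_, ?_⟩, ?_⟩ <;> simp [e, inn] at * <;> omega
  · constructor
    · refine ⟨⟨?_, ?_, ?_, nut75.2 ?_, ?_, ?_⟩, ?_⟩ <;> simp [e, inn] at * <;> omega
    · refine ⟨⟨?_, ?_, ?_, nut75.2 ?_, ?_, ?_⟩, ?_⟩ <;> simp [e, inn] at * <;> omega
  · constructor
    · refine ⟨⟨?_, ?_, ?_, nut75.2 ?_, ?_, ?_⟩, ?_⟩ <;> simp [e, inn] at * <;> omega
    · refine ⟨⟨?_, ?_, ?_, nut75.2 ?_, ?_, ?_⟩, ?_⟩ <;> simp [e, inn] at * <;> omega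
  · constructor
    · refine ⟨⟨?_, ?_, ?_, nut75.2 ?_, ?_, ?_⟩, ?_⟩ <;> simp [e, inn] at * <;> omega
    · refine ⟨⟨?_, ?_, ?_, nut75.2 ?_, ?_, ?_⟩, ?_⟩ <;> simp [e, inn] at * <;> omega

/-- The cells removed from `XX m rs T`. -/
private def Op75 (r : Str) (c : P) : Prop :=
  c 0 = 0 ∧ c 1 = 0 ∧ inn (c 4) (c 3) ∧ 2 * r.lo < c 2 ∧ c 2 < 2 * r.hi

/-- A coface of a removed cell is removed. -/
private theorem cof75 {m : ℕ} {rs : List Str} {r T : Str} (hb : Blank r T) {c : P}
    (hX : c ∈ XX m rs T) {d : P} (i : Fin 5) (hi : Odd (c i)) (hd : d = c + e i ∨ d = c - e i)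
    (hO : Op75 r d) : Op75 r c := by
  obtain ⟨hx, hy, hin, hz1, hz2⟩ := hO
  have ho : c i % 2 = 1 := Int.odd_iff.1 hi
  have hq : ∀ j, j ≠ i → d j = c j := by
    intro j hj
    rcases hd with rfl | rfl
    · show c j + e i j = c j
      rw [show e i j = 0 from if_neg hj]
      omega
    · show c j - e i j = c j
      rw [show e i j = 0 from if_neg hj]
      omega
  have hq' : d i = c i + 1 ∨ d i = c i - 1 := by
    rcases hd with rfl | rfl
    · left
      show c i + e i i = c i + 1
      rw [show e i i = 1 from if_pos rfl]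
    · right
      show c i - e i i = c i - 1
      rw [show e i i = 1 from if_pos rfl]
  have hv : c 3 ≠ 0 := by
    by_cases h3 : (3 : Fin 5) = i
    · subst h3
      omega
    · have := hq 3 h3
      unfold inn at hin
      omega
  have hT := T0_75 hX hv
  have hz : 2 * r.lo ≤ c 2 ∧ c 2 ≤ 2 * r.hi := by
    by_cases h2 : (2 : Fin 5) = i
    · subst h2
      omega
    · have := hq 2 h2
      omega
  have hbl := bl75 hb hT hz.1 hz.2
  rw [nut75] at hbl
  unfold inn at hin
  unfold Op75 inn
  fin_cases i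
  · have h1 := hq 1 (by decide)
    have h2 := hq 2 (by decide)
    have h3 := hq 3 (by decide)
    have h4 := hq 4 (by decide)
    simp only [Fin.zero_eta] at *
    omega
  · have h0 := hq 0 (by decide)
    have h2 := hq 2 (by decide)
    have h3 := hq 3 (by decide)
    have h4 := hq 4 (by decide)
    simp only [Fin.mk_one] at *
    omega
  · have h0 := hq 0 (by decide)
    have h1 := hq 1 (by decide)
    have h3 := hq 3 (by decide)
    have h4 := hq 4 (by decide)
    simp only [Fin.reduceFinMk] at *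
    omega
  · have h0 := hq 0 (by decide)
    have h1 := hq 1 (by decide)
    have h2 := hq 2 (by decide)
    have h4 := hq 4 (by decide)
    simp only [Fin.reduceFinMk] at *
    omega
  · have h0 := hq 0 (by decide)
    have h1 := hq 1 (by decide)
    have h2 := hq 2 (by decide)
    have h3 := hq 3 (by decide)
    simp only [Fin.reduceFinMk] at *
    omega

theorem closed_XM {m : ℕ} {rs : List Str} {r T : Str} (h : Adm m rs T) (hr : r ∈ rs)
    (hb : Blank r T) : Closed (XM m rs r T) := by
  rintro c (⟨hX, hO⟩ | hC) i hi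
  · have hc := closed_XX m rs T h c hX i hi
    constructor
    · left
      exact ⟨hc.1, fun hO' => hO (cof75 hb hX i hi (Or.inl rfl) hO')⟩
    · left
      exact ⟨hc.2, fun hO' => hO (cof75 hb hX i hi (Or.inr rfl) hO')⟩
  · have hc := closed_C1_75 r c hC i hi
    exact ⟨Or.inr hc.1, Or.inr hc.2⟩

theorem inter_XM_R1 {m : ℕ} {rs : List Str} {r T : Str} (h : Adm m rs T) (hr : r ∈ rs)
    (hb : Blank r T) : XM m rs r T ∩ R1 r = C1 r := by
  ext c
  constructor
  · rintro ⟨⟨hX, hO⟩ | hC, hR⟩
    · have h1 : c ∈ XX m rs T ∩ R1 r := ⟨hX, hR⟩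
      rw [inter_R1 h hr hb] at h1
      refine ⟨hR, ?_⟩
      obtain ⟨-, h2⟩ := h1
      obtain ⟨hy, hx1, hx2, hnu, hz1, hz2⟩ := hR
      by_contra hcon
      simp only [not_or] at hcon
      obtain ⟨h3, h4, h5, h6⟩ := hcon
      rcases h2 with h2 | h2
      · exact h3 h2
      · exact hO ⟨h2, hy, not_not.1 h3, by omega, by omega⟩
    · exact hC
  · intro hC
    exact ⟨Or.inr hC, hC.1⟩

theorem union_R1 {m : ℕ} {rs : List Str} {r T : Str} (h : Adm m rs T) (hr : r ∈ rs)
    (hb : Blank r T) : XM m rs r T ∪ R1 r = XX m rs T ∪ R1 r := by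
  ext c
  constructor
  · rintro ((⟨hX, hO⟩ | hC) | hR)
    · exact Or.inl hX
    · exact Or.inr hC.1
    · exact Or.inr hR
  · rintro (hX | hR)
    · by_cases hO : c 0 = 0 ∧ c 1 = 0 ∧ inn (c 4) (c 3) ∧ 2 * r.lo < c 2 ∧ c 2 < 2 * r.hi
      · right
        obtain ⟨h0, h1, h2, h3, h4⟩ := hO
        refine ⟨h1, by omega, by omega, nut75.2 ?_, by omega, by omega⟩
        unfold inn at h2
        omega
      · exact Or.inl (Or.inl ⟨hX, hO⟩)
    · exact Or.inr hR

theorem inter_XM_R2 {m : ℕ} {rs : List Str} {r T : Str} (h : Adm m rs T) (hr : r ∈ rs)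
    (hb : Blank r T) : XM m rs r T ∩ R2 r = CA r := by
  ext c
  constructor
  · rintro ⟨hM, hR⟩
    refine ⟨hR, ?_⟩
    have hR' := R2c75 (h.okr r hr) hR
    rcases hM with ⟨hX, hO⟩ | ⟨⟨hy, hx1, hx2, hnu, hz1, hz2⟩, hor⟩
    · by_cases hv : c 3 = 0
      · exact Or.inl hv
      right
      have hbl := bl75 hb (T0_75 hX hv) hR'.2.2.2.1 hR'.2.2.2.2.1
      rw [nut75] at hbl
      unfold inn at hO
      unfold kap flap
      omega
    · have hnu' := nut75.1 hnu
      unfold inn at hor
      unfold kap flap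
      omega
  · rintro ⟨hR, hor⟩
    refine ⟨?_, hR⟩
    have hR' := R2c75 (h.okr r hr) hR
    by_cases hv : c 3 = 0
    · left
      refine ⟨mem_false75 hr ?_, ?_⟩
      · have := hR.1
        rwa [upz75 hv] at this
      · rintro ⟨-, -, h3, -⟩
        unfold inn at h3
        omega
    · right
      unfold kap flap at hor
      refine ⟨⟨by omega, by omega, by omega, nut75.2 (by omega), by omega, by omega⟩, ?_⟩
      unfold inn
      omega

/-- `T'` is at `β` as `r` on the levels of `r`. -/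
private theorem at75 {m : ℕ} {r T T' : Str} (ho : r.OK m) (hb : Blank r T) (hi : Ins r T T')
    (β : Bool) {z : ℤ} (h1 : 2 * r.lo ≤ z) (h2 : z ≤ 2 * r.hi) : T'.at_ β z ↔ r.at_ β z := by
  have hlo := hb.lo
  have hhi := hb.hi
  have hlo' := hi.lo
  have hhi' := hi.hi
  have hlt := ho.lt
  constructor
  · rintro (⟨h3, h4, h5⟩ | ⟨h0, h3, h4, h5⟩)
    · by_cases h6 : z / 2 < r.hi
      · left
        rw [hi.pos _ (by omega) h6] at h5
        exact ⟨by omega, h6, h5⟩
      · have h7 : z = 2 * r.hi := by omega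
        right
        rw [hi.pos' _ (Or.inr (by omega)), hb.pos _ (by omega) (by omega)] at h5
        have h8 : z / 2 - 1 = r.hi - 1 := by omega
        rw [h8, ho.pos_hi]
        exact ⟨by omega, by omega, by omega, h5⟩
    · by_cases h6 : r.lo ≤ z / 2 - 1
      · right
        rw [hi.pos _ h6 (by omega)] at h5
        exact ⟨h0, h6, by omega, h5⟩
      · left
        rw [hi.pos' _ (Or.inl (by omega)), hb.pos _ (by omega) (by omega)] at h5
        have h8 : z / 2 = r.lo := by omega
        rw [h8, ho.pos_lo]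
        exact ⟨le_refl _, hlt, h5⟩
  · rintro (⟨h3, h4, h5⟩ | ⟨h0, h3, h4, h5⟩)
    · left
      rw [← hi.pos _ h3 h4] at h5
      exact ⟨by omega, by omega, h5⟩
    · right
      rw [← hi.pos _ h3 h4] at h5
      exact ⟨h0, by omega, by omega, h5⟩

private theorem cro75 {r T T' : Str} (hi : Ins r T T')
    (s : ℕ) {z : ℤ} (h1 : 2 * r.lo ≤ z) (h2 : z ≤ 2 * r.hi) : T'.cross s z ↔ r.cross s z := by
  unfold Str.cross
  constructor
  · rintro ⟨h3, h4⟩
    rw [hi.cr _ (by omega) (by omega)] at h4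
    exact ⟨h3, h4⟩
  · rintro ⟨h3, h4⟩
    rw [← hi.cr _ (by omega) (by omega)] at h4
    exact ⟨h3, h4⟩

private theorem ato75 {r T T' : Str} (hi : Ins r T T')
    (β : Bool) {z : ℤ} (h1 : z < 2 * r.lo ∨ 2 * r.hi < z) : T'.at_ β z ↔ T.at_ β z := by
  have hlo' := hi.lo
  have hhi' := hi.hi
  unfold Str.at_
  rw [hi.pos' (z / 2) (by omega), hlo', hhi']
  constructor
  · rintro (h | ⟨h3, h4, h5, h6⟩)
    · exact Or.inl h
    · rw [hi.pos' (z / 2 - 1) (by omega)] at h6
      exact Or.inr ⟨h3, h4, h5, h6⟩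
  · rintro (h | ⟨h3, h4, h5, h6⟩)
    · exact Or.inl h
    · rw [← hi.pos' (z / 2 - 1) (by omega)] at h6
      exact Or.inr ⟨h3, h4, h5, h6⟩

private theorem croo75 {r T T' : Str} (hi : Ins r T T')
    (s : ℕ) {z : ℤ} (h1 : z < 2 * r.lo ∨ 2 * r.hi < z) : T'.cross s z ↔ T.cross s z := by
  unfold Str.cross
  constructor
  · rintro ⟨h3, h4⟩
    rw [hi.cr' _ (by omega)] at h4
    exact ⟨h3, h4⟩
  · rintro ⟨h3, h4⟩
    rw [← hi.cr' _ (by omega)] at h4
    exact ⟨h3, h4⟩

/-- The discs of `T` and `T'` agree outside the levels of `r`. -/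
private theorem dout75 {r T T' : Str} (hi : Ins r T T') {c : P}
    (h1 : c 2 < 2 * r.lo ∨ 2 * r.hi < c 2) : c ∈ disc true T' ↔ c ∈ disc true T := by
  unfold disc
  simp only [Set.mem_setOf_eq, ato75 hi _ h1, croo75 hi _ h1, hi.lo, hi.hi]

/-- `r` is at `b` at the ends. -/
private theorem end75 {m : ℕ} {r : Str} (ho : r.OK m) {z : ℤ} (h : z = 2 * r.lo ∨ z = 2 * r.hi) :
    r.at_ false z := by
  have hlt := ho.lt
  rcases h with rfl | rfl
  · left
    have h8 : 2 * r.lo / 2 = r.lo := by omega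
    rw [h8]
    exact ⟨le_refl _, hlt, ho.pos_lo⟩
  · right
    have h8 : 2 * r.hi / 2 - 1 = r.hi - 1 := by omega
    rw [h8]
    exact ⟨by omega, by omega, by omega, ho.pos_hi⟩

private theorem rt75 : rt true = -4 ∧ rt false = -2 := ⟨rfl, rfl⟩

theorem inter_R2 {m : ℕ} {rs : List Str} {r T T' : Str} (h : Adm m rs T) (h' : Adm m rs T')
    (hr : r ∈ rs) (hb : Blank r T) (hi : Ins r T T') : XX m rs T' ∩ R2 r = CB r := by
  have hlo := hb.lo
  have hhi := hb.hi
  have hlo' := hi.lo
  have hhi' := hi.hi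
  have ho := h.okr r hr
  have hrt := rt75
  ext c
  constructor
  · rintro ⟨hX, hR⟩
    refine ⟨hR, ?_⟩
    have hR' := R2c75 ho hR
    by_cases hv : c 3 = 0
    · exact Or.inl hv
    right
    unfold kap'
    rcases T0_75 hX hv with h | h | h | h | h | h | h | h
    · have := nut75.1 h.2.2.1
      omega
    · have := nut75.1 h.2.2.1
      omega
    · have := ent75.1 h.1
      omega
    · have := ent75.1 h.1
      omega
    · have := nut75.1 h.2.2.1
      omega
    · omega
    · obtain ⟨s, -, ha, hb'⟩ := h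
      have := nut75.1 hb'
      unfold arc at ha
      omega
    · obtain ⟨s, -, ha, hb'⟩ := h
      have := ent75.1 hb'
      unfold rect at ha
      omega
  · rintro ⟨hR, hor⟩
    refine ⟨?_, hR⟩
    have hR' := R2c75 ho hR
    by_cases hv : c 3 = 0
    · have := hR.1
      rw [upz75 hv] at this
      exact mem_false75 hr this
    right
    have hv' : (c 3 = 1 ∧ c 4 = 0 ∧ ¬ kap' r c) ∨ (c 3 = 2 ∧ ¬ (kap' r c ∧ c 4 ≤ 1)) := by
      rcases hor with hor | hor
      · exact absurd hor hv
      · exact hor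
    unfold kap' at hv'
    have hat := fun β => at75 ho hb hi β hR'.2.2.2.1 hR'.2.2.2.2.1
    have hcr := fun s => cro75 hi s hR'.2.2.2.1 hR'.2.2.2.2.1
    have hmem := hR.1
    obtain ⟨u0, u1, u2, u3, u4⟩ := upd75 c
    unfold disc at hmem
    simp only [Set.mem_setOf_eq, u0, u1, u2, u3, u4, nuf75, enf75, ← hat, ← hcr] at hmem
    rcases hmem with h | h | h | h | h | h | ⟨s, h⟩ | ⟨s, h⟩
    · left
      exact ⟨h.1, h.2.1, nut75.2 (by omega), h.2.2.2⟩
    · right
      left
      exact ⟨h.1, h.2.1, nut75.2 (by omega), h.2.2.2⟩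
    · right
      right
      left
      exact ⟨ent75.2 (by omega), by omega, by omega, by omega, by omega, by omega⟩
    · right
      right
      right
      left
      exact ⟨ent75.2 (by omega), h.2.1, h.2.2.1, h.2.2.2.1, h.2.2.2.2⟩
    · right
      right
      left
      exact ⟨ent75.2 (by omega), by omega, by omega, by omega, by omega, by omega⟩
    · by_cases hx : c 0 = 0
      · left
        exact ⟨hx, h.1, nut75.2 (by omega), (hat false).2 (end75 ho h.2.2.2.2)⟩
      · right
        right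
        left
        exact ⟨ent75.2 (by omega), by omega, by omega, by omega, by omega, by omega⟩
    · right
      right
      right
      right
      right
      right
      left
      exact ⟨s, h.1, h.2.1, nut75.2 (by omega)⟩
    · right
      right
      right
      right
      right
      right
      right
      exact ⟨s, h.1, h.2.1, ent75.2 (by omega)⟩

theorem union_R2 {m : ℕ} {rs : List Str} {r T T' : Str} (h : Adm m rs T) (h' : Adm m rs T')
    (hr : r ∈ rs) (hb : Blank r T) (hi : Ins r T T') :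
    XM m rs r T ∪ R2 r = XX m rs T' ∪ R2 r := by
  have hlo := hb.lo
  have hhi := hb.hi
  have hlo' := hi.lo
  have hhi' := hi.hi
  have ho := h.okr r hr
  have hrt := rt75
  ext c
  obtain ⟨u0, u1, u2, u3, u4⟩ := upd75 c
  constructor
  · rintro ((⟨hX, hO⟩ | hC) | hR)
    · left
      rcases hX with (hX | hX) | hX
      · left
        left
        unfold Yp
        rw [hlo', hhi']
        exact hX
      · left
        right
        exact hX
      · by_cases hz : c 2 < 2 * r.lo ∨ 2 * r.hi < c 2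
        · right
          exact (dout75 hi hz).2 hX
        have hz1 : 2 * r.lo ≤ c 2 := by omega
        have hz2 : c 2 ≤ 2 * r.hi := by omega
        have hat := fun β => at75 ho hb hi β hz1 hz2
        rcases bl75 hb hX hz1 hz2 with ⟨h1, h2, h3⟩ | ⟨h1, h2, h3, h4, h5⟩ | h1
        · have h3' := nut75.1 h3
          by_cases hin : inn (c 4) (c 3)
          · right
            left
            refine ⟨h1, h2, h3, (hat false).2 (end75 ho ?_)⟩
            by_contra hcon
            exact hO ⟨h1, h2, hin, by omega, by omega⟩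
          · have hc : (c 4 = 0 ∧ c 3 = 0) ∨ (c 4 = 2 ∧ c 3 = 2) := by
              unfold inn at hin
              omega
            rcases hc with ⟨hu, hv⟩ | ⟨hu, hv⟩
            · exact base75 h2 (by omega) (by omega) hu hv (by omega) (by omega)
            · exact strip75 h2 (by omega) (by omega) hu hv (by omega) (by omega)
        · exact strip75 h3 (by omega) (by omega) h1 h2 (by omega) (by omega)
        · right
          rcases hX with h | h | h | h | h | h | h | h
          · omega
          · omega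
          · right
            right
            left
            exact ⟨h.1, by omega, by omega, by omega, by omega, by omega⟩
          · omega
          · right
            right
            right
            right
            left
            exact ⟨h.1, h.2.1, h.2.2.1, by omega, by omega⟩
          · omega
          · obtain ⟨s, -, ha, -⟩ := h
            unfold arc at ha
            omega
          · obtain ⟨s, -, ha, -⟩ := h
            unfold rect at ha
            omega
    · obtain ⟨⟨hy, hx1, hx2, hnu, hz1, hz2⟩, hor⟩ := hC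
      have hnu' := nut75.1 hnu
      by_cases hin : inn (c 4) (c 3)
      · right
        refine ⟨?_, by omega, by omega⟩
        by_cases hx : c 0 = -2
        · right
          right
          right
          right
          left
          rw [u0, u1, u2, u3, u4]
          exact ⟨hx, hy, nuf75.2 (by omega), hz1, hz2⟩
        · right
          right
          right
          right
          right
          left
          rw [u0, u1, u2, u3, u4]
          refine ⟨hy, hx1, hx2, nuf75.2 (by omega), ?_⟩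
          rcases hor with h1 | h1 | h1
          · exact absurd hin h1
          · exact absurd h1 hx
          · exact h1
      · left
        have hc : (c 4 = 0 ∧ c 3 = 0) ∨ (c 4 = 2 ∧ c 3 = 2) := by
          unfold inn at hin
          omega
        rcases hc with ⟨hu, hv⟩ | ⟨hu, hv⟩
        · exact base75 hy (by omega) (by omega) hu hv (by omega) (by omega)
        · exact strip75 hy (by omega) (by omega) hu hv (by omega) (by omega)
    · exact Or.inr hR
  · rintro (((hX | hX) | hX) | hR)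
    · left
      left
      refine ⟨Or.inl (Or.inl ?_), ?_⟩
      · unfold Yp at hX
        rw [hlo', hhi'] at hX
        exact hX
      · have := hX.2.2.1
        unfold inn
        omega
    · left
      left
      refine ⟨Or.inl (Or.inr hX), ?_⟩
      obtain ⟨r₁, -, h2⟩ := hX
      have := fls75 h2
      unfold inn
      omega
    · by_cases hz : c 2 < 2 * r.lo ∨ 2 * r.hi < c 2
      · left
        left
        exact ⟨Or.inr ((dout75 hi hz).1 hX), by omega⟩
      have hz1 : 2 * r.lo ≤ c 2 := by omega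
      have hz2 : c 2 ≤ 2 * r.hi := by omega
      have hat := fun β => at75 ho hb hi β hz1 hz2
      have hcr := fun s => cro75 hi s hz1 hz2
      unfold disc at hX
      simp only [Set.mem_setOf_eq, hat, hcr, nut75, ent75] at hX
      rcases hX with h | h | h | h | h | h | ⟨s, h⟩ | ⟨s, h⟩
      · right
        refine ⟨?_, by omega, by omega⟩
        left
        rw [u0, u1, u2, u3, u4]
        exact ⟨h.1, h.2.1, nuf75.2 (by omega), h.2.2.2⟩
      · right
        refine ⟨?_, by omega, by omega⟩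
        right
        left
        rw [u0, u1, u2, u3, u4]
        exact ⟨h.1, h.2.1, nuf75.2 (by omega), h.2.2.2⟩
      · left
        left
        refine ⟨strip75 (by omega) (by omega) (by omega) (by omega) (by omega) (by omega)
          (by omega), ?_⟩
        unfold inn
        omega
      · right
        refine ⟨?_, by omega, by omega⟩
        right
        right
        right
        left
        rw [u0, u1, u2, u3, u4]
        exact ⟨enf75.2 (by omega), h.2.1, h.2.2.1, h.2.2.2.1, h.2.2.2.2⟩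
      · left
        left
        refine ⟨Or.inr ?_, by omega⟩
        right
        right
        right
        right
        left
        exact ⟨h.1, h.2.1, nut75.2 h.2.2.1, by omega, by omega⟩
      · omega
      · right
        refine ⟨?_, by omega, by omega⟩
        right
        right
        right
        right
        right
        right
        left
        rw [u0, u1, u2, u3, u4]
        exact ⟨s, h.1, h.2.1, nuf75.2 (by omega)⟩
      · right
        refine ⟨?_, by omega, by omega⟩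
        right
        right
        right
        right
        right
        right
        right
        rw [u0, u1, u2, u3, u4]
        exact ⟨s, h.1, h.2.1, enf75.2 (by omega)⟩
    · exact Or.inr hR

private theorem e75 : ((0 : P) - e 4) 4 = -1 := by
  show (0 : ℤ) - e 4 4 = -1
  rw [show e 4 4 = 1 from if_pos rfl]
  rfl

theorem move_C3 {m : ℕ} {rs : List Str} {r T T' : Str} (h : Adm m rs T) (h' : Adm m rs T')
    (hr : r ∈ rs) (hb : Blank r T) (hi : Ins r T T') :
    FE {F₀ 0} (K (XX m rs T)) (K (XX m rs T')) := by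
  have ho := h.okr r hr
  have h4 := e75
  have hR1 : ∀ c ∈ R1 r, 0 ≤ c 4 := by
    rintro c ⟨-, -, -, hnu, -⟩
    have := nut75.1 hnu
    omega
  have hR2 : ∀ c ∈ R2 r, 0 ≤ c 4 := fun c hc => (R2c75 ho hc).1
  have hXM : ∀ c ∈ XM m rs r T, 0 ≤ c 4 := by
    rintro c (⟨hX, -⟩ | hC)
    · exact u_nonneg m rs T c hX
    · exact hR1 c hC.1
  have hno : ∀ A B : Set P, (∀ c ∈ A, 0 ≤ c 4) → (∀ c ∈ B, 0 ≤ c 4) → (0 : P) - e 4 ∉ A ∪ B := by
    rintro A B hA hB (h5 | h5)
    · have := hA _ h5
      omega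
    · have := hB _ h5
      omega
  have h0M : (0 : P) ∈ XM m rs r T := by
    left
    refine ⟨zero_mem m rs T h, ?_⟩
    rintro ⟨-, -, h5, -⟩
    unfold inn at h5
    simp at h5
  have s1 := Col.excise (closed_XX m rs T h) (inter_R1 h hr hb) (col_R1_C0 r) 0
    (zero_mem m rs T h) (hno _ _ (u_nonneg m rs T) hR1)
  have s2 := Col.excise (closed_XM h hr hb) (inter_XM_R1 h hr hb) (col_R1_C1 r) 0
    h0M (hno _ _ hXM hR1)
  rw [union_R1 h hr hb] at s2
  have s3 := Col.excise (closed_XM h hr hb) (inter_XM_R2 h hr hb) (col_R2_CA m r ho) 0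
    h0M (hno _ _ hXM hR2)
  rw [union_R2 h h' hr hb hi] at s3
  have s4 := Col.excise (closed_XX m rs T' h') (inter_R2 h h' hr hb hi) (col_R2_CB m r ho) 0
    (zero_mem m rs T' h') (hno _ _ (u_nonneg m rs T') hR2)
  exact Relation.EqvGen.trans _ _ _ s1 (Relation.EqvGen.trans _ _ _
    (Relation.EqvGen.symm _ _ s2) (Relation.EqvGen.trans _ _ _ s3
      (Relation.EqvGen.symm _ _ s4)))

end Pool.Agent.MKD
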