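import Pool.Agent.MKD.Geo

/-! Module MKD/ShapeG: `GG s` collapses to `PP true s` (4 slabs) and to `PP false s` (3 slabs).

All sets in height c 2 = 0. Write u = c 4, v = c 3. The inner cells of the normal path are
(u, v) = (0, 1), (0, 2), (1, 2). Slabs (toggle direction l, sign ε; computer checked for s = 0, .., 3):
to PP true s: remove in this order
 1. c 1 = 0, (u, v) inner, c 0 < 2 s: l = 0, ε = 1 (x even ↔ x + 1);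
 2. c 0 = 2 s, c 1 < 2, (u, v) inner: l = 1, ε = 1;
 3. c 1 = 2, (u, v) inner, c 0 > 0: l = 0, ε = -1;
 4. (u, v) = (2, 2), c 0 > 0: l = 0, ε = -1.
to PP false s: remove in this order
 1. (u, v) = (2, 2), c 1 = 1, c 0 < 2 s: l = 0, ε = 1;
 2. (u, v) ∈ {(1, 2), (2, 2)}, not (c 0 = 0 and c 1 = 0): l = 4, ε = -1;
 3. (u, v) ∈ {(0, 1), (0, 2)}, not (c 0 = 0 and c 1 = 0): l = 3, ε = -1.
Every remaining set is closed. Define the intermediate sets by `{c | c ∈ GG s ∧ ¬ ...}` and prove each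
SlabStep by `fin_cases i`, simp and `omega`. -/

set_option autoImplicit false
set_option linter.unusedSimpArgs false

namespace Pool.Agent.MKD

open Pool.Agent.MK

/-- The cells in height `0` with a given predicate on `(x, y, u, v)`. -/
def SGmk (p : ℤ → ℤ → ℤ → ℤ → Prop) : Set P := {c | c 2 = 0 ∧ p (c 0) (c 1) (c 4) (c 3)}

theorem SG_closed (p : ℤ → ℤ → ℤ → ℤ → Prop)
    (h0 : ∀ x y u v, p x y u v → x % 2 = 1 → p (x + 1) y u v ∧ p (x - 1) y u v)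
    (h1 : ∀ x y u v, p x y u v → y % 2 = 1 → p x (y + 1) u v ∧ p x (y - 1) u v)
    (h4 : ∀ x y u v, p x y u v → u % 2 = 1 → p x y (u + 1) v ∧ p x y (u - 1) v)
    (h3 : ∀ x y u v, p x y u v → v % 2 = 1 → p x y u (v + 1) ∧ p x y u (v - 1)) :
    Closed (SGmk p) := by
  intro q hq i hi
  obtain ⟨hq2, hp⟩ := hq
  rw [Int.odd_iff] at hi
  fin_cases i
  · have := h0 _ _ _ _ hp hi
    simpa [SGmk, e, hq2] using this
  · have := h1 _ _ _ _ hp hi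
    simpa [SGmk, e, hq2] using this
  · exfalso
    simp only [Fin.reduceFinMk] at hi
    rw [hq2] at hi
    omega
  · have := h3 _ _ _ _ hp hi
    simpa [SGmk, e, hq2] using this
  · have := h4 _ _ _ _ hp hi
    simpa [SGmk, e, hq2] using this

theorem SG_GG (s : ℕ) : GG s = SGmk (fun x y u v =>
    (arc s x y ∧ nuP true u v) ∨ (rect s x y ∧ u = 2 ∧ v = 2)) := rfl

theorem SG_PP (β : Bool) (s : ℕ) : PP β s = SGmk (fun x y u v =>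
    (arc s x y ∧ u = 0 ∧ v = 0) ∨
   (β = false ∧ x = 0 ∧ y = 0 ∧ nuP true u v) ∨
   (β = true ∧ x = 0 ∧ y = 2 ∧ nuP true u v) ∨
   (β = true ∧ x = 0 ∧ 0 ≤ y ∧ y ≤ 2 ∧ u = 2 ∧ v = 2)) := rfl

theorem SG_nu (u v : ℤ) : nuP true u v ↔ ((u = 0 ∧ 0 ≤ v ∧ v ≤ 2) ∨ (v = 2 ∧ 0 ≤ u ∧ u ≤ 2)) := by
  simp [nuP]

/-- The predicate of `GG s`. -/
def SGg (s : ℕ) (x y u v : ℤ) : Prop :=
  (((y = 0 ∧ 0 ≤ x ∧ x ≤ 2 * s) ∨ (x = 2 * s ∧ 0 ≤ y ∧ y ≤ 2) ∨ (y = 2 ∧ 0 ≤ x ∧ x ≤ 2 * s)) ∧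
    ((u = 0 ∧ 0 ≤ v ∧ v ≤ 2) ∨ (v = 2 ∧ 0 ≤ u ∧ u ≤ 2))) ∨
  ((0 ≤ x ∧ x ≤ 2 * s ∧ 0 ≤ y ∧ y ≤ 2) ∧ u = 2 ∧ v = 2)

theorem SGg_bd {s : ℕ} {x y u v : ℤ} (h : SGg s x y u v) :
    (0 ≤ x ∧ x ≤ 2 * s) ∧ (0 ≤ y ∧ y ≤ 2) ∧ (0 ≤ u ∧ u ≤ 2) ∧ (0 ≤ v ∧ v ≤ 2) := by
  unfold SGg at h
  rcases h with ⟨h1 | h1 | h1, h2 | h2⟩ | h <;> omega

theorem SG_GG' (s : ℕ) : GG s = SGmk (SGg s) := by
  rw [SG_GG]
  congr 1
  funext x y u v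
  simp only [arc, rect, SG_nu, SGg]

/-- Inner cells of the normal path. -/
def SGi (u v : ℤ) : Prop := (u = 0 ∧ (v = 1 ∨ v = 2)) ∨ (u = 1 ∧ v = 2)

/-- The predicate of `PP β s`. -/
def SGp (β : Bool) (s : ℕ) (x y u v : ℤ) : Prop :=
  (((y = 0 ∧ 0 ≤ x ∧ x ≤ 2 * s) ∨ (x = 2 * s ∧ 0 ≤ y ∧ y ≤ 2) ∨ (y = 2 ∧ 0 ≤ x ∧ x ≤ 2 * s)) ∧
    u = 0 ∧ v = 0) ∨
   (β = false ∧ x = 0 ∧ y = 0 ∧ ((u = 0 ∧ 0 ≤ v ∧ v ≤ 2) ∨ (v = 2 ∧ 0 ≤ u ∧ u ≤ 2))) ∨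
   (β = true ∧ x = 0 ∧ y = 2 ∧ ((u = 0 ∧ 0 ≤ v ∧ v ≤ 2) ∨ (v = 2 ∧ 0 ≤ u ∧ u ≤ 2))) ∨
   (β = true ∧ x = 0 ∧ 0 ≤ y ∧ y ≤ 2 ∧ u = 2 ∧ v = 2)

theorem SG_PP' (β : Bool) (s : ℕ) : PP β s = SGmk (SGp β s) := by
  rw [SG_PP]
  congr 1
  funext x y u v
  simp only [arc, SG_nu, SGp]

theorem SGp_sub {β : Bool} {s : ℕ} {x y u v : ℤ} (h : SGp β s x y u v) : SGg s x y u v := by
  unfold SGp at h
  unfold SGg
  rcases h with ⟨h1, h2⟩ | ⟨-, h1, h2, h3⟩ | ⟨-, h1, h2, h3⟩ | ⟨-, h1, h2⟩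
  · exact Or.inl ⟨h1, Or.inl (by omega)⟩
  · exact Or.inl ⟨Or.inl (by omega), h3⟩
  · exact Or.inl ⟨Or.inr (Or.inr (by omega)), h3⟩
  · exact Or.inr (by omega)

theorem PP_sub (β : Bool) (s : ℕ) : PP β s ⊆ GG s := by
  rw [SG_PP', SG_GG']
  exact fun c hc => ⟨hc.1, SGp_sub hc.2⟩

def SGt1 (s : ℕ) (x y u v : ℤ) : Prop := SGg s x y u v ∧ ¬ (y = 0 ∧ SGi u v ∧ x < 2 * s)
def SGt2 (s : ℕ) (x y u v : ℤ) : Prop := SGt1 s x y u v ∧ ¬ (x = 2 * s ∧ y < 2 ∧ SGi u v)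
def SGt3 (s : ℕ) (x y u v : ℤ) : Prop := SGt2 s x y u v ∧ ¬ (y = 2 ∧ SGi u v ∧ 0 < x)
def SGf1 (s : ℕ) (x y u v : ℤ) : Prop := SGg s x y u v ∧ ¬ (u = 2 ∧ v = 2 ∧ y = 1 ∧ x < 2 * s)
def SGf2 (s : ℕ) (x y u v : ℤ) : Prop :=
  SGf1 s x y u v ∧ ¬ ((u = 1 ∨ u = 2) ∧ v = 2 ∧ ¬ (x = 0 ∧ y = 0))

/-- A slab step in the direction `x`. -/
theorem SG_slab0 (p p' : ℤ → ℤ → ℤ → ℤ → Prop) (ε : ℤ) (hε : ε = 1 ∨ ε = -1)
    (hf : (SGmk p).Finite) (hp : Closed (SGmk p)) (hp' : Closed (SGmk p'))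
    (hs : ∀ x y u v, p' x y u v → p x y u v)
    (h : ∀ x y u v, p x y u v → ¬ p' x y u v →
      (x % 2 = 0 → p (x + ε) y u v ∧ ¬ p' (x + ε) y u v) ∧
      (x % 2 = 1 → p (x - ε) y u v ∧ ¬ p' (x - ε) y u v)) :
    SlabStep (SGmk p) (SGmk p') := by
  refine ⟨hp, hp', fun c hc => ⟨hc.1, hs _ _ _ _ hc.2⟩, hf.subset Set.sdiff_subset, 0, ε, hε, ?_⟩
  rintro c ⟨⟨h2, h3⟩, h4⟩
  have h5 : ¬ p' (c 0) (c 1) (c 4) (c 3) := fun h6 => h4 ⟨h2, h6⟩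
  obtain ⟨h6, h7⟩ := h _ _ _ _ h3 h5
  constructor
  · intro h8
    rw [Int.even_iff] at h8
    have := h6 h8
    simpa [SGmk, e, h2] using this
  · intro h8
    rw [Int.odd_iff] at h8
    have := h7 h8
    simpa [SGmk, e, h2] using this

/-- A slab step in the direction `y`. -/
theorem SG_slab1 (p p' : ℤ → ℤ → ℤ → ℤ → Prop) (ε : ℤ) (hε : ε = 1 ∨ ε = -1)
    (hf : (SGmk p).Finite) (hp : Closed (SGmk p)) (hp' : Closed (SGmk p'))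
    (hs : ∀ x y u v, p' x y u v → p x y u v)
    (h : ∀ x y u v, p x y u v → ¬ p' x y u v →
      (y % 2 = 0 → p x (y + ε) u v ∧ ¬ p' x (y + ε) u v) ∧
      (y % 2 = 1 → p x (y - ε) u v ∧ ¬ p' x (y - ε) u v)) :
    SlabStep (SGmk p) (SGmk p') := by
  refine ⟨hp, hp', fun c hc => ⟨hc.1, hs _ _ _ _ hc.2⟩, hf.subset Set.sdiff_subset, 1, ε, hε, ?_⟩
  rintro c ⟨⟨h2, h3⟩, h4⟩
  have h5 : ¬ p' (c 0) (c 1) (c 4) (c 3) := fun h6 => h4 ⟨h2, h6⟩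
  obtain ⟨h6, h7⟩ := h _ _ _ _ h3 h5
  constructor
  · intro h8
    rw [Int.even_iff] at h8
    have := h6 h8
    simpa [SGmk, e, h2] using this
  · intro h8
    rw [Int.odd_iff] at h8
    have := h7 h8
    simpa [SGmk, e, h2] using this

/-- A slab step in the direction `u`. -/
theorem SG_slab4 (p p' : ℤ → ℤ → ℤ → ℤ → Prop) (ε : ℤ) (hε : ε = 1 ∨ ε = -1)
    (hf : (SGmk p).Finite) (hp : Closed (SGmk p)) (hp' : Closed (SGmk p'))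
    (hs : ∀ x y u v, p' x y u v → p x y u v)
    (h : ∀ x y u v, p x y u v → ¬ p' x y u v →
      (u % 2 = 0 → p x y (u + ε) v ∧ ¬ p' x y (u + ε) v) ∧
      (u % 2 = 1 → p x y (u - ε) v ∧ ¬ p' x y (u - ε) v)) :
    SlabStep (SGmk p) (SGmk p') := by
  refine ⟨hp, hp', fun c hc => ⟨hc.1, hs _ _ _ _ hc.2⟩, hf.subset Set.sdiff_subset, 4, ε, hε, ?_⟩
  rintro c ⟨⟨h2, h3⟩, h4⟩
  have h5 : ¬ p' (c 0) (c 1) (c 4) (c 3) := fun h6 => h4 ⟨h2, h6⟩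
  obtain ⟨h6, h7⟩ := h _ _ _ _ h3 h5
  constructor
  · intro h8
    rw [Int.even_iff] at h8
    have := h6 h8
    simpa [SGmk, e, h2] using this
  · intro h8
    rw [Int.odd_iff] at h8
    have := h7 h8
    simpa [SGmk, e, h2] using this

/-- A slab step in the direction `v`. -/
theorem SG_slab3 (p p' : ℤ → ℤ → ℤ → ℤ → Prop) (ε : ℤ) (hε : ε = 1 ∨ ε = -1)
    (hf : (SGmk p).Finite) (hp : Closed (SGmk p)) (hp' : Closed (SGmk p'))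
    (hs : ∀ x y u v, p' x y u v → p x y u v)
    (h : ∀ x y u v, p x y u v → ¬ p' x y u v →
      (v % 2 = 0 → p x y u (v + ε) ∧ ¬ p' x y u (v + ε)) ∧
      (v % 2 = 1 → p x y u (v - ε) ∧ ¬ p' x y u (v - ε))) :
    SlabStep (SGmk p) (SGmk p') := by
  refine ⟨hp, hp', fun c hc => ⟨hc.1, hs _ _ _ _ hc.2⟩, hf.subset Set.sdiff_subset, 3, ε, hε, ?_⟩
  rintro c ⟨⟨h2, h3⟩, h4⟩
  have h5 : ¬ p' (c 0) (c 1) (c 4) (c 3) := fun h6 => h4 ⟨h2, h6⟩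
  obtain ⟨h6, h7⟩ := h _ _ _ _ h3 h5
  constructor
  · intro h8
    rw [Int.even_iff] at h8
    have := h6 h8
    simpa [SGmk, e, h2] using this
  · intro h8
    rw [Int.odd_iff] at h8
    have := h7 h8
    simpa [SGmk, e, h2] using this

theorem SG_cg (s : ℕ) : Closed (SGmk (SGg s)) := by
  apply SG_closed <;> intro x y u v hp hm <;>
    obtain ⟨-, ⟨hy1, hy2⟩, ⟨hu1, hu2⟩, ⟨hv1, hv2⟩⟩ := SGg_bd (hp) <;>
    interval_cases u <;> interval_cases v <;> interval_cases y <;>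
    (try simp [SGg] at hp ⊢) <;> (try omega)

theorem SG_cpt (s : ℕ) : Closed (SGmk (SGp true s)) := by
  apply SG_closed <;> intro x y u v hp hm <;>
    obtain ⟨-, ⟨hy1, hy2⟩, ⟨hu1, hu2⟩, ⟨hv1, hv2⟩⟩ := SGg_bd (SGp_sub hp) <;>
    interval_cases u <;> interval_cases v <;> interval_cases y <;>
    (try simp [SGp] at hp ⊢) <;> (try omega)

theorem SG_cpf (s : ℕ) : Closed (SGmk (SGp false s)) := by
  apply SG_closed <;> intro x y u v hp hm <;>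
    obtain ⟨-, ⟨hy1, hy2⟩, ⟨hu1, hu2⟩, ⟨hv1, hv2⟩⟩ := SGg_bd (SGp_sub hp) <;>
    interval_cases u <;> interval_cases v <;> interval_cases y <;>
    (try simp [SGp] at hp ⊢) <;> (try omega)

theorem closed_GG (s : ℕ) : Closed (GG s) := by
  rw [SG_GG']
  exact SG_cg s

theorem closed_PP (β : Bool) (s : ℕ) : Closed (PP β s) := by
  rw [SG_PP']
  cases β
  · exact SG_cpf s
  · exact SG_cpt s

theorem finite_GG (s : ℕ) : (GG s).Finite := by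
  rw [SG_GG']
  refine (Set.finite_Icc (fun _ => 0 : P) (fun _ => 2 * (s : ℤ) + 2)).subset ?_
  rintro c ⟨h2, hc⟩
  obtain ⟨h0, h1, h4, h3⟩ := SGg_bd hc
  rw [Set.mem_Icc]
  constructor
  · intro i
    fin_cases i <;> simp only [Fin.reduceFinMk, Fin.zero_eta, Fin.mk_one] <;> omega
  · intro i
    fin_cases i <;> simp only [Fin.reduceFinMk, Fin.zero_eta, Fin.mk_one] <;> omega

theorem SG_ct1 (s : ℕ) : Closed (SGmk (SGt1 s)) := by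
  apply SG_closed <;> intro x y u v hp hm <;>
    obtain ⟨-, ⟨hy1, hy2⟩, ⟨hu1, hu2⟩, ⟨hv1, hv2⟩⟩ := SGg_bd (hp.1) <;>
    interval_cases u <;> interval_cases v <;> interval_cases y <;>
    (try simp [SGt1, SGg, SGi] at hp ⊢) <;> (try omega)

theorem SG_ct2 (s : ℕ) : Closed (SGmk (SGt2 s)) := by
  apply SG_closed <;> intro x y u v hp hm <;>
    obtain ⟨-, ⟨hy1, hy2⟩, ⟨hu1, hu2⟩, ⟨hv1, hv2⟩⟩ := SGg_bd (hp.1.1) <;>
    interval_cases u <;> interval_cases v <;> interval_cases y <;>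
    (try simp [SGt2, SGt1, SGg, SGi] at hp ⊢) <;> (try omega)

theorem SG_ct3 (s : ℕ) : Closed (SGmk (SGt3 s)) := by
  apply SG_closed <;> intro x y u v hp hm <;>
    obtain ⟨-, ⟨hy1, hy2⟩, ⟨hu1, hu2⟩, ⟨hv1, hv2⟩⟩ := SGg_bd (hp.1.1.1) <;>
    interval_cases u <;> interval_cases v <;> interval_cases y <;>
    (try simp [SGt3, SGt2, SGt1, SGg, SGi] at hp ⊢) <;> (try omega)

theorem SG_cf1 (s : ℕ) : Closed (SGmk (SGf1 s)) := by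
  apply SG_closed <;> intro x y u v hp hm <;>
    obtain ⟨-, ⟨hy1, hy2⟩, ⟨hu1, hu2⟩, ⟨hv1, hv2⟩⟩ := SGg_bd (hp.1) <;>
    interval_cases u <;> interval_cases v <;> interval_cases y <;>
    (try simp [SGf1, SGg] at hp ⊢) <;> (try omega)

theorem SG_cf2 (s : ℕ) : Closed (SGmk (SGf2 s)) := by
  apply SG_closed <;> intro x y u v hp hm <;>
    obtain ⟨-, ⟨hy1, hy2⟩, ⟨hu1, hu2⟩, ⟨hv1, hv2⟩⟩ := SGg_bd (hp.1.1) <;>
    interval_cases u <;> interval_cases v <;> interval_cases y <;>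
    (try simp [SGf2, SGf1, SGg] at hp ⊢) <;> (try omega)

theorem SG_fin (s : ℕ) (p : ℤ → ℤ → ℤ → ℤ → Prop) (h : ∀ x y u v, p x y u v → SGg s x y u v) :
    (SGmk p).Finite := by
  refine (finite_GG s).subset ?_
  rw [SG_GG']
  exact fun c hc => ⟨hc.1, h _ _ _ _ hc.2⟩

theorem SG_pt3 (s : ℕ) (x y u v : ℤ) (hp : SGp true s x y u v) : SGt3 s x y u v := by
  obtain ⟨-, ⟨hy1, hy2⟩, ⟨hu1, hu2⟩, ⟨hv1, hv2⟩⟩ := SGg_bd (SGp_sub hp)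
  interval_cases u <;> interval_cases v <;> interval_cases y <;>
    (try simp [SGp, SGt3, SGt2, SGt1, SGg, SGi] at hp ⊢) <;> (try omega)

theorem SG_pf2 (s : ℕ) (x y u v : ℤ) (hp : SGp false s x y u v) : SGf2 s x y u v := by
  obtain ⟨-, ⟨hy1, hy2⟩, ⟨hu1, hu2⟩, ⟨hv1, hv2⟩⟩ := SGg_bd (SGp_sub hp)
  interval_cases u <;> interval_cases v <;> interval_cases y <;>
    (try simp [SGp, SGf2, SGf1, SGg] at hp ⊢) <;> (try omega)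

theorem SG_st1 (s : ℕ) : SlabStep (SGmk (SGg s)) (SGmk (SGt1 s)) := by
  refine SG_slab0 _ _ 1 (Or.inl rfl) (SG_fin s _ fun _ _ _ _ h => h) (SG_cg s) (SG_ct1 s) (fun _ _ _ _ h => h.1) ?_
  intro x y u v hp hq
  obtain ⟨-, ⟨hy1, hy2⟩, ⟨hu1, hu2⟩, ⟨hv1, hv2⟩⟩ := SGg_bd (hp)
  interval_cases u <;> interval_cases v <;> interval_cases y <;>
    (try simp [SGt1, SGg, SGi] at hp hq ⊢) <;> (try omega)

theorem SG_st2 (s : ℕ) : SlabStep (SGmk (SGt1 s)) (SGmk (SGt2 s)) := by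
  refine SG_slab1 _ _ 1 (Or.inl rfl) (SG_fin s _ fun _ _ _ _ h => h.1) (SG_ct1 s) (SG_ct2 s) (fun _ _ _ _ h => h.1) ?_
  intro x y u v hp hq
  obtain ⟨-, ⟨hy1, hy2⟩, ⟨hu1, hu2⟩, ⟨hv1, hv2⟩⟩ := SGg_bd (hp.1)
  interval_cases u <;> interval_cases v <;> interval_cases y <;>
    (try simp [SGt2, SGt1, SGg, SGi] at hp hq ⊢) <;> (try omega)

theorem SG_st3 (s : ℕ) : SlabStep (SGmk (SGt2 s)) (SGmk (SGt3 s)) := by
  refine SG_slab0 _ _ (-1) (Or.inr rfl) (SG_fin s _ fun _ _ _ _ h => h.1.1) (SG_ct2 s) (SG_ct3 s) (fun _ _ _ _ h => h.1) ?_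
  intro x y u v hp hq
  obtain ⟨-, ⟨hy1, hy2⟩, ⟨hu1, hu2⟩, ⟨hv1, hv2⟩⟩ := SGg_bd (hp.1.1)
  interval_cases u <;> interval_cases v <;> interval_cases y <;>
    (try simp [SGt3, SGt2, SGt1, SGg, SGi] at hp hq ⊢) <;> (try omega)

theorem SG_st4 (s : ℕ) : SlabStep (SGmk (SGt3 s)) (SGmk (SGp true s)) := by
  refine SG_slab0 _ _ (-1) (Or.inr rfl) (SG_fin s _ fun _ _ _ _ h => h.1.1.1) (SG_ct3 s) (SG_cpt s) (SG_pt3 s) ?_
  intro x y u v hp hq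
  obtain ⟨-, ⟨hy1, hy2⟩, ⟨hu1, hu2⟩, ⟨hv1, hv2⟩⟩ := SGg_bd (hp.1.1.1)
  interval_cases u <;> interval_cases v <;> interval_cases y <;>
    (try simp [SGp, SGt3, SGt2, SGt1, SGg, SGi] at hp hq ⊢) <;> (try omega)

theorem SG_sf1 (s : ℕ) : SlabStep (SGmk (SGg s)) (SGmk (SGf1 s)) := by
  refine SG_slab0 _ _ 1 (Or.inl rfl) (SG_fin s _ fun _ _ _ _ h => h) (SG_cg s) (SG_cf1 s) (fun _ _ _ _ h => h.1) ?_
  intro x y u v hp hq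
  obtain ⟨-, ⟨hy1, hy2⟩, ⟨hu1, hu2⟩, ⟨hv1, hv2⟩⟩ := SGg_bd (hp)
  interval_cases u <;> interval_cases v <;> interval_cases y <;>
    (try simp [SGf1, SGg] at hp hq ⊢) <;> (try omega)

theorem SG_sf2 (s : ℕ) : SlabStep (SGmk (SGf1 s)) (SGmk (SGf2 s)) := by
  refine SG_slab4 _ _ (-1) (Or.inr rfl) (SG_fin s _ fun _ _ _ _ h => h.1) (SG_cf1 s) (SG_cf2 s) (fun _ _ _ _ h => h.1) ?_
  intro x y u v hp hq
  obtain ⟨-, ⟨hy1, hy2⟩, ⟨hu1, hu2⟩, ⟨hv1, hv2⟩⟩ := SGg_bd (hp.1)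
  interval_cases u <;> interval_cases v <;> interval_cases y <;>
    (try simp [SGf2, SGf1, SGg] at hp hq ⊢) <;> (try omega)

theorem SG_sf3 (s : ℕ) : SlabStep (SGmk (SGf2 s)) (SGmk (SGp false s)) := by
  refine SG_slab3 _ _ (-1) (Or.inr rfl) (SG_fin s _ fun _ _ _ _ h => h.1.1) (SG_cf2 s) (SG_cpf s) (SG_pf2 s) ?_
  intro x y u v hp hq
  obtain ⟨-, ⟨hy1, hy2⟩, ⟨hu1, hu2⟩, ⟨hv1, hv2⟩⟩ := SGg_bd (hp.1.1)
  interval_cases u <;> interval_cases v <;> interval_cases y <;>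
    (try simp [SGp, SGf2, SGf1, SGg] at hp hq ⊢) <;> (try omega)

theorem col_true (s : ℕ) : Col (GG s) (PP true s) := by
  rw [SG_PP', SG_GG']
  exact Col.step (SG_st1 s) (Col.step (SG_st2 s) (Col.step (SG_st3 s) (Col.one (SG_st4 s))))

theorem col_false (s : ℕ) : Col (GG s) (PP false s) := by
  rw [SG_PP', SG_GG']
  exact Col.step (SG_sf1 s) (Col.step (SG_sf2 s) (Col.one (SG_sf3 s)))

end Pool.Agent.MKD
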