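import Pool.Agent.MKD.GeoCpx
import Pool.Agent.MKD.ShapeG
import Pool.Agent.MKD.ShapeProd
import Pool.Agent.MKD.Slab

/-! Module MKD/MoveG: the local moves of the moving word (shift of a crossing by one level, creation
and cancellation of two crossings over the same page).

R = tw (GG s) (Icc (2 j) (2 j + 2)). `inter_G`: for c ∈ R: if (u, v) = (c 4, c 3) = (0, 0) then c is over the
arc: in Yp (s ≤ m) and in PP. Otherwise (u, v) ≠ (0, 0) on the normal path of the moving word, so c is not in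
a disc of a relator (v = 0 there and u = 0 here) nor in Yp; c ∈ disc true T: z = 2 j + 1: only the strand at
pos j (pieces 1, 2, 4, and 3 at x = 0); z = 2 j with cr j = s + 1: everything (pieces 7, 8); z = 2 j with
cr j = 0: pos (j - 1) = pos j (OK.iff), only the strand; z = 2 j + 2 similarly with j + 1. Caps do not occur.
`union_G`: outside of R the two complexes have the same cells: the strand pieces at x = 0 for z ∈
[2 j, 2 j + 2] are in R; for other z the positions and crossings agree.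
`col_inter`: four cases; (0, 0): Col.prod with J = ∅ (tw A ∅ = ∅); (s + 1, 0): prism_lo; (0, s + 1): prism_hi;
(s + 1, s + 1): Col.prod with J = {2 j, 2 j + 2}; Col (GG s) (PP β s) is col_true / col_false.
`move_G`: Col.excise twice (with q₀ = 0, zero_mem, u_nonneg) and union_G, EqvGen. -/

set_option autoImplicit false

namespace Pool.Agent.MKD

open Pool.Agent.MK

/-- Hypotheses on one strand near the level `j`. -/
structure NearG (m : ℕ) (rs : List Str) (s : ℕ) (j : ℤ) (T : Str) : Prop where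
  adm : Adm m rs T
  hs : s ≤ m
  h1 : T.lo < j
  h2 : j + 1 < T.hi
  c1 : T.cr j = 0 ∨ T.cr j = s + 1
  c2 : T.cr (j + 1) = 0 ∨ T.cr (j + 1) = s + 1

private theorem mem_tw_GG (s : ℕ) (I : Set ℤ) (c : P) : c ∈ tw (GG s) I ↔
    ((arc s (c 0) (c 1) ∧ nuP true (c 4) (c 3)) ∨ (rect s (c 0) (c 1) ∧ c 4 = 2 ∧ c 3 = 2)) ∧
      c 2 ∈ I := by
  simp [tw, GG]

private theorem mem_tw_PP (β : Bool) (s : ℕ) (I : Set ℤ) (c : P) : c ∈ tw (PP β s) I ↔
    ((arc s (c 0) (c 1) ∧ c 4 = 0 ∧ c 3 = 0) ∨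
   (β = false ∧ c 0 = 0 ∧ c 1 = 0 ∧ nuP true (c 4) (c 3)) ∨
   (β = true ∧ c 0 = 0 ∧ c 1 = 2 ∧ nuP true (c 4) (c 3)) ∨
   (β = true ∧ c 0 = 0 ∧ 0 ≤ c 1 ∧ c 1 ≤ 2 ∧ c 4 = 2 ∧ c 3 = 2)) ∧ c 2 ∈ I := by
  simp [tw, PP]

/-- cells of `tw (GG s)` off the base are only in the disc of the moving word -/
private theorem mem_XX_iff {m : ℕ} {rs : List Str} {s : ℕ} {T : Str} {c : P}
    (hc : (arc s (c 0) (c 1) ∧ nuP true (c 4) (c 3)) ∨ (rect s (c 0) (c 1) ∧ c 4 = 2 ∧ c 3 = 2))
    (h0 : ¬ (c 4 = 0 ∧ c 3 = 0)) : c ∈ XX m rs T ↔ c ∈ disc true T := by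
  constructor
  · rintro ((h | ⟨r, hr, h⟩) | h)
    · exact absurd ⟨h.2.1, h.2.2.1⟩ h0
    · exfalso
      have h3 : c 3 = 0 := by
        unfold disc nuP en at h
        simp only [Bool.false_eq_true, false_and, false_or, true_and, if_false] at h
        rcases h with h | h | h | h | h | h | ⟨s, h⟩ | ⟨s, h⟩
        · exact h.2.2.1.1
        · exact h.2.2.1.1
        · exact h.1.2
        · exact h.1.2
        · exact h.2.2.1.1
        · exact h.2.2.2.1.1
        · exact h.2.2.1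
        · exact h.2.2.2
      apply h0
      rcases hc with ⟨-, h4⟩ | ⟨-, h4, h5⟩
      · unfold nuP at h4
        simp only [true_and, Bool.true_eq_false, false_and, or_false] at h4
        omega
      · omega
    · exact h
  · exact fun h => Or.inr h

private theorem at_mid {T : Str} {j : ℤ} (h1 : T.lo < j) (h2 : j + 1 < T.hi) (β : Bool) :
    T.at_ β (2 * j + 1) ↔ T.pos j = β := by
  unfold Str.at_
  rw [show (2 * j + 1) / 2 = j by omega]
  constructor
  · rintro (⟨-, -, h⟩ | ⟨h, -⟩)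
    · exact h
    · omega
  · intro h
    exact Or.inl ⟨by omega, by omega, h⟩

private theorem at_lo {T : Str} {j : ℤ} (h1 : T.lo < j) (h2 : j < T.hi) (β : Bool) :
    T.at_ β (2 * j) ↔ (T.pos j = β ∨ T.pos (j - 1) = β) := by
  unfold Str.at_
  rw [show (2 * j) / 2 = j by omega]
  constructor
  · rintro (⟨-, -, h⟩ | ⟨-, -, -, h⟩)
    · exact Or.inl h
    · exact Or.inr h
  · rintro (h | h)
    · exact Or.inl ⟨by omega, by omega, h⟩
    · exact Or.inr ⟨by omega, by omega, by omega, h⟩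

/-- the part of the disc near a height where there is no crossing -/
private theorem disc_no {s : ℕ} {T : Str} {c : P} {β : Bool}
    (hc : (arc s (c 0) (c 1) ∧ nuP true (c 4) (c 3)) ∨ (rect s (c 0) (c 1) ∧ c 4 = 2 ∧ c 3 = 2))
    (h0 : ¬ (c 4 = 0 ∧ c 3 = 0)) (hlo : 2 * T.lo < c 2) (hhi : c 2 < 2 * T.hi)
    (hat : ∀ β', T.at_ β' (c 2) ↔ β = β') (hcr : ∀ s', ¬ T.cross s' (c 2)) :
    c ∈ disc true T ↔ ((arc s (c 0) (c 1) ∧ c 4 = 0 ∧ c 3 = 0) ∨
   (β = false ∧ c 0 = 0 ∧ c 1 = 0 ∧ nuP true (c 4) (c 3)) ∨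
   (β = true ∧ c 0 = 0 ∧ c 1 = 2 ∧ nuP true (c 4) (c 3)) ∨
   (β = true ∧ c 0 = 0 ∧ 0 ≤ c 1 ∧ c 1 ≤ 2 ∧ c 4 = 2 ∧ c 3 = 2)) := by
  have hx : 0 ≤ c 0 ∧ 0 ≤ c 1 := by
    rcases hc with ⟨h, -⟩ | ⟨h, -⟩
    · unfold arc at h
      omega
    · exact ⟨h.1, h.2.2.1⟩
  unfold disc en
  simp only [if_true, rt]
  constructor
  · rintro (h | h | h | h | h | h | ⟨s', h⟩ | ⟨s', h⟩)
    · exact Or.inr (Or.inl ⟨(hat _).1 h.2.2.2, h.1, h.2.1, h.2.2.1⟩)
    · exact Or.inr (Or.inr (Or.inl ⟨(hat _).1 h.2.2.2, h.1, h.2.1, h.2.2.1⟩))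
    · have hnu : nuP true (c 4) (c 3) := by
        unfold nuP
        left
        exact ⟨rfl, Or.inr (by omega)⟩
      cases β
      · exact Or.inr (Or.inl ⟨rfl, by omega, by omega, hnu⟩)
      · exact Or.inr (Or.inr (Or.inr ⟨rfl, by omega, by omega, by omega, h.1.1, h.1.2⟩))
    · exact Or.inr (Or.inr (Or.inr ⟨(hat _).1 h.2.2.2.2, h.2.1, h.2.2.1, h.2.2.2.1, h.1.1, h.1.2⟩))
    · omega
    · omega
    · exact absurd h.1 (hcr _)
    · exact absurd h.1 (hcr _)
  · rintro (h | h | h | h)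
    · exact absurd h.2 h0
    · exact Or.inl ⟨h.2.1, h.2.2.1, h.2.2.2, (hat _).2 h.1⟩
    · exact Or.inr (Or.inl ⟨h.2.1, h.2.2.1, h.2.2.2, (hat _).2 h.1⟩)
    · exact Or.inr (Or.inr (Or.inr (Or.inl ⟨⟨h.2.2.2.2.1, h.2.2.2.2.2⟩, h.2.1, h.2.2.1, h.2.2.2.1,
        (hat _).2 h.1⟩)))

theorem inter_G {m : ℕ} {rs : List Str} {s : ℕ} {j : ℤ} {T : Str} (h : NearG m rs s j T) :
    XX m rs T ∩ tw (GG s) (Set.Icc (2 * j) (2 * j + 2)) =
      tw (GG s) {z | (z = 2 * j ∧ T.cr j = s + 1) ∨ (z = 2 * j + 2 ∧ T.cr (j + 1) = s + 1)} ∪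
        tw (PP (T.pos j) s) (Set.Icc (2 * j) (2 * j + 2)) := by
  have hlo := h.h1
  have hhi := h.h2
  have hs := h.hs
  have hi1 := h.adm.okT.iff j (by omega) (by omega)
  have hi2 := h.adm.okT.iff (j + 1) (by omega) (by omega)
  rw [add_sub_cancel_right] at hi2
  ext c
  rw [Set.mem_inter_iff, Set.mem_union, mem_tw_GG, mem_tw_GG, mem_tw_PP, Set.mem_Icc]
  -- both sides imply the shape condition
  by_cases hc : (arc s (c 0) (c 1) ∧ nuP true (c 4) (c 3)) ∨
      (rect s (c 0) (c 1) ∧ c 4 = 2 ∧ c 3 = 2)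
  swap
  · constructor
    · rintro ⟨-, h1, -⟩
      exact absurd h1 hc
    · rintro (⟨h1, -⟩ | ⟨h1, -⟩)
      · exact absurd h1 hc
      · exfalso
        apply hc
        have harc0 : c 0 = 0 → c 1 = 0 ∨ c 1 = 2 → arc s (c 0) (c 1) := by
          intro h2 h3
          unfold arc
          omega
        rcases h1 with h1 | h1 | h1 | h1
        · left
          refine ⟨h1.1, ?_⟩
          unfold nuP
          left
          exact ⟨rfl, Or.inl (by omega)⟩
        · exact Or.inl ⟨harc0 h1.2.1 (Or.inl h1.2.2.1), h1.2.2.2⟩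
        · exact Or.inl ⟨harc0 h1.2.1 (Or.inr h1.2.2.1), h1.2.2.2⟩
        · right
          refine ⟨?_, h1.2.2.2.2.1, h1.2.2.2.2.2⟩
          unfold rect
          omega
  by_cases hz : 2 * j ≤ c 2 ∧ c 2 ≤ 2 * j + 2
  swap
  · constructor
    · rintro ⟨-, -, h1⟩
      exact absurd h1 hz
    · rintro (⟨-, h1⟩ | ⟨-, h1⟩)
      · rcases h1 with h1 | h1
        · have := h1.1
          omega
        · have := h1.1
          omega
      · exact absurd h1 hz
  by_cases h0 : c 4 = 0 ∧ c 3 = 0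
  · -- over the base
    have harc : arc s (c 0) (c 1) := by
      rcases hc with hc | hc
      · exact hc.1
      · omega
    constructor
    · intro _
      exact Or.inr ⟨Or.inl ⟨harc, h0.1, h0.2⟩, hz⟩
    · intro _
      refine ⟨Or.inl (Or.inl ⟨?_, h0.1, h0.2, ?_, ?_⟩), hc, hz⟩
      · unfold lad
        unfold arc at harc
        omega
      · omega
      · omega
  rw [mem_XX_iff hc h0]
  -- the full case: a crossing
  have hfull : ∀ i : ℤ, c 2 = 2 * i → T.cr i = s + 1 → c ∈ disc true T := by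
    intro i h1 h2
    have hcr : T.cross s (c 2) := by
      refine ⟨by omega, ?_⟩
      rw [h1, show 2 * i / 2 = i by omega, h2]
    rcases hc with hc | hc
    · exact Or.inr (Or.inr (Or.inr (Or.inr (Or.inr (Or.inr (Or.inl ⟨s, hcr, hc.1, hc.2⟩))))))
    · exact Or.inr (Or.inr (Or.inr (Or.inr (Or.inr (Or.inr (Or.inr ⟨s, hcr, hc.1, hc.2⟩))))))
  have hz3 : c 2 = 2 * j ∨ c 2 = 2 * j + 1 ∨ c 2 = 2 * j + 2 := by omega
  rcases hz3 with hz3 | hz3 | hz3
  · rcases h.c1 with hcr | hcr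
    · rw [hcr] at hi1
      have hp : T.pos (j - 1) = T.pos j := hi1.1 rfl
      have hno := disc_no (T := T) (β := T.pos j) hc h0 (by omega) (by omega) (by
        intro β'
        rw [hz3, at_lo hlo (by omega), hp, or_self]) (by
        rintro s' ⟨-, h1⟩
        rw [hz3, show 2 * j / 2 = j by omega, hcr] at h1
        omega)
      rw [hno]
      constructor
      · rintro ⟨h1, -⟩
        exact Or.inr ⟨h1, hz⟩
      · rintro (⟨-, h1 | h1⟩ | ⟨h1, -⟩)
        · have := h1.2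
          omega
        · have := h1.1
          omega
        · exact ⟨h1, hc, hz⟩
    · exact ⟨fun _ => Or.inl ⟨hc, Or.inl ⟨hz3, hcr⟩⟩, fun _ => ⟨hfull j hz3 hcr, hc, hz⟩⟩
  · have hno := disc_no (T := T) (β := T.pos j) hc h0 (by omega) (by omega) (by
      intro β'
      rw [hz3, at_mid hlo (by omega)]) (by
      rintro s' ⟨h1, -⟩
      omega)
    rw [hno]
    constructor
    · rintro ⟨h1, -⟩
      exact Or.inr ⟨h1, hz⟩
    · rintro (⟨-, h1 | h1⟩ | ⟨h1, -⟩)
      · have := h1.1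
        omega
      · have := h1.1
        omega
      · exact ⟨h1, hc, hz⟩
  · rcases h.c2 with hcr | hcr
    · rw [hcr] at hi2
      have hp : T.pos j = T.pos (j + 1) := hi2.1 rfl
      have hno := disc_no (T := T) (β := T.pos j) hc h0 (by omega) (by omega) (by
        intro β'
        rw [hz3, show 2 * j + 2 = 2 * (j + 1) by ring, at_lo (by omega) (by omega),
          add_sub_cancel_right, ← hp, or_self]) (by
        rintro s' ⟨-, h1⟩
        rw [hz3, show (2 * j + 2) / 2 = j + 1 by omega, hcr] at h1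
        omega)
      rw [hno]
      constructor
      · rintro ⟨h1, -⟩
        exact Or.inr ⟨h1, hz⟩
      · rintro (⟨-, h1 | h1⟩ | ⟨h1, -⟩)
        · have := h1.1
          omega
        · have := h1.2
          omega
        · exact ⟨h1, hc, hz⟩
    · exact ⟨fun _ => Or.inl ⟨hc, Or.inr ⟨hz3, hcr⟩⟩,
        fun _ => ⟨hfull (j + 1) (by omega) hcr, hc, hz⟩⟩

theorem union_G {m : ℕ} {rs : List Str} {s : ℕ} {j : ℤ} {T T' : Str} (h : NearG m rs s j T)
    (h' : NearG m rs s j T') (hlo : T'.lo = T.lo) (hhi : T'.hi = T.hi)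
    (hcr : ∀ i, i ≠ j → i ≠ j + 1 → T'.cr i = T.cr i) (hpos : ∀ i, i ≠ j → T'.pos i = T.pos i) :
    XX m rs T ∪ tw (GG s) (Set.Icc (2 * j) (2 * j + 2)) ⊆
      XX m rs T' ∪ tw (GG s) (Set.Icc (2 * j) (2 * j + 2)) := by
  -- the strand at a height
  have hat : ∀ β z, T.at_ β z → T'.at_ β z ∨ (2 * j ≤ z ∧ z ≤ 2 * j + 2) := by
    intro β z h1
    unfold Str.at_ at *
    rw [hlo, hhi]
    rcases h1 with ⟨h1, h2, h3⟩ | ⟨h1, h2, h3, h4⟩
    · by_cases h5 : z / 2 = j
      · right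
        omega
      · left
        left
        exact ⟨h1, h2, by rw [hpos _ h5]; exact h3⟩
    · by_cases h5 : z / 2 - 1 = j
      · right
        omega
      · left
        right
        exact ⟨h1, h2, h3, by rw [hpos _ h5]; exact h4⟩
  have hcross : ∀ s' z, T.cross s' z → T'.cross s' z ∨ (s' = s ∧ 2 * j ≤ z ∧ z ≤ 2 * j + 2) := by
    rintro s' z ⟨h1, h2⟩
    by_cases h3 : z / 2 = j
    · right
      rw [h3] at h2
      have := h.c1
      omega
    · by_cases h4 : z / 2 = j + 1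
      · right
        rw [h4] at h2
        have := h.c2
        omega
      · left
        exact ⟨h1, by rw [hcr _ h3 h4]; exact h2⟩
  rintro c (hc | hc)
  swap
  · exact Or.inr hc
  rcases hc with (hc | hc) | hc
  · left
    left
    left
    unfold Yp at *
    rw [hlo, hhi]
    exact hc
  · left
    left
    right
    exact hc
  · rcases hc with hc | hc | hc | hc | hc | hc | ⟨s', hc⟩ | ⟨s', hc⟩
    · rcases hat _ _ hc.2.2.2 with h1 | h1
      · exact Or.inl (Or.inr (Or.inl ⟨hc.1, hc.2.1, hc.2.2.1, h1⟩))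
      · right
        rw [mem_tw_GG]
        refine ⟨Or.inl ⟨?_, hc.2.2.1⟩, h1⟩
        unfold arc
        omega
    · rcases hat _ _ hc.2.2.2 with h1 | h1
      · exact Or.inl (Or.inr (Or.inr (Or.inl ⟨hc.1, hc.2.1, hc.2.2.1, h1⟩)))
      · right
        rw [mem_tw_GG]
        refine ⟨Or.inl ⟨?_, hc.2.2.1⟩, h1⟩
        unfold arc
        omega
    · left
      right
      right
      right
      left
      rw [hlo, hhi]
      exact hc
    · rcases hat _ _ hc.2.2.2.2 with h1 | h1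
      · exact Or.inl (Or.inr (Or.inr (Or.inr (Or.inr (Or.inl
          ⟨hc.1, hc.2.1, hc.2.2.1, hc.2.2.2.1, h1⟩)))))
      · right
        rw [mem_tw_GG]
        refine ⟨Or.inr ⟨?_, hc.1.1, hc.1.2⟩, h1⟩
        unfold rect
        omega
    · left
      right
      right
      right
      right
      right
      left
      rw [hlo, hhi]
      exact hc
    · left
      right
      right
      right
      right
      right
      right
      left
      rw [hlo, hhi]
      exact hc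
    · rcases hcross _ _ hc.1 with h1 | ⟨rfl, h1⟩
      · exact Or.inl (Or.inr (Or.inr (Or.inr (Or.inr (Or.inr (Or.inr (Or.inr (Or.inl
          ⟨s', h1, hc.2.1, hc.2.2⟩))))))))
      · right
        rw [mem_tw_GG]
        exact ⟨Or.inl ⟨hc.2.1, hc.2.2⟩, h1⟩
    · rcases hcross _ _ hc.1 with h1 | ⟨rfl, h1⟩
      · exact Or.inl (Or.inr (Or.inr (Or.inr (Or.inr (Or.inr (Or.inr (Or.inr (Or.inr
          ⟨s', h1, hc.2.1, hc.2.2⟩))))))))
      · right
        rw [mem_tw_GG]
        exact ⟨Or.inr ⟨hc.2.1, hc.2.2.1, hc.2.2.2⟩, h1⟩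

theorem col_inter {m : ℕ} {rs : List Str} {s : ℕ} {j : ℤ} {T : Str} (h : NearG m rs s j T) :
    Col (tw (GG s) (Set.Icc (2 * j) (2 * j + 2)))
      (XX m rs T ∩ tw (GG s) (Set.Icc (2 * j) (2 * j + 2))) := by
  rw [inter_G h]
  have hcol : Col (GG s) (PP (T.pos j) s) := by
    cases T.pos j
    · exact col_false s
    · exact col_true s
  refine hcol.prod (closed_GG s) (fun c hc => hc.1) (finite_GG s) ?_ ?_ ?_ (Set.finite_Icc _ _)
  · intro z hz ho
    rw [Set.mem_Icc] at *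
    obtain ⟨i, hi⟩ := ho
    rw [Set.mem_Icc]
    omega
  · rintro z hz ⟨i, hi⟩
    exfalso
    rcases hz with hz | hz
    · have := hz.1
      omega
    · have := hz.1
      omega
  · rintro z (hz | hz)
    · have := hz.1
      rw [Set.mem_Icc]
      omega
    · have := hz.1
      rw [Set.mem_Icc]
      omega

theorem move_G {m : ℕ} {rs : List Str} {s : ℕ} {j : ℤ} {T T' : Str} (h : NearG m rs s j T)
    (h' : NearG m rs s j T') (hlo : T'.lo = T.lo) (hhi : T'.hi = T.hi)
    (hcr : ∀ i, i ≠ j → i ≠ j + 1 → T'.cr i = T.cr i) (hpos : ∀ i, i ≠ j → T'.pos i = T.pos i) :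
    FE {F₀ 0} (K (XX m rs T)) (K (XX m rs T')) := by
  have hR : (0 : P) - e 4 ∉ tw (GG s) (Set.Icc (2 * j) (2 * j + 2)) := by
    rw [mem_tw_GG]
    rintro ⟨h1, -⟩
    have h4 : ((0 : P) - e 4) 4 = -1 := by simp [e]
    rw [h4] at h1
    rcases h1 with ⟨-, h1⟩ | ⟨-, h1, -⟩
    · unfold nuP at h1
      simp only [true_and, Bool.true_eq_false, false_and, or_false] at h1
      omega
    · omega
  have hX : ∀ T'' : Str, (0 : P) - e 4 ∉ XX m rs T'' := by
    intro T'' h1
    have h2 := u_nonneg m rs T'' _ h1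
    have h4 : ((0 : P) - e 4) 4 = -1 := by simp [e]
    omega
  have key : ∀ T'' : Str, NearG m rs s j T'' → FE {F₀ 0} (K (XX m rs T''))
      (K (XX m rs T'' ∪ tw (GG s) (Set.Icc (2 * j) (2 * j + 2)))) := by
    intro T'' h''
    refine Col.excise (closed_XX m rs T'' h''.adm) rfl (col_inter h'') 0
      (zero_mem m rs T'' h''.adm) ?_
    rintro (h1 | h1)
    · exact hX T'' h1
    · exact hR h1
  have hun : XX m rs T ∪ tw (GG s) (Set.Icc (2 * j) (2 * j + 2)) =
      XX m rs T' ∪ tw (GG s) (Set.Icc (2 * j) (2 * j + 2)) :=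
    Set.Subset.antisymm (union_G h h' hlo hhi hcr hpos)
      (union_G h' h hlo.symm hhi.symm (fun i h1 h2 => (hcr i h1 h2).symm)
        (fun i h1 => (hpos i h1).symm))
  have h1 := key T h
  have h2 := key T' h'
  rw [← hun] at h2
  exact Relation.EqvGen.trans _ _ _ h1 (Relation.EqvGen.symm _ _ h2)

end Pool.Agent.MKD
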