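import Pool.Agent.MKD.Lists
import Pool.Agent.MKD.MoveG
import Pool.Agent.MKD.MoveC3
import Pool.Agent.MKD.MoveExt

/-! Module MKD/ListMoves: the moves for lists of crossings.

`E_shift`, `E_cancel`: `move_G` with T = strOf lo (A ++ ..), j = lo + 1 + A.length, the entries at the indices A.length
and A.length + 1 of the list are at the levels j and j + 1. cr agrees elsewhere (getD of an append), pos i
agrees for i ≠ j: number of crossings among the first (i - lo) entries, parities.
`E_ins`: `move_C3` with r = strOf a ρ, a = 1 + lenR l₁ (r ∈ rsOf 1 rl by mem_rsOf), T = strOf lo (A ++ replicate (ρ.length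
+ 2) 0 ++ B), T' = strOf lo (A ++ 0 :: (ρ ++ 0 :: B)); the first 0 is at the level lo + 1 + A.length = a = r.lo; the
crossing number i of ρ is at the level a + 1 + i in both r and T'; par A = false gives the positions.
`E_top`: move_top, getD and take of W ++ [0]. `E_bot`: move_bot, strOf (lo - 1) (0 :: W). -/

set_option autoImplicit false

namespace Pool.Agent.MKD

open Pool.Agent.MK

/-- Equivalence of two states. -/
def EE (m : ℕ) (rl : List (List ℕ)) (lo : ℤ) (W : List ℕ) (lo' : ℤ) (W' : List ℕ) : Prop :=
  FE {F₀ 0} (K (XX m (rsOf 1 rl) (strOf lo W))) (K (XX m (rsOf 1 rl) (strOf lo' W')))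

variable {m : ℕ} {rl : List (List ℕ)}

private theorem par_cons (x : ℕ) (W : List ℕ) : par (x :: W) = (decide (x ≠ 0) ^^ par W) := by
  have h := par_append [x] W
  rw [List.singleton_append] at h
  rw [h]
  congr 1
  unfold par
  by_cases hx : x = 0
  · subst hx; simp
  · simp [hx]

private theorem par_nil : par [] = false := by simp [par]

private theorem par_zero (W : List ℕ) : par (0 :: W) = par W := by
  rw [par_cons]; simp

private theorem par_replicate (n : ℕ) : par (List.replicate n 0) = false := by
  induction n with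
  | zero => exact par_nil
  | succ n ih => rw [List.replicate_succ, par_zero, ih]

private theorem wok_append {A B : List ℕ} {m : ℕ} : WOK m (A ++ B) ↔
    ((∀ a ∈ A, a ≤ m + 1) ∧ ∀ a ∈ B, a ≤ m + 1) ∧ (par A ^^ par B) = false := by
  unfold WOK
  rw [par_append]
  constructor
  · rintro ⟨h1, h2⟩
    exact ⟨⟨fun a ha => h1 a (List.mem_append_left _ ha),
      fun a ha => h1 a (List.mem_append_right _ ha)⟩, h2⟩
  · rintro ⟨⟨h1, h2⟩, h3⟩
    refine ⟨fun a ha => ?_, h3⟩
    rcases List.mem_append.1 ha with h | h
    · exact h1 a h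
    · exact h2 a h

private theorem getD_swap (A B : List ℕ) (x y x' y' n : ℕ) (h1 : n ≠ A.length)
    (h2 : n ≠ A.length + 1) :
    (A ++ x :: y :: B).getD n 0 = (A ++ x' :: y' :: B).getD n 0 := by
  by_cases h : n < A.length
  · rw [List.getD_append _ _ _ _ h, List.getD_append _ _ _ _ h]
  · obtain ⟨k, rfl⟩ : ∃ k, n = A.length + (k + 2) := ⟨n - A.length - 2, by omega⟩
    rw [List.getD_append_right _ _ _ _ (by omega), List.getD_append_right _ _ _ _ (by omega),
      Nat.add_sub_cancel_left, List.getD_cons_succ, List.getD_cons_succ, List.getD_cons_succ,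
      List.getD_cons_succ]

private theorem par_swap (A B : List ℕ) (x y x' y' n : ℕ)
    (hp : (decide (x ≠ 0) ^^ decide (y ≠ 0)) = (decide (x' ≠ 0) ^^ decide (y' ≠ 0)))
    (h1 : n ≠ A.length + 1) :
    par ((A ++ x :: y :: B).take n) = par ((A ++ x' :: y' :: B).take n) := by
  by_cases h : n ≤ A.length
  · rw [List.take_append_of_le_length h, List.take_append_of_le_length h]
  · obtain ⟨k, rfl⟩ : ∃ k, n = A.length + (k + 2) := ⟨n - A.length - 2, by omega⟩
    rw [List.take_length_add_append, List.take_length_add_append, par_append, par_append]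
    congr 1
    rw [List.take_succ_cons, List.take_succ_cons, List.take_succ_cons, List.take_succ_cons,
      par_cons, par_cons, par_cons, par_cons, ← Bool.xor_assoc, ← Bool.xor_assoc, hp]

private theorem E_swap (hr : ∀ ρ ∈ rl, WOK m ρ) {lo : ℤ} {A B : List ℕ} {s x y x' y' : ℕ}
    (hs : s ≤ m) (hx : x = 0 ∨ x = s + 1) (hy : y = 0 ∨ y = s + 1) (hx' : x' = 0 ∨ x' = s + 1)
    (hy' : y' = 0 ∨ y' = s + 1)
    (hp : (decide (x ≠ 0) ^^ decide (y ≠ 0)) = (decide (x' ≠ 0) ^^ decide (y' ≠ 0)))
    (h : WOK m (A ++ x :: y :: B)) (hf : Fits rl lo (A ++ x :: y :: B).length) :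
    EE m rl lo (A ++ x :: y :: B) lo (A ++ x' :: y' :: B) := by
  have h' : WOK m (A ++ x' :: y' :: B) := by
    refine ⟨fun a ha => ?_, ?_⟩
    · rcases List.mem_append.1 ha with h1 | h1
      · exact h.1 a (List.mem_append_left _ h1)
      · rw [List.mem_cons, List.mem_cons] at h1
        rcases h1 with h1 | h1 | h1
        · omega
        · omega
        · exact h.1 a (List.mem_append_right _ (List.mem_cons_of_mem _
            (List.mem_cons_of_mem _ h1)))
    · have h1 := h.2
      rw [par_append, par_cons, par_cons, ← Bool.xor_assoc (decide (x ≠ 0)), hp] at h1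
      rw [par_append, par_cons, par_cons, ← Bool.xor_assoc (decide (x' ≠ 0)), h1]
  have hlen : (A ++ x' :: y' :: B).length = (A ++ x :: y :: B).length := by simp
  have hf' : Fits rl lo (A ++ x' :: y' :: B).length := by rw [hlen]; exact hf
  have near : ∀ z w : ℕ, (z = 0 ∨ z = s + 1) → (w = 0 ∨ w = s + 1) →
      WOK m (A ++ z :: w :: B) → Fits rl lo (A ++ z :: w :: B).length →
      NearG m (rsOf 1 rl) s (lo + 1 + A.length) (strOf lo (A ++ z :: w :: B)) := by
    intro z w hz hw h1 h2
    refine ⟨adm_strOf hr h1 h2, hs, ?_, ?_, ?_, ?_⟩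
    · show lo < lo + 1 + A.length
      omega
    · show lo + 1 + A.length + 1 < lo + (A ++ z :: w :: B).length + 1
      rw [List.length_append, List.length_cons, List.length_cons]
      push_cast
      omega
    · have e1 : (strOf lo (A ++ z :: w :: B)).cr (lo + 1 + A.length) = z := by
        show (if lo < lo + 1 + A.length then
          (A ++ z :: w :: B).getD (lo + 1 + A.length - lo - 1).toNat 0 else 0) = z
        rw [if_pos (by omega), show (lo + 1 + (A.length : ℤ) - lo - 1).toNat = A.length by omega,
          List.getD_append_right _ _ _ _ le_rfl, Nat.sub_self, List.getD_cons_zero]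
      rw [e1]
      exact hz
    · have e1 : (strOf lo (A ++ z :: w :: B)).cr (lo + 1 + A.length + 1) = w := by
        show (if lo < lo + 1 + A.length + 1 then
          (A ++ z :: w :: B).getD (lo + 1 + A.length + 1 - lo - 1).toNat 0 else 0) = w
        rw [if_pos (by omega),
          show (lo + 1 + (A.length : ℤ) + 1 - lo - 1).toNat = A.length + 1 by omega,
          List.getD_append_right _ _ _ _ (by omega), Nat.add_sub_cancel_left,
          List.getD_cons_succ, List.getD_cons_zero]
      rw [e1]
      exact hw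
  refine move_G (near x y hx hy h hf) (near x' y' hx' hy' h' hf') rfl ?_ ?_ ?_
  · show lo + ((A ++ x' :: y' :: B).length : ℤ) + 1 = lo + ((A ++ x :: y :: B).length : ℤ) + 1
    rw [hlen]
  · intro i h1 h2
    show (if lo < i then (A ++ x' :: y' :: B).getD (i - lo - 1).toNat 0 else 0) =
      if lo < i then (A ++ x :: y :: B).getD (i - lo - 1).toNat 0 else 0
    split_ifs with h3
    · exact getD_swap A B x' y' x y _ (by omega) (by omega)
    · rfl
  · intro i h1
    show par ((A ++ x' :: y' :: B).take (i - lo).toNat) =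
      par ((A ++ x :: y :: B).take (i - lo).toNat)
    exact par_swap A B x' y' x y _ hp.symm (by omega)

theorem E_shift (hr : ∀ ρ ∈ rl, WOK m ρ) {lo : ℤ} {A B : List ℕ} {s : ℕ}
    (h : WOK m (A ++ (s + 1) :: 0 :: B)) (hf : Fits rl lo (A ++ (s + 1) :: 0 :: B).length) :
    EE m rl lo (A ++ (s + 1) :: 0 :: B) lo (A ++ 0 :: (s + 1) :: B) := by
  have hs := h.1 (s + 1) (by simp)
  exact E_swap hr (s := s) (by omega) (Or.inr rfl) (Or.inl rfl) (Or.inl rfl) (Or.inr rfl)
    (by simp) h hf

theorem E_cancel (hr : ∀ ρ ∈ rl, WOK m ρ) {lo : ℤ} {A B : List ℕ} {s : ℕ}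
    (h : WOK m (A ++ (s + 1) :: (s + 1) :: B))
    (hf : Fits rl lo (A ++ (s + 1) :: (s + 1) :: B).length) :
    EE m rl lo (A ++ (s + 1) :: (s + 1) :: B) lo (A ++ 0 :: 0 :: B) := by
  have hs := h.1 (s + 1) (by simp)
  exact E_swap hr (s := s) (by omega) (Or.inr rfl) (Or.inr rfl) (Or.inl rfl) (Or.inl rfl)
    (by simp) h hf

theorem E_ins (hr : ∀ ρ ∈ rl, WOK m ρ) {l₁ l₂ : List (List ℕ)} {ρ : List ℕ}
    (hrl : rl = l₁ ++ ρ :: l₂) {lo : ℤ} {A B : List ℕ} (hA : par A = false)
    (ha : lo + 1 + A.length = 1 + lenR l₁) (h : WOK m (A ++ B))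
    (hf : Fits rl lo (A ++ 0 :: (ρ ++ 0 :: B)).length) :
    EE m rl lo (A ++ (List.replicate (ρ.length + 2) 0 ++ B)) lo (A ++ 0 :: (ρ ++ 0 :: B)) := by
  have hρ : WOK m ρ := hr ρ (by rw [hrl]; simp)
  have hrmem : strOf (1 + lenR l₁) ρ ∈ rsOf 1 rl := mem_rsOf.2 ⟨l₁, ρ, l₂, hrl, rfl⟩
  obtain ⟨⟨hA1, hB1⟩, hAB⟩ := wok_append.1 h
  have hB : par B = false := by
    rw [hA] at hAB
    simpa using hAB
  have hlen1 : (A ++ (List.replicate (ρ.length + 2) 0 ++ B)).length =
      A.length + ρ.length + 2 + B.length := by
    simp only [List.length_append, List.length_replicate]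
    omega
  have hlen2 : (A ++ 0 :: (ρ ++ 0 :: B)).length = A.length + ρ.length + 2 + B.length := by
    simp only [List.length_append, List.length_cons]
    omega
  have hW : WOK m (A ++ (List.replicate (ρ.length + 2) 0 ++ B)) := by
    refine wok_append.2 ⟨⟨hA1, ?_⟩, ?_⟩
    · intro a ha
      rcases List.mem_append.1 ha with h1 | h1
      · rw [List.eq_of_mem_replicate h1]; omega
      · exact hB1 a h1
    · rw [par_append, par_replicate, hA, hB]; rfl
  have hW' : WOK m (A ++ 0 :: (ρ ++ 0 :: B)) := by
    refine wok_append.2 ⟨⟨hA1, ?_⟩, ?_⟩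
    · intro a ha
      rw [List.mem_cons, List.mem_append, List.mem_cons] at ha
      rcases ha with h1 | h1 | h1 | h1
      · omega
      · exact hρ.1 a h1
      · omega
      · exact hB1 a h1
    · rw [par_zero, par_append, par_zero, hρ.2, hA, hB]; rfl
  have hadm := adm_strOf hr hW (by rw [hlen1, ← hlen2]; exact hf)
  have hadm' := adm_strOf hr hW' hf
  set a : ℤ := 1 + lenR l₁ with haa
  refine move_C3 hadm hadm' hrmem ⟨?_, ?_, ?_, ?_⟩ ⟨rfl, ?_, ?_, ?_, ?_, ?_⟩
  · show lo < a
    omega
  · show a + (ρ.length : ℤ) + 1 < lo + ((A ++ (List.replicate (ρ.length + 2) 0 ++ B)).length : ℤ) + 1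
    rw [hlen1]
    push_cast
    omega
  · intro j h1 h2
    change a ≤ j at h1
    change j ≤ a + (ρ.length : ℤ) + 1 at h2
    show (if lo < j then (A ++ (List.replicate (ρ.length + 2) 0 ++ B)).getD (j - lo - 1).toNat 0
      else 0) = 0
    rw [if_pos (by omega), List.getD_append_right _ _ _ _ (by omega),
      List.getD_append _ _ _ _ (by rw [List.length_replicate]; omega)]
    rw [List.getD_eq_getElem?_getD, List.getElem?_replicate]
    split_ifs <;> rfl
  · intro j h1 h2
    change a - 1 ≤ j at h1
    change j ≤ a + (ρ.length : ℤ) + 1 at h2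
    show par ((A ++ (List.replicate (ρ.length + 2) 0 ++ B)).take (j - lo).toNat) = false
    obtain ⟨k, hk⟩ : ∃ k, (j - lo).toNat = A.length + k := ⟨(j - lo).toNat - A.length, by omega⟩
    rw [hk, List.take_length_add_append, List.take_append_of_le_length (by
      rw [List.length_replicate]; omega), List.take_replicate, par_append, par_replicate, hA]
    rfl
  · show lo + ((A ++ 0 :: (ρ ++ 0 :: B)).length : ℤ) + 1 =
      lo + ((A ++ (List.replicate (ρ.length + 2) 0 ++ B)).length : ℤ) + 1
    rw [hlen1, hlen2]
  · intro j h1 h2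
    change a ≤ j at h1
    change j ≤ a + (ρ.length : ℤ) + 1 at h2
    show (if lo < j then (A ++ 0 :: (ρ ++ 0 :: B)).getD (j - lo - 1).toNat 0 else 0) =
      if a < j then ρ.getD (j - a - 1).toNat 0 else 0
    rw [if_pos (by omega), List.getD_append_right _ _ _ _ (by omega)]
    by_cases h3 : a < j
    · obtain ⟨k, hk⟩ : ∃ k : ℕ, j = a + 1 + k := ⟨(j - a - 1).toNat, by omega⟩
      rw [if_pos h3, show (j - lo - 1).toNat - A.length = k + 1 by omega, List.getD_cons_succ,
        show (j - a - 1).toNat = k by omega]
      by_cases h4 : k < ρ.length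
      · rw [List.getD_append _ _ _ _ h4]
      · have h5 : k = ρ.length := by omega
        rw [List.getD_append_right _ _ _ _ (by omega), h5, Nat.sub_self, List.getD_cons_zero,
          List.getD_eq_default _ _ le_rfl]
    · rw [if_neg h3, show (j - lo - 1).toNat - A.length = 0 by omega, List.getD_cons_zero]
  · intro j h1 h2
    change a ≤ j at h1
    change j < a + (ρ.length : ℤ) + 1 at h2
    show par ((A ++ 0 :: (ρ ++ 0 :: B)).take (j - lo).toNat) = par (ρ.take (j - a).toNat)
    obtain ⟨k, hk⟩ : ∃ k : ℕ, j = a + k := ⟨(j - a).toNat, by omega⟩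
    rw [show (j - lo).toNat = A.length + (k + 1) by omega, List.take_length_add_append,
      List.take_succ_cons, List.take_append_of_le_length (by omega), par_append, par_zero, hA,
      show (j - a).toNat = k by omega, Bool.false_xor]
  · intro j h1
    show (if lo < j then (A ++ 0 :: (ρ ++ 0 :: B)).getD (j - lo - 1).toNat 0 else 0) =
      if lo < j then (A ++ (List.replicate (ρ.length + 2) 0 ++ B)).getD (j - lo - 1).toNat 0
        else 0
    split_ifs with h2
    swap
    · rfl
    rcases h1 with h1 | h1
    · change j < a at h1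
      rw [List.getD_append _ _ _ _ (by omega), List.getD_append _ _ _ _ (by omega)]
    · change a + (ρ.length : ℤ) + 1 < j at h1
      obtain ⟨k, hk⟩ : ∃ k : ℕ, (j - lo - 1).toNat = A.length + (ρ.length + 1 + (k + 1)) :=
        ⟨(j - lo - 1).toNat - A.length - ρ.length - 2, by omega⟩
      rw [hk, List.getD_append_right _ _ _ _ (by omega), List.getD_append_right _ _ _ _ (by omega),
        Nat.add_sub_cancel_left, show ρ.length + 1 + (k + 1) = (ρ.length + (k + 1)) + 1 by omega,
        List.getD_cons_succ, List.getD_append_right _ _ _ _ (by omega), Nat.add_sub_cancel_left,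
        List.getD_cons_succ, List.getD_append_right _ _ _ _ (by
          rw [List.length_replicate]; omega), List.length_replicate]
      congr 1
      omega
  · intro j h1
    show par ((A ++ 0 :: (ρ ++ 0 :: B)).take (j - lo).toNat) =
      par ((A ++ (List.replicate (ρ.length + 2) 0 ++ B)).take (j - lo).toNat)
    rcases h1 with h1 | h1
    · change j < a at h1
      rw [List.take_append_of_le_length (by omega), List.take_append_of_le_length (by omega)]
    · change a + (ρ.length : ℤ) + 1 ≤ j at h1
      obtain ⟨k, hk⟩ : ∃ k : ℕ, (j - lo).toNat = A.length + (ρ.length + (k + 1) + 1) :=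
        ⟨(j - lo).toNat - A.length - ρ.length - 2, by omega⟩
      rw [hk, List.take_length_add_append, List.take_length_add_append, List.take_succ_cons,
        List.take_length_add_append, List.take_succ_cons, par_append, par_append, par_zero,
        par_append, par_zero, hρ.2, Bool.false_xor]
      congr 1
      have h2 : ρ.length + (k + 1) + 1 = (List.replicate (ρ.length + 2) 0 : List ℕ).length + k := by
        rw [List.length_replicate]; omega
      rw [h2, List.take_length_add_append, par_append, par_replicate, Bool.false_xor]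

theorem E_top (hr : ∀ ρ ∈ rl, WOK m ρ) {lo : ℤ} {W : List ℕ} (h : WOK m W)
    (hf : Fits rl lo W.length) : EE m rl lo W lo (W ++ [0]) := by
  have h' : WOK m (W ++ [0]) := by
    refine wok_append.2 ⟨⟨h.1, ?_⟩, ?_⟩
    · intro a ha
      rw [List.mem_singleton] at ha
      omega
    · rw [h.2, par_zero, par_nil]; rfl
  have hf' : Fits rl lo (W ++ [0]).length := by
    rw [List.length_append, List.length_singleton]
    unfold Fits at *
    push_cast
    omega
  refine move_top (adm_strOf hr h hf) (adm_strOf hr h' hf') rfl ?_ ?_ ?_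
  · show lo + ((W ++ [0]).length : ℤ) + 1 = lo + (W.length : ℤ) + 1 + 1
    rw [List.length_append, List.length_singleton]
    push_cast
    ring
  · intro i
    show (if lo < i then (W ++ [0]).getD (i - lo - 1).toNat 0 else 0) =
      if lo < i then W.getD (i - lo - 1).toNat 0 else 0
    split_ifs with h2
    · by_cases h3 : (i - lo - 1).toNat < W.length
      · rw [List.getD_append _ _ _ _ h3]
      · rw [List.getD_append_right _ _ _ _ (by omega), List.getD_eq_default W _ (by omega)]
        cases (i - lo - 1).toNat - W.length with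
        | zero => rfl
        | succ k => simp
    · rfl
  · intro i _
    show par ((W ++ [0]).take (i - lo).toNat) = par (W.take (i - lo).toNat)
    rw [List.take_append, par_append]
    have h3 : par (([0] : List ℕ).take ((i - lo).toNat - W.length)) = false := by
      cases (i - lo).toNat - W.length with
      | zero => exact par_nil
      | succ k => rw [List.take_succ_cons, par_zero, List.take_nil, par_nil]
    rw [h3, Bool.xor_false]

theorem E_bot (hr : ∀ ρ ∈ rl, WOK m ρ) {lo : ℤ} {W : List ℕ} (h : WOK m W)
    (hf : Fits rl lo W.length) : EE m rl lo W (lo - 1) (0 :: W) := by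
  have h' : WOK m (0 :: W) := by
    refine ⟨?_, ?_⟩
    · intro a ha
      rw [List.mem_cons] at ha
      rcases ha with ha | ha
      · omega
      · exact h.1 a ha
    · rw [par_zero, h.2]
  have hf' : Fits rl (lo - 1) (0 :: W).length := by
    rw [List.length_cons]
    unfold Fits at *
    push_cast
    omega
  refine move_bot (adm_strOf hr h hf) (adm_strOf hr h' hf') rfl ?_ ?_ ?_
  · show lo - 1 + ((0 :: W).length : ℤ) + 1 = lo + (W.length : ℤ) + 1
    rw [List.length_cons]
    push_cast
    ring
  · intro i
    show (if lo - 1 < i then (0 :: W).getD (i - (lo - 1) - 1).toNat 0 else 0) =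
      if lo < i then W.getD (i - lo - 1).toNat 0 else 0
    by_cases h1 : lo < i
    · obtain ⟨k, hk⟩ : ∃ k : ℕ, i = lo + 1 + k := ⟨(i - lo - 1).toNat, by omega⟩
      rw [if_pos (by omega), if_pos h1, show (i - (lo - 1) - 1).toNat = k + 1 by omega,
        List.getD_cons_succ, show (i - lo - 1).toNat = k by omega]
    · rw [if_neg h1]
      split_ifs with h2
      · rw [show (i - (lo - 1) - 1).toNat = 0 by omega, List.getD_cons_zero]
      · rfl
  · intro i _
    show par ((0 :: W).take (i - (lo - 1)).toNat) = par (W.take (i - lo).toNat)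
    by_cases h1 : lo ≤ i
    · obtain ⟨k, hk⟩ : ∃ k : ℕ, i = lo + k := ⟨(i - lo).toNat, by omega⟩
      rw [show (i - (lo - 1)).toNat = k + 1 by omega, List.take_succ_cons, par_zero,
        show (i - lo).toNat = k by omega]
    · rw [show (i - (lo - 1)).toNat = 0 by omega, show (i - lo).toNat = 0 by omega,
        List.take_zero, List.take_zero]

end Pool.Agent.MKD
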