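import Pool.Agent.MKD.ListMoves

/-! Module MKD/WordEq: the state depends only on the list of crossings without blanks.

nz W = W without zeros. `EE` is an equivalence relation (Relation.EqvGen).
(1) If nz W = nz W', W.length = W'.length, both WOK, Fits: EE lo W lo W'. By E_shift every W is equivalent to
nz W ++ zeros (a bubble sort: induction; or: every W with nz W = c and length n is equivalent to replicate k 0 ++ c).
(2) `EE_of_nz`: nz W = nz W', any lo, lo': extend both by E_top and E_bot to the same lo'' and length.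
(3) `EE_cancel`: choose W = zeros ++ A ++ (s+1) :: (s+1) :: B ++ zeros and E_cancel.
(4) `EE_relator`: ρ ∈ rl, rl = l₁ ++ ρ :: l₂; choose lo ≤ 0 and p with lo + 1 + p + A.length = 1 + lenR l₁ (e.g.
lo = - A.length, p = lenR l₁), the list (0^p ++ A) ++ replicate (ρ.length + 2) 0 ++ (B ++ 0^q) with q large; E_ins; nz of
the second list is A ++ nz ρ ++ B. -/

set_option autoImplicit false

namespace Pool.Agent.MKD

open Pool.Agent.MK

/-- Crossings without blanks. -/
def nz (W : List ℕ) : List ℕ := W.filter (fun a => decide (a ≠ 0))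

variable {m : ℕ} {rl : List (List ℕ)}

namespace WordEq

theorem nz_append (A B : List ℕ) : nz (A ++ B) = nz A ++ nz B := by
  unfold nz
  exact List.filter_append _ _

theorem nz_zero (B : List ℕ) : nz (0 :: B) = nz B := rfl

theorem nz_succ (s : ℕ) (B : List ℕ) : nz ((s + 1) :: B) = (s + 1) :: nz B := rfl

theorem nz_zeros (k : ℕ) : nz (List.replicate k 0) = [] := by
  induction k with
  | zero => rfl
  | succ k ih => rw [List.replicate_succ, nz_zero, ih]

theorem nz_nz (W : List ℕ) : nz (nz W) = nz W := by
  unfold nz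
  rw [List.filter_filter]
  simp

theorem wok_iff_nz {W : List ℕ} : WOK m W ↔ WOK m (nz W) := by
  unfold WOK
  have h1 : par W = par (nz W) := by
    unfold par nz
    rw [List.countP_filter]
    simp
  rw [h1]
  refine and_congr_left fun _ => ⟨fun h a ha => h a ?_, fun h a ha => ?_⟩
  · unfold nz at ha
    exact (List.mem_filter.1 ha).1
  · rcases Nat.eq_zero_or_pos a with rfl | ha0
    · omega
    · refine h a ?_
      unfold nz
      rw [List.mem_filter]
      exact ⟨ha, by simp; omega⟩

theorem wok_of_nz {W W' : List ℕ} (h : nz W = nz W') (hW : WOK m W) : WOK m W' := by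
  rw [wok_iff_nz, ← h, ← wok_iff_nz]
  exact hW

theorem EE.rfl' {lo : ℤ} {W : List ℕ} : EE m rl lo W lo W := Relation.EqvGen.refl _

theorem EE.symm {lo lo' : ℤ} {W W' : List ℕ} (h : EE m rl lo W lo' W') :
    EE m rl lo' W' lo W := Relation.EqvGen.symm _ _ h

theorem EE.trans {lo lo' lo'' : ℤ} {W W' W'' : List ℕ} (h : EE m rl lo W lo' W')
    (h' : EE m rl lo' W' lo'' W'') : EE m rl lo W lo'' W'' := Relation.EqvGen.trans _ _ _ h h'

/-- A crossing moves up through blanks. -/
theorem shift_zeros (hr : ∀ ρ ∈ rl, WOK m ρ) {lo : ℤ} {s : ℕ} (C : List ℕ) (k : ℕ) :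
    ∀ A : List ℕ, WOK m (A ++ (s + 1) :: (List.replicate k 0 ++ C)) →
      Fits rl lo (A ++ (s + 1) :: (List.replicate k 0 ++ C)).length →
      EE m rl lo (A ++ (s + 1) :: (List.replicate k 0 ++ C)) lo
        (A ++ (List.replicate k 0 ++ (s + 1) :: C)) := by
  induction k with
  | zero => intro A _ _; exact EE.rfl'
  | succ k ih =>
    intro A hA hf
    have h1 : EE m rl lo (A ++ (s + 1) :: 0 :: (List.replicate k 0 ++ C)) lo
        (A ++ 0 :: (s + 1) :: (List.replicate k 0 ++ C)) := E_shift hr hA hf
    have e : A ++ 0 :: (s + 1) :: (List.replicate k 0 ++ C) =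
        (A ++ [0]) ++ (s + 1) :: (List.replicate k 0 ++ C) := by simp
    have h2 := ih (A ++ [0]) (wok_of_nz (by
      simp [nz_append, nz_zero, nz_succ, List.replicate_succ]) hA) (by
        convert hf using 1
        simp only [List.length_append, List.length_cons, List.length_replicate, List.length_nil]
        omega)
    rw [← e] at h2
    have e' : A ++ (List.replicate (k + 1) 0 ++ (s + 1) :: C) =
        (A ++ [0]) ++ (List.replicate k 0 ++ (s + 1) :: C) := by simp [List.replicate_succ]
    rw [e']
    exact EE.trans h1 h2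

/-- The blanks of the second part move down. -/
theorem sort (hr : ∀ ρ ∈ rl, WOK m ρ) {lo : ℤ} : ∀ (B A : List ℕ), WOK m (A ++ B) →
    Fits rl lo (A ++ B).length →
    EE m rl lo (A ++ B) lo
      (A ++ (List.replicate (B.length - (nz B).length) 0 ++ nz B)) := by
  intro B
  induction B with
  | nil => intro A _ _; exact EE.rfl'
  | cons b B ih =>
    intro A hA hf
    have hle : (nz B).length ≤ B.length := List.length_filter_le _ _
    have e : ∀ X : List ℕ, A ++ b :: X = (A ++ [b]) ++ X := fun X => by simp
    have h1 := ih (A ++ [b]) (by rw [← e]; exact hA) (by rw [← e]; exact hf)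
    rw [← e, ← e] at h1
    rcases Nat.eq_zero_or_pos b with rfl | hb
    · have e2 : A ++ (List.replicate ((0 :: B).length - (nz (0 :: B)).length) 0 ++ nz (0 :: B)) =
          A ++ 0 :: (List.replicate (B.length - (nz B).length) 0 ++ nz B) := by
        rw [nz_zero, List.length_cons, Nat.succ_sub hle, List.replicate_succ]
        rfl
      rw [e2]
      exact h1
    · obtain ⟨s, rfl⟩ := Nat.exists_eq_succ_of_ne_zero hb.ne'
      have e2 : A ++ (List.replicate (((s + 1) :: B).length - (nz ((s + 1) :: B)).length) 0 ++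
          nz ((s + 1) :: B)) =
          A ++ (List.replicate (B.length - (nz B).length) 0 ++ (s + 1) :: nz B) := by
        rw [nz_succ, List.length_cons, List.length_cons, Nat.succ_sub_succ]
      rw [e2]
      refine EE.trans h1 (shift_zeros hr (nz B) _ A (wok_of_nz ?_ hA) ?_)
      · simp only [nz_append, nz_succ, nz_zeros, nz_nz, List.nil_append]
      · convert hf using 1
        simp only [List.length_append, List.length_cons, List.length_replicate]
        omega

theorem same_length (hr : ∀ ρ ∈ rl, WOK m ρ) {lo : ℤ} {W W' : List ℕ} (h : WOK m W)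
    (h' : WOK m W') (hf : Fits rl lo W.length) (hl : W.length = W'.length)
    (hn : nz W = nz W') : EE m rl lo W lo W' := by
  have h1 := sort hr W [] h hf
  have h2 := sort hr W' [] h' (by rw [List.nil_append, ← hl]; exact hf)
  rw [← hl, ← hn] at h2
  exact EE.trans h1 (EE.symm h2)

theorem fits_top {lo : ℤ} {n : ℕ} (h : Fits rl lo n) (k : ℕ) : Fits rl lo (n + k) :=
  ⟨h.1, h.2.trans (by push_cast; omega)⟩

theorem fits_bot {lo : ℤ} {n : ℕ} (h : Fits rl lo n) (k : ℕ) : Fits rl (lo - k) (n + k) :=
  ⟨by have := h.1; omega, h.2.trans (by push_cast; omega)⟩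

theorem top (hr : ∀ ρ ∈ rl, WOK m ρ) {lo : ℤ} {W : List ℕ} (h : WOK m W)
    (hf : Fits rl lo W.length) (k : ℕ) : EE m rl lo W lo (W ++ List.replicate k 0) := by
  induction k with
  | zero => rw [List.replicate_zero, List.append_nil]; exact EE.rfl'
  | succ k ih =>
    have h1 : EE m rl lo (W ++ List.replicate k 0) lo ((W ++ List.replicate k 0) ++ [0]) := by
      refine E_top hr (wok_of_nz ?_ h) ?_
      · rw [nz_append, nz_zeros, List.append_nil]
      · rw [List.length_append, List.length_replicate]
        exact fits_top hf k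
    rw [List.append_assoc, ← List.replicate_succ'] at h1
    exact EE.trans ih h1

theorem bot (hr : ∀ ρ ∈ rl, WOK m ρ) {lo : ℤ} {W : List ℕ} (h : WOK m W)
    (hf : Fits rl lo W.length) (k : ℕ) : EE m rl lo W (lo - k) (List.replicate k 0 ++ W) := by
  induction k with
  | zero => simp only [List.replicate_zero, List.nil_append, Nat.cast_zero, sub_zero]; exact EE.rfl'
  | succ k ih =>
    have h1 : EE m rl (lo - k) (List.replicate k 0 ++ W) (lo - k - 1)
        (0 :: (List.replicate k 0 ++ W)) := by
      refine E_bot hr (wok_of_nz ?_ h) ?_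
      · rw [nz_append, nz_zeros, List.nil_append]
      · rw [List.length_append, List.length_replicate, add_comm]
        exact fits_bot hf k
    have e : lo - ((k + 1 : ℕ) : ℤ) = lo - k - 1 := by push_cast; ring
    rw [e, List.replicate_succ]
    exact EE.trans ih h1

end WordEq

open WordEq

theorem EE_of_nz (hr : ∀ ρ ∈ rl, WOK m ρ) {lo lo' : ℤ} {W W' : List ℕ} (h : WOK m W)
    (h' : WOK m W') (hf : Fits rl lo W.length) (hf' : Fits rl lo' W'.length) (hn : nz W = nz W') :
    EE m rl lo W lo' W' := by
  -- the common bottom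
  obtain ⟨a, a', ha⟩ : ∃ a a' : ℕ, lo - a = lo' - a' := by
    rcases le_total lo lo' with hl | hl
    · exact ⟨0, (lo' - lo).toNat, by push_cast; omega⟩
    · exact ⟨(lo - lo').toNat, 0, by push_cast; omega⟩
  have wz : ∀ {V : List ℕ} (k : ℕ), WOK m V → WOK m (List.replicate k 0 ++ V) := fun k hV =>
    wok_of_nz (by rw [nz_append, nz_zeros, List.nil_append]) hV
  have wz' : ∀ {V : List ℕ} (k : ℕ), WOK m V → WOK m (V ++ List.replicate k 0) := fun k hV =>
    wok_of_nz (by rw [nz_append, nz_zeros, List.append_nil]) hV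
  have e1 := bot hr h hf a
  have e1' := bot hr h' hf' a'
  have f1 : Fits rl (lo - a) (List.replicate a 0 ++ W).length := by
    rw [List.length_append, List.length_replicate, add_comm]
    exact fits_bot hf a
  have f1' : Fits rl (lo' - a') (List.replicate a' 0 ++ W').length := by
    rw [List.length_append, List.length_replicate, add_comm]
    exact fits_bot hf' a'
  have e2 := top hr (wz a h) f1 (a' + W'.length)
  have e2' := top hr (wz a' h') f1' (a + W.length)
  rw [← ha] at e1' e2'
  refine EE.trans e1 (EE.trans e2 (EE.trans ?_ (EE.symm (EE.trans e1' e2'))))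
  refine same_length hr (wz' _ (wz _ h)) (wz' _ (wz _ h')) ?_ ?_ ?_
  · rw [List.length_append, List.length_replicate]
    exact fits_top f1 _
  · simp only [List.length_append, List.length_replicate]
    omega
  · simp only [nz_append, nz_zeros, List.nil_append, List.append_nil, hn]

/-- Equivalence of lists of crossings. -/
def CE (m : ℕ) (rl : List (List ℕ)) (c c' : List ℕ) : Prop :=
  ∀ (lo lo' : ℤ) (W W' : List ℕ), WOK m W → WOK m W' → Fits rl lo W.length →
    Fits rl lo' W'.length → nz W = nz c → nz W' = nz c' → EE m rl lo W lo' W'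

theorem CE_refl (hr : ∀ ρ ∈ rl, WOK m ρ) (c : List ℕ) : CE m rl c c :=
  fun _ _ _ _ h h' hf hf' hn hn' => EE_of_nz hr h h' hf hf' (hn.trans hn'.symm)

theorem CE_symm {c c' : List ℕ} (h : CE m rl c c') : CE m rl c' c :=
  fun lo lo' W W' hW hW' hf hf' hn hn' => EE.symm (h lo' lo W' W hW' hW hf' hf hn' hn)

theorem CE_trans {c c' c'' : List ℕ} (hc : WOK m c') (h : CE m rl c c')
    (h' : CE m rl c' c'') : CE m rl c c'' := by
  intro lo lo' W W' hW hW' hf hf' hn hn'
  have e : nz (c' ++ List.replicate (lenR rl) 0) = nz c' := by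
    rw [nz_append, nz_zeros, List.append_nil]
  have hV : WOK m (c' ++ List.replicate (lenR rl) 0) := wok_of_nz e.symm hc
  have hfV : Fits rl 0 (c' ++ List.replicate (lenR rl) 0).length := by
    refine ⟨le_rfl, ?_⟩
    rw [List.length_append, List.length_replicate]
    push_cast
    omega
  exact EE.trans (h lo 0 W _ hW hV hf hfV hn e) (h' 0 lo' _ W' hV hW' hfV hf' e hn')

theorem CE_cancel (hr : ∀ ρ ∈ rl, WOK m ρ) {A B : List ℕ} {s : ℕ}
    (h : WOK m (A ++ (s + 1) :: (s + 1) :: B)) : CE m rl (A ++ (s + 1) :: (s + 1) :: B) (A ++ B) := by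
  intro lo lo' W W' hW hW' hf hf' hn hn'
  have hfV : Fits rl 0 (A ++ (s + 1) :: (s + 1) :: (B ++ List.replicate (lenR rl) 0)).length := by
    refine ⟨le_rfl, ?_⟩
    simp only [List.length_append, List.length_cons, List.length_replicate]
    push_cast
    omega
  have hfV' : Fits rl 0 (A ++ 0 :: 0 :: (B ++ List.replicate (lenR rl) 0)).length := by
    refine ⟨le_rfl, ?_⟩
    simp only [List.length_append, List.length_cons, List.length_replicate]
    push_cast
    omega
  have n1 : nz (A ++ (s + 1) :: (s + 1) :: (B ++ List.replicate (lenR rl) 0)) =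
      nz (A ++ (s + 1) :: (s + 1) :: B) := by
    simp only [nz_append, nz_succ, nz_zeros, List.append_nil]
  have n2 : nz (A ++ 0 :: 0 :: (B ++ List.replicate (lenR rl) 0)) = nz (A ++ B) := by
    simp only [nz_append, nz_zero, nz_zeros, List.append_nil]
  have w1 := wok_of_nz n1.symm h
  have w2 : WOK m (A ++ 0 :: 0 :: (B ++ List.replicate (lenR rl) 0)) :=
    wok_of_nz (hn'.trans n2.symm) hW'
  exact EE.trans (EE_of_nz hr hW w1 hf hfV (hn.trans n1.symm))
    (EE.trans (E_cancel hr w1 hfV) (EE_of_nz hr w2 hW' hfV' hf' (n2.trans hn'.symm)))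

theorem CE_relator (hr : ∀ ρ ∈ rl, WOK m ρ) {A B ρ : List ℕ} (hρ : ρ ∈ rl) (hA : par A = false)
    (h : WOK m (A ++ B)) : CE m rl (A ++ (ρ ++ B)) (A ++ B) := by
  intro lo lo' W W' hW hW' hf hf' hn hn'
  obtain ⟨l₁, l₂, hrl⟩ := List.append_of_mem hρ
  set A' := List.replicate (lenR l₁) 0 ++ A with hA'
  set B' := B ++ List.replicate (lenR rl) 0 with hB'
  have nA' : nz A' = nz A := by rw [hA', nz_append, nz_zeros, List.nil_append]
  have nB' : nz B' = nz B := by rw [hB', nz_append, nz_zeros, List.append_nil]
  have pA' : par A' = false := by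
    rw [hA', par_append, hA]
    have : par (List.replicate (lenR l₁) 0) = false := by
      unfold par
      have h0 : (List.replicate (lenR l₁) 0).countP (fun a => decide (a ≠ 0)) = 0 := by
        rw [List.countP_eq_zero]
        intro a ha
        rw [List.eq_of_mem_replicate ha]
        simp
      rw [h0]
      rfl
    rw [this]
    rfl
  have w0 : WOK m (A' ++ B') := wok_of_nz (by rw [nz_append, nz_append, nA', nB']) h
  have n1 : nz (A' ++ (List.replicate (ρ.length + 2) 0 ++ B')) = nz (A ++ B) := by
    simp only [nz_append, nz_zeros, List.nil_append, nA', nB']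
  have n2 : nz (A' ++ 0 :: (ρ ++ 0 :: B')) = nz (A ++ (ρ ++ B)) := by
    simp only [nz_append, nz_zero, nA', nB']
  have w1 : WOK m (A' ++ (List.replicate (ρ.length + 2) 0 ++ B')) := wok_of_nz n1.symm h
  have w2 : WOK m (A' ++ 0 :: (ρ ++ 0 :: B')) := wok_of_nz (hn.trans n2.symm) hW
  have f2 : Fits rl (-(A.length : ℤ)) (A' ++ 0 :: (ρ ++ 0 :: B')).length := by
    refine ⟨by omega, ?_⟩
    rw [hA', hB']
    simp only [List.length_append, List.length_cons, List.length_replicate]
    push_cast
    omega
  have f1 : Fits rl (-(A.length : ℤ)) (A' ++ (List.replicate (ρ.length + 2) 0 ++ B')).length := by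
    convert f2 using 1
    simp only [List.length_append, List.length_cons, List.length_replicate]
    omega
  have key := E_ins hr hrl pA' (lo := -(A.length : ℤ)) (by
    rw [hA', List.length_append, List.length_replicate]
    push_cast
    ring) w0 f2
  exact EE.trans (EE_of_nz hr hW w2 hf f2 (hn.trans n2.symm))
    (EE.trans (EE.symm key) (EE_of_nz hr w1 hW' f1 hf' (n1.trans hn'.symm)))

end Pool.Agent.MKD
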