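import Pool.Agent.MKD.Geo

/-! MKD/C3Defs: the regions of the relator move. `r` is the strand of a relator. -/

set_option autoImplicit false

namespace Pool.Agent.MKD

open Pool.Agent.MK

/-- Inner cells of the normal path of the moving word. -/
def inn (u v : ℤ) : Prop := (u = 0 ∧ (v = 1 ∨ v = 2)) ∨ (u = 1 ∧ v = 2)

/-- First region: between the line over `b` and the return line of the relator. -/
def R1 (r : Str) : Set P := {c | c 1 = 0 ∧ -2 ≤ c 0 ∧ c 0 ≤ 0 ∧ nuP true (c 4) (c 3) ∧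
  2 * r.lo ≤ c 2 ∧ c 2 ≤ 2 * r.hi}

def C0 (r : Str) : Set P := {c | c ∈ R1 r ∧ (¬ inn (c 4) (c 3) ∨ c 0 = 0)}

def C1 (r : Str) : Set P := {c | c ∈ R1 r ∧ (¬ inn (c 4) (c 3) ∨ c 0 = -2 ∨ c 2 = 2 * r.lo ∨
  c 2 = 2 * r.hi)}

/-- Second region: the disc of the relator times `[0, 2]` in the direction `v`. -/
def R2 (r : Str) : Set P := {c | Function.update c 3 0 ∈ disc false r ∧ 0 ≤ c 3 ∧ c 3 ≤ 2}

/-- Return line and end edges. -/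
def kap (r : Str) (c : P) : Prop :=
  c 1 = 0 ∧ -2 ≤ c 0 ∧ c 0 ≤ 0 ∧ (c 0 = -2 ∨ c 2 = 2 * r.lo ∨ c 2 = 2 * r.hi)

/-- Return line and end edges without their end points on the line over `b`. -/
def kap' (r : Str) (c : P) : Prop :=
  c 1 = 0 ∧ (c 0 = -2 ∨ (c 0 = -1 ∧ (c 2 = 2 * r.lo ∨ c 2 = 2 * r.hi)))

def flap (c : P) : Prop := c 1 = 0 ∧ -2 ≤ c 0 ∧ c 0 ≤ 0 ∧ c 4 = 2

def CA (r : Str) : Set P := {c | c ∈ R2 r ∧ (c 3 = 0 ∨ (c 3 = 1 ∧ c 4 = 0 ∧ kap r c) ∨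
  (c 3 = 2 ∧ (kap r c ∨ flap c)))}

def CB (r : Str) : Set P := {c | c ∈ R2 r ∧ (c 3 = 0 ∨ (c 3 = 1 ∧ c 4 = 0 ∧ ¬ kap' r c) ∨
  (c 3 = 2 ∧ ¬ (kap' r c ∧ c 4 ≤ 1)))}

/-- The moving word is blank and at `b` on the levels of the relator `r`. -/
structure Blank (r T : Str) : Prop where
  lo : T.lo < r.lo
  hi : r.hi < T.hi
  cr : ∀ j, r.lo ≤ j → j ≤ r.hi → T.cr j = 0
  pos : ∀ j, r.lo - 1 ≤ j → j ≤ r.hi → T.pos j = false

/-- `T'` is `T` with the relator `r` inserted. -/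
structure Ins (r T T' : Str) : Prop where
  lo : T'.lo = T.lo
  hi : T'.hi = T.hi
  cr : ∀ j, r.lo ≤ j → j ≤ r.hi → T'.cr j = r.cr j
  pos : ∀ j, r.lo ≤ j → j < r.hi → T'.pos j = r.pos j
  cr' : ∀ j, j < r.lo ∨ r.hi < j → T'.cr j = T.cr j
  pos' : ∀ j, j < r.lo ∨ r.hi ≤ j → T'.pos j = T.pos j

/-- The intermediate complex: the strand of the moving word is moved to the return line of `r`. -/
def XM (m : ℕ) (rs : List Str) (r T : Str) : Set P :=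
  {c | (c ∈ XX m rs T ∧ ¬ (c 0 = 0 ∧ c 1 = 0 ∧ inn (c 4) (c 3) ∧ 2 * r.lo < c 2 ∧ c 2 < 2 * r.hi)) ∨
    c ∈ C1 r}

end Pool.Agent.MKD
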