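import Pool.Agent.MKD.Fam
import Pool.Agent.MK.Code

/-! Module MKD/Cells: computable lists of the cells of the family (D5). -/

set_option autoImplicit false

namespace Pool.Agent.MKD

open Pool.Agent.MK

/-- The shift. -/
def shf : P := fun i => if i = 0 then 5 else 1

theorem pos_shf (q : P) : pos shf q =
    [(q 0 + 5).toNat, (q 1 + 1).toNat, (q 2 + 1).toNat, (q 3 + 1).toNat, (q 4 + 1).toNat] := by
  simp [pos, shf, List.ofFn_succ]

/-- The cells of `F W` can be listed. -/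
def Lst (m : ℕ) (F : List ℕ → Set P) : Prop :=
  ∃ cells : List ℕ → List (List ℕ), Primrec cells ∧
    ∀ W, WOK m W → ∀ l, l ∈ cells W ↔ ∃ q ∈ F W, l = pos shf q

variable {m : ℕ}

theorem Lst.union {F G : List ℕ → Set P} (hF : Lst m F) (hG : Lst m G) :
    Lst m (fun W => F W ∪ G W) := by
  obtain ⟨f, hf, hf'⟩ := hF
  obtain ⟨g, hg, hg'⟩ := hG
  refine ⟨fun W => f W ++ g W, Primrec.list_append.comp hf hg, fun W hW l => ?_⟩
  rw [List.mem_append, hf' W hW, hg' W hW]
  constructor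
  · rintro (⟨q, hq, rfl⟩ | ⟨q, hq, rfl⟩)
    · exact ⟨q, Or.inl hq, rfl⟩
    · exact ⟨q, Or.inr hq, rfl⟩
  · rintro ⟨q, hq | hq, rfl⟩
    · exact Or.inl ⟨q, hq, rfl⟩
    · exact Or.inr ⟨q, hq, rfl⟩

theorem Lst.const {A : Set P} (hA : A.Finite) : Lst m (fun _ => A) := by
  refine ⟨fun _ => hA.toFinset.toList.map (pos shf), Primrec.const _, fun W _ l => ?_⟩
  simp only [List.mem_map, Finset.mem_toList, Set.Finite.mem_toFinset]
  constructor
  · rintro ⟨q, hq, rfl⟩
    exact ⟨q, hq, rfl⟩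
  · rintro ⟨q, hq, rfl⟩
    exact ⟨q, hq, rfl⟩

theorem Lst.congr {F G : List ℕ → Set P} (hF : Lst m F) (h : ∀ W, WOK m W → F W = G W) :
    Lst m G := by
  obtain ⟨f, hf, hf'⟩ := hF
  refine ⟨f, hf, fun W hW l => ?_⟩
  rw [hf' W hW, h W hW]

theorem Lst.lt {F : ℕ → List ℕ → Set P} (h : ∀ s, Lst m (F s)) (n : ℕ) :
    Lst m (fun W => {q | ∃ s < n, q ∈ F s W}) := by
  induction n with
  | zero =>
    refine (Lst.const (Set.finite_empty)).congr fun W _ => ?_
    ext q
    simp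
  | succ n ih =>
    refine (ih.union (h n)).congr fun W _ => ?_
    ext q
    constructor
    · rintro (⟨s, hs, hq⟩ | hq)
      · exact ⟨s, by omega, hq⟩
      · exact ⟨n, by omega, hq⟩
    · rintro ⟨s, hs, hq⟩
      by_cases hsn : s = n
      · subst hsn
        exact Or.inr hq
      · exact Or.inl ⟨s, by omega, hq⟩

theorem Lst.piece {A : Set P} (hA : A.Finite) (hA0 : ∀ c ∈ A, c 2 = 0) {p : List ℕ → ℕ → Prop}
    (hp : PrimrecRel p) :
    Lst m (fun W => {q | Function.update q 2 0 ∈ A ∧ 0 ≤ q 2 ∧ q 2 ≤ 2 * (W.length + 1) ∧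
      p W (q 2).toNat}) := by
  classical
  let L : List (ℕ × ℕ × ℕ × ℕ) := hA.toFinset.toList.map
    (fun c => ((c 0 + 5).toNat, (c 1 + 1).toNat, (c 3 + 1).toNat, (c 4 + 1).toNat))
  refine ⟨fun W => (List.range (2 * (W.length + 1) + 1)).flatMap (fun z =>
    if p W z then L.map (fun t => [t.1, t.2.1, z + 1, t.2.2.1, t.2.2.2]) else []), ?_, ?_⟩
  · refine Primrec.list_flatMap ?_ ?_
    · refine Primrec.list_range.comp (Primrec.succ.comp (Primrec.nat_mul.comp (Primrec.const 2)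
        (Primrec.succ.comp Primrec.list_length)))
    · refine Primrec.ite (hp.comp Primrec.fst Primrec.snd) ?_ (Primrec.const [])
      refine Primrec.list_map (Primrec.const L) ?_
      refine Primrec.list_cons.comp (Primrec.fst.comp Primrec.snd) ?_
      refine Primrec.list_cons.comp (Primrec.fst.comp (Primrec.snd.comp Primrec.snd)) ?_
      refine Primrec.list_cons.comp (Primrec.succ.comp (Primrec.snd.comp Primrec.fst)) ?_
      refine Primrec.list_cons.comp
        (Primrec.fst.comp (Primrec.snd.comp (Primrec.snd.comp Primrec.snd))) ?_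
      exact Primrec.list_cons.comp
        (Primrec.snd.comp (Primrec.snd.comp (Primrec.snd.comp Primrec.snd))) (Primrec.const [])
  · intro W _ l
    simp only [List.mem_flatMap, List.mem_range]
    constructor
    · rintro ⟨z, hz, hl⟩
      by_cases hpz : p W z
      · rw [if_pos hpz, List.mem_map] at hl
        obtain ⟨t, ht, rfl⟩ := hl
        obtain ⟨c, hc, rfl⟩ := List.mem_map.1 ht
        rw [Finset.mem_toList, Set.Finite.mem_toFinset] at hc
        refine ⟨Function.update c 2 (z : ℤ), ⟨?_, ?_, ?_, ?_⟩, ?_⟩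
        · rw [Function.update_idem]
          have : Function.update c 2 0 = c := by
            rw [← hA0 c hc]
            exact Function.update_eq_self 2 c
          rw [this]
          exact hc
        · simp
        · simp only [Function.update_self]
          omega
        · simpa using hpz
        · rw [pos_shf]
          simp
      · rw [if_neg hpz] at hl
        simp at hl
    · rintro ⟨q, ⟨h1, h2, h3, h4⟩, rfl⟩
      refine ⟨(q 2).toNat, by omega, ?_⟩
      rw [if_pos h4, List.mem_map]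
      refine ⟨_, List.mem_map.2 ⟨Function.update q 2 0, ?_, rfl⟩, ?_⟩
      · rw [Finset.mem_toList, Set.Finite.mem_toFinset]
        exact h1
      · rw [pos_shf]
        simp
        omega

/-! ## The predicates -/

theorem pr_par : Primrec par := by
  have h1 : PrimrecPred (fun a : ℕ => a ≠ 0) := (Primrec.eq.comp Primrec.id (Primrec.const 0)).not
  have h2 : Primrec (fun W : List ℕ => W.filter (fun a => decide (a ≠ 0))) :=
    Primrec.listFilter h1
  have h3 : PrimrecPred (fun W : List ℕ => (W.filter (fun a => decide (a ≠ 0))).length % 2 = 1) :=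
    Primrec.eq.comp (Primrec.nat_mod.comp (Primrec.list_length.comp h2) (Primrec.const 2))
      (Primrec.const 1)
  refine h3.decide.of_eq fun W => ?_
  simp only [par, List.countP_eq_length_filter]

/-- `at_` for natural numbers. -/
def atN (β : Bool) (W : List ℕ) (z : ℕ) : Prop :=
  (z / 2 < W.length + 1 ∧ par (W.take (z / 2)) = β) ∨
    (z % 2 = 0 ∧ 1 ≤ z / 2 ∧ z / 2 < W.length + 2 ∧ par (W.take (z / 2 - 1)) = β)

/-- `cross` for natural numbers. -/
def crN (s : ℕ) (W : List ℕ) (z : ℕ) : Prop :=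
  z % 2 = 0 ∧ 1 ≤ z / 2 ∧ W.getD (z / 2 - 1) 0 = s + 1

theorem pr_atN (β : Bool) : PrimrecRel (atN β) := by
  have h2 : Primrec (fun x : List ℕ × ℕ => x.2 / 2) :=
    Primrec.nat_div.comp Primrec.snd (Primrec.const 2)
  have hl : Primrec (fun x : List ℕ × ℕ => x.1.length) := Primrec.list_length.comp Primrec.fst
  refine PrimrecPred.or (PrimrecPred.and ?_ ?_) (PrimrecPred.and ?_ (PrimrecPred.and ?_
    (PrimrecPred.and ?_ ?_)))
  · exact Primrec.nat_lt.comp h2 (Primrec.succ.comp hl)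
  · exact Primrec.eq.comp (pr_par.comp (Primrec.list_take.comp h2 Primrec.fst)) (Primrec.const β)
  · exact Primrec.eq.comp (Primrec.nat_mod.comp Primrec.snd (Primrec.const 2)) (Primrec.const 0)
  · exact Primrec.nat_le.comp (Primrec.const 1) h2
  · exact Primrec.nat_lt.comp h2 (Primrec.succ.comp (Primrec.succ.comp hl))
  · exact Primrec.eq.comp (pr_par.comp (Primrec.list_take.comp
      (Primrec.nat_sub.comp h2 (Primrec.const 1)) Primrec.fst)) (Primrec.const β)

theorem pr_crN (s : ℕ) : PrimrecRel (crN s) := by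
  have h2 : Primrec (fun x : List ℕ × ℕ => x.2 / 2) :=
    Primrec.nat_div.comp Primrec.snd (Primrec.const 2)
  refine PrimrecPred.and ?_ (PrimrecPred.and ?_ ?_)
  · exact Primrec.eq.comp (Primrec.nat_mod.comp Primrec.snd (Primrec.const 2)) (Primrec.const 0)
  · exact Primrec.nat_le.comp (Primrec.const 1) h2
  · exact Primrec.eq.comp ((Primrec.list_getD 0).comp Primrec.fst
      (Primrec.nat_sub.comp h2 (Primrec.const 1))) (Primrec.const (s + 1))

theorem at_strOf (β : Bool) (W : List ℕ) (z : ℤ) :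
    (strOf 0 W).at_ β z ↔ 0 ≤ z ∧ z ≤ 2 * (W.length + 1) ∧ atN β W z.toNat := by
  unfold Str.at_ atN strOf
  simp only [sub_zero, zero_add]
  constructor
  · rintro (⟨h1, h2, h3⟩ | ⟨h0, h1, h2, h3⟩)
    · refine ⟨by omega, by omega, Or.inl ⟨by omega, ?_⟩⟩
      have : z.toNat / 2 = (z / 2).toNat := by omega
      rw [this]
      exact h3
    · refine ⟨by omega, by omega, Or.inr ⟨by omega, by omega, by omega, ?_⟩⟩
      have : z.toNat / 2 - 1 = (z / 2 - 1).toNat := by omega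
      rw [this]
      exact h3
  · rintro ⟨h0, h0', (⟨h1, h2⟩ | ⟨h1, h2, h3, h4⟩)⟩
    · refine Or.inl ⟨by omega, by omega, ?_⟩
      have : (z / 2).toNat = z.toNat / 2 := by omega
      rw [this]
      exact h2
    · refine Or.inr ⟨by omega, by omega, by omega, ?_⟩
      have : (z / 2 - 1).toNat = z.toNat / 2 - 1 := by omega
      rw [this]
      exact h4

theorem cross_strOf (s : ℕ) (W : List ℕ) (z : ℤ) :
    (strOf 0 W).cross s z ↔ 0 ≤ z ∧ z ≤ 2 * (W.length + 1) ∧ crN s W z.toNat := by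
  unfold Str.cross crN strOf
  simp only [sub_zero]
  constructor
  · rintro ⟨h1, h2⟩
    by_cases hz : 0 < z / 2
    · rw [if_pos hz] at h2
      have h3 : (z / 2 - 1).toNat < W.length := by
        by_contra hc
        rw [List.getD_eq_default _ _ (by omega)] at h2
        omega
      refine ⟨by omega, by omega, by omega, by omega, ?_⟩
      have : z.toNat / 2 - 1 = (z / 2 - 1).toNat := by omega
      rw [this]
      exact h2
    · rw [if_neg hz] at h2
      omega
  · rintro ⟨h0, h0', h1, h2, h3⟩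
    refine ⟨by omega, ?_⟩
    rw [if_pos (by omega)]
    have : (z / 2 - 1).toNat = z.toNat / 2 - 1 := by omega
    rw [this]
    exact h3

/-! ## The pieces -/

/-- A bounded set of cells at the height 0. -/
def slc (N : ℤ → ℤ → ℤ → ℤ → Prop) : Set P := {c | c 2 = 0 ∧ N (c 0) (c 1) (c 4) (c 3)}

theorem fin_slc {N : ℤ → ℤ → ℤ → ℤ → Prop} (B : ℤ)
    (h : ∀ x y u v, N x y u v → |x| ≤ B ∧ |y| ≤ B ∧ |u| ≤ B ∧ |v| ≤ B) : (slc N).Finite := by
  refine (Set.finite_Icc (fun _ : Fin 5 => -|B|) (fun _ : Fin 5 => |B|)).subset ?_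
  rintro c ⟨h2, hN⟩
  obtain ⟨h0, h1, h4, h3⟩ := h _ _ _ _ hN
  have hB := le_abs_self B
  have hB0 := abs_nonneg B
  rw [abs_le] at h0 h1 h3 h4
  constructor
  · intro i
    fin_cases i <;> simp <;> omega
  · intro i
    fin_cases i <;> simp <;> omega

theorem Lst.slc {N : ℤ → ℤ → ℤ → ℤ → Prop} (B : ℤ)
    (h : ∀ x y u v, N x y u v → |x| ≤ B ∧ |y| ≤ B ∧ |u| ≤ B ∧ |v| ≤ B)
    {p : List ℕ → ℕ → Prop} (hp : PrimrecRel p) :
    Lst m (fun W => {q | N (q 0) (q 1) (q 4) (q 3) ∧ 0 ≤ q 2 ∧ q 2 ≤ 2 * (W.length + 1) ∧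
      p W (q 2).toNat}) := by
  refine (Lst.piece (fin_slc B h) (fun c hc => hc.1) hp).congr fun W _ => ?_
  ext q
  simp [MKD.slc, Function.update]

theorem Lst.top {N : ℤ → ℤ → ℤ → ℤ → Prop} (B : ℤ)
    (h : ∀ x y u v, N x y u v → |x| ≤ B ∧ |y| ≤ B ∧ |u| ≤ B ∧ |v| ≤ B) :
    Lst m (fun W => {q | N (q 0) (q 1) (q 4) (q 3) ∧ 0 ≤ q 2 ∧ q 2 ≤ 2 * (W.length + 1)}) := by
  have hp : PrimrecRel (fun (_ : List ℕ) (_ : ℕ) => True) :=
    (Primrec.eq.comp (Primrec.const 0) (Primrec.const 0) :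
      PrimrecPred (fun _ : List ℕ × ℕ => (0 : ℕ) = 0)).of_eq fun _ => by simp
  refine (Lst.slc B h hp).congr fun W _ => ?_
  ext q
  simp

theorem lst_disc : Lst m (fun W => disc true (strOf 0 W)) := by
  have hends : PrimrecRel (fun (W : List ℕ) (z : ℕ) => z = 0 ∨ z = 2 * (W.length + 1)) :=
    (Primrec.eq.comp Primrec.snd (Primrec.const 0)).or (Primrec.eq.comp Primrec.snd
      (Primrec.nat_mul.comp (Primrec.const 2)
        (Primrec.succ.comp (Primrec.list_length.comp Primrec.fst))))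
  have a1 := Lst.slc (m := m) (N := fun x y u v => x = 0 ∧ y = 0 ∧ nuP true u v) 2 (by
    intro x y u v h
    simp only [nuP] at h
    simp only [abs_le]
    refine ⟨?_, ?_, ?_, ?_⟩ <;> simp at h <;> omega) (pr_atN false)
  have a2 := Lst.slc (m := m) (N := fun x y u v => (x = 0 ∧ y = 2 ∧ nuP true u v) ∨
      (en true u v ∧ x = 0 ∧ 0 ≤ y ∧ y ≤ 2)) 2 (by
    intro x y u v h
    simp only [nuP, en] at h
    simp only [abs_le]
    refine ⟨?_, ?_, ?_, ?_⟩ <;> simp at h <;> omega) (pr_atN true)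
  have a3 := Lst.top (m := m) (N := fun x y u v => (en true u v ∧ y = 0 ∧ -4 ≤ x ∧ x ≤ 0) ∨
      (x = -4 ∧ y = 0 ∧ nuP true u v)) 4 (by
    intro x y u v h
    simp only [nuP, en] at h
    simp only [abs_le]
    refine ⟨?_, ?_, ?_, ?_⟩ <;> simp at h <;> omega)
  have a4 := Lst.slc (m := m) (N := fun x y u v => y = 0 ∧ -4 ≤ x ∧ x ≤ 0 ∧ nuP true u v) 4 (by
    intro x y u v h
    simp only [nuP] at h
    simp only [abs_le]
    refine ⟨?_, ?_, ?_, ?_⟩ <;> simp at h <;> omega) hends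
  have a5 := Lst.lt (m := m) (F := fun s W => {q | ((arc s (q 0) (q 1) ∧ nuP true (q 4) (q 3)) ∨
      (rect s (q 0) (q 1) ∧ en true (q 4) (q 3))) ∧ 0 ≤ q 2 ∧ q 2 ≤ 2 * (W.length + 1) ∧
      crN s W (q 2).toNat}) (fun s => Lst.slc (m := m) (N := fun x y u v =>
        (arc s x y ∧ nuP true u v) ∨ (rect s x y ∧ en true u v)) (2 * s + 2) (by
    intro x y u v h
    simp only [nuP, en, arc, rect] at h
    simp only [abs_le]
    refine ⟨?_, ?_, ?_, ?_⟩ <;> simp at h <;> omega) (pr_crN s)) (m + 1)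
  refine (((((a1.union a2).union a3).union a4).union a5)).congr fun W hW => ?_
  have hcr : ∀ s z, crN s W z → s < m + 1 := by
    rintro s z ⟨-, -, h3⟩
    have hlt : z / 2 - 1 < W.length := by
      by_contra hc
      rw [List.getD_eq_default _ _ (by omega)] at h3
      omega
    rw [List.getD_eq_getElem _ _ hlt] at h3
    have := hW.1 _ (List.getElem_mem hlt)
    omega
  ext q
  have hlo : (strOf 0 W).lo = 0 := rfl
  have hhi : (strOf 0 W).hi = W.length + 1 := by
    simp [strOf]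
  simp only [disc, at_strOf, cross_strOf, hlo, hhi, Set.mem_union, Set.mem_setOf_eq, rt,
    mul_zero, if_true]
  constructor
  · rintro ((((⟨⟨h1, h2, h3⟩, h4⟩ | ⟨(⟨h1, h2, h3⟩ | ⟨h1, h2, h3⟩), h4⟩) |
      ⟨(⟨h1, h2, h3⟩ | ⟨h1, h2, h3⟩), h4⟩) | ⟨⟨h1, h2, h3, h4⟩, h5, h6, h7⟩) |
      ⟨s, hs, (⟨h1, h2⟩ | ⟨h1, h2⟩), h3⟩)
    · exact Or.inl ⟨h1, h2, h3, h4⟩
    · exact Or.inr (Or.inl ⟨h1, h2, h3, h4⟩)
    · exact Or.inr (Or.inr (Or.inr (Or.inl ⟨h1, h2, h3.1, h3.2, h4⟩)))
    · exact Or.inr (Or.inr (Or.inl ⟨h1, h2, h3.1, h3.2, h4⟩))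
    · exact Or.inr (Or.inr (Or.inr (Or.inr (Or.inl ⟨h1, h2, h3, h4⟩))))
    · exact Or.inr (Or.inr (Or.inr (Or.inr (Or.inr (Or.inl ⟨h1, h2, h3, h4, by omega⟩)))))
    · exact Or.inr (Or.inr (Or.inr (Or.inr (Or.inr (Or.inr (Or.inl ⟨s, h3, h1, h2⟩))))))
    · exact Or.inr (Or.inr (Or.inr (Or.inr (Or.inr (Or.inr (Or.inr ⟨s, h3, h1, h2⟩))))))
  · rintro (⟨h1, h2, h3, h4⟩ | ⟨h1, h2, h3, h4⟩ | ⟨h1, h2, h3, h3', h4⟩ | ⟨h1, h2, h3, h3', h4⟩ |
      ⟨h1, h2, h3, h4⟩ | ⟨h1, h2, h3, h4, h5⟩ | ⟨s, h1, h2, h3⟩ | ⟨s, h1, h2, h3⟩)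
    · exact Or.inl (Or.inl (Or.inl (Or.inl ⟨⟨h1, h2, h3⟩, h4⟩)))
    · exact Or.inl (Or.inl (Or.inl (Or.inr ⟨Or.inl ⟨h1, h2, h3⟩, h4⟩)))
    · exact Or.inl (Or.inl (Or.inr ⟨Or.inl ⟨h1, h2, h3, h3'⟩, h4⟩))
    · exact Or.inl (Or.inl (Or.inl (Or.inr ⟨Or.inr ⟨h1, h2, h3, h3'⟩, h4⟩)))
    · exact Or.inl (Or.inl (Or.inr ⟨Or.inr ⟨h1, h2, h3⟩, h4⟩))
    · exact Or.inl (Or.inr ⟨⟨h1, h2, h3, h4⟩, by omega, by omega, by omega⟩)
    · exact Or.inr ⟨s, hcr s _ h1.2.2, Or.inl ⟨h2, h3⟩, h1⟩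
    · exact Or.inr ⟨s, hcr s _ h1.2.2, Or.inr ⟨h2, h3⟩, h1⟩

theorem lst_XX {rs : List Str} (hrs : ∀ r ∈ rs, r.OK m) :
    Lst m (fun W => XX m rs (strOf 0 W)) := by
  have hfin : {c : P | ∃ r ∈ rs, c ∈ disc false r}.Finite := by
    refine (rs.finite_toSet.biUnion (t := fun r => disc false r)
      fun r hr => finite_disc m false r (hrs r hr)).subset ?_
    rintro c ⟨r, hr, hc⟩
    exact Set.mem_biUnion hr hc
  have a1 := Lst.top (m := m) (N := fun x y u v => lad m x y ∧ u = 0 ∧ v = 0) (2 * m + 4) (by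
    intro x y u v h
    simp only [lad] at h
    simp only [abs_le]
    omega)
  refine ((a1.union (Lst.const hfin)).union lst_disc).congr fun W _ => ?_
  have hlo : (strOf 0 W).lo = 0 := rfl
  have hhi : (strOf 0 W).hi = W.length + 1 := by
    simp [strOf]
  unfold XX Yp
  rw [hlo, hhi]
  congr 2
  ext q
  simp only [Set.mem_setOf_eq, mul_zero]
  tauto

theorem pr_conv : Primrec (conv m) := by
  have hg : Primrec (fun x : List (ℕ × Bool) × (ℕ × Bool) => x.2.1) :=
    Primrec.fst.comp Primrec.snd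
  have hg1 : Primrec (fun x : List (ℕ × Bool) × (ℕ × Bool) => x.2.1 + 1) := Primrec.succ.comp hg
  refine Primrec.list_flatMap Primrec.id ?_
  refine Primrec.ite ((Primrec.nat_le.comp (Primrec.const 1) hg).and
    (Primrec.nat_le.comp hg (Primrec.const m))) (Primrec.ite (Primrec.eq.comp
      (Primrec.snd.comp Primrec.snd) (Primrec.const true)) ?_ ?_) (Primrec.const [])
  · exact Primrec.list_cons.comp hg1 (Primrec.const [1])
  · exact Primrec.list_cons.comp (Primrec.const 1)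
      (Primrec.list_cons.comp hg1 (Primrec.const []))

theorem par_rep (n : ℕ) : par (List.replicate n 0) = false := by
  simp [par, List.countP_replicate]

theorem wok_rep {n : ℕ} {W : List ℕ} (h : WOK m W) : WOK m (List.replicate n 0 ++ W) := by
  constructor
  · intro a ha
    rcases List.mem_append.1 ha with ha | ha
    · rw [List.eq_of_mem_replicate ha]
      omega
    · exact h.1 a ha
  · rw [par_append, par_rep, h.2]
    rfl

theorem exists_cells (m : ℕ) (rels : List (List (ℕ × Bool))) :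
    ∃ cells : List (ℕ × Bool) → List (List ℕ), Computable cells ∧
      ∀ w, Rep (fam m rels w) shf (cells w) := by
  obtain ⟨f, hf, hf'⟩ := lst_XX (m := m) (rs := rsOf 1 (rels.map (conv m)))
    (fun r hr => (adm_fam m rels []).okr r hr)
  refine ⟨fun w => f (List.replicate (lenR (rels.map (conv m))) 0 ++ conv m w),
    (hf.comp (Primrec.list_append.comp (Primrec.const _) pr_conv)).to_comp, fun w => ⟨?_, ?_⟩⟩
  · exact hf' _ (wok_rep (wok_conv m w))
  · have hA := adm_fam m rels w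
    set W := List.replicate (lenR (rels.map (conv m))) 0 ++ conv m w
    have hlo : (strOf 0 W).lo = 0 := rfl
    have key : ∀ (k : Bool) (T : Str), T.OK m → 0 ≤ T.lo → ∀ q ∈ disc k T,
        -4 ≤ q 0 ∧ 0 ≤ q 1 ∧ 0 ≤ q 2 ∧ 0 ≤ q 3 ∧ 0 ≤ q 4 := by
      intro k T hOK hT q hq
      have hnu : ∀ u v, nuP k u v → 0 ≤ u ∧ 0 ≤ v := by
        rintro u v (⟨-, h⟩ | ⟨-, h⟩) <;> omega
      have hen : ∀ u v, en k u v → 0 ≤ u ∧ 0 ≤ v := by
        rintro u v ⟨h1, h2⟩
        cases k <;> simp at h2 <;> omega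
      have hat : ∀ β z, T.at_ β z → 0 ≤ z := by
        rintro β z (⟨h, -⟩ | ⟨-, h, -⟩) <;> omega
      have hrt : -4 ≤ rt k ∧ rt k ≤ 0 := by
        cases k <;> simp [rt]
      have hcr : ∀ s z, T.cross s z → 0 ≤ z := by
        rintro s z ⟨h0, h1⟩
        by_contra hz
        rw [hOK.out _ (Or.inl (by omega))] at h1
        omega
      have hlt := hOK.lt
      rcases hq with ⟨h1, h2, h3, h4⟩ | ⟨h1, h2, h3, h4⟩ | ⟨h3, h1, h2, h2', h4, h4'⟩ |
        ⟨h3, h1, h2, h2', h4⟩ | ⟨h1, h2, h3, h4, h4'⟩ | ⟨h1, h2, h2', h3, h4⟩ | ⟨s, h4, h1, h3⟩ |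
        ⟨s, h4, h1, h3⟩
      · have := hnu _ _ h3
        have := hat _ _ h4
        omega
      · have := hnu _ _ h3
        have := hat _ _ h4
        omega
      · have := hen _ _ h3
        omega
      · have := hen _ _ h3
        have := hat _ _ h4
        omega
      · have := hnu _ _ h3
        omega
      · have := hnu _ _ h3
        omega
      · have := hnu _ _ h3
        have := hcr _ _ h4
        unfold arc at h1
        omega
      · have := hen _ _ h3
        have := hcr _ _ h4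
        unfold rect at h1
        omega
    have main : ∀ q ∈ fam m rels w, -4 ≤ q 0 ∧ 0 ≤ q 1 ∧ 0 ≤ q 2 ∧ 0 ≤ q 3 ∧ 0 ≤ q 4 := by
      rintro q ((⟨h1, h2, h3, h4, h5⟩ | ⟨r, hr, hq⟩) | hq)
      · change 2 * (strOf 0 W).lo ≤ q 2 at h4
        rw [hlo] at h4
        unfold lad at h1
        omega
      · exact key _ _ (hA.okr r hr) (hlo ▸ (hA.inT r hr).1) q hq
      · exact key _ _ hA.okT (le_of_eq hlo.symm) q hq
    intro q hq i
    obtain ⟨h0, h1, h2, h3, h4⟩ := main q hq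
    fin_cases i <;> simp [shf] <;> omega

end Pool.Agent.MKD
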