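import Pool.Agent.MKD.Geo

/-! Module MKD/CobCol: collapses, flat labellings and connectedness.

One slab step (R, R'), removed cells paired as (f, b), f l even, b = f + ε e_l (|f| = dirs f, dirs b = dirs f ∪ {l}).
`cob_of_slab`: Λ flat on R, φ' potential on R'. We construct a potential on R. As in MKD/Slab
(header) the removed pairs can be added one after the other: strong induction on the number of cells of
R \ R': choose a pair (f, b) as there, f is free in R, X = R \ {b, f} is closed and (X, R') is a slab step; so
it suffices to add one pair.
 - dirs f = ∅ (f a vertex, b an edge): φ f is free in R: no other edge of R at f; define φ f by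
   Λ b = (φ (b - e l))⁻¹ * φ (b + e l), keep φ elsewhere. The edges of R other than b do not have f as an end.
 - dirs f = {i} (f an edge, b a square, dirs b = {i, l}): no new vertex; Λ f = (φ (f - e i))⁻¹ * φ (f + e i) follows
   from flatness on b and the three other edges of b, which are in X.
 - (dirs f).card ≥ 2: nothing to check.
`conn_of_slab`: the same induction: a vertex of R is in X, or it is f (a vertex), which is joined to
the vertex b + ε e_l = f + 2 ε e_l ∈ X by the edge b (b ± e l are f and f + 2 ε e_l). -/

set_option autoImplicit false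

namespace Pool.Agent.MKD

open Pool.Agent.MK

/-- The adjacency relation of `GConn`. -/
def Stp (X : Set P) (x y : P) : Prop :=
  ∃ q ∈ X, ∃ i, dirs q = {i} ∧ ((x = q - e i ∧ y = q + e i) ∨ (x = q + e i ∧ y = q - e i))

private theorem sm_app67 (δ : ℤ) (j k : Fin 5) : (δ • e j) k = if k = j then δ else 0 := by
  simp [e]

private theorem add_app67 (c : P) (δ : ℤ) (j k : Fin 5) :
    (c + δ • e j) k = c k + if k = j then δ else 0 := by
  rw [Pi.add_apply, sm_app67]

private theorem cl_step67 {X : Set P} (hX : Closed X) {q : P} (hq : q ∈ X) {k : Fin 5} {δ : ℤ}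
    (hk : Odd (q k)) (hδ : δ = 1 ∨ δ = -1) : q + δ • e k ∈ X := by
  rcases hδ with rfl | rfl
  · rw [one_smul]; exact (hX q hq k hk).1
  · rw [neg_smul, one_smul, ← sub_eq_add_neg]; exact (hX q hq k hk).2

private theorem odd_unit67 {δ : ℤ} (hδ : δ = 1 ∨ δ = -1) : Odd δ := by
  rcases hδ with rfl | rfl <;> decide

/-- Induction along a slab step, adding one pair at a time. -/
private theorem slab_ind67 (Q : Set P → Prop) (R₀ : Set P)
    (hstep : ∀ (X R : Set P) (b f : P) (l : Fin 5) (ε : ℤ), R ⊆ R₀ → Closed R → Closed X →
      X = R \ {b, f} → f ∈ R → b ∈ R → (ε = 1 ∨ ε = -1) → Even (f l) → b = f + ε • e l →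
      (∀ (i : Fin 5) (δ : ℤ), (δ = 1 ∨ δ = -1) → Even (f i) → f + δ • e i ∈ R →
        f + δ • e i = b) → Q X → Q R) :
    ∀ n : ℕ, ∀ R R' : Set P, SlabStep R R' → (R \ R').ncard = n → R ⊆ R₀ → Q R' → Q R := by
  intro n
  induction n using Nat.strong_induction_on with
  | _ n IH =>
  intro R R' hS hn hRR₀ hQ
  obtain ⟨hR, hR', hsub, hfin, l, ε, hε, htog⟩ := hS
  have hodd : Odd ε := odd_unit67 hε
  have hεε : ε * ε = 1 := by rcases hε with rfl | rfl <;> norm_num
  have hε' : (-ε) = 1 ∨ (-ε) = -1 := by rcases hε with rfl | rfl <;> norm_num
  by_cases hemp : R \ R' = ∅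
  · have : R = R' := by
      apply Set.Subset.antisymm _ hsub
      rwa [Set.sdiff_eq_empty] at hemp
    rw [this]
    exact hQ
  -- choose f
  obtain ⟨c0, hc0⟩ := Set.nonempty_iff_ne_empty.2 hemp
  have hne : {f ∈ R \ R' | Even (f l)}.Nonempty := by
    by_cases h : Even (c0 l)
    · exact ⟨c0, hc0, h⟩
    · have ho : Odd (c0 l) := by rwa [Int.not_even_iff_odd] at h
      refine ⟨c0 - ε • e l, (htog c0 hc0).2 ho, ?_⟩
      have : (c0 - ε • e l) l = c0 l - ε := by
        rw [Pi.sub_apply, sm_app67, if_pos rfl]
      rw [this]
      exact ho.sub_odd hodd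
  obtain ⟨f, ⟨hfD, hfe⟩, hmin⟩ := Set.exists_min_image {f ∈ R \ R' | Even (f l)}
    (fun f => 10 * (ε * f l) - ((dirs f).card : ℤ)) (hfin.subset (Set.sep_subset _ _)) hne
  have hcard5 : ∀ g : P, ((dirs g).card : ℤ) ≤ 5 := by
    intro g
    have := Finset.card_le_univ (dirs g)
    simp only [Fintype.card_fin] at this
    exact_mod_cast this
  have hcard0 : ∀ g : P, (0 : ℤ) ≤ ((dirs g).card : ℤ) := fun g => Int.natCast_nonneg _
  obtain ⟨b, hb⟩ : ∃ b, b = f + ε • e l := ⟨_, rfl⟩
  have hbD : b ∈ R \ R' := by rw [hb]; exact (htog f hfD).1 hfe
  have hbl : b l = f l + ε := by rw [hb, add_app67, if_pos rfl]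
  have hbodd : Odd (b l) := by rw [hbl]; exact hfe.add_odd hodd
  have hfb : f = b + (-ε) • e l := by
    rw [hb]; funext k; simp only [add_app67]; split_ifs <;> ring
  -- f is free
  have hfree : ∀ (i : Fin 5) (δ : ℤ), (δ = 1 ∨ δ = -1) → Even (f i) → f + δ • e i ∈ R →
      f + δ • e i = b := by
    intro i δ hδ hei hg
    have hgodd : Odd ((f + δ • e i) i) := by
      rw [add_app67, if_pos rfl]; exact hei.add_odd (odd_unit67 hδ)
    have hgD : f + δ • e i ∈ R \ R' := by
      refine ⟨hg, fun hg' => ?_⟩
      have hδ' : (-δ) = 1 ∨ (-δ) = -1 := by rcases hδ with rfl | rfl <;> norm_num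
      have := cl_step67 hR' hg' hgodd hδ'
      have h3 : f + δ • e i + (-δ) • e i = f := by
        funext k; simp only [add_app67]; split_ifs <;> ring
      rw [h3] at this
      exact hfD.2 this
    by_cases hil : i = l
    · subst hil
      by_cases hde : δ = ε
      · rw [hde, hb]
      · exfalso
        have hde' : δ = -ε := by
          rcases hδ with h | h <;> rcases hε with h' | h'
          · exact absurd (h.trans h'.symm) hde
          · rw [h, h']; norm_num
          · rw [h, h']
          · exact absurd (h.trans h'.symm) hde
        have h3 := (htog _ hgD).2 hgodd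
        have h4 : (f + δ • e i - ε • e i) i = f i - 2 * ε := by
          rw [Pi.sub_apply, add_app67, sm_app67, if_pos rfl, if_pos rfl, hde']; ring
        have h5 : Even ((f + δ • e i - ε • e i) i) := by
          rw [h4]; exact hei.sub (even_two_mul ε)
        have h6 := hmin _ ⟨h3, h5⟩
        rw [h4] at h6
        have h7 := hcard5 f
        have h8 := hcard0 (f + δ • e i - ε • e i)
        have h9 : ε * (f i - 2 * ε) = ε * f i - 2 := by
          rw [mul_sub, mul_left_comm, hεε]; ring
        rw [h9] at h6
        linarith [hcard5 (f + δ • e i - ε • e i)]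
    · exfalso
      have h3 : (f + δ • e i) l = f l := by
        rw [add_app67, if_neg (fun h => hil h.symm), add_zero]
      have h4 := hmin _ ⟨hgD, by rw [h3]; exact hfe⟩
      rw [h3] at h4
      have h5 : dirs (f + δ • e i) = insert i (dirs f) := by
        ext k
        simp only [dirs, Finset.mem_filter, Finset.mem_univ, true_and, Finset.mem_insert]
        rw [add_app67]
        by_cases hk : k = i
        · subst hk
          simp only [if_true, true_or, iff_true]
          exact hei.add_odd (odd_unit67 hδ)
        · simp [hk]
      have h6 : i ∉ dirs f := by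
        simp only [dirs, Finset.mem_filter, Finset.mem_univ, true_and]
        rwa [Int.not_odd_iff_even]
      have h7 : (dirs (f + δ • e i)).card = (dirs f).card + 1 := by
        rw [h5, Finset.card_insert_of_notMem h6]
      rw [h7] at h4
      push_cast at h4
      linarith
  have hfneb : f ≠ b := by
    intro h
    have := congrFun h l
    rw [hbl] at this
    rcases hε with rfl | rfl <;> omega
  obtain ⟨X, hXdef⟩ : ∃ X : Set P, X = R \ {b, f} := ⟨_, rfl⟩
  have memX : ∀ c, c ∈ X ↔ c ∈ R ∧ c ≠ b ∧ c ≠ f := by
    intro c; rw [hXdef]; simp
  have hXcl' : ∀ c ∈ X, ∀ i, Odd (c i) → ∀ δ : ℤ, (δ = 1 ∨ δ = -1) → c + δ • e i ∈ X := by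
    intro c hc i hi δ hδ
    obtain ⟨hcR, hcb, hcf⟩ := (memX c).1 hc
    have hδ' : (-δ) = 1 ∨ (-δ) = -1 := by rcases hδ with rfl | rfl <;> norm_num
    rw [memX]
    have hback : ∀ d, c + δ • e i = d → c = d + (-δ) • e i := by
      intro d h; rw [← h]; funext k; simp only [add_app67]; split_ifs <;> ring
    refine ⟨cl_step67 hR hcR hi hδ, ?_, ?_⟩
    · intro h
      have hc' := hback b h
      have hbi : Even (b i) := by
        rw [← h, add_app67, if_pos rfl]; exact hi.add_odd (odd_unit67 hδ)
      have hil : i ≠ l := by
        rintro rfl
        exact (Int.not_odd_iff_even.2 hbi) hbodd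
      have hfi : f i = b i := by rw [hb, add_app67, if_neg hil, add_zero]
      have hcl : Odd (c l) := by
        rw [hc', add_app67, if_neg (Ne.symm hil), add_zero]; exact hbodd
      have h3 := cl_step67 hR hcR hcl hε'
      have h4 : c + (-ε) • e l = f + (-δ) • e i := by
        rw [hc', hfb]; funext k; simp only [add_app67]; ring
      rw [h4] at h3
      have h5 := hfree i (-δ) hδ' (by rw [hfi]; exact hbi) h3
      have h6 := congrFun h5 l
      rw [add_app67, if_neg (Ne.symm hil), add_zero, hbl] at h6
      rcases hε with rfl | rfl <;> omega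
    · intro h
      have hc' := hback f h
      have hfi : Even (f i) := by
        rw [← h, add_app67, if_pos rfl]; exact hi.add_odd (odd_unit67 hδ)
      rw [hc'] at hcb hcR
      exact hcb (hfree i (-δ) hδ' hfi hcR)
  have hXcl : Closed X := by
    intro c hc i hi
    refine ⟨?_, ?_⟩
    · have := hXcl' c hc i hi 1 (Or.inl rfl)
      rwa [one_smul] at this
    · have := hXcl' c hc i hi (-1) (Or.inr rfl)
      rwa [neg_smul, one_smul, ← sub_eq_add_neg] at this
  have hXR : X ⊆ R := by rw [hXdef]; exact Set.sdiff_subset
  have hR'X : R' ⊆ X := by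
    intro c hc
    rw [memX]
    refine ⟨hsub hc, ?_, ?_⟩
    · rintro rfl; exact hbD.2 hc
    · rintro rfl; exact hfD.2 hc
  have hfin' : (X \ R').Finite := hfin.subset (Set.sdiff_subset_sdiff_left hXR)
  have hS' : SlabStep X R' := by
    refine ⟨hXcl, hR', hR'X, hfin', l, ε, hε, ?_⟩
    intro c hc
    obtain ⟨hcR, hcb, hcf⟩ := (memX c).1 hc.1
    have hcD : c ∈ R \ R' := ⟨hcR, hc.2⟩
    constructor
    · intro hev
      have h3 := (htog c hcD).1 hev
      refine ⟨(memX _).2 ⟨h3.1, ?_, ?_⟩, h3.2⟩
      · intro h
        apply hcf
        rw [hb] at h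
        exact add_right_cancel h
      · intro h
        have h4 := congrFun h l
        rw [add_app67, if_pos rfl] at h4
        rw [← h4] at hfe
        exact (Int.not_odd_iff_even.2 hfe) (hev.add_odd hodd)
    · intro hod
      have h3 := (htog c hcD).2 hod
      refine ⟨(memX _).2 ⟨h3.1, ?_, ?_⟩, h3.2⟩
      · intro h
        have h4 := congrFun h l
        rw [Pi.sub_apply, sm_app67, if_pos rfl] at h4
        rw [← h4] at hbodd
        exact (Int.not_odd_iff_even.2 (hod.sub_odd hodd)) hbodd
      · intro h
        apply hcb
        rw [hb, ← h]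
        funext k
        simp
  have hlt : (X \ R').ncard < n := by
    rw [← hn]
    apply Set.ncard_lt_ncard _ hfin
    refine ⟨Set.sdiff_subset_sdiff_left hXR, fun h => ?_⟩
    have := h hbD
    exact ((memX b).1 this.1).2.1 rfl
  exact hstep X R b f l ε hRR₀ hR hXcl hXdef hfD.1 hbD.1 hε hfe hb hfree
    (IH _ hlt X R' hS' rfl (hXR.trans hRR₀) hQ)

private theorem dirs_add67 {f : P} {l : Fin 5} {ε : ℤ} (hε : ε = 1 ∨ ε = -1) (hfl : Even (f l)) :
    dirs (f + ε • e l) = insert l (dirs f) := by
  ext k
  simp only [dirs, Finset.mem_filter, Finset.mem_univ, true_and, Finset.mem_insert]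
  rw [add_app67]
  by_cases hk : k = l
  · subst hk
    simp only [if_true, true_or, iff_true]
    exact hfl.add_odd (odd_unit67 hε)
  · simp [hk]

private theorem notin67 {f : P} {l : Fin 5} (hfl : Even (f l)) : l ∉ dirs f := by
  simp only [dirs, Finset.mem_filter, Finset.mem_univ, true_and]
  rwa [Int.not_odd_iff_even]

private theorem even67 {f : P} {s : Finset (Fin 5)} (h : dirs f = s) {k : Fin 5} (hk : k ∉ s) :
    Even (f k) := by
  rw [← h] at hk
  simp only [dirs, Finset.mem_filter, Finset.mem_univ, true_and] at hk
  rwa [Int.not_odd_iff_even] at hk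

private theorem odd67 {f : P} {s : Finset (Fin 5)} (h : dirs f = s) {k : Fin 5} (hk : k ∈ s) :
    Odd (f k) := by
  rw [← h] at hk
  simp only [dirs, Finset.mem_filter, Finset.mem_univ, true_and] at hk
  exact hk

private theorem ne67 {x y : P} (k : Fin 5) (h : x k ≠ y k) : x ≠ y := fun h' => h (by rw [h'])

theorem cob_of_col {R C : Set P} (h : Col R C) {Γ : Type} [Group Γ] (Λ : P → Γ) (hF : Flat R Λ)
    (hC : Cob C Λ) : Cob R Λ := by
  induction h with
  | refl R => exact hC
  | @step R R' C h h' ih =>
    have hR'R : R' ⊆ R := h.2.2.1
    have hQ : Cob R' Λ := ih (fun q hq => hF q (hR'R hq)) hC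
    refine slab_ind67 (fun X => Cob X Λ) R ?_ _ R R' h rfl subset_rfl hQ
    intro X S b f l ε hSR hS hX hXdef hfS hbS hε hfl hb hfree hQX
    obtain ⟨φ, hφ⟩ := hQX
    have memX : ∀ c, c ∈ X ↔ c ∈ S ∧ c ≠ b ∧ c ≠ f := by
      intro c; rw [hXdef]; simp
    have hdb : dirs b = insert l (dirs f) := by
      rw [hb]; exact dirs_add67 hε hfl
    have hlf : l ∉ dirs f := notin67 hfl
    have hcb : (dirs b).card = (dirs f).card + 1 := by
      rw [hdb, Finset.card_insert_of_notMem hlf]
    by_cases h0 : dirs f = ∅
    · -- a vertex
      have hdb1 : dirs b = {l} := by rw [hdb, h0]; rfl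
      have hev : ∀ k, Even (f k) := fun k => even67 h0 (Finset.notMem_empty k)
      rcases hε with rfl | rfl
      · have hb' : b = f + e l := by rw [hb, one_smul]
        have hfb : b - e l = f := by rw [hb']; abel
        refine ⟨Function.update φ f (φ (b + e l) * (Λ b)⁻¹), ?_⟩
        intro q hq i hi
        by_cases hqb : q = b
        · subst hqb
          have : i = l := by
            have : ({i} : Finset (Fin 5)) = {l} := hi.symm.trans hdb1
            exact Finset.singleton_injective this
          subst this
          have hne : q + e i ≠ f := by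
            apply ne67 i
            rw [hb']
            simp only [Pi.add_apply, e, if_true]
            omega
          rw [hfb, Function.update_self, Function.update_of_ne hne]
          group
        · have hqf : q ≠ f := by
            rintro rfl
            rw [h0] at hi
            exact (Finset.singleton_ne_empty i) hi.symm
          have hqX := (memX q).2 ⟨hq, hqb, hqf⟩
          have h1 : q - e i ≠ f := by
            intro h
            apply hqb
            have h2 : f + (1 : ℤ) • e i = q := by rw [one_smul, ← h]; abel
            rw [← h2]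
            exact hfree i 1 (Or.inl rfl) (hev i) (by rw [h2]; exact hq)
          have h2 : q + e i ≠ f := by
            intro h
            apply hqb
            have h2 : f + (-1 : ℤ) • e i = q := by rw [neg_one_zsmul, ← h]; abel
            rw [← h2]
            exact hfree i (-1) (Or.inr rfl) (hev i) (by rw [h2]; exact hq)
          rw [Function.update_of_ne h1, Function.update_of_ne h2]
          exact hφ q hqX i hi
      · have hb' : b = f - e l := by rw [hb, neg_one_zsmul, sub_eq_add_neg]
        have hfb : b + e l = f := by rw [hb']; abel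
        refine ⟨Function.update φ f (φ (b - e l) * Λ b), ?_⟩
        intro q hq i hi
        by_cases hqb : q = b
        · subst hqb
          have : i = l := by
            have : ({i} : Finset (Fin 5)) = {l} := hi.symm.trans hdb1
            exact Finset.singleton_injective this
          subst this
          have hne : q - e i ≠ f := by
            apply ne67 i
            rw [hb']
            simp only [Pi.sub_apply, e, if_true]
            omega
          rw [hfb, Function.update_self, Function.update_of_ne hne]
          group
        · have hqf : q ≠ f := by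
            rintro rfl
            rw [h0] at hi
            exact (Finset.singleton_ne_empty i) hi.symm
          have hqX := (memX q).2 ⟨hq, hqb, hqf⟩
          have h1 : q - e i ≠ f := by
            intro h
            apply hqb
            have h2 : f + (1 : ℤ) • e i = q := by rw [one_smul, ← h]; abel
            rw [← h2]
            exact hfree i 1 (Or.inl rfl) (hev i) (by rw [h2]; exact hq)
          have h2 : q + e i ≠ f := by
            intro h
            apply hqb
            have h2 : f + (-1 : ℤ) • e i = q := by rw [neg_one_zsmul, ← h]; abel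
            rw [← h2]
            exact hfree i (-1) (Or.inr rfl) (hev i) (by rw [h2]; exact hq)
          rw [Function.update_of_ne h1, Function.update_of_ne h2]
          exact hφ q hqX i hi
    · refine ⟨φ, ?_⟩
      intro q hq i hi
      have hcf : 0 < (dirs f).card := Finset.card_pos.2 (Finset.nonempty_iff_ne_empty.2 h0)
      have hqb : q ≠ b := by
        rintro rfl
        rw [hi, Finset.card_singleton] at hcb
        omega
      by_cases hqf : q = f
      · subst hqf
        have hil : i ≠ l := by
          rintro rfl
          apply hlf
          rw [hi]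
          exact Finset.mem_singleton_self i
        have hdb2 : dirs b = {l, i} := by rw [hdb, hi]
        have hbi : Odd (b i) := odd67 hdb2 (by simp)
        have hbl : Odd (b l) := odd67 hdb2 (by simp)
        -- the three other edges
        have hflat : Λ (b - e l) * Λ (b + e i) = Λ (b - e i) * Λ (b + e l) := by
          rcases lt_or_gt_of_ne hil with h | h
          · exact hF b (hSR hbS) i l h (by rw [hdb2]; exact Finset.pair_comm l i)
          · exact (hF b (hSR hbS) l i h hdb2).symm
        have hli : l ≠ i := fun h => hil h.symm
        have hdp : ∀ δ : ℤ, (δ = 1 ∨ δ = -1) → dirs (b + δ • e i) = {l} := by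
          intro δ hδ
          ext k
          simp only [dirs, Finset.mem_filter, Finset.mem_univ, true_and, Finset.mem_singleton]
          rw [add_app67]
          have hk := congrArg (fun s => k ∈ s) hdb2
          simp only [dirs, Finset.mem_filter, Finset.mem_univ, true_and, Finset.mem_insert,
            Finset.mem_singleton, eq_iff_iff] at hk
          by_cases hki : k = i
          · subst hki
            rw [if_pos rfl]
            constructor
            · intro h
              exact absurd h (Int.not_odd_iff_even.2 (hbi.add_odd (odd_unit67 hδ)))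
            · intro h
              exact absurd h hil
          · rw [if_neg hki, add_zero, hk]
            tauto
        have hdl : ∀ δ : ℤ, (δ = 1 ∨ δ = -1) → dirs (b + δ • e l) = {i} := by
          intro δ hδ
          ext k
          simp only [dirs, Finset.mem_filter, Finset.mem_univ, true_and, Finset.mem_singleton]
          rw [add_app67]
          have hk := congrArg (fun s => k ∈ s) hdb2
          simp only [dirs, Finset.mem_filter, Finset.mem_univ, true_and, Finset.mem_insert,
            Finset.mem_singleton, eq_iff_iff] at hk
          by_cases hki : k = l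
          · subst hki
            rw [if_pos rfl]
            constructor
            · intro h
              exact absurd h (Int.not_odd_iff_even.2 (hbl.add_odd (odd_unit67 hδ)))
            · intro h
              exact absurd h hli
          · rw [if_neg hki, add_zero, hk]
            tauto
        have hql : Even (q l) := hfl
        have hP : ∀ δ : ℤ, (δ = 1 ∨ δ = -1) → b + δ • e i ∈ X := by
          intro δ hδ
          rw [memX]
          refine ⟨cl_step67 hS hbS hbi hδ, ?_, ?_⟩
          · apply ne67 i
            rw [add_app67, if_pos rfl]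
            rcases hδ with rfl | rfl <;> omega
          · apply ne67 l
            rw [add_app67, if_neg hli, add_zero, hb, add_app67, if_pos rfl]
            rcases hε with rfl | rfl <;> omega
        have e1 := hφ (b + e i) (by have := hP 1 (Or.inl rfl); rwa [one_smul] at this) l
          (by have := hdp 1 (Or.inl rfl); rwa [one_smul] at this)
        have e2 := hφ (b - e i) (by
            have := hP (-1) (Or.inr rfl); rwa [neg_one_zsmul, ← sub_eq_add_neg] at this) l
          (by have := hdp (-1) (Or.inr rfl); rwa [neg_one_zsmul, ← sub_eq_add_neg] at this)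
        rcases hε with rfl | rfl
        · -- q = b - e l
          have hqb' : b - e l = q := by rw [hb, one_smul]; abel
          have hX3 : b + e l ∈ X := by
            rw [memX]
            refine ⟨(hS b hbS l hbl).1, ?_, ?_⟩
            · apply ne67 l; simp [e]
            · apply ne67 l
              rw [hb]
              simp [e]
              omega
          have e3 := hφ (b + e l) hX3 i (by
            have := hdl 1 (Or.inl rfl); rwa [one_smul] at this)
          rw [hqb', e1, e2, e3] at hflat
          have a1 : b - e i - e l = q - e i := by rw [← hqb']; abel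
          have a2 : b + e i - e l = q + e i := by rw [← hqb']; abel
          have a3 : b - e i + e l = b + e l - e i := by abel
          have a4 : b + e i + e l = b + e l + e i := by abel
          rw [a1, a2, a3, a4] at hflat
          have hfl2 : Λ q = ((φ (q - e i))⁻¹ * φ (b + e l - e i)) *
              ((φ (b + e l - e i))⁻¹ * φ (b + e l + e i)) *
              ((φ (q + e i))⁻¹ * φ (b + e l + e i))⁻¹ := by
            rw [← hflat]; group
          rw [hfl2]
          group
        · -- q = b + e l
          have hqb' : b + e l = q := by rw [hb, neg_one_zsmul]; abel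
          have hX3 : b - e l ∈ X := by
            rw [memX]
            refine ⟨(hS b hbS l hbl).2, ?_, ?_⟩
            · apply ne67 l; simp [e]
            · apply ne67 l
              rw [hb]
              simp [e]
              omega
          have e3 := hφ (b - e l) hX3 i (by
            have := hdl (-1) (Or.inr rfl); rwa [neg_one_zsmul, ← sub_eq_add_neg] at this)
          rw [hqb', e1, e2, e3] at hflat
          have a1 : b - e i - e l = b - e l - e i := by abel
          have a2 : b + e i - e l = b - e l + e i := by abel
          have a3 : b - e i + e l = q - e i := by rw [← hqb']; abel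
          have a4 : b + e i + e l = q + e i := by rw [← hqb']; abel
          rw [a1, a2, a3, a4] at hflat
          have hfl2 : Λ q = ((φ (b - e l - e i))⁻¹ * φ (q - e i))⁻¹ *
              (((φ (b - e l - e i))⁻¹ * φ (b - e l + e i)) *
              ((φ (b - e l + e i))⁻¹ * φ (q + e i))) := by
            rw [hflat]; group
          rw [hfl2]
          group
      · exact hφ q ((memX q).2 ⟨hq, hqb, hqf⟩) i hi

theorem conn_of_col {R C : Set P} (h : Col R C) :
    ∀ v ∈ R, dirs v = ∅ → ∃ w ∈ C, dirs w = ∅ ∧ Relation.ReflTransGen (Stp R) w v := by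
  induction h with
  | refl R => exact fun v hv h0 => ⟨v, hv, h0, Relation.ReflTransGen.refl⟩
  | @step R R' C h h' ih =>
    refine slab_ind67 (fun X => ∀ v ∈ X, dirs v = ∅ → ∃ w ∈ C, dirs w = ∅ ∧
      Relation.ReflTransGen (Stp X) w v) R ?_ _ R R' h rfl subset_rfl ih
    intro X S b f l ε hSR hS hX hXdef hfS hbS hε hfl hb hfree hQX
    have memX : ∀ c, c ∈ X ↔ c ∈ S ∧ c ≠ b ∧ c ≠ f := by
      intro c; rw [hXdef]; simp
    have hXS : X ⊆ S := fun c hc => ((memX c).1 hc).1
    have hmono : ∀ x y, Stp X x y → Stp S x y := by
      rintro x y ⟨q, hq, i, hi, h⟩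
      exact ⟨q, hXS hq, i, hi, h⟩
    have hdb : dirs b = insert l (dirs f) := by
      rw [hb]; exact dirs_add67 hε hfl
    intro v hv h0
    by_cases hvf : v = f
    · subst hvf
      have hdb1 : dirs b = {l} := by rw [hdb, h0]; rfl
      have hev : ∀ k, Even (v k) := fun k => even67 h0 (Finset.notMem_empty k)
      have hbl : Odd (b l) := odd67 hdb1 (by simp)
      have hgS : b + ε • e l ∈ S := cl_step67 hS hbS hbl hε
      have hgX : b + ε • e l ∈ X := by
        rw [memX]
        refine ⟨hgS, ?_, ?_⟩
        · apply ne67 l
          rw [add_app67, if_pos rfl]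
          rcases hε with rfl | rfl <;> omega
        · apply ne67 l
          rw [add_app67, if_pos rfl, hb, add_app67, if_pos rfl]
          rcases hε with rfl | rfl <;> omega
      have hg0 : dirs (b + ε • e l) = ∅ := by
        ext k
        simp only [dirs, Finset.mem_filter, Finset.mem_univ, true_and, Finset.notMem_empty,
          iff_false]
        rw [Int.not_odd_iff_even, hb, add_app67, add_app67]
        have hk := hev k
        rcases hε with rfl | rfl
        · split_ifs
          · obtain ⟨m, hm⟩ := hk
            exact ⟨m + 1, by omega⟩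
          · simpa using hk
        · split_ifs
          · obtain ⟨m, hm⟩ := hk
            exact ⟨m - 1, by omega⟩
          · simpa using hk
      obtain ⟨w, hw, hw0, hwp⟩ := hQX _ hgX hg0
      refine ⟨w, hw, hw0, Relation.ReflTransGen.tail (Relation.ReflTransGen.mono hmono _ _ hwp) ?_⟩
      refine ⟨b, hbS, l, hdb1, ?_⟩
      rcases hε with rfl | rfl
      · right
        refine ⟨by rw [one_smul], ?_⟩
        rw [hb, one_smul]; abel
      · left
        refine ⟨by rw [neg_one_zsmul, sub_eq_add_neg], ?_⟩
        rw [hb, neg_one_zsmul]; abel
    · have hvb : v ≠ b := by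
        rintro rfl
        rw [h0] at hdb
        exact (Finset.insert_ne_empty l (dirs f)) hdb.symm
      obtain ⟨w, hw, hw0, hwp⟩ := hQX v ((memX v).2 ⟨hv, hvb, hvf⟩) h0
      exact ⟨w, hw, hw0, Relation.ReflTransGen.mono hmono _ _ hwp⟩

end Pool.Agent.MKD
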