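import Pool.Agent.MKD.Hol

/-! Module MKD/Gauge: normal form of a flat labelling on the base.

`gau A Λ` is the labelling changed by A : P → Γ; lowv q, upv q are the lower and the upper corner of the cell q
(for dirs q = {i}: q - e i, q + e i). Flat and Cob are invariant (direct).
`gauge`: Λ flat on X ⊇ Yp m lo hi (lo ≤ hi). A p for p ∈ Yp (even coordinates, u = v = 0): the product of the labels
along the path from (0, 0, 2 lo) up to (0, 0, z), then in the row y = 0 to x (left or right); for y = 2: from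
(0, 0, z) over the rung 0 to (0, 2, z), then in the row y = 2 to x. After the change the labels are 1 on the level
edges over (0, 0), on the rows, and on the rung 0. Squares (row edge × level edge): all level edges in the row
y = 0 are 1; (rung 0 × level edge): over (0, 2), then over the row y = 2. Squares (rung s × level edge): the
label of the rung s does not depend on the level: y s. For integers, define the products by recursion on
natural numbers (A on the row x ≥ 0 by recursion on x / 2, for x < 0 only x = -2, -4). -/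

set_option autoImplicit false

namespace Pool.Agent.MKD

open Pool.Agent.MK

def lowv (q : P) : P := fun i => if Odd (q i) then q i - 1 else q i

def upv (q : P) : P := fun i => if Odd (q i) then q i + 1 else q i

def gau {Γ : Type} [Group Γ] (A : P → Γ) (Λ : P → Γ) (q : P) : Γ := A (lowv q) * Λ q * (A (upv q))⁻¹

private theorem mem_dirs {q : P} {i : Fin 5} : i ∈ dirs q ↔ Odd (q i) := by
  simp [dirs]

private theorem not_odd_of_even_add {a : ℤ} (h : Odd a) : ¬ Odd (a + 1) ∧ ¬ Odd (a - 1) := by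
  obtain ⟨k, rfl⟩ := h
  constructor
  · rintro ⟨l, hl⟩
    omega
  · rintro ⟨l, hl⟩
    omega

private theorem low_single {q : P} {i : Fin 5} (h : dirs q = {i}) : lowv q = q - e i := by
  funext j
  by_cases hj : j = i
  · subst hj
    have hodd : Odd (q j) := mem_dirs.1 (by rw [h]; simp)
    simp [lowv, hodd, e]
  · have hodd : ¬ Odd (q j) := fun hh => hj (by
      have := mem_dirs.2 hh
      rw [h] at this
      simpa using this)
    simp [lowv, hodd, e, hj]

private theorem up_single {q : P} {i : Fin 5} (h : dirs q = {i}) : upv q = q + e i := by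
  funext j
  by_cases hj : j = i
  · subst hj
    have hodd : Odd (q j) := mem_dirs.1 (by rw [h]; simp)
    simp [upv, hodd, e]
  · have hodd : ¬ Odd (q j) := fun hh => hj (by
      have := mem_dirs.2 hh
      rw [h] at this
      simpa using this)
    simp [upv, hodd, e, hj]

private theorem gau_single {Γ : Type} [Group Γ] (A : P → Γ) (Λ : P → Γ) {q : P} {i : Fin 5}
    (h : dirs q = {i}) : gau A Λ q = A (q - e i) * Λ q * (A (q + e i))⁻¹ := by
  rw [gau, low_single h, up_single h]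

private theorem dirs_step {q : P} {i j : Fin 5} (hij : i ≠ j) (h : dirs q = {i, j}) :
    dirs (q - e j) = {i} ∧ dirs (q + e j) = {i} ∧ dirs (q - e i) = {j} ∧ dirs (q + e i) = {j} := by
  have hi : Odd (q i) := mem_dirs.1 (by rw [h]; simp)
  have hj : Odd (q j) := mem_dirs.1 (by rw [h]; simp)
  have ho : ∀ k, k ≠ i → k ≠ j → ¬ Odd (q k) := fun k h1 h2 hh => by
    have := mem_dirs.2 hh
    rw [h] at this
    simp only [Finset.mem_insert, Finset.mem_singleton] at this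
    rcases this with h3 | h3
    · exact h1 h3
    · exact h2 h3
  have key : ∀ (a b : Fin 5), a ≠ b → Odd (q a) → Odd (q b) →
      (∀ k, k ≠ a → k ≠ b → ¬ Odd (q k)) → dirs (q - e b) = {a} ∧ dirs (q + e b) = {a} := by
    intro a b hab ha hb hk
    constructor
    · ext k
      rw [mem_dirs, Finset.mem_singleton]
      by_cases h1 : k = a
      · subst h1
        simp [e, hab, ha]
      · by_cases h2 : k = b
        · subst h2
          simp only [Pi.sub_apply, e, if_true, h1, iff_false]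
          exact (not_odd_of_even_add hb).2
        · simp only [Pi.sub_apply, e, h2, if_false, sub_zero, h1, iff_false]
          exact hk k h1 h2
    · ext k
      rw [mem_dirs, Finset.mem_singleton]
      by_cases h1 : k = a
      · subst h1
        simp [e, hab, ha]
      · by_cases h2 : k = b
        · subst h2
          simp only [Pi.add_apply, e, if_true, h1, iff_false]
          exact (not_odd_of_even_add hb).1
        · simp only [Pi.add_apply, e, h2, if_false, add_zero, h1, iff_false]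
          exact hk k h1 h2
  obtain ⟨k1, k2⟩ := key i j hij hi hj ho
  obtain ⟨k3, k4⟩ := key j i (Ne.symm hij) hj hi (fun k h1 h2 => ho k h2 h1)
  exact ⟨k1, k2, k3, k4⟩

theorem flat_gau {X : Set P} {Γ : Type} [Group Γ] {A Λ : P → Γ} (h : Flat X Λ) :
    Flat X (gau A Λ) := by
  intro q hq i j hij hd
  obtain ⟨h1, h2, h3, h4⟩ := dirs_step (ne_of_lt hij) hd
  have hf := h q hq i j hij hd
  rw [gau_single A Λ h1, gau_single A Λ h2, gau_single A Λ h3, gau_single A Λ h4]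
  have e1 : q - e j + e i = q + e i - e j := by abel
  have e2 : q - e i + e j = q + e j - e i := by abel
  have e3 : q - e j - e i = q - e i - e j := by abel
  have e4 : q + e j + e i = q + e i + e j := by abel
  rw [e1, e2, e3, e4]
  calc A (q - e i - e j) * Λ (q - e j) * (A (q + e i - e j))⁻¹ *
        (A (q + e i - e j) * Λ (q + e i) * (A (q + e i + e j))⁻¹)
      = A (q - e i - e j) * (Λ (q - e j) * Λ (q + e i)) * (A (q + e i + e j))⁻¹ := by group
    _ = A (q - e i - e j) * (Λ (q - e i) * Λ (q + e j)) * (A (q + e i + e j))⁻¹ := by rw [hf]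
    _ = _ := by group

theorem cob_gau {X : Set P} {Γ : Type} [Group Γ] {A Λ : P → Γ} (h : Cob X (gau A Λ)) :
    Cob X Λ := by
  obtain ⟨φ, hφ⟩ := h
  refine ⟨fun v => φ v * A v, fun q hq i hi => ?_⟩
  have h1 := hφ q hq i hi
  rw [gau_single A Λ hi] at h1
  have h2 : Λ q = (A (q - e i))⁻¹ * (A (q - e i) * Λ q * (A (q + e i))⁻¹) * A (q + e i) := by group
  rw [h2, h1]
  group

/-- The cell with the given coordinates in the base. -/
private def M (x y z : ℤ) : P := ![x, y, z, 0, 0]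

private theorem M_sub0 (x y z : ℤ) : M x y z - e 0 = M (x - 1) y z := by
  funext j; fin_cases j <;> simp [M, e]

private theorem M_add0 (x y z : ℤ) : M x y z + e 0 = M (x + 1) y z := by
  funext j; fin_cases j <;> simp [M, e]

private theorem M_sub1 (x y z : ℤ) : M x y z - e 1 = M x (y - 1) z := by
  funext j; fin_cases j <;> simp [M, e]

private theorem M_add1 (x y z : ℤ) : M x y z + e 1 = M x (y + 1) z := by
  funext j; fin_cases j <;> simp [M, e]

private theorem M_sub2 (x y z : ℤ) : M x y z - e 2 = M x y (z - 1) := by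
  funext j; fin_cases j <;> simp [M, e]

private theorem M_add2 (x y z : ℤ) : M x y z + e 2 = M x y (z + 1) := by
  funext j; fin_cases j <;> simp [M, e]

private theorem dirs0 {x y z : ℤ} (hx : Odd x) (hy : ¬ Odd y) (hz : ¬ Odd z) :
    dirs (M x y z) = {0} := by
  ext i; rw [mem_dirs]; fin_cases i <;> simp [M, hx, hy, hz]

private theorem dirs1 {x y z : ℤ} (hx : ¬ Odd x) (hy : Odd y) (hz : ¬ Odd z) :
    dirs (M x y z) = {1} := by
  ext i; rw [mem_dirs]; fin_cases i <;> simp [M, hx, hy, hz]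

private theorem dirs2 {x y z : ℤ} (hx : ¬ Odd x) (hy : ¬ Odd y) (hz : Odd z) :
    dirs (M x y z) = {2} := by
  ext i; rw [mem_dirs]; fin_cases i <;> simp [M, hx, hy, hz]

private theorem dirs02 {x y z : ℤ} (hx : Odd x) (hy : ¬ Odd y) (hz : Odd z) :
    dirs (M x y z) = {0, 2} := by
  ext i; rw [mem_dirs]; fin_cases i <;> simp [M, hx, hy, hz]

private theorem dirs12 {x y z : ℤ} (hx : ¬ Odd x) (hy : Odd y) (hz : Odd z) :
    dirs (M x y z) = {1, 2} := by
  ext i; rw [mem_dirs]; fin_cases i <;> simp [M, hx, hy, hz]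

private theorem M_mem {m : ℕ} {lo hi x y z : ℤ} (h : lad m x y) (h1 : 2 * lo ≤ z)
    (h2 : z ≤ 2 * hi) : M x y z ∈ Yp m lo hi := by
  refine ⟨h, ?_, ?_, h1, h2⟩ <;> simp [M]

/-- Products along the line over `(0, 0)`. -/
private def lvp {Γ : Type} [Group Γ] (Λ : P → Γ) (lo : ℤ) : ℕ → Γ
  | 0 => 1
  | k + 1 => lvp Λ lo k * Λ (M 0 0 (2 * lo + 2 * k + 1))

/-- Products along a row. -/
private def rwp {Γ : Type} [Group Γ] (Λ : P → Γ) (y z : ℤ) (g : Γ) : ℕ → Γ
  | 0 => g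
  | n + 1 => rwp Λ y z g n * Λ (M (2 * n + 1) y z)

private def gA {Γ : Type} [Group Γ] (Λ : P → Γ) (lo : ℤ) (v : P) : Γ :=
  if v 1 = 0 then
    (if 0 ≤ v 0 then rwp Λ 0 (v 2) (lvp Λ lo ((v 2 - 2 * lo) / 2).toNat) (v 0 / 2).toNat
      else if v 0 = -2 then lvp Λ lo ((v 2 - 2 * lo) / 2).toNat * (Λ (M (-1) 0 (v 2)))⁻¹
      else lvp Λ lo ((v 2 - 2 * lo) / 2).toNat * (Λ (M (-1) 0 (v 2)))⁻¹ *
        (Λ (M (-3) 0 (v 2)))⁻¹)
  else rwp Λ 2 (v 2) (lvp Λ lo ((v 2 - 2 * lo) / 2).toNat * Λ (M 0 1 (v 2))) (v 0 / 2).toNat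

private theorem gA_row0 {Γ : Type} [Group Γ] (Λ : P → Γ) (lo : ℤ) (n : ℕ) (z : ℤ) :
    gA Λ lo (M (2 * n) 0 z) = rwp Λ 0 z (lvp Λ lo ((z - 2 * lo) / 2).toNat) n := by
  have h1 : (M (2 * n) 0 z) 1 = 0 := rfl
  have h2 : (M (2 * n) 0 z) 0 = 2 * n := rfl
  have h3 : (M (2 * n) 0 z) 2 = z := rfl
  have h4 : ((2 * (n : ℤ)) / 2).toNat = n := by omega
  rw [gA, if_pos h1, h2, h3, if_pos (by positivity), h4]

private theorem gA_row2 {Γ : Type} [Group Γ] (Λ : P → Γ) (lo : ℤ) (n : ℕ) (z : ℤ) :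
    gA Λ lo (M (2 * n) 2 z) =
      rwp Λ 2 z (lvp Λ lo ((z - 2 * lo) / 2).toNat * Λ (M 0 1 z)) n := by
  have h1 : ¬ (M (2 * n) 2 z) 1 = 0 := by
    have : (M (2 * n) 2 z) 1 = 2 := rfl
    rw [this]; norm_num
  have h2 : (M (2 * n) 2 z) 0 = 2 * n := rfl
  have h3 : (M (2 * n) 2 z) 2 = z := rfl
  have h4 : ((2 * (n : ℤ)) / 2).toNat = n := by omega
  rw [gA, if_neg h1, h2, h3, h4]

private theorem gA_m2 {Γ : Type} [Group Γ] (Λ : P → Γ) (lo : ℤ) (z : ℤ) :
    gA Λ lo (M (-2) 0 z) = lvp Λ lo ((z - 2 * lo) / 2).toNat * (Λ (M (-1) 0 z))⁻¹ := by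
  have h1 : (M (-2) 0 z) 1 = 0 := rfl
  have h2 : (M (-2) 0 z) 0 = -2 := rfl
  have h3 : (M (-2) 0 z) 2 = z := rfl
  rw [gA, if_pos h1, h2, h3, if_neg (by norm_num), if_pos rfl]

private theorem gA_m4 {Γ : Type} [Group Γ] (Λ : P → Γ) (lo : ℤ) (z : ℤ) :
    gA Λ lo (M (-4) 0 z) = lvp Λ lo ((z - 2 * lo) / 2).toNat * (Λ (M (-1) 0 z))⁻¹ *
      (Λ (M (-3) 0 z))⁻¹ := by
  have h1 : (M (-4) 0 z) 1 = 0 := rfl
  have h2 : (M (-4) 0 z) 0 = -4 := rfl
  have h3 : (M (-4) 0 z) 2 = z := rfl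
  rw [gA, if_pos h1, h2, h3, if_neg (by norm_num), if_neg (by norm_num)]

private theorem gau0 {Γ : Type} [Group Γ] (A Λ : P → Γ) {x y z : ℤ} (hx : Odd x) (hy : ¬ Odd y)
    (hz : ¬ Odd z) : gau A Λ (M x y z) = A (M (x - 1) y z) * Λ (M x y z) *
      (A (M (x + 1) y z))⁻¹ := by
  rw [gau_single A Λ (dirs0 hx hy hz), M_sub0, M_add0]

private theorem gau1 {Γ : Type} [Group Γ] (A Λ : P → Γ) {x y z : ℤ} (hx : ¬ Odd x) (hy : Odd y)
    (hz : ¬ Odd z) : gau A Λ (M x y z) = A (M x (y - 1) z) * Λ (M x y z) *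
      (A (M x (y + 1) z))⁻¹ := by
  rw [gau_single A Λ (dirs1 hx hy hz), M_sub1, M_add1]

private theorem gau2 {Γ : Type} [Group Γ] (A Λ : P → Γ) {x y z : ℤ} (hx : ¬ Odd x)
    (hy : ¬ Odd y) (hz : Odd z) : gau A Λ (M x y z) = A (M x y (z - 1)) * Λ (M x y z) *
      (A (M x y (z + 1)))⁻¹ := by
  rw [gau_single A Λ (dirs2 hx hy hz), M_sub2, M_add2]

private theorem ev0 : ¬ Odd (0 : ℤ) := by decide
private theorem ev2 : ¬ Odd (2 : ℤ) := by decide
private theorem od1 : Odd (1 : ℤ) := by decide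
private theorem od2n (n : ℕ) : Odd (2 * (n : ℤ) + 1) := ⟨n, rfl⟩
private theorem ev2n (n : ℕ) : ¬ Odd (2 * (n : ℤ)) := by
  rw [Int.not_odd_iff_even]; exact even_two_mul _

private theorem F1 {Γ : Type} [Group Γ] (Λ : P → Γ) (lo : ℤ) (n : ℕ) {z : ℤ} (hz : ¬ Odd z) :
    gau (gA Λ lo) Λ (M (2 * n + 1) 0 z) = 1 := by
  have h1 : (2 * (n : ℤ) + 1 - 1) = 2 * (n : ℤ) := by ring
  have h2 : (2 * (n : ℤ) + 1 + 1) = 2 * ((n + 1 : ℕ) : ℤ) := by push_cast; ring
  rw [gau0 _ _ (od2n n) ev0 hz, h1, h2, gA_row0, gA_row0, rwp]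
  group

private theorem F3 {Γ : Type} [Group Γ] (Λ : P → Γ) (lo : ℤ) (n : ℕ) {z : ℤ} (hz : ¬ Odd z) :
    gau (gA Λ lo) Λ (M (2 * n + 1) 2 z) = 1 := by
  have h1 : (2 * (n : ℤ) + 1 - 1) = 2 * (n : ℤ) := by ring
  have h2 : (2 * (n : ℤ) + 1 + 1) = 2 * ((n + 1 : ℕ) : ℤ) := by push_cast; ring
  rw [gau0 _ _ (od2n n) ev2 hz, h1, h2, gA_row2, gA_row2, rwp]
  group

private theorem gA_00 {Γ : Type} [Group Γ] (Λ : P → Γ) (lo z : ℤ) :
    gA Λ lo (M 0 0 z) = lvp Λ lo ((z - 2 * lo) / 2).toNat := by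
  have := gA_row0 Λ lo 0 z
  simpa [rwp] using this

private theorem F2 {Γ : Type} [Group Γ] (Λ : P → Γ) (lo : ℤ) {z : ℤ} (hz : ¬ Odd z) :
    gau (gA Λ lo) Λ (M (-1) 0 z) = 1 := by
  have h1 : ((-1 : ℤ) - 1) = -2 := by norm_num
  have h2 : ((-1 : ℤ) + 1) = 0 := by norm_num
  rw [gau0 _ _ (by decide) ev0 hz, h1, h2, gA_m2, gA_00]
  group

private theorem F2' {Γ : Type} [Group Γ] (Λ : P → Γ) (lo : ℤ) {z : ℤ} (hz : ¬ Odd z) :
    gau (gA Λ lo) Λ (M (-3) 0 z) = 1 := by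
  have h1 : ((-3 : ℤ) - 1) = -4 := by norm_num
  have h2 : ((-3 : ℤ) + 1) = -2 := by norm_num
  rw [gau0 _ _ (by decide) ev0 hz, h1, h2, gA_m4, gA_m2]
  group

private theorem F4 {Γ : Type} [Group Γ] (Λ : P → Γ) (lo : ℤ) {z : ℤ} (hz : ¬ Odd z) :
    gau (gA Λ lo) Λ (M 0 1 z) = 1 := by
  have h1 : ((1 : ℤ) - 1) = 0 := by norm_num
  have h2 : ((1 : ℤ) + 1) = 2 := by norm_num
  have h3 := gA_row2 Λ lo 0 z
  simp only [Nat.cast_zero, mul_zero, rwp] at h3
  rw [gau1 _ _ ev0 od1 hz, h1, h2, gA_00, h3]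
  group

private theorem F5 {Γ : Type} [Group Γ] (Λ : P → Γ) (lo : ℤ) {z : ℤ} (hz : Odd z)
    (hl : 2 * lo ≤ z) : gau (gA Λ lo) Λ (M 0 0 z) = 1 := by
  obtain ⟨w, hw⟩ := hz
  obtain ⟨k, hk⟩ : ∃ k : ℕ, z = 2 * lo + 2 * k + 1 := ⟨(w - lo).toNat, by omega⟩
  have h1 : ((z - 1 - 2 * lo) / 2).toNat = k := by omega
  have h2 : ((z + 1 - 2 * lo) / 2).toNat = k + 1 := by omega
  rw [gau2 _ _ ev0 ev0 ⟨w, hw⟩, gA_00, gA_00, h1, h2, lvp, ← hk]
  group

theorem gauge {m : ℕ} {lo hi : ℤ} (hl : lo ≤ hi) {X : Set P} (hX : Yp m lo hi ⊆ X) {Γ : Type}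
    [Group Γ] {Λ : P → Γ} (h : Flat X Λ) :
    ∃ (A : P → Γ) (y : ℕ → Γ), y 0 = 1 ∧
      ∀ q ∈ Yp m lo hi, ∀ i, dirs q = {i} → gau A Λ q = std y q := by
  have hF : Flat X (gau (gA Λ lo) Λ) := flat_gau h
  have h2lo : ¬ Odd (2 * lo) := by rw [Int.not_odd_iff_even]; exact even_two_mul _
  refine ⟨gA Λ lo, fun s => gau (gA Λ lo) Λ (M (2 * s) 1 (2 * lo)), ?_, ?_⟩
  · have := F4 Λ lo h2lo
    simpa using this
  -- squares
  have S02 : ∀ {x y z : ℤ}, Odd x → ¬ Odd y → Odd z → lad m x y → 2 * lo ≤ z → z ≤ 2 * hi →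
      gau (gA Λ lo) Λ (M x y (z - 1)) * gau (gA Λ lo) Λ (M (x + 1) y z) =
        gau (gA Λ lo) Λ (M (x - 1) y z) * gau (gA Λ lo) Λ (M x y (z + 1)) := by
    intro x y z hx hy hz hlad h1 h2
    have := hF (M x y z) (hX (M_mem hlad h1 h2)) 0 2 (by decide) (dirs02 hx hy hz)
    rwa [M_sub2, M_add0, M_sub0, M_add2] at this
  have S12 : ∀ {x y z : ℤ}, ¬ Odd x → Odd y → Odd z → lad m x y → 2 * lo ≤ z → z ≤ 2 * hi →
      gau (gA Λ lo) Λ (M x y (z - 1)) * gau (gA Λ lo) Λ (M x (y + 1) z) =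
        gau (gA Λ lo) Λ (M x (y - 1) z) * gau (gA Λ lo) Λ (M x y (z + 1)) := by
    intro x y z hx hy hz hlad h1 h2
    have := hF (M x y z) (hX (M_mem hlad h1 h2)) 1 2 (by decide) (dirs12 hx hy hz)
    rwa [M_sub2, M_add1, M_sub1, M_add2] at this
  -- level edges in the row 0
  have L0 : ∀ n : ℕ, n ≤ m → ∀ z : ℤ, Odd z → 2 * lo ≤ z → z ≤ 2 * hi →
      gau (gA Λ lo) Λ (M (2 * n) 0 z) = 1 := by
    intro n
    induction n with
    | zero =>
      intro _ z hz h1 _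
      have := F5 Λ lo hz h1
      simpa using this
    | succ n ih =>
      intro hn z hz h1 h2
      have hs := S02 (od2n n) ev0 hz (Or.inl ⟨rfl, by omega, by omega⟩) h1 h2
      have e1 : (2 * (n : ℤ) + 1 + 1) = 2 * ((n + 1 : ℕ) : ℤ) := by push_cast; ring
      have e2 : (2 * (n : ℤ) + 1 - 1) = 2 * (n : ℤ) := by ring
      rw [F1 Λ lo n (not_odd_of_even_add hz).2, F1 Λ lo n (not_odd_of_even_add hz).1, e1, e2,
        ih (by omega) z hz h1 h2] at hs
      simpa using hs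
  have Lm2 : ∀ z : ℤ, Odd z → 2 * lo ≤ z → z ≤ 2 * hi →
      gau (gA Λ lo) Λ (M (-2) 0 z) = 1 := by
    intro z hz h1 h2
    have hs := S02 (x := -1) (by decide) ev0 hz (Or.inl ⟨rfl, by omega, by omega⟩) h1 h2
    have e1 : ((-1 : ℤ) + 1) = 0 := by norm_num
    have e2 : ((-1 : ℤ) - 1) = -2 := by norm_num
    rw [F2 Λ lo (not_odd_of_even_add hz).2, F2 Λ lo (not_odd_of_even_add hz).1, e1, e2,
      F5 Λ lo hz h1] at hs
    simpa using hs.symm
  have Lm4 : ∀ z : ℤ, Odd z → 2 * lo ≤ z → z ≤ 2 * hi →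
      gau (gA Λ lo) Λ (M (-4) 0 z) = 1 := by
    intro z hz h1 h2
    have hs := S02 (x := -3) (by decide) ev0 hz (Or.inl ⟨rfl, by omega, by omega⟩) h1 h2
    have e1 : ((-3 : ℤ) + 1) = -2 := by norm_num
    have e2 : ((-3 : ℤ) - 1) = -4 := by norm_num
    rw [F2' Λ lo (not_odd_of_even_add hz).2, F2' Λ lo (not_odd_of_even_add hz).1, e1, e2,
      Lm2 z hz h1 h2] at hs
    simpa using hs.symm
  -- level edges in the row 2
  have L2 : ∀ n : ℕ, n ≤ m → ∀ z : ℤ, Odd z → 2 * lo ≤ z → z ≤ 2 * hi →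
      gau (gA Λ lo) Λ (M (2 * n) 2 z) = 1 := by
    intro n
    induction n with
    | zero =>
      intro _ z hz h1 h2
      have hs := S12 (x := 0) (y := 1) ev0 od1 hz (Or.inr (Or.inr ⟨rfl, by norm_num, by omega,
        by omega⟩)) h1 h2
      have e1 : ((1 : ℤ) + 1) = 2 := by norm_num
      have e2 : ((1 : ℤ) - 1) = 0 := by norm_num
      rw [F4 Λ lo (not_odd_of_even_add hz).2, F4 Λ lo (not_odd_of_even_add hz).1, e1, e2,
        F5 Λ lo hz h1] at hs
      simpa using hs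
    | succ n ih =>
      intro hn z hz h1 h2
      have hs := S02 (od2n n) ev2 hz (Or.inr (Or.inl ⟨rfl, by omega, by omega⟩)) h1 h2
      have e1 : (2 * (n : ℤ) + 1 + 1) = 2 * ((n + 1 : ℕ) : ℤ) := by push_cast; ring
      have e2 : (2 * (n : ℤ) + 1 - 1) = 2 * (n : ℤ) := by ring
      rw [F3 Λ lo n (not_odd_of_even_add hz).2, F3 Λ lo n (not_odd_of_even_add hz).1, e1, e2,
        ih (by omega) z hz h1 h2] at hs
      simpa using hs
  -- rungs
  have R : ∀ s : ℕ, s ≤ m → ∀ k : ℕ, 2 * lo + 2 * k ≤ 2 * hi →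
      gau (gA Λ lo) Λ (M (2 * s) 1 (2 * lo + 2 * k)) =
        gau (gA Λ lo) Λ (M (2 * s) 1 (2 * lo)) := by
    intro s hs k
    induction k with
    | zero => intro _; simp
    | succ k ih =>
      intro hk
      push_cast at hk
      have hz : Odd (2 * lo + 2 * (k : ℤ) + 1) := ⟨lo + k, by ring⟩
      have hq := S12 (x := 2 * s) (y := 1) (z := 2 * lo + 2 * k + 1) (ev2n s) od1 hz
        (Or.inr (Or.inr ⟨rfl, by omega, by omega, by omega⟩)) (by omega) (by omega)
      have e1 : ((1 : ℤ) + 1) = 2 := by norm_num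
      have e2 : ((1 : ℤ) - 1) = 0 := by norm_num
      have e3 : 2 * lo + 2 * (k : ℤ) + 1 - 1 = 2 * lo + 2 * k := by ring
      have e4 : 2 * lo + 2 * (k : ℤ) + 1 + 1 = 2 * lo + 2 * ((k + 1 : ℕ) : ℤ) := by
        push_cast; ring
      rw [e1, e2, e3, e4, L2 s hs _ hz (by omega) (by omega), L0 s hs _ hz (by omega) (by omega),
        mul_one, one_mul] at hq
      rw [← hq]
      exact ih (by omega)
  rintro q ⟨hlad, hu, hv, hz1, hz2⟩ i hi
  have hq : q = M (q 0) (q 1) (q 2) := by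
    funext j
    fin_cases j
    · rfl
    · rfl
    · rfl
    · exact hv
    · exact hu
  have hodd : ∀ j, Odd (q j) ↔ j = i := fun j => by
    rw [← mem_dirs, hi, Finset.mem_singleton]
  have h0 := hodd 0
  have h1 := hodd 1
  have h2 := hodd 2
  have h3 := hodd 3
  have h4 := hodd 4
  have hstd : std (fun s => gau (gA Λ lo) Λ (M (2 * s) 1 (2 * lo))) q =
      if Odd (q 1) then gau (gA Λ lo) Λ (M (2 * ((q 0 / 2).toNat : ℤ)) 1 (2 * lo)) else 1 := rfl
  rw [hstd]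
  rw [hv] at h3
  rw [hu] at h4
  fin_cases i
  · -- row edges
    have o0 : Odd (q 0) := h0.2 rfl
    have o1 : ¬ Odd (q 1) := fun hh => by simpa using h1.1 hh
    have o2 : ¬ Odd (q 2) := fun hh => by simpa using h2.1 hh
    rw [if_neg o1, hq]
    obtain ⟨w, hw⟩ := o0
    rcases hlad with ⟨hy, hx1, hx2⟩ | ⟨hy, hx1, hx2⟩ | ⟨hy, hx0, hx1, hx2⟩
    · rw [hy]
      by_cases hx : 0 ≤ q 0
      · have : q 0 = 2 * ((w.toNat : ℕ) : ℤ) + 1 := by omega
        rw [this]
        exact F1 Λ lo _ o2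
      · have : q 0 = -1 ∨ q 0 = -3 := by omega
        rcases this with hx' | hx'
        · rw [hx']
          exact F2 Λ lo o2
        · rw [hx']
          exact F2' Λ lo o2
    · rw [hy]
      have : q 0 = 2 * ((w.toNat : ℕ) : ℤ) + 1 := by omega
      rw [this]
      exact F3 Λ lo _ o2
    · exact absurd (by rw [hy]; exact od1) o1
  · -- rungs
    have o0 : ¬ Odd (q 0) := fun hh => by simpa using h0.1 hh
    have o1 : Odd (q 1) := h1.2 rfl
    have o2 : ¬ Odd (q 2) := fun hh => by simpa using h2.1 hh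
    rw [if_pos o1]
    rw [Int.not_odd_iff_even] at o0 o2
    obtain ⟨w, hw⟩ := o0
    obtain ⟨t, ht⟩ := o2
    rcases hlad with ⟨hy, hx1, hx2⟩ | ⟨hy, hx1, hx2⟩ | ⟨hy, hx0, hx1, hx2⟩
    · exact absurd (by rw [hy] at o1; exact o1) ev0
    · exact absurd (by rw [hy] at o1; exact o1) ev2
    · have e1 : (2 * ((q 0 / 2).toNat : ℤ)) = q 0 := by omega
      have e2 : q 2 = 2 * lo + 2 * (((t - lo).toNat : ℕ) : ℤ) := by omega
      have hr := R (q 0 / 2).toNat (by omega) (t - lo).toNat (by omega)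
      rw [e1, ← e2] at hr
      rw [e1, ← hr]
      conv_lhs => rw [hq, hy]
  · -- level edges
    have o0 : ¬ Odd (q 0) := fun hh => by simpa using h0.1 hh
    have o1 : ¬ Odd (q 1) := fun hh => by simpa using h1.1 hh
    have o2 : Odd (q 2) := h2.2 rfl
    rw [if_neg o1, hq]
    rw [Int.not_odd_iff_even] at o0
    obtain ⟨w, hw⟩ := o0
    rcases hlad with ⟨hy, hx1, hx2⟩ | ⟨hy, hx1, hx2⟩ | ⟨hy, hx0, hx1, hx2⟩
    · rw [hy]
      by_cases hx : 0 ≤ q 0
      · have : q 0 = 2 * ((w.toNat : ℕ) : ℤ) := by omega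
        rw [this]
        exact L0 _ (by omega) _ o2 hz1 hz2
      · have : q 0 = -2 ∨ q 0 = -4 := by omega
        rcases this with hx' | hx'
        · rw [hx']
          exact Lm2 _ o2 hz1 hz2
        · rw [hx']
          exact Lm4 _ o2 hz1 hz2
    · rw [hy]
      have : q 0 = 2 * ((w.toNat : ℕ) : ℤ) := by omega
      rw [this]
      exact L2 _ (by omega) _ o2 hz1 hz2
    · exact absurd (by rw [hy]; exact od1) o1
  · exact absurd (h3.2 rfl) ev0
  · exact absurd (h4.2 rfl) ev0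

end Pool.Agent.MKD
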