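import Pool.Agent.MKD.CobCol
import Pool.Agent.MKD.DiscCol
import Pool.Agent.MKD.Gauge

/-! Module MKD/DiscHol: flat labellings on the disc of a strand, standard on the base.

Let Λ be flat on the disc and Λ q = std y q for the edges q of the disc in the base (q 3 = q 4 = 0). On kapS
all labels are 1, so Cob (kapS) with potential 1, and by `cob_of_col` and `col_disc` there is a potential ψ on
the whole disc. ψ is constant on kapS (return line and end rows: the labels are 1; connect through the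
return line), say κ = ψ at (rt, 0, 2 lo).
`triv_of_flat`: φ j = κ⁻¹ * ψ (foot of the strand at pos j at the height 2 j) for lo ≤ j < hi; level edges of the
strand are 1: the same at the height 2 j + 2. φ lo = 1, φ (hi - 1) = 1 (end rows). Step: if cr j = 0 then pos
is unchanged. If cr j = s + 1: going along the arc of s (rows 1, rung y s) from b to t multiplies ψ by y s.
`pot_of_flat`: if y s = 1 for all s ≤ m then all labels of the disc in the base are 1, φ j = 1 for all j, and ψ = κ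
on all vertices of the disc in the base: kapS, the strand, and the arcs (connected to the strand by
edges with label 1). Divide: κ⁻¹ * ψ. -/

set_option autoImplicit false

namespace Pool.Agent.MKD

open Pool.Agent.MK

/-- The cell with the given coordinates in the base. -/
private def M73 (x y z : ℤ) : P := ![x, y, z, 0, 0]

private theorem s0 (x y z : ℤ) : M73 x y z - e 0 = M73 (x - 1) y z := by
  funext j; fin_cases j <;> simp [M73, e]

private theorem a0 (x y z : ℤ) : M73 x y z + e 0 = M73 (x + 1) y z := by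
  funext j; fin_cases j <;> simp [M73, e]

private theorem s1 (x y z : ℤ) : M73 x y z - e 1 = M73 x (y - 1) z := by
  funext j; fin_cases j <;> simp [M73, e]

private theorem a1 (x y z : ℤ) : M73 x y z + e 1 = M73 x (y + 1) z := by
  funext j; fin_cases j <;> simp [M73, e]

private theorem s2 (x y z : ℤ) : M73 x y z - e 2 = M73 x y (z - 1) := by
  funext j; fin_cases j <;> simp [M73, e]

private theorem a2 (x y z : ℤ) : M73 x y z + e 2 = M73 x y (z + 1) := by
  funext j; fin_cases j <;> simp [M73, e]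

private theorem md73 {q : P} {i : Fin 5} : i ∈ dirs q ↔ Odd (q i) := by
  simp [dirs]

private theorem d0 {x y z : ℤ} (hx : Odd x) (hy : ¬ Odd y) (hz : ¬ Odd z) :
    dirs (M73 x y z) = {0} := by
  ext i; rw [md73]; fin_cases i <;> simp [M73, hx, hy, hz]

private theorem d1 {x y z : ℤ} (hx : ¬ Odd x) (hy : Odd y) (hz : ¬ Odd z) :
    dirs (M73 x y z) = {1} := by
  ext i; rw [md73]; fin_cases i <;> simp [M73, hx, hy, hz]

private theorem d2 {x y z : ℤ} (hx : ¬ Odd x) (hy : ¬ Odd y) (hz : Odd z) :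
    dirs (M73 x y z) = {2} := by
  ext i; rw [md73]; fin_cases i <;> simp [M73, hx, hy, hz]

/-- The base of the disc. -/
private def B73 (k : Bool) (T : Str) (x y z : ℤ) : Prop :=
  (x = 0 ∧ y = 0 ∧ T.at_ false z) ∨ (x = 0 ∧ y = 2 ∧ T.at_ true z) ∨
  (x = rt k ∧ y = 0 ∧ 2 * T.lo ≤ z ∧ z ≤ 2 * T.hi) ∨
  (y = 0 ∧ rt k ≤ x ∧ x ≤ 0 ∧ (z = 2 * T.lo ∨ z = 2 * T.hi)) ∨
  (∃ s, T.cross s z ∧ arc s x y)

private theorem nu00 (k : Bool) : nuP k 0 0 := by
  cases k
  · exact Or.inr ⟨rfl, rfl, by norm_num, by norm_num⟩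
  · exact Or.inl ⟨rfl, Or.inl ⟨rfl, by norm_num, by norm_num⟩⟩

private theorem nen00 (k : Bool) : ¬ en k 0 0 := by
  rintro ⟨h, -⟩
  norm_num at h

private theorem mem73 {k : Bool} {T : Str} {x y z : ℤ} :
    M73 x y z ∈ disc k T ↔ B73 k T x y z := by
  have e0 : M73 x y z 0 = x := rfl
  have e1 : M73 x y z 1 = y := rfl
  have e2 : M73 x y z 2 = z := rfl
  have e3 : M73 x y z 3 = 0 := rfl
  have e4 : M73 x y z 4 = 0 := rfl
  have hn := nu00 k
  have hne := nen00 k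
  unfold disc B73
  rw [Set.mem_ofPred_eq, e0, e1, e2, e3, e4]
  constructor
  · rintro (⟨h1, h2, -, h3⟩ | ⟨h1, h2, -, h3⟩ | ⟨h1, -⟩ | ⟨h1, -⟩ | ⟨h1, h2, -, h3⟩ |
      ⟨h1, h2, h3, -, h4⟩ | ⟨s, h1, h2, -⟩ | ⟨s, -, -, h1⟩)
    · exact Or.inl ⟨h1, h2, h3⟩
    · exact Or.inr (Or.inl ⟨h1, h2, h3⟩)
    · exact absurd h1 hne
    · exact absurd h1 hne
    · exact Or.inr (Or.inr (Or.inl ⟨h1, h2, h3⟩))
    · exact Or.inr (Or.inr (Or.inr (Or.inl ⟨h1, h2, h3, h4⟩)))
    · exact Or.inr (Or.inr (Or.inr (Or.inr ⟨s, h1, h2⟩)))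
    · exact absurd h1 hne
  · rintro (⟨h1, h2, h3⟩ | ⟨h1, h2, h3⟩ | ⟨h1, h2, h3⟩ | ⟨h1, h2, h3, h4⟩ | ⟨s, h1, h2⟩)
    · exact Or.inl ⟨h1, h2, hn, h3⟩
    · exact Or.inr (Or.inl ⟨h1, h2, hn, h3⟩)
    · exact Or.inr (Or.inr (Or.inr (Or.inr (Or.inl ⟨h1, h2, hn, h3⟩))))
    · exact Or.inr (Or.inr (Or.inr (Or.inr (Or.inr (Or.inl ⟨h1, h2, h3, hn, h4⟩)))))
    · exact Or.inr (Or.inr (Or.inr (Or.inr (Or.inr (Or.inr (Or.inl ⟨s, h1, h2, hn⟩))))))

/-- The potential in the base. -/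
private structure Pot73 (k : Bool) (T : Str) {Γ : Type} [Group Γ] (y : ℕ → Γ) (V : ℤ → ℤ → ℤ → Γ) :
    Prop where
  h0 : ∀ x b z, Odd x → ¬ Odd b → ¬ Odd z → B73 k T x b z → V (x - 1) b z = V (x + 1) b z
  h1 : ∀ x b z, ¬ Odd x → Odd b → ¬ Odd z → B73 k T x b z →
    V x (b - 1) z * y (x / 2).toNat = V x (b + 1) z
  h2 : ∀ x b z, ¬ Odd x → ¬ Odd b → Odd z → B73 k T x b z → V x b (z - 1) = V x b (z + 1)

private theorem pot73 {k : Bool} {T : Str} {Γ : Type} [Group Γ] {Λ : P → Γ} {y : ℕ → Γ}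
    {ψ : P → Γ} (hψ : ∀ q ∈ disc k T, ∀ i, dirs q = {i} → Λ q = (ψ (q - e i))⁻¹ * ψ (q + e i))
    (hs : ∀ q ∈ disc k T, q 3 = 0 → q 4 = 0 → ∀ i, dirs q = {i} → Λ q = std y q) :
    Pot73 k T y (fun x b z => ψ (M73 x b z)) := by
  constructor
  · intro x b z hx hb hz hB
    have h1 := hψ _ (mem73.2 hB) 0 (d0 hx hb hz)
    rw [hs _ (mem73.2 hB) rfl rfl 0 (d0 hx hb hz), s0, a0, std, if_neg (by exact hb)] at h1
    exact (inv_mul_eq_one.1 h1.symm)
  · intro x b z hx hb hz hB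
    have h1 := hψ _ (mem73.2 hB) 1 (d1 hx hb hz)
    rw [hs _ (mem73.2 hB) rfl rfl 1 (d1 hx hb hz), s1, a1, std, if_pos (by exact hb)] at h1
    have e0 : M73 x b z 0 = x := rfl
    rw [e0] at h1
    show ψ (M73 x (b - 1) z) * y (x / 2).toNat = ψ (M73 x (b + 1) z)
    rw [h1, mul_inv_cancel_left]
  · intro x b z hx hb hz hB
    have h1 := hψ _ (mem73.2 hB) 2 (d2 hx hb hz)
    rw [hs _ (mem73.2 hB) rfl rfl 2 (d2 hx hb hz), s2, a2, std, if_neg (by exact hb)] at h1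
    exact (inv_mul_eq_one.1 h1.symm)

private theorem ev2 (j : ℤ) : ¬ Odd (2 * j) := by
  rw [Int.not_odd_iff_even]; exact even_two_mul _

private theorem evz : ¬ Odd (0 : ℤ) := by decide
private theorem evt : ¬ Odd (2 : ℤ) := by decide

section

variable {k : Bool} {T : Str} {Γ : Type} [Group Γ] {y : ℕ → Γ} {V : ℤ → ℤ → ℤ → Γ}

/-- The return line. -/
private theorem ret73 (hV : Pot73 k T y V) (n : ℕ) (hn : T.lo + n ≤ T.hi) :
    V (rt k) 0 (2 * (T.lo + n)) = V (rt k) 0 (2 * T.lo) := by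
  have hrt : ¬ Odd (rt k) := by cases k <;> decide
  induction n with
  | zero => simp
  | succ n ih =>
    push_cast at hn ⊢
    rw [← ih (by omega)]
    have h := hV.h2 (rt k) 0 (2 * (T.lo + n) + 1) hrt evz ⟨T.lo + n, rfl⟩
      (Or.inr (Or.inr (Or.inl ⟨rfl, rfl, by omega, by omega⟩)))
    have e1 : 2 * (T.lo + (n : ℤ)) + 1 - 1 = 2 * (T.lo + n) := by ring
    have e2 : 2 * (T.lo + (n : ℤ)) + 1 + 1 = 2 * (T.lo + (n + 1)) := by ring
    rw [e1, e2] at h
    exact h.symm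

private theorem row73 (hV : Pot73 k T y V) {z : ℤ} (hz : z = 2 * T.lo ∨ z = 2 * T.hi) {x : ℤ}
    (hx : ¬ Odd x) (h1 : rt k ≤ x) (h2 : x ≤ 0) : V x 0 z = V (rt k) 0 z := by
  have hz' : ¬ Odd z := by
    rcases hz with rfl | rfl <;> exact ev2 _
  have key : ∀ w : ℤ, Odd w → rt k ≤ w → w ≤ 0 → V (w - 1) 0 z = V (w + 1) 0 z :=
    fun w hw h3 h4 => hV.h0 w 0 z hw evz hz'
      (Or.inr (Or.inr (Or.inr (Or.inl ⟨rfl, h3, h4, hz⟩))))
  rw [Int.not_odd_iff_even] at hx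
  obtain ⟨w, rfl⟩ := hx
  cases k
  · have hr : rt false = -2 := rfl
    rw [hr] at h1 key ⊢
    have k1 := key (-1) (by decide) (by norm_num) (by norm_num)
    norm_num at k1
    have hw : w = -1 ∨ w = 0 := by omega
    rcases hw with rfl | rfl
    · norm_num
    · norm_num
      exact k1.symm
  · have hr : rt true = -4 := rfl
    rw [hr] at h1 key ⊢
    have k1 := key (-1) (by decide) (by norm_num) (by norm_num)
    have k3 := key (-3) (by decide) (by norm_num) (by norm_num)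
    norm_num at k1 k3
    have hw : w = -2 ∨ w = -1 ∨ w = 0 := by omega
    rcases hw with rfl | rfl | rfl
    · norm_num
    · norm_num
      exact k3.symm
    · norm_num
      exact k1.symm.trans k3.symm

/-- The potential is constant on the return path. -/
private theorem kap73 (hlt : T.lo < T.hi) (hV : Pot73 k T y V) {x z : ℤ} (hx : ¬ Odd x)
    (hz : ¬ Odd z) (h1 : rt k ≤ x) (h2 : x ≤ 0) (h3 : 2 * T.lo ≤ z) (h4 : z ≤ 2 * T.hi)
    (h5 : x = rt k ∨ z = 2 * T.lo ∨ z = 2 * T.hi) : V x 0 z = V 0 0 (2 * T.lo) := by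
  have hk0 : rt k ≤ 0 := by cases k <;> decide
  have hrt : ∀ w : ℤ, ¬ Odd w → 2 * T.lo ≤ w → w ≤ 2 * T.hi →
      V (rt k) 0 w = V (rt k) 0 (2 * T.lo) := by
    intro w hw h6 h7
    rw [Int.not_odd_iff_even] at hw
    obtain ⟨v, rfl⟩ := hw
    have := ret73 hV (v - T.lo).toNat (by omega)
    have e1 : 2 * (T.lo + (((v - T.lo).toNat : ℕ) : ℤ)) = v + v := by omega
    rw [e1] at this
    exact this
  rw [row73 hV (Or.inl rfl) evz hk0 le_rfl]
  rcases h5 with rfl | h5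
  · exact hrt z hz h3 h4
  · rw [row73 hV h5 hx h1 h2]
    exact hrt z hz h3 h4

/-- The foot of the strand. -/
private def ft (b : Bool) : ℤ := if b then 2 else 0

/-- Level edges of the strand. -/
private theorem lev73 (hV : Pot73 k T y V) {j : ℤ} (h1 : T.lo ≤ j) (h2 : j < T.hi) :
    V 0 (ft (T.pos j)) (2 * j) = V 0 (ft (T.pos j)) (2 * (j + 1)) := by
  have hB : B73 k T 0 (ft (T.pos j)) (2 * j + 1) := by
    have hj : (2 * j + 1) / 2 = j := by omega
    cases hp : T.pos j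
    · exact Or.inl ⟨rfl, rfl, Or.inl (by rw [hj]; exact ⟨h1, h2, hp⟩)⟩
    · exact Or.inr (Or.inl ⟨rfl, rfl, Or.inl (by rw [hj]; exact ⟨h1, h2, hp⟩)⟩)
  have hf : ¬ Odd (ft (T.pos j)) := by
    cases T.pos j
    · exact evz
    · exact evt
  have h := hV.h2 0 _ (2 * j + 1) evz hf ⟨j, rfl⟩ hB
  have e1 : 2 * j + 1 - 1 = 2 * j := by ring
  have e2 : 2 * j + 1 + 1 = 2 * (j + 1) := by ring
  rwa [e1, e2] at h

/-- The rows of an arc. -/
private theorem arc73 (hV : Pot73 k T y V) {s : ℕ} {z : ℤ} (hs : T.cross s z) {b : ℤ}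
    (hb : b = 0 ∨ b = 2) (n : ℕ) (hn : n ≤ s) : V (2 * n) b z = V 0 b z := by
  have hz : ¬ Odd z := by
    rw [Int.not_odd_iff_even, Int.even_iff]
    exact hs.1
  have hb' : ¬ Odd b := by
    rcases hb with rfl | rfl
    · exact evz
    · exact evt
  induction n with
  | zero => simp
  | succ n ih =>
    push_cast
    rw [← ih (by omega)]
    have hB : B73 k T (2 * n + 1) b z := by
      refine Or.inr (Or.inr (Or.inr (Or.inr ⟨s, hs, ?_⟩)))
      rcases hb with rfl | rfl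
      · exact Or.inl ⟨rfl, by omega, by omega⟩
      · exact Or.inr (Or.inr ⟨rfl, by omega, by omega⟩)
    have h := hV.h0 (2 * n + 1) b z ⟨n, rfl⟩ hb' hz hB
    have e1 : 2 * (n : ℤ) + 1 - 1 = 2 * n := by ring
    have e2 : 2 * (n : ℤ) + 1 + 1 = 2 * (n + 1) := by ring
    rw [e1, e2] at h
    exact h.symm

/-- Crossing. -/
private theorem rung73 (hV : Pot73 k T y V) {s : ℕ} {z : ℤ} (hs : T.cross s z) :
    V 0 0 z * y s = V 0 2 z := by
  have hz : ¬ Odd z := by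
    rw [Int.not_odd_iff_even, Int.even_iff]
    exact hs.1
  have hB : B73 k T (2 * s) 1 z :=
    Or.inr (Or.inr (Or.inr (Or.inr ⟨s, hs, Or.inr (Or.inl ⟨rfl, by norm_num, by norm_num⟩)⟩)))
  have h := hV.h1 (2 * s) 1 z (ev2 _) (by decide) hz hB
  have e1 : ((2 * (s : ℤ)) / 2).toNat = s := by omega
  have e2 : (1 : ℤ) - 1 = 0 := by norm_num
  have e3 : (1 : ℤ) + 1 = 2 := by norm_num
  rw [e1, e2, e3, arc73 hV hs (Or.inl rfl) s le_rfl, arc73 hV hs (Or.inr rfl) s le_rfl] at h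
  exact h

private theorem hol73 {m : ℕ} (h : T.OK m) (hV : Pot73 k T y V) :
    HolOK T y (fun j => (V 0 0 (2 * T.lo))⁻¹ * V 0 (ft (T.pos j)) (2 * j)) := by
  have hlt := h.lt
  have hk0 : rt k ≤ 0 := by cases k <;> decide
  constructor
  · show (V 0 0 (2 * T.lo))⁻¹ * V 0 (ft (T.pos T.lo)) (2 * T.lo) = 1
    rw [h.pos_lo]
    exact inv_mul_cancel _
  · show (V 0 0 (2 * T.lo))⁻¹ * V 0 (ft (T.pos (T.hi - 1))) (2 * (T.hi - 1)) = 1
    rw [lev73 hV (j := T.hi - 1) (by omega) (by omega), h.pos_hi]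
    have e1 : 2 * (T.hi - 1 + 1) = 2 * T.hi := by ring
    show (V 0 0 (2 * T.lo))⁻¹ * V 0 0 (2 * (T.hi - 1 + 1)) = 1
    rw [e1, kap73 hlt hV evz (ev2 _) hk0 le_rfl (by omega) le_rfl (Or.inr (Or.inr rfl))]
    exact inv_mul_cancel _
  · intro j h1 h2
    show (V 0 0 (2 * T.lo))⁻¹ * V 0 (ft (T.pos j)) (2 * j) =
      (V 0 0 (2 * T.lo))⁻¹ * V 0 (ft (T.pos (j - 1))) (2 * (j - 1)) * stepV T y j
    have hl := lev73 hV (j := j - 1) (by omega) (by omega)
    have e1 : 2 * (j - 1 + 1) = 2 * j := by ring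
    rw [e1] at hl
    rw [hl, mul_assoc]
    congr 1
    have hiff := h.iff j h1 h2
    unfold stepV
    rcases hc : T.cr j with _ | s
    · rw [hc] at hiff
      have hp := hiff.1 rfl
      simp [hp]
    · rw [hc] at hiff
      have hp : T.pos (j - 1) ≠ T.pos j := fun hh => by
        have := hiff.2 hh
        omega
      have hs : T.cross s (2 * j) := by
        refine ⟨by omega, ?_⟩
        have : 2 * j / 2 = j := by omega
        rw [this, hc]
      have hr := rung73 hV hs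
      cases hp1 : T.pos (j - 1)
      · have hp2 : T.pos j = true := by
          cases hp3 : T.pos j
          · exact absurd (hp1.trans hp3.symm) hp
          · rfl
        rw [hp2]
        show V 0 2 (2 * j) = V 0 0 (2 * j) * y s
        exact hr.symm
      · have hp2 : T.pos j = false := by
          cases hp3 : T.pos j
          · rfl
          · exact absurd (hp1.trans hp3.symm) hp
        rw [hp2]
        show V 0 0 (2 * j) = V 0 2 (2 * j) * (y s)⁻¹
        rw [← hr, mul_inv_cancel_right]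

private theorem one73 {m : ℕ} (h : T.OK m) (hV : Pot73 k T (fun _ => (1 : Γ)) V) {j : ℤ}
    (h1 : T.lo ≤ j) (h2 : j < T.hi) :
    V 0 (ft (T.pos j)) (2 * j) = V 0 0 (2 * T.lo) ∧
      V 0 (ft (T.pos j)) (2 * (j + 1)) = V 0 0 (2 * T.lo) := by
  have hH := hol73 h hV
  have key : ∀ n : ℕ, T.lo + n < T.hi →
      (V 0 0 (2 * T.lo))⁻¹ * V 0 (ft (T.pos (T.lo + n))) (2 * (T.lo + n)) = 1 := by
    intro n
    induction n with
    | zero =>
      intro _
      have := hH.lo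
      simpa using this
    | succ n ih =>
      intro hn
      push_cast at hn ⊢
      have h3 := hH.step (T.lo + (n + 1)) (by omega) (by omega)
      have e1 : T.lo + ((n : ℤ) + 1) - 1 = T.lo + n := by ring
      have h4 : stepV T (fun _ => (1 : Γ)) (T.lo + (n + 1)) = 1 := by
        unfold stepV
        rcases T.cr (T.lo + (n + 1)) with _ | s
        · rfl
        · simp
      simp only [e1] at h3
      rw [h4, ih (by omega), mul_one] at h3
      exact h3
  have h3 := key (j - T.lo).toNat (by omega)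
  have e1 : T.lo + (((j - T.lo).toNat : ℕ) : ℤ) = j := by omega
  rw [e1] at h3
  have h4 := (inv_mul_eq_one.1 h3).symm
  exact ⟨h4, by rw [← lev73 hV h1 h2]; exact h4⟩

private theorem all73 {m : ℕ} (h : T.OK m) (hV : Pot73 k T (fun _ => (1 : Γ)) V) {x b z : ℤ}
    (hx : ¬ Odd x) (hb : ¬ Odd b) (hz : ¬ Odd z) (hB : B73 k T x b z) :
    V x b z = V 0 0 (2 * T.lo) := by
  have hlt := h.lt
  have hat : ∀ β : Bool, T.at_ β z → V 0 (ft β) z = V 0 0 (2 * T.lo) := by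
    intro β hβ
    rw [Int.not_odd_iff_even] at hz
    obtain ⟨w, hw⟩ := hz
    rcases hβ with ⟨h1, h2, h3⟩ | ⟨-, h1, h2, h3⟩
    · have := (one73 h hV h1 h2).1
      rw [h3] at this
      have e1 : 2 * (z / 2) = z := by omega
      rwa [e1] at this
    · have := (one73 h hV h1 h2).2
      rw [h3] at this
      have e1 : 2 * (z / 2 - 1 + 1) = z := by omega
      rwa [e1] at this
  rcases hB with ⟨rfl, rfl, h3⟩ | ⟨rfl, rfl, h3⟩ | ⟨rfl, rfl, h3, h4⟩ | ⟨rfl, h2, h3, h4⟩ | ⟨s, h1, h2⟩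
  · exact hat false h3
  · exact hat true h3
  · exact kap73 hlt hV hx hz le_rfl (by cases k <;> decide) h3 h4 (Or.inl rfl)
  · exact kap73 hlt hV hx hz h2 h3 (by omega) (by omega) (Or.inr h4)
  · have hzj := h1.1
    have hcr := h1.2
    have hin : T.lo < z / 2 ∧ z / 2 < T.hi := by
      by_contra hc
      have := h.out (z / 2) (by omega)
      omega
    have h5 := (one73 h hV hin.1.le hin.2).1
    have e1 : 2 * (z / 2) = z := by omega
    rw [e1] at h5
    have hr := rung73 hV h1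
    rw [mul_one] at hr
    have h6 : V 0 0 z = V 0 0 (2 * T.lo) ∧ V 0 2 z = V 0 0 (2 * T.lo) := by
      cases hp : T.pos (z / 2)
      · rw [hp] at h5
        have h7 : V 0 0 z = V 0 0 (2 * T.lo) := h5
        exact ⟨h7, hr ▸ h7⟩
      · rw [hp] at h5
        have h7 : V 0 2 z = V 0 0 (2 * T.lo) := h5
        exact ⟨hr.trans h7, h7⟩
    have hxx : Even x := by rwa [Int.not_odd_iff_even] at hx
    obtain ⟨w, hw⟩ := hxx
    have hbb : Even b := by rwa [Int.not_odd_iff_even] at hb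
    obtain ⟨v, hv⟩ := hbb
    have hcase : (b = 0 ∨ b = 2) ∧ 0 ≤ x ∧ x ≤ 2 * s := by
      rcases h2 with ⟨h8, h9, h10⟩ | ⟨h8, h9, h10⟩ | ⟨h8, h9, h10⟩ <;> omega
    obtain ⟨hb2, hx0, hxs⟩ := hcase
    have h7 := arc73 hV h1 hb2 (x / 2).toNat (by omega)
    have e2 : 2 * (((x / 2).toNat : ℕ) : ℤ) = x := by omega
    rw [e2] at h7
    rw [h7]
    rcases hb2 with rfl | rfl
    · exact h6.1
    · exact h6.2

end

private theorem pre73 {m : ℕ} {k : Bool} {T : Str} (h : T.OK m) {Γ : Type} [Group Γ] {Λ : P → Γ}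
    {y : ℕ → Γ} (hF : Flat (disc k T) Λ)
    (hs : ∀ q ∈ disc k T, q 3 = 0 → q 4 = 0 → ∀ i, dirs q = {i} → Λ q = std y q) :
    ∃ ψ : P → Γ, ∀ q ∈ disc k T, ∀ i, dirs q = {i} → Λ q = (ψ (q - e i))⁻¹ * ψ (q + e i) := by
  refine cob_of_col (col_disc m k T h) Λ hF ⟨fun _ => 1, fun q hq i hi => ?_⟩
  obtain ⟨h1, h2, h3, h4, h5, h6, h7, h8⟩ := hq
  have hd : q ∈ disc k T := by
    have hn : nuP k (q 4) (q 3) := by
      rw [h4, h5]
      exact nu00 k
    rcases h8 with h8 | h8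
    · exact Or.inr (Or.inr (Or.inr (Or.inr (Or.inl ⟨h8, h1, hn, h6, h7⟩))))
    · exact Or.inr (Or.inr (Or.inr (Or.inr (Or.inr (Or.inl ⟨h1, h2, h3, hn, h8⟩)))))
  rw [hs q hd h4 h5 i hi, std, if_neg (by rw [h1]; decide)]
  simp

theorem triv_of_flat {m : ℕ} {k : Bool} {T : Str} (h : T.OK m) {Γ : Type} [Group Γ] {Λ : P → Γ}
    {y : ℕ → Γ} (hF : Flat (disc k T) Λ)
    (hs : ∀ q ∈ disc k T, q 3 = 0 → q 4 = 0 → ∀ i, dirs q = {i} → Λ q = std y q) : Triv T y := by
  obtain ⟨ψ, hψ⟩ := pre73 h hF hs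
  exact ⟨_, hol73 h (pot73 hψ hs)⟩

theorem pot_of_flat {m : ℕ} {k : Bool} {T : Str} (h : T.OK m) {Γ : Type} [Group Γ] {Λ : P → Γ}
    (hF : Flat (disc k T) Λ)
    (hs : ∀ q ∈ disc k T, q 3 = 0 → q 4 = 0 → ∀ i, dirs q = {i} → Λ q = 1) :
    ∃ ψ : P → Γ, (∀ q ∈ disc k T, ∀ i, dirs q = {i} → Λ q = (ψ (q - e i))⁻¹ * ψ (q + e i)) ∧
      ∀ p ∈ disc k T, dirs p = ∅ → p 3 = 0 → p 4 = 0 → ψ p = 1 := by
  have hs1 : ∀ q ∈ disc k T, q 3 = 0 → q 4 = 0 → ∀ i, dirs q = {i} →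
      Λ q = std (fun _ => (1 : Γ)) q := by
    intro q hq h3 h4 i hi
    rw [hs q hq h3 h4 i hi, std]
    split_ifs <;> rfl
  obtain ⟨ψ, hψ⟩ := pre73 h hF hs1
  have hV := pot73 hψ hs1
  refine ⟨fun p => (ψ (M73 0 0 (2 * T.lo)))⁻¹ * ψ p, fun q hq i hi => ?_, fun p hp hd h3 h4 => ?_⟩
  · rw [hψ q hq i hi]
    group
  · have hpM : p = M73 (p 0) (p 1) (p 2) := by
      funext j
      fin_cases j
      · rfl
      · rfl
      · rfl
      · exact h3
      · exact h4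
    have hev : ∀ i, ¬ Odd (p i) := fun i hi => by
      have := md73.2 hi
      rw [hd] at this
      simp at this
    rw [hpM] at hp
    have h5 := all73 h hV (hev 0) (hev 1) (hev 2) (mem73.1 hp)
    show (ψ (M73 0 0 (2 * T.lo)))⁻¹ * ψ p = 1
    have h6 : ψ p = ψ (M73 0 0 (2 * T.lo)) := by
      rw [hpM]
      exact h5
    rw [h6, inv_mul_cancel]

end Pool.Agent.MKD
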