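import Pool.Agent.MK.Defs
import Pool.Agent.MK.Lab

/-! MKD/Geo (project MK, part D): the 2-dimensional complexes.

Coordinates of a cell: `c 0 = x`, `c 1 = y` (the ladder), `c 2 = z` (twice the level), `c 3 = v`,
`c 4 = u` (normal directions: the fixed relators use `u`, the moving word first `v` then `u`).
The ladder has the pages `s = 0, ..., m`; page `s` is the arc from `b = (0, 0)` along `y = 0` to
`(2 s, 0)`, up the rung `x = 2 s`, back along `y = 2` to `t = (0, 2)`.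
A strand runs upwards in the product of the ladder and the levels, on the line over `b` or over `t`,
and crosses at the level `j` over the page `s` if `cr j = s + 1` (no crossing if `cr j = 0`). It is
closed by the return line over `(rt, 0)`. `disc` is a disc bounded by this closed curve.
All facts (all complexes, all slabs below) were checked by computer for random data
(team-store mk_geo.tar; there the coordinates are in the order x, y, u, v, z). -/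

set_option autoImplicit false

namespace Pool.Agent.MKD

open Pool.Agent.MK

/-- A strand. -/
structure Str where
  /-- first level -/
  lo : ℤ
  /-- last level -/
  hi : ℤ
  /-- crossings -/
  cr : ℤ → ℕ
  /-- position on the interval `(j, j + 1)`: `false` is `b`, `true` is `t` -/
  pos : ℤ → Bool

structure Str.OK (m : ℕ) (T : Str) : Prop where
  lt : T.lo < T.hi
  le : ∀ j, T.cr j ≤ m + 1
  out : ∀ j, j ≤ T.lo ∨ T.hi ≤ j → T.cr j = 0
  pos_lo : T.pos T.lo = false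
  pos_hi : T.pos (T.hi - 1) = false
  iff : ∀ j, T.lo < j → j < T.hi → (T.cr j = 0 ↔ T.pos (j - 1) = T.pos j)

/-- The height `z` belongs to a closed interval `[2 j, 2 j + 2]` on which the strand is at `β`. -/
def Str.at_ (T : Str) (β : Bool) (z : ℤ) : Prop :=
  (T.lo ≤ z / 2 ∧ z / 2 < T.hi ∧ T.pos (z / 2) = β) ∨
    (z % 2 = 0 ∧ T.lo ≤ z / 2 - 1 ∧ z / 2 - 1 < T.hi ∧ T.pos (z / 2 - 1) = β)

/-- The strand crosses at the height `z` over the page `s`. -/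
def Str.cross (T : Str) (s : ℕ) (z : ℤ) : Prop := z % 2 = 0 ∧ T.cr (z / 2) = s + 1

/-- The ladder with the two extra edges to the return points `(-2, 0)`, `(-4, 0)`. -/
def lad (m : ℕ) (x y : ℤ) : Prop :=
  (y = 0 ∧ -4 ≤ x ∧ x ≤ 2 * m) ∨ (y = 2 ∧ 0 ≤ x ∧ x ≤ 2 * m) ∨ (y = 1 ∧ x % 2 = 0 ∧ 0 ≤ x ∧ x ≤ 2 * m)

/-- The page `s`. -/
def arc (s : ℕ) (x y : ℤ) : Prop :=
  (y = 0 ∧ 0 ≤ x ∧ x ≤ 2 * s) ∨ (x = 2 * s ∧ 0 ≤ y ∧ y ≤ 2) ∨ (y = 2 ∧ 0 ≤ x ∧ x ≤ 2 * s)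

/-- The rectangle between the pages `0` and `s`. -/
def rect (s : ℕ) (x y : ℤ) : Prop := 0 ≤ x ∧ x ≤ 2 * s ∧ 0 ≤ y ∧ y ≤ 2

/-- The normal path: `k = true` for the moving word. -/
def nuP (k : Bool) (u v : ℤ) : Prop :=
  (k = true ∧ ((u = 0 ∧ 0 ≤ v ∧ v ≤ 2) ∨ (v = 2 ∧ 0 ≤ u ∧ u ≤ 2))) ∨ (k = false ∧ v = 0 ∧ 0 ≤ u ∧ u ≤ 2)

/-- The end of the normal path. -/
def en (k : Bool) (u v : ℤ) : Prop := u = 2 ∧ v = (if k then 2 else 0)

/-- The return line. -/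
def rt (k : Bool) : ℤ := if k then -4 else -2

/-- The disc of a strand. -/
def disc (k : Bool) (T : Str) : Set P := {c |
  (c 0 = 0 ∧ c 1 = 0 ∧ nuP k (c 4) (c 3) ∧ T.at_ false (c 2)) ∨
  (c 0 = 0 ∧ c 1 = 2 ∧ nuP k (c 4) (c 3) ∧ T.at_ true (c 2)) ∨
  (en k (c 4) (c 3) ∧ c 1 = 0 ∧ rt k ≤ c 0 ∧ c 0 ≤ 0 ∧ 2 * T.lo ≤ c 2 ∧ c 2 ≤ 2 * T.hi) ∨
  (en k (c 4) (c 3) ∧ c 0 = 0 ∧ 0 ≤ c 1 ∧ c 1 ≤ 2 ∧ T.at_ true (c 2)) ∨
  (c 0 = rt k ∧ c 1 = 0 ∧ nuP k (c 4) (c 3) ∧ 2 * T.lo ≤ c 2 ∧ c 2 ≤ 2 * T.hi) ∨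
  (c 1 = 0 ∧ rt k ≤ c 0 ∧ c 0 ≤ 0 ∧ nuP k (c 4) (c 3) ∧ (c 2 = 2 * T.lo ∨ c 2 = 2 * T.hi)) ∨
  (∃ s, T.cross s (c 2) ∧ arc s (c 0) (c 1) ∧ nuP k (c 4) (c 3)) ∨
  (∃ s, T.cross s (c 2) ∧ rect s (c 0) (c 1) ∧ en k (c 4) (c 3))}

/-- The base: ladder times levels. -/
def Yp (m : ℕ) (lo hi : ℤ) : Set P :=
  {c | lad m (c 0) (c 1) ∧ c 4 = 0 ∧ c 3 = 0 ∧ 2 * lo ≤ c 2 ∧ c 2 ≤ 2 * hi}

/-- The complex with fixed relators `rs` and moving word `T`. -/
def XX (m : ℕ) (rs : List Str) (T : Str) : Set P :=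
  Yp m T.lo T.hi ∪ {c | ∃ r ∈ rs, c ∈ disc false r} ∪ disc true T

/-- Admissible data: the relators occupy disjoint level intervals inside the one of `T`, and the
level 0 is in the interval of `T`. -/
structure Adm (m : ℕ) (rs : List Str) (T : Str) : Prop where
  okT : T.OK m
  okr : ∀ r ∈ rs, r.OK m
  inT : ∀ r ∈ rs, T.lo ≤ r.lo ∧ r.hi ≤ T.hi
  disj : rs.Pairwise (fun r r' => r.hi < r'.lo)
  zero : T.lo ≤ 0 ∧ 0 ≤ T.hi

/-- Cells over `A` (which is in height 0) at the heights in `I`. -/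
def tw (A : Set P) (I : Set ℤ) : Set P := {c | Function.update c 2 0 ∈ A ∧ c 2 ∈ I}

/-- The disc `G_s` (page `s` times the normal path, and the rectangle at its end), in height 0. -/
def GG (s : ℕ) : Set P := {c | c 2 = 0 ∧
  ((arc s (c 0) (c 1) ∧ nuP true (c 4) (c 3)) ∨ (rect s (c 0) (c 1) ∧ c 4 = 2 ∧ c 3 = 2))}

/-- The part of the boundary of `GG s` present when the strand is at `β`. -/
def PP (β : Bool) (s : ℕ) : Set P := {c | c 2 = 0 ∧
  ((arc s (c 0) (c 1) ∧ c 4 = 0 ∧ c 3 = 0) ∨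
   (β = false ∧ c 0 = 0 ∧ c 1 = 0 ∧ nuP true (c 4) (c 3)) ∨
   (β = true ∧ c 0 = 0 ∧ c 1 = 2 ∧ nuP true (c 4) (c 3)) ∨
   (β = true ∧ c 0 = 0 ∧ 0 ≤ c 1 ∧ c 1 ≤ 2 ∧ c 4 = 2 ∧ c 3 = 2))}

/-! ## Slabs and collapses -/

/-- `R'` is obtained from `R` by removing a slab: a finite set of cells closed under the exchange of
an even coordinate `c l` and the odd coordinate `c l + ε` (`l`, `ε = ±1` fixed). -/
def SlabStep (R R' : Set P) : Prop :=
  Closed R ∧ Closed R' ∧ R' ⊆ R ∧ (R \ R').Finite ∧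
    ∃ (l : Fin 5) (ε : ℤ), (ε = 1 ∨ ε = -1) ∧
      ∀ c ∈ R \ R', (Even (c l) → c + ε • e l ∈ R \ R') ∧ (Odd (c l) → c - ε • e l ∈ R \ R')

/-- `R` collapses to `C` by slabs. -/
inductive Col : Set P → Set P → Prop
  | refl (R : Set P) : Col R R
  | step {R R' C : Set P} (h : SlabStep R R') (h' : Col R' C) : Col R C

theorem Col.trans {A B C : Set P} (h : Col A B) (h' : Col B C) : Col A C := by
  induction h with
  | refl => exact h'
  | step h _ ih => exact Col.step h (ih h')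

theorem Col.one {A B : Set P} (h : SlabStep A B) : Col A B := Col.step h (Col.refl B)

theorem closed_union {A B : Set P} (hA : Closed A) (hB : Closed B) : Closed (A ∪ B) := by
  rintro c (h | h) i hi
  · exact ⟨Or.inl (hA c h i hi).1, Or.inl (hA c h i hi).2⟩
  · exact ⟨Or.inr (hB c h i hi).1, Or.inr (hB c h i hi).2⟩

end Pool.Agent.MKD
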