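import Pool.Agent.MKD.Geo

/-! MKD/Hol: the holonomy of a strand (definitions). -/

set_option autoImplicit false

namespace Pool.Agent.MKD

open Pool.Agent.MK

/-- The factor of the crossing at the level `j`. -/
def stepV {Γ : Type} [Group Γ] (T : Str) (y : ℕ → Γ) (j : ℤ) : Γ :=
  match T.cr j with
  | 0 => 1
  | s + 1 => if T.pos (j - 1) then (y s)⁻¹ else y s

/-- `φ j` is the product of the crossings up to the level `j`, and the total product is 1. -/
structure HolOK {Γ : Type} [Group Γ] (T : Str) (y : ℕ → Γ) (φ : ℤ → Γ) : Prop where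
  lo : φ T.lo = 1
  hi : φ (T.hi - 1) = 1
  step : ∀ j, T.lo < j → j < T.hi → φ j = φ (j - 1) * stepV T y j

/-- The word of the strand is trivial for `y`. -/
def Triv {Γ : Type} [Group Γ] (T : Str) (y : ℕ → Γ) : Prop := ∃ φ, HolOK T y φ

/-- The labelling of the base: `y s` on the rung of the page `s`, and 1 elsewhere. -/
def std {Γ : Type} [Group Γ] (y : ℕ → Γ) (q : P) : Γ := if Odd (q 1) then y (q 0 / 2).toNat else 1

end Pool.Agent.MKD
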