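import Pool.Agent.MKD.Hol

/-! Module MKD/Lists: strands given by lists of crossings.

`ok_strOf`: hi = lo + W.length + 1. pos_hi: take W.length. iff: W.take (i + 1) = W.take i ++ [W.getD i 0] for
i = j - lo - 1 < W.length (`List.take_succ`), par changes iff the new entry is not 0.
`triv_strOf`: φ j = cval y false (W.take (j - lo).toNat); general fact: cval y β (A ++ [a]) = cval y β A * (factor of
a at the position β xor par A). Uniqueness of φ by induction on j (Int.le_induction), so Triv is equivalent
to cval y false W = 1. -/

set_option autoImplicit false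

namespace Pool.Agent.MKD

open Pool.Agent.MK

/-- The number of crossings is odd. -/
def par (W : List ℕ) : Bool := decide (W.countP (fun a => decide (a ≠ 0)) % 2 = 1)

/-- The strand with the crossings `W` at the levels `lo + 1, lo + 2, ...`. -/
def strOf (lo : ℤ) (W : List ℕ) : Str where
  lo := lo
  hi := lo + W.length + 1
  cr := fun j => if lo < j then W.getD (j - lo - 1).toNat 0 else 0
  pos := fun j => par (W.take (j - lo).toNat)

/-- Crossings over the pages `0, ..., m`, an even number of them. -/
def WOK (m : ℕ) (W : List ℕ) : Prop := (∀ a ∈ W, a ≤ m + 1) ∧ par W = false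

/-- Value of a list of crossings, starting at the position `β`. -/
def cval {Γ : Type} [Group Γ] (y : ℕ → Γ) : Bool → List ℕ → Γ
  | _, [] => 1
  | β, 0 :: W => cval y β W
  | false, (s + 1) :: W => y s * cval y true W
  | true, (s + 1) :: W => (y s)⁻¹ * cval y false W

/-- The strands of the relators, one above the other, beginning at the level `a`. -/
def rsOf : ℤ → List (List ℕ) → List Str
  | _, [] => []
  | a, ρ :: l => strOf a ρ :: rsOf (a + ρ.length + 2) l

/-- Number of levels used by the relators. -/
def lenR (rl : List (List ℕ)) : ℕ := (rl.map (fun ρ => ρ.length + 2)).sum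

theorem par_append (A B : List ℕ) : par (A ++ B) = (par A ^^ par B) := by
  unfold par
  rw [List.countP_append]
  generalize List.countP (fun a => decide (a ≠ 0)) A = a
  generalize List.countP (fun a => decide (a ≠ 0)) B = b
  rcases Nat.mod_two_eq_zero_or_one a with h1 | h1 <;>
    rcases Nat.mod_two_eq_zero_or_one b with h2 | h2 <;>
    simp [Nat.add_mod, h1, h2]

private theorem par_single85 (a : ℕ) : par [a] = decide (a ≠ 0) := by
  by_cases h : a = 0 <;> simp [par, h]

private theorem take_succ85 (W : List ℕ) {i : ℕ} (hi : i < W.length) :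
    W.take (i + 1) = W.take i ++ [W.getD i 0] := by
  rw [List.take_add_one, List.getD_eq_getElem?_getD]
  simp [hi]

theorem ok_strOf {m : ℕ} {W : List ℕ} (h : WOK m W) (lo : ℤ) : (strOf lo W).OK m := by
  refine ⟨?_, ?_, ?_, ?_, ?_, ?_⟩
  · show lo < lo + W.length + 1
    omega
  · intro j
    show (if lo < j then W.getD (j - lo - 1).toNat 0 else 0) ≤ m + 1
    split_ifs with h1
    · by_cases h2 : (j - lo - 1).toNat < W.length
      · rw [List.getD_eq_getElem _ _ h2]
        exact h.1 _ (List.getElem_mem h2)
      · rw [List.getD_eq_default _ _ (by omega)]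
        omega
    · omega
  · intro j hj
    show (if lo < j then W.getD (j - lo - 1).toNat 0 else 0) = 0
    split_ifs with h1
    · have h2 : W.length ≤ (j - lo - 1).toNat := by
        rcases hj with hj | hj
        · have : j ≤ lo := hj
          omega
        · have : lo + W.length + 1 ≤ j := hj
          omega
      exact List.getD_eq_default _ _ h2
    · rfl
  · show par (W.take (lo - lo).toNat) = false
    simp [par]
  · show par (W.take (lo + W.length + 1 - 1 - lo).toNat) = false
    have h1 : (lo + W.length + 1 - 1 - lo).toNat = W.length := by omega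
    rw [h1, List.take_length]
    exact h.2
  · intro j h1 h2
    replace h1 : lo < j := h1
    replace h2 : j < lo + W.length + 1 := h2
    show ((if lo < j then W.getD (j - lo - 1).toNat 0 else 0) = 0) ↔
      (par (W.take (j - 1 - lo).toNat) = par (W.take (j - lo).toNat))
    rw [if_pos h1]
    obtain ⟨i, hi⟩ : ∃ i : ℕ, j = lo + i + 1 := ⟨(j - lo - 1).toNat, by omega⟩
    have e1 : (j - lo - 1).toNat = i := by omega
    have e2 : (j - 1 - lo).toNat = i := by omega
    have e3 : (j - lo).toNat = i + 1 := by omega
    rw [e1, e2, e3, take_succ85 W (by omega), par_append, par_single85]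
    generalize W.getD i 0 = a
    cases par (W.take i) <;> by_cases ha : a = 0 <;> simp [ha]

private theorem cval_append85 {Γ : Type} [Group Γ] (y : ℕ → Γ) (A B : List ℕ) (β : Bool) :
    cval y β (A ++ B) = cval y β A * cval y (β ^^ par A) B := by
  induction A generalizing β with
  | nil => simp [cval, par]
  | cons a A ih =>
    have hp : par (a :: A) = (decide (a ≠ 0) ^^ par A) := by
      have := par_append [a] A
      rw [par_single85] at this
      exact this
    rw [List.cons_append, hp]
    rcases a with _ | s
    · cases β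
      · show cval y false (A ++ B) = cval y false A * _
        rw [ih]
        simp
      · show cval y true (A ++ B) = cval y true A * _
        rw [ih]
        simp
    · cases β
      · show y s * cval y true (A ++ B) = y s * cval y true A * _
        rw [ih]
        simp [mul_assoc]
      · show (y s)⁻¹ * cval y false (A ++ B) = (y s)⁻¹ * cval y false A * _
        rw [ih]
        simp [mul_assoc]

private theorem step85 {Γ : Type} [Group Γ] (y : ℕ → Γ) (W : List ℕ) (lo : ℤ) (i : ℕ)
    (hi : i < W.length) :
    cval y false (W.take (i + 1)) = cval y false (W.take i) * stepV (strOf lo W) y (lo + i + 1) := by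
  rw [take_succ85 W hi, cval_append85]
  congr 1
  unfold stepV
  have h1 : (strOf lo W).cr (lo + i + 1) = W.getD i 0 := by
    show (if lo < lo + i + 1 then W.getD (lo + i + 1 - lo - 1).toNat 0 else 0) = _
    rw [if_pos (by omega)]
    congr 1
    omega
  have h2 : (strOf lo W).pos (lo + i + 1 - 1) = par (W.take i) := by
    show par (W.take (lo + i + 1 - 1 - lo).toNat) = _
    congr 2
    omega
  rw [h1, h2, Bool.false_xor]
  generalize W.getD i 0 = a
  rcases a with _ | s
  · cases par (W.take i) <;> rfl
  · cases par (W.take i)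
    · show y s * 1 = y s
      rw [mul_one]
    · show (y s)⁻¹ * 1 = (y s)⁻¹
      rw [mul_one]

theorem triv_strOf {m : ℕ} {W : List ℕ} (h : WOK m W) (lo : ℤ) {Γ : Type} [Group Γ] (y : ℕ → Γ) :
    Triv (strOf lo W) y ↔ cval y false W = 1 := by
  constructor
  · rintro ⟨φ, hφ⟩
    have key : ∀ n : ℕ, n ≤ W.length → φ (lo + n) = cval y false (W.take n) := by
      intro n
      induction n with
      | zero =>
        intro _
        have h2 : φ lo = 1 := hφ.lo
        simpa [cval] using h2
      | succ n ih =>
        intro hn
        have h1 := hφ.step (lo + n + 1) (by show lo < lo + n + 1; omega)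
          (by show lo + n + 1 < lo + W.length + 1; omega)
        rw [add_sub_cancel_right, ih (by omega), ← step85 y W lo n (by omega)] at h1
        rw [← h1]
        congr 1
        push_cast
        ring
    have h1 := key W.length le_rfl
    rw [List.take_length] at h1
    rw [← h1]
    have h2 := hφ.hi
    have h3 : (strOf lo W).hi - 1 = lo + W.length := by
      show lo + W.length + 1 - 1 = _
      ring
    rw [h3] at h2
    exact h2
  · intro h1
    refine ⟨fun j => cval y false (W.take (j - lo).toNat), ?_, ?_, ?_⟩
    · show cval y false (W.take (lo - lo).toNat) = 1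
      simp [cval]
    · show cval y false (W.take (lo + W.length + 1 - 1 - lo).toNat) = 1
      have h2 : (lo + W.length + 1 - 1 - lo).toNat = W.length := by omega
      rw [h2, List.take_length]
      exact h1
    · intro j hj1 hj2
      replace hj1 : lo < j := hj1
      replace hj2 : j < lo + W.length + 1 := hj2
      obtain ⟨i, rfl⟩ : ∃ i : ℕ, j = lo + i + 1 := ⟨(j - lo - 1).toNat, by omega⟩
      have e2 : (lo + i + 1 - 1 - lo).toNat = i := by omega
      have e3 : (lo + i + 1 - lo).toNat = i + 1 := by omega
      show cval y false (W.take (lo + i + 1 - lo).toNat) =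
        cval y false (W.take (lo + i + 1 - 1 - lo).toNat) * _
      rw [e2, e3]
      exact step85 y W lo i (by omega)

theorem mem_rsOf {a : ℤ} {rl : List (List ℕ)} {r : Str} :
    r ∈ rsOf a rl ↔ ∃ l₁ ρ l₂, rl = l₁ ++ ρ :: l₂ ∧ r = strOf (a + lenR l₁) ρ := by
  induction rl generalizing a with
  | nil => simp [rsOf]
  | cons ρ l ih =>
    rw [rsOf, List.mem_cons, ih]
    constructor
    · rintro (h | ⟨l₁, ρ', l₂, h1, h2⟩)
      · exact ⟨[], ρ, l, rfl, by simpa [lenR] using h⟩
      · refine ⟨ρ :: l₁, ρ', l₂, by rw [h1, List.cons_append], ?_⟩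
        rw [h2]
        congr 1
        simp only [lenR, List.map_cons, List.sum_cons]
        push_cast
        ring
    · rintro ⟨l₁, ρ', l₂, h1, h2⟩
      rcases l₁ with _ | ⟨ρ₁, l₁⟩
      · left
        rw [List.nil_append, List.cons_eq_cons] at h1
        rw [h2, h1.1]
        simp [lenR]
      · right
        rw [List.cons_append, List.cons_eq_cons] at h1
        refine ⟨l₁, ρ', l₂, h1.2, ?_⟩
        rw [h2, h1.1]
        congr 1
        simp only [lenR, List.map_cons, List.sum_cons]
        push_cast
        ring

theorem pairwise_rsOf (a : ℤ) (rl : List (List ℕ)) :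
    (rsOf a rl).Pairwise (fun r r' => r.hi < r'.lo) := by
  induction rl generalizing a with
  | nil => exact List.Pairwise.nil
  | cons ρ l ih =>
    rw [rsOf, List.pairwise_cons]
    refine ⟨?_, ih _⟩
    intro r' hr'
    obtain ⟨l₁, ρ', l₂, h1, rfl⟩ := mem_rsOf.1 hr'
    show a + ρ.length + 1 < a + ρ.length + 2 + lenR l₁
    omega

/-- `lo ≤ 0` and the levels `1, ..., lenR rl` are at most the last level. -/
def Fits (rl : List (List ℕ)) (lo : ℤ) (n : ℕ) : Prop := lo ≤ 0 ∧ (lenR rl : ℤ) ≤ lo + n + 1

theorem adm_strOf {m : ℕ} {rl : List (List ℕ)} (hr : ∀ ρ ∈ rl, WOK m ρ) {lo : ℤ} {W : List ℕ}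
    (h : WOK m W) (hf : Fits rl lo W.length) : Adm m (rsOf 1 rl) (strOf lo W) := by
  obtain ⟨hf1, hf2⟩ := hf
  refine ⟨ok_strOf h lo, ?_, ?_, pairwise_rsOf 1 rl, hf1, ?_⟩
  · intro r hr'
    obtain ⟨l₁, ρ, l₂, h1, rfl⟩ := mem_rsOf.1 hr'
    exact ok_strOf (hr ρ (by rw [h1]; simp)) _
  · intro r hr'
    obtain ⟨l₁, ρ, l₂, h1, rfl⟩ := mem_rsOf.1 hr'
    have h2 : lenR rl = lenR l₁ + (ρ.length + 2) + lenR l₂ := by
      rw [h1]
      simp only [lenR, List.map_append, List.map_cons, List.sum_append, List.sum_cons]
      ring
    constructor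
    · show lo ≤ 1 + lenR l₁
      omega
    · show 1 + lenR l₁ + ρ.length + 1 ≤ lo + W.length + 1
      omega
  · show 0 ≤ lo + W.length + 1
    omega

end Pool.Agent.MKD
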