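import Pool.Agent.MKD.C3Defs
import Pool.Agent.MKD.GeoCpx

/-! Module MKD/ShapeC3: the collapses of the regions R1, and R2 to CA.

R1 → C0: one slab {x ∈ {-2, -1}, (u, v) inner}: l = 0, ε = 1. R1 → C1: one slab
{x ∈ {-1, 0}, (u, v) inner, 2 r.lo < z < 2 r.hi}: l = 0, ε = -1.
R2 → CA, three slabs (in this order):
 1. v ∈ {1, 2}, not kap, not (y = 0, x ∈ {-1, 0}, u = 2, 2 r.lo < z < 2 r.hi): l = 3, ε = -1 (v: 2 ↔ 1);
 2. v = 1, y = 0, x ∈ {-1, 0}, u = 2, 2 r.lo < z < 2 r.hi: l = 0, ε = -1 (x: 0 ↔ -1);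
 3. v = 1, kap, u ∈ {1, 2}: l = 4, ε = -1 (u: 2 ↔ 1).
(z = c 2, v = c 3, u = c 4.) The remaining sets are closed (closed_disc for the v = 0 part: a face of a cell of
R2 in the directions ≠ 3 is again over a face of the cell of the disc). -/

set_option autoImplicit false

namespace Pool.Agent.MKD

open Pool.Agent.MK

/-! ### Coordinates -/

theorem add_e43 (c : P) (i : Fin 5) : c + e i = Function.update c i (c i + 1) := by
  funext j
  by_cases hj : j = i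
  · subst hj; simp [e]
  · simp [e, hj]

theorem sub_e43 (c : P) (i : Fin 5) : c - e i = Function.update c i (c i - 1) := by
  funext j
  by_cases hj : j = i
  · subst hj; simp [e]
  · simp [e, hj]

/-- A set of cells given by a predicate on the coordinates. -/
def Sc43 (φ : ℤ → ℤ → ℤ → ℤ → ℤ → Prop) : Set P := {c | φ (c 0) (c 1) (c 2) (c 3) (c 4)}

theorem closed_Sc43 {φ : ℤ → ℤ → ℤ → ℤ → ℤ → Prop}
    (h0 : ∀ x y z v u, φ x y z v u → x % 2 = 1 → φ (x + 1) y z v u ∧ φ (x - 1) y z v u)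
    (h1 : ∀ x y z v u, φ x y z v u → y % 2 = 1 → φ x (y + 1) z v u ∧ φ x (y - 1) z v u)
    (h2 : ∀ x y z v u, φ x y z v u → z % 2 = 1 → φ x y (z + 1) v u ∧ φ x y (z - 1) v u)
    (h3 : ∀ x y z v u, φ x y z v u → v % 2 = 1 → φ x y z (v + 1) u ∧ φ x y z (v - 1) u)
    (h4 : ∀ x y z v u, φ x y z v u → u % 2 = 1 → φ x y z v (u + 1) ∧ φ x y z v (u - 1)) :
    Closed (Sc43 φ) := by
  intro c hc i hi
  have hc' : φ (c 0) (c 1) (c 2) (c 3) (c 4) := hc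
  rw [add_e43, sub_e43]
  rw [Int.odd_iff] at hi
  fin_cases i
  · have h := h0 _ _ _ _ _ hc' hi
    exact ⟨by simpa [Sc43] using h.1, by simpa [Sc43] using h.2⟩
  · have h := h1 _ _ _ _ _ hc' hi
    exact ⟨by simpa [Sc43] using h.1, by simpa [Sc43] using h.2⟩
  · have h := h2 _ _ _ _ _ hc' hi
    exact ⟨by simpa [Sc43] using h.1, by simpa [Sc43] using h.2⟩
  · have h := h3 _ _ _ _ _ hc' hi
    exact ⟨by simpa [Sc43] using h.1, by simpa [Sc43] using h.2⟩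
  · have h := h4 _ _ _ _ _ hc' hi
    exact ⟨by simpa [Sc43] using h.1, by simpa [Sc43] using h.2⟩

/-- Toggle in direction `l`, both signs in terms of `Function.update`. -/
theorem slab43 {R R' : Set P} (hR : Closed R) (hR' : Closed R') (hs : R' ⊆ R)
    (hf : (R \ R').Finite) (l : Fin 5) (ε : ℤ) (hε : ε = 1 ∨ ε = -1)
    (h : ∀ c ∈ R \ R', (c l % 2 = 0 → Function.update c l (c l + ε) ∈ R \ R') ∧
      (c l % 2 = 1 → Function.update c l (c l - ε) ∈ R \ R')) : SlabStep R R' := by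
  refine ⟨hR, hR', hs, hf, l, ε, hε, ?_⟩
  intro c hc
  have h1 := h c hc
  have e1 : c + ε • e l = Function.update c l (c l + ε) := by
    rcases hε with rfl | rfl
    · rw [one_smul, add_e43]
    · rw [neg_smul, one_smul, ← sub_eq_add_neg, sub_e43]; rfl
  have e2 : c - ε • e l = Function.update c l (c l - ε) := by
    rcases hε with rfl | rfl
    · rw [one_smul, sub_e43]
    · rw [neg_smul, one_smul, sub_neg_eq_add, add_e43]
      congr 1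
  rw [e1, e2]
  exact ⟨fun h2 => h1.1 (Int.even_iff.1 h2), fun h2 => h1.2 (Int.odd_iff.1 h2)⟩

/-! ### The first region -/

theorem closed_R1 (r : Str) : Closed (R1 r) := by
  refine closed_Sc43 (φ := fun x y z v u => y = 0 ∧ -2 ≤ x ∧ x ≤ 0 ∧ nuP true u v ∧
    2 * r.lo ≤ z ∧ z ≤ 2 * r.hi) ?_ ?_ ?_ ?_ ?_ <;>
  · intro x y z v u
    simp only [nuP, true_and, reduceCtorEq, false_and, or_false]
    omega

theorem closed_C0 (r : Str) : Closed (C0 r) := by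
  refine closed_Sc43 (φ := fun x y z v u => (y = 0 ∧ -2 ≤ x ∧ x ≤ 0 ∧ nuP true u v ∧
    2 * r.lo ≤ z ∧ z ≤ 2 * r.hi) ∧ (¬ inn u v ∨ x = 0)) ?_ ?_ ?_ ?_ ?_ <;>
  · intro x y z v u
    simp only [nuP, inn, true_and, reduceCtorEq, false_and, or_false]
    omega

theorem closed_C1 (r : Str) : Closed (C1 r) := by
  refine closed_Sc43 (φ := fun x y z v u => (y = 0 ∧ -2 ≤ x ∧ x ≤ 0 ∧ nuP true u v ∧
    2 * r.lo ≤ z ∧ z ≤ 2 * r.hi) ∧ (¬ inn u v ∨ x = -2 ∨ z = 2 * r.lo ∨ z = 2 * r.hi))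
    ?_ ?_ ?_ ?_ ?_ <;>
  · intro x y z v u
    simp only [nuP, inn, true_and, reduceCtorEq, false_and, or_false]
    omega

theorem finite_R1 (r : Str) : (R1 r).Finite := by
  refine (Set.finite_Icc (![-2, 0, 2 * r.lo, 0, 0] : P) (![0, 0, 2 * r.hi, 2, 2] : P)).subset ?_
  intro c hc
  obtain ⟨h1, h2, h3, h4, h5, h6⟩ := hc
  simp only [nuP, true_and, reduceCtorEq, false_and, or_false] at h4
  rw [Set.mem_Icc]
  constructor
  · intro i
    fin_cases i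
    · simpa using h2
    · simpa using h1.ge
    · simpa using h5
    · show (0 : ℤ) ≤ c 3
      omega
    · show (0 : ℤ) ≤ c 4
      omega
  · intro i
    fin_cases i
    · simpa using h3
    · simpa using h1.le
    · simpa using h6
    · show c 3 ≤ (2 : ℤ)
      omega
    · show c 4 ≤ (2 : ℤ)
      omega

theorem col_R1_C0 (r : Str) : Col (R1 r) (C0 r) := by
  refine Col.one (slab43 (closed_R1 r) (closed_C0 r) (fun c hc => hc.1)
    ((finite_R1 r).subset Set.sdiff_subset) 0 1 (Or.inl rfl) ?_)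
  intro c hc
  simp only [C0, R1, nuP, inn, Set.mem_sdiff, Set.mem_ofPred_eq, true_and, reduceCtorEq, false_and,
    or_false] at hc ⊢
  simp
  omega

theorem col_R1_C1 (r : Str) : Col (R1 r) (C1 r) := by
  refine Col.one (slab43 (closed_R1 r) (closed_C1 r) (fun c hc => hc.1)
    ((finite_R1 r).subset Set.sdiff_subset) 0 (-1) (Or.inr rfl) ?_)
  intro c hc
  simp only [C1, R1, nuP, inn, Set.mem_sdiff, Set.mem_ofPred_eq, true_and, reduceCtorEq, false_and,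
    or_false] at hc ⊢
  simp
  omega

/-! ### The second region -/

theorem closed_inter43 {A B : Set P} (hA : Closed A) (hB : Closed B) : Closed (A ∩ B) := by
  intro c hc i hi
  exact ⟨⟨(hA c hc.1 i hi).1, (hB c hc.2 i hi).1⟩, ⟨(hA c hc.1 i hi).2, (hB c hc.2 i hi).2⟩⟩

theorem closed_R2 (m : ℕ) (r : Str) (h : r.OK m) : Closed (R2 r) := by
  intro c hc i hi
  obtain ⟨h1, h2, h3⟩ := hc
  rw [add_e43, sub_e43]
  by_cases h4 : i = 3
  · subst h4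
    rw [Int.odd_iff] at hi
    have h5 : c 3 = 1 := by omega
    rw [h5]
    refine ⟨⟨?_, ?_, ?_⟩, ⟨?_, ?_, ?_⟩⟩
    · rw [Function.update_idem]; exact h1
    · simp
    · simp
    · rw [Function.update_idem]; exact h1
    · simp
    · simp
  · have h5 : (Function.update c 3 0) i = c i := by simp [h4]
    have h6 := closed_disc m false r h _ h1 i (by rw [h5]; exact hi)
    rw [add_e43, sub_e43, h5] at h6
    have h7 : (3 : Fin 5) ≠ i := fun h' => h4 h'.symm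
    refine ⟨⟨?_, ?_, ?_⟩, ⟨?_, ?_, ?_⟩⟩
    · rw [Function.update_comm h4]; exact h6.1
    · simpa [h7] using h2
    · simpa [h7] using h3
    · rw [Function.update_comm h4]; exact h6.2
    · simpa [h7] using h2
    · simpa [h7] using h3

theorem finite_R2 (m : ℕ) (r : Str) (h : r.OK m) : (R2 r).Finite := by
  refine (((finite_disc m false r h).prod (Set.finite_Icc (0 : ℤ) 2)).image
    (fun p : P × ℤ => Function.update p.1 3 p.2)).subset ?_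
  rintro c ⟨h1, h2, h3⟩
  refine ⟨(Function.update c 3 0, c 3), ⟨h1, h2, h3⟩, ?_⟩
  simp

theorem bounds_R2_43 {m : ℕ} {r : Str} (h : r.OK m) {c : P} (hc : c ∈ R2 r) :
    2 * r.lo ≤ c 2 ∧ c 2 ≤ 2 * r.hi ∧ 0 ≤ c 4 ∧ c 4 ≤ 2 ∧ 0 ≤ c 3 ∧ c 3 ≤ 2 := by
  obtain ⟨h1, h2, h3⟩ := hc
  have ho := h.out (c 2 / 2)
  have hl := h.lt
  simp only [disc, nuP, en, Str.at_, Str.cross, rt, Set.mem_ofPred_eq] at h1
  simp at h1
  rcases h1 with h1 | h1 | h1 | h1 | h1 | h1 | ⟨s, h1⟩ | ⟨s, h1⟩ <;> omega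

theorem flap_mem_R2_43 {r : Str} {c : P} (h1 : c 1 = 0) (h2 : -2 ≤ c 0) (h3 : c 0 ≤ 0)
    (h4 : c 4 = 2) (h5 : 2 * r.lo ≤ c 2) (h6 : c 2 ≤ 2 * r.hi) (h7 : 0 ≤ c 3) (h8 : c 3 ≤ 2) :
    c ∈ R2 r := by
  refine ⟨?_, h7, h8⟩
  refine Or.inr (Or.inr (Or.inl ?_))
  simp [en, rt]
  omega

theorem kap_mem_R2_43 {r : Str} {c : P} (h1 : kap r c) (h4 : 0 ≤ c 4 ∧ c 4 ≤ 2)
    (h5 : 2 * r.lo ≤ c 2) (h6 : c 2 ≤ 2 * r.hi) (h7 : 0 ≤ c 3) (h8 : c 3 ≤ 2) :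
    c ∈ R2 r := by
  refine ⟨?_, h7, h8⟩
  obtain ⟨a1, a2, a3, a4⟩ := h1
  rcases a4 with a4 | a4
  · refine Or.inr (Or.inr (Or.inr (Or.inr (Or.inl ?_))))
    simp [nuP, rt]
    omega
  · refine Or.inr (Or.inr (Or.inr (Or.inr (Or.inr (Or.inl ?_)))))
    simp [nuP, rt]
    omega

/-- The interior of the flap (without the return line), for the height strictly inside. -/
def phi0_43 (r : Str) (x y z u : ℤ) : Prop :=
  y = 0 ∧ -1 ≤ x ∧ x ≤ 0 ∧ u = 2 ∧ 2 * r.lo < z ∧ z < 2 * r.hi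

def kapc43 (r : Str) (x y z : ℤ) : Prop :=
  y = 0 ∧ -2 ≤ x ∧ x ≤ 0 ∧ (x = -2 ∨ z = 2 * r.lo ∨ z = 2 * r.hi)

def A1_43 (r : Str) : Set P := R2 r ∩ Sc43 (fun x y z v u => v = 0 ∨ kapc43 r x y z ∨ phi0_43 r x y z u)

def A2_43 (r : Str) : Set P :=
  R2 r ∩ Sc43 (fun x y z v u => v = 0 ∨ kapc43 r x y z ∨ (v = 2 ∧ phi0_43 r x y z u))

theorem closed_A1_43 (m : ℕ) (r : Str) (h : r.OK m) : Closed (A1_43 r) := by
  refine closed_inter43 (closed_R2 m r h) (closed_Sc43 ?_ ?_ ?_ ?_ ?_) <;>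
  · intro x y z v u
    simp only [kapc43, phi0_43]
    omega

theorem closed_A2_43 (m : ℕ) (r : Str) (h : r.OK m) : Closed (A2_43 r) := by
  refine closed_inter43 (closed_R2 m r h) (closed_Sc43 ?_ ?_ ?_ ?_ ?_) <;>
  · intro x y z v u
    simp only [kapc43, phi0_43]
    omega

theorem kapc_x43 {r : Str} {x y z : ℤ} (h : kapc43 r x y z) (hx : x % 2 = 1) :
    kapc43 r (x + 1) y z ∧ kapc43 r (x - 1) y z := by
  obtain ⟨h1, h2, h3, h4⟩ := h
  have h5 : x = -1 := by omega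
  subst h5
  exact ⟨⟨h1, by norm_num, by norm_num, by omega⟩, ⟨h1, by norm_num, by norm_num, by omega⟩⟩

theorem kapc_z43 {r : Str} {x y z : ℤ} (h : kapc43 r x y z) (hz : z % 2 = 1) :
    kapc43 r x y (z + 1) ∧ kapc43 r x y (z - 1) := by
  obtain ⟨h1, h2, h3, h4⟩ := h
  have h5 : x = -2 := by omega
  exact ⟨⟨h1, h2, h3, Or.inl h5⟩, ⟨h1, h2, h3, Or.inl h5⟩⟩

theorem closed_CA (m : ℕ) (r : Str) (h : r.OK m) : Closed (CA r) := by
  refine closed_inter43 (closed_R2 m r h) (closed_Sc43 (φ := fun x y z v u =>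
    (v = 0 ∨ (v = 1 ∧ u = 0 ∧ kapc43 r x y z) ∨
    (v = 2 ∧ (kapc43 r x y z ∨ (y = 0 ∧ -2 ≤ x ∧ x ≤ 0 ∧ u = 2))))) ?_ ?_ ?_ ?_ ?_)
  · rintro x y z v u (h1 | ⟨h1, h2, h3⟩ | ⟨h1, h2 | h2⟩) ho
    · exact ⟨Or.inl h1, Or.inl h1⟩
    · have h4 := kapc_x43 h3 ho
      exact ⟨Or.inr (Or.inl ⟨h1, h2, h4.1⟩), Or.inr (Or.inl ⟨h1, h2, h4.2⟩)⟩
    · have h4 := kapc_x43 h2 ho
      exact ⟨Or.inr (Or.inr ⟨h1, Or.inl h4.1⟩), Or.inr (Or.inr ⟨h1, Or.inl h4.2⟩)⟩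
    · exact ⟨Or.inr (Or.inr ⟨h1, Or.inr (by omega)⟩), Or.inr (Or.inr ⟨h1, Or.inr (by omega)⟩)⟩
  · rintro x y z v u (h1 | ⟨h1, h2, h3⟩ | ⟨h1, h2 | h2⟩) ho
    · exact ⟨Or.inl h1, Or.inl h1⟩
    · exact absurd h3.1 (by omega)
    · exact absurd h2.1 (by omega)
    · exact absurd h2.1 (by omega)
  · rintro x y z v u (h1 | ⟨h1, h2, h3⟩ | ⟨h1, h2 | h2⟩) ho
    · exact ⟨Or.inl h1, Or.inl h1⟩
    · have h4 := kapc_z43 h3 ho
      exact ⟨Or.inr (Or.inl ⟨h1, h2, h4.1⟩), Or.inr (Or.inl ⟨h1, h2, h4.2⟩)⟩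
    · have h4 := kapc_z43 h2 ho
      exact ⟨Or.inr (Or.inr ⟨h1, Or.inl h4.1⟩), Or.inr (Or.inr ⟨h1, Or.inl h4.2⟩)⟩
    · exact ⟨Or.inr (Or.inr ⟨h1, Or.inr h2⟩), Or.inr (Or.inr ⟨h1, Or.inr h2⟩)⟩
  · rintro x y z v u (h1 | ⟨h1, h2, h3⟩ | ⟨h1, h2⟩) ho
    · omega
    · subst h1
      exact ⟨Or.inr (Or.inr ⟨by norm_num, Or.inl h3⟩), Or.inl (by norm_num)⟩
    · omega
  · rintro x y z v u (h1 | ⟨h1, h2, h3⟩ | ⟨h1, h2 | h2⟩) ho
    · exact ⟨Or.inl h1, Or.inl h1⟩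
    · omega
    · exact ⟨Or.inr (Or.inr ⟨h1, Or.inl h2⟩), Or.inr (Or.inr ⟨h1, Or.inl h2⟩)⟩
    · omega

theorem slab1_43 (m : ℕ) (r : Str) (h : r.OK m) : SlabStep (R2 r) (A1_43 r) := by
  refine slab43 (closed_R2 m r h) (closed_A1_43 m r h) Set.inter_subset_left
    ((finite_R2 m r h).subset Set.sdiff_subset) 3 (-1) (Or.inr rfl) ?_
  rintro c ⟨hc, hc'⟩
  have hb := bounds_R2_43 h hc
  have h1 : ¬ (c 3 = 0 ∨ kapc43 r (c 0) (c 1) (c 2) ∨ phi0_43 r (c 0) (c 1) (c 2) (c 4)) :=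
    fun h' => hc' ⟨hc, h'⟩
  constructor
  · intro h2
    refine ⟨⟨?_, ?_, ?_⟩, ?_⟩
    · rw [Function.update_idem]; exact hc.1
    · simp; omega
    · simp; omega
    · rintro ⟨-, h3⟩
      simp only [Sc43, Set.mem_ofPred_eq] at h3
      simp [kapc43, phi0_43] at h3 h1
      omega
  · intro h2
    refine ⟨⟨?_, ?_, ?_⟩, ?_⟩
    · rw [Function.update_idem]; exact hc.1
    · simp; omega
    · simp; omega
    · rintro ⟨-, h3⟩
      simp only [Sc43, Set.mem_ofPred_eq] at h3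
      simp [kapc43, phi0_43] at h3 h1
      omega

theorem slab2_43 (m : ℕ) (r : Str) (h : r.OK m) : SlabStep (A1_43 r) (A2_43 r) := by
  refine slab43 (closed_A1_43 m r h) (closed_A2_43 m r h) ?_
    ((finite_R2 m r h).subset (Set.sdiff_subset.trans Set.inter_subset_left)) 0 (-1)
    (Or.inr rfl) ?_
  · rintro c ⟨hc, h1⟩
    refine ⟨hc, ?_⟩
    simp only [Sc43, Set.mem_ofPred_eq] at h1 ⊢
    tauto
  rintro c ⟨⟨hc, h1⟩, hc'⟩
  have hb := bounds_R2_43 h hc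
  have h2 : ¬ (c 3 = 0 ∨ kapc43 r (c 0) (c 1) (c 2) ∨
      (c 3 = 2 ∧ phi0_43 r (c 0) (c 1) (c 2) (c 4))) := fun h' => hc' ⟨hc, h'⟩
  simp only [Sc43, Set.mem_ofPred_eq] at h1
  simp only [kapc43, phi0_43] at h1 h2
  have key : ∀ a : ℤ, (a = -1 ∨ a = 0) → Function.update c 0 a ∈ A1_43 r \ A2_43 r := by
    intro a ha
    refine ⟨⟨?_, ?_⟩, ?_⟩
    · apply flap_mem_R2_43 <;> simp <;> omega
    · simp [Sc43, kapc43, phi0_43]
      omega
    · rintro ⟨-, h3⟩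
      simp [Sc43, kapc43, phi0_43] at h3
      omega
  constructor
  · intro h3
    exact key _ (by omega)
  · intro h3
    exact key _ (by omega)

theorem slab3_43 (m : ℕ) (r : Str) (h : r.OK m) : SlabStep (A2_43 r) (CA r) := by
  refine slab43 (closed_A2_43 m r h) (closed_CA m r h) ?_
    ((finite_R2 m r h).subset (Set.sdiff_subset.trans Set.inter_subset_left)) 4 (-1)
    (Or.inr rfl) ?_
  · rintro c ⟨hc, h1⟩
    have hb := bounds_R2_43 h hc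
    refine ⟨hc, ?_⟩
    show c 3 = 0 ∨ kapc43 r (c 0) (c 1) (c 2) ∨ (c 3 = 2 ∧ phi0_43 r (c 0) (c 1) (c 2) (c 4))
    rcases h1 with h1 | ⟨h1, h2, h3⟩ | ⟨h1, h2 | h2⟩
    · exact Or.inl h1
    · exact Or.inr (Or.inl h3)
    · exact Or.inr (Or.inl h2)
    · simp only [flap] at h2
      simp only [kapc43, phi0_43]
      omega
  rintro c ⟨⟨hc, h1⟩, hc'⟩
  have hb := bounds_R2_43 h hc
  have h2 : ¬ (c 3 = 0 ∨ (c 3 = 1 ∧ c 4 = 0 ∧ kap r c) ∨ (c 3 = 2 ∧ (kap r c ∨ flap c))) :=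
    fun h' => hc' ⟨hc, h'⟩
  have hv : c 3 = 1 ∧ kap r c ∧ c 4 ≠ 0 := by
    rcases h1 with h1 | h1 | ⟨h1, h3⟩
    · exact absurd (Or.inl h1) h2
    · have h3 : c 3 = 1 := by
        by_contra h4
        rcases (by omega : c 3 = 0 ∨ c 3 = 2) with h5 | h5
        · exact h2 (Or.inl h5)
        · exact h2 (Or.inr (Or.inr ⟨h5, Or.inl h1⟩))
      exact ⟨h3, h1, fun h4 => h2 (Or.inr (Or.inl ⟨h3, h4, h1⟩))⟩
    · obtain ⟨a1, a2, a3, a4, -, -⟩ := h3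
      exact absurd (Or.inr (Or.inr ⟨h1, Or.inr ⟨a1, by omega, a3, a4⟩⟩)) h2
  obtain ⟨v1, v2, v3⟩ := hv
  have key : ∀ a : ℤ, (a = 1 ∨ a = 2) → Function.update c 4 a ∈ A2_43 r \ CA r := by
    intro a ha
    have hk : kap r (Function.update c 4 a) := by simpa [kap] using v2
    refine ⟨⟨?_, ?_⟩, ?_⟩
    · apply kap_mem_R2_43 hk <;> simp <;> omega
    · exact Or.inr (Or.inl hk)
    · rintro ⟨-, h3 | h3 | h3⟩
      · simp at h3; omega
      · have := h3.2.1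
        simp at this
        omega
      · have := h3.1
        simp at this
        omega
  constructor
  · intro h3
    exact key _ (by omega)
  · intro h3
    exact key _ (by omega)

theorem col_R2_CA (m : ℕ) (r : Str) (h : r.OK m) : Col (R2 r) (CA r) :=
  Col.step (slab1_43 m r h) (Col.step (slab2_43 m r h) (Col.one (slab3_43 m r h)))

end Pool.Agent.MKD
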