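import Pool.Agent.MKD.ShapeC3

/-! Module MKD/ShapeC3b: the region R2 collapses to CB, by five slabs (in this order):
 1. v ∈ {1, 2}, kap', u ∈ {0, 1}: l = 4, ε = 1 (u: 0 ↔ 1);
 2. v = 1, u = 2, x ∈ {-2, -1} (then y = 0): l = 0, ε = 1 (x: -2 ↔ -1);
 3. v = 1, u = 2, x = 0, y ∈ {0, 1}, not r.at_ false z (so z is strictly inside a t-part of the strand,
    there is no crossing at z): l = 1, ε = 1 (y: 0 ↔ 1);
 4. v = 1, u = 2, y = 1, r.cross s z and x < 2 s for some s: l = 0, ε = 1 (x even ↔ x + 1);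
 5. the remaining cells of R2 outside CB: v = 1, u ∈ {1, 2} over the strand (x, y) of r: l = 4, ε = -1 (u: 2 ↔ 1).
(z = c 2, v = c 3, u = c 4.) What remains after 4: at v = 1 the cells over the strand: (0, 0) where at_ false z,
(0, 2) where at_ true z, and arc s where cross s z, with 0 ≤ u ≤ 2; in particular after step 4 a cell with
v = 1, u = 2 is over the strand: the rectangle minus the arc has y = 1, x < 2 s; for s = 0 the rectangle is the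
arc. After step 3 the cells (0, 0, u = 2) at heights with at_ false are strand cells. The data were checked
by computer. -/

set_option autoImplicit false

namespace Pool.Agent.MKD

open Pool.Agent.MK

/-- Facts on the height `z`: `A`, `B` tell whether the strand is at `b`, at `t`; `W` is the page of the
crossing, or `-1`. -/
private def fz51 (lo hi A B W z : ℤ) : Prop :=
  (A = 0 ∧ B = 0 ∧ W < 0 ∧ (z < 2 * lo ∨ 2 * hi < z)) ∨
  (A = 1 ∧ B = 0 ∧ W < 0 ∧ 2 * lo ≤ z ∧ z ≤ 2 * hi) ∨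
  (A = 0 ∧ B = 1 ∧ W < 0 ∧ 2 * lo < z ∧ z < 2 * hi) ∨
  (A = 1 ∧ B = 1 ∧ 0 ≤ W ∧ 2 * lo < z ∧ z < 2 * hi ∧ z % 2 = 0)

private def q51 (lo hi A B W x y z v u : ℤ) : Prop :=
  (0 ≤ v ∧ v ≤ 2 ∧ 0 ≤ u ∧ u ≤ 2) ∧
  ((x = 0 ∧ y = 0 ∧ A = 1) ∨
   (x = 0 ∧ y = 2 ∧ B = 1) ∨
   (u = 2 ∧ y = 0 ∧ -2 ≤ x ∧ x ≤ 0 ∧ 2 * lo ≤ z ∧ z ≤ 2 * hi) ∨
   (u = 2 ∧ x = 0 ∧ 0 ≤ y ∧ y ≤ 2 ∧ B = 1) ∨
   (x = -2 ∧ y = 0 ∧ 2 * lo ≤ z ∧ z ≤ 2 * hi) ∨
   (y = 0 ∧ -2 ≤ x ∧ x ≤ 0 ∧ (z = 2 * lo ∨ z = 2 * hi)) ∨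
   (0 ≤ W ∧ ((y = 0 ∧ 0 ≤ x ∧ x ≤ 2 * W) ∨ (x = 2 * W ∧ 0 ≤ y ∧ y ≤ 2) ∨ (y = 2 ∧ 0 ≤ x ∧ x ≤ 2 * W))) ∨
   (u = 2 ∧ 0 ≤ W ∧ 0 ≤ x ∧ x ≤ 2 * W ∧ 0 ≤ y ∧ y ≤ 2))

private def s1 (lo hi _A _B _W x y z v u : ℤ) : Prop :=
  1 ≤ v ∧ u ≤ 1 ∧ y = 0 ∧ (x = -2 ∨ (x = -1 ∧ (z = 2 * lo ∨ z = 2 * hi)))

private def s2 (_lo _hi _A _B _W x _y _z v u : ℤ) : Prop := v = 1 ∧ u = 2 ∧ x ≤ -1

private def s3 (_lo _hi A _B _W x y _z v u : ℤ) : Prop := v = 1 ∧ u = 2 ∧ x = 0 ∧ y ≤ 1 ∧ A = 0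

private def s4 (_lo _hi _A _B W x y _z v u : ℤ) : Prop := v = 1 ∧ u = 2 ∧ y = 1 ∧ 0 ≤ W ∧ x < 2 * W

private def s5 (_lo _hi _A _B _W _x _y _z v u : ℤ) : Prop := v = 1 ∧ 1 ≤ u

private abbrev F10 := ℤ → ℤ → ℤ → ℤ → ℤ → ℤ → ℤ → ℤ → ℤ → ℤ → Prop

private def mi51 (F S : F10) : F10 := fun lo hi A B W x y z v u =>
  F lo hi A B W x y z v u ∧ ¬ S lo hi A B W x y z v u

private def up51 (F S : F10) : Prop :=
  ∀ lo hi A B W x y z v u, lo < hi → fz51 lo hi A B W z → F lo hi A B W x y z v u →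
    ¬ S lo hi A B W x y z v u →
    (x % 2 = 1 → ¬ S lo hi A B W (x + 1) y z v u ∧ ¬ S lo hi A B W (x - 1) y z v u) ∧
    (y % 2 = 1 → ¬ S lo hi A B W x (y + 1) z v u ∧ ¬ S lo hi A B W x (y - 1) z v u) ∧
    (z % 2 = 1 → ∀ A' B' W', A ≤ A' → B ≤ B' →
      (fz51 lo hi A' B' W' (z + 1) → ¬ S lo hi A' B' W' x y (z + 1) v u) ∧
      (fz51 lo hi A' B' W' (z - 1) → ¬ S lo hi A' B' W' x y (z - 1) v u)) ∧
    (v % 2 = 1 → ¬ S lo hi A B W x y z (v + 1) u ∧ ¬ S lo hi A B W x y z (v - 1) u) ∧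
    (u % 2 = 1 → ¬ S lo hi A B W x y z v (u + 1) ∧ ¬ S lo hi A B W x y z v (u - 1))

private theorem up_1 : up51 q51 s1 := by
  unfold up51 q51 s1 fz51
  intro lo hi A B W x y z v u hlt hf ⟨hb, h⟩ hs
  refine ⟨fun ho => ⟨fun hs' => ?_, fun hs' => ?_⟩, fun ho => ⟨fun hs' => ?_, fun hs' => ?_⟩,
    fun ho A' B' W' hA hB => ⟨fun hf' hs' => ?_, fun hf' hs' => ?_⟩,
    fun ho => ⟨fun hs' => ?_, fun hs' => ?_⟩, fun ho => ⟨fun hs' => ?_, fun hs' => ?_⟩⟩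
  all_goals first
    | (clear h hf ; omega)
    | (clear hlt
       rcases hf with ⟨rfl, rfl, hW, hz⟩ | ⟨rfl, rfl, hW, hz⟩ | ⟨rfl, rfl, hW, hz⟩ | ⟨rfl, rfl, hW, hz⟩ <;>
       rcases h with h | h | h | h | h | h | h | h <;> omega)

private theorem up_2 : up51 (mi51 q51 s1) s2 := by
  unfold up51 mi51 q51 s1 s2 fz51
  intro lo hi A B W x y z v u hlt hf ⟨⟨hb, h⟩, h1⟩ hs
  refine ⟨fun ho => ⟨fun hs' => ?_, fun hs' => ?_⟩, fun ho => ⟨fun hs' => ?_, fun hs' => ?_⟩,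
    fun ho A' B' W' hA hB => ⟨fun hf' hs' => ?_, fun hf' hs' => ?_⟩,
    fun ho => ⟨fun hs' => ?_, fun hs' => ?_⟩, fun ho => ⟨fun hs' => ?_, fun hs' => ?_⟩⟩
  all_goals first
    | (clear h hf h1; omega)
    | (clear h1
       rcases hf with ⟨rfl, rfl, hW, hz⟩ | ⟨rfl, rfl, hW, hz⟩ | ⟨rfl, rfl, hW, hz⟩ | ⟨rfl, rfl, hW, hz⟩ <;>
       rcases h with h | h | h | h | h | h | h | h <;> omega)
    | (rcases hf with ⟨rfl, rfl, hW, hz⟩ | ⟨rfl, rfl, hW, hz⟩ | ⟨rfl, rfl, hW, hz⟩ | ⟨rfl, rfl, hW, hz⟩ <;>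
       rcases h with h | h | h | h | h | h | h | h <;> omega)

private theorem up_3 : up51 (mi51 (mi51 q51 s1) s2) s3 := by
  unfold up51 mi51 q51 s1 s2 s3 fz51
  intro lo hi A B W x y z v u hlt hf ⟨⟨⟨hb, h⟩, h1⟩, h2⟩ hs
  refine ⟨fun ho => ⟨fun hs' => ?_, fun hs' => ?_⟩, fun ho => ⟨fun hs' => ?_, fun hs' => ?_⟩,
    fun ho A' B' W' hA hB => ⟨fun hf' hs' => ?_, fun hf' hs' => ?_⟩,
    fun ho => ⟨fun hs' => ?_, fun hs' => ?_⟩, fun ho => ⟨fun hs' => ?_, fun hs' => ?_⟩⟩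
  all_goals first
    | (clear h hf h1 h2; omega)
    | (clear h1 h2
       rcases hf with ⟨rfl, rfl, hW, hz⟩ | ⟨rfl, rfl, hW, hz⟩ | ⟨rfl, rfl, hW, hz⟩ | ⟨rfl, rfl, hW, hz⟩ <;>
       rcases h with h | h | h | h | h | h | h | h <;> omega)
    | (rcases hf with ⟨rfl, rfl, hW, hz⟩ | ⟨rfl, rfl, hW, hz⟩ | ⟨rfl, rfl, hW, hz⟩ | ⟨rfl, rfl, hW, hz⟩ <;>
       rcases h with h | h | h | h | h | h | h | h <;> omega)

private theorem up_4 : up51 (mi51 (mi51 (mi51 q51 s1) s2) s3) s4 := by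
  unfold up51 mi51 q51 s1 s2 s3 s4 fz51
  intro lo hi A B W x y z v u hlt hf ⟨⟨⟨⟨hb, h⟩, h1⟩, h2⟩, h3⟩ hs
  refine ⟨fun ho => ⟨fun hs' => ?_, fun hs' => ?_⟩, fun ho => ⟨fun hs' => ?_, fun hs' => ?_⟩,
    fun ho A' B' W' hA hB => ⟨fun hf' hs' => ?_, fun hf' hs' => ?_⟩,
    fun ho => ⟨fun hs' => ?_, fun hs' => ?_⟩, fun ho => ⟨fun hs' => ?_, fun hs' => ?_⟩⟩
  all_goals first
    | (clear h hf h1 h2 h3; omega)
    | (clear h1 h2 h3
       rcases hf with ⟨rfl, rfl, hW, hz⟩ | ⟨rfl, rfl, hW, hz⟩ | ⟨rfl, rfl, hW, hz⟩ | ⟨rfl, rfl, hW, hz⟩ <;>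
       rcases h with h | h | h | h | h | h | h | h <;> omega)
    | (rcases hf with ⟨rfl, rfl, hW, hz⟩ | ⟨rfl, rfl, hW, hz⟩ | ⟨rfl, rfl, hW, hz⟩ | ⟨rfl, rfl, hW, hz⟩ <;>
       rcases h with h | h | h | h | h | h | h | h <;> omega)

private theorem up_5 : up51 (mi51 (mi51 (mi51 (mi51 q51 s1) s2) s3) s4) s5 := by
  unfold up51 mi51 q51 s1 s2 s3 s4 s5 fz51
  intro lo hi A B W x y z v u hlt hf ⟨⟨⟨⟨⟨hb, h⟩, h1⟩, h2⟩, h3⟩, h4⟩ hs
  refine ⟨fun ho => ⟨fun hs' => ?_, fun hs' => ?_⟩, fun ho => ⟨fun hs' => ?_, fun hs' => ?_⟩,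
    fun ho A' B' W' hA hB => ⟨fun hf' hs' => ?_, fun hf' hs' => ?_⟩,
    fun ho => ⟨fun hs' => ?_, fun hs' => ?_⟩, fun ho => ⟨fun hs' => ?_, fun hs' => ?_⟩⟩
  all_goals (clear h hf h1 h2 h3 h4; omega)

private def tgu (F S : F10) (ε : ℤ) : Prop :=
  ∀ lo hi A B W x y z v u, lo < hi → fz51 lo hi A B W z → F lo hi A B W x y z v u →
    S lo hi A B W x y z v u →
    (u % 2 = 0 → F lo hi A B W x y z v (u + ε) ∧ S lo hi A B W x y z v (u + ε)) ∧
    (u % 2 = 1 → F lo hi A B W x y z v (u - ε) ∧ S lo hi A B W x y z v (u - ε))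

private def tgx (F S : F10) (ε : ℤ) : Prop :=
  ∀ lo hi A B W x y z v u, lo < hi → fz51 lo hi A B W z → F lo hi A B W x y z v u →
    S lo hi A B W x y z v u →
    (x % 2 = 0 → F lo hi A B W (x + ε) y z v u ∧ S lo hi A B W (x + ε) y z v u) ∧
    (x % 2 = 1 → F lo hi A B W (x - ε) y z v u ∧ S lo hi A B W (x - ε) y z v u)

private def tgy (F S : F10) (ε : ℤ) : Prop :=
  ∀ lo hi A B W x y z v u, lo < hi → fz51 lo hi A B W z → F lo hi A B W x y z v u →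
    S lo hi A B W x y z v u →
    (y % 2 = 0 → F lo hi A B W x (y + ε) z v u ∧ S lo hi A B W x (y + ε) z v u) ∧
    (y % 2 = 1 → F lo hi A B W x (y - ε) z v u ∧ S lo hi A B W x (y - ε) z v u)

private theorem tg_1 : tgu q51 s1 1 := by
  unfold tgu q51 s1 fz51
  intro lo hi A B W x y z v u hlt hf ⟨hb, h⟩ hs
  have hz : 2 * lo ≤ z ∧ z ≤ 2 * hi := by
    rcases h with h | h | h | h | h | h | h | h <;> omega
  have key : (x = -2 ∧ y = 0 ∧ 2 * lo ≤ z ∧ z ≤ 2 * hi) ∨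
      (y = 0 ∧ -2 ≤ x ∧ x ≤ 0 ∧ (z = 2 * lo ∨ z = 2 * hi)) := by omega
  clear h hf
  refine ⟨fun ho => ⟨⟨by omega, ?_⟩, by omega⟩, fun ho => ⟨⟨by omega, ?_⟩, by omega⟩⟩
  · rcases key with key | key
    · exact Or.inr (Or.inr (Or.inr (Or.inr (Or.inl key))))
    · exact Or.inr (Or.inr (Or.inr (Or.inr (Or.inr (Or.inl key)))))
  · rcases key with key | key
    · exact Or.inr (Or.inr (Or.inr (Or.inr (Or.inl key))))
    · exact Or.inr (Or.inr (Or.inr (Or.inr (Or.inr (Or.inl key)))))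

private theorem tg_2 : tgx (mi51 q51 s1) s2 1 := by
  unfold tgx mi51 q51 s1 s2 fz51
  intro lo hi A B W x y z v u hlt hf ⟨⟨hb, h⟩, h1⟩ hs
  have key : y = 0 ∧ -2 ≤ x ∧ 2 * lo ≤ z ∧ z ≤ 2 * hi := by
    clear h1
    rcases h with h | h | h | h | h | h | h | h <;> omega
  clear h hf h1
  refine ⟨fun ho => ⟨⟨⟨by omega, ?_⟩, by omega⟩, by omega⟩, fun ho => ⟨⟨⟨by omega, ?_⟩, by omega⟩, by omega⟩⟩
  · exact Or.inr (Or.inr (Or.inl (by omega)))
  · exact Or.inr (Or.inr (Or.inl (by omega)))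

private theorem tg_3 : tgy (mi51 (mi51 q51 s1) s2) s3 1 := by
  unfold tgy mi51 q51 s1 s2 s3 fz51
  intro lo hi A B W x y z v u hlt hf ⟨⟨⟨hb, h⟩, h1⟩, h2⟩ hs
  clear h1 h2
  have key : 0 ≤ y ∧ B = 1 := by
    rcases h with h | h | h | h | h | h | h | h <;> omega
  clear h hf
  refine ⟨fun ho => ⟨⟨⟨⟨by omega, ?_⟩, by omega⟩, by omega⟩, by omega⟩,
    fun ho => ⟨⟨⟨⟨by omega, ?_⟩, by omega⟩, by omega⟩, by omega⟩⟩
  · exact Or.inr (Or.inr (Or.inr (Or.inl (by omega))))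
  · exact Or.inr (Or.inr (Or.inr (Or.inl (by omega))))

private theorem tg_4 : tgx (mi51 (mi51 (mi51 q51 s1) s2) s3) s4 1 := by
  unfold tgx mi51 q51 s1 s2 s3 s4 fz51
  intro lo hi A B W x y z v u hlt hf ⟨⟨⟨⟨hb, h⟩, h1⟩, h2⟩, h3⟩ hs
  clear h1 h2 h3
  have hA : A = 1 := by omega
  have key : 0 ≤ x := by
    clear hf
    rcases h with h | h | h | h | h | h | h | h <;> omega
  clear h hf
  refine ⟨fun ho => ⟨⟨⟨⟨⟨by omega, ?_⟩, by omega⟩, by omega⟩, by omega⟩, by omega⟩,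
    fun ho => ⟨⟨⟨⟨⟨by omega, ?_⟩, by omega⟩, by omega⟩, by omega⟩, by omega⟩⟩
  · exact Or.inr (Or.inr (Or.inr (Or.inr (Or.inr (Or.inr (Or.inr (by omega)))))))
  · exact Or.inr (Or.inr (Or.inr (Or.inr (Or.inr (Or.inr (Or.inr (by omega)))))))

private theorem tg_5 : tgu (mi51 (mi51 (mi51 (mi51 q51 s1) s2) s3) s4) s5 (-1) := by
  unfold tgu mi51 q51 s1 s2 s3 s4 s5 fz51
  intro lo hi A B W x y z v u hlt hf ⟨⟨⟨⟨⟨hb, h⟩, h1⟩, h2⟩, h3⟩, h4⟩ hs
  have hWA : 0 ≤ W → A = 1 := by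
    clear h h1 h2 h3 h4
    omega
  have hzA : z = 2 * lo ∨ z = 2 * hi → A = 1 := by
    clear h h1 h2 h3 h4
    omega
  have hWB : A = 1 → B = 1 → 0 ≤ W := by
    clear h h1 h2 h3 h4
    omega
  have hA01 : A = 0 ∨ A = 1 := by
    clear h h1 h2 h3 h4
    omega
  clear hf
  have hx : 0 ≤ x := by
    clear h3 h4
    by_contra hx
    have hu : u ≤ 1 := by
      clear h h1
      omega
    clear h2
    rcases h with h | h | h | h | h | h | h | h <;> omega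
  have key : (x = 0 ∧ y = 0 ∧ A = 1) ∨ (x = 0 ∧ y = 2 ∧ B = 1) ∨
      (0 ≤ W ∧ ((y = 0 ∧ 0 ≤ x ∧ x ≤ 2 * W) ∨ (x = 2 * W ∧ 0 ≤ y ∧ y ≤ 2) ∨ (y = 2 ∧ 0 ≤ x ∧ x ≤ 2 * W))) := by
    clear h1 h2
    rcases h with h | h | h | h | h | h | h | h
    · exact Or.inl h
    · exact Or.inr (Or.inl h)
    · clear h4
      exact Or.inl (by omega)
    · by_cases hy : y = 2
      · exact Or.inr (Or.inl (by omega))
      · have hA : A = 1 := by
          clear h4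
          omega
        have hW := hWB hA h.2.2.2.2
        exact Or.inr (Or.inr ⟨hW, by omega⟩)
    · clear h3 h4
      omega
    · clear h3 h4
      exact Or.inl (by omega)
    · exact Or.inr (Or.inr h)
    · clear h3
      refine Or.inr (Or.inr ⟨h.2.1, ?_⟩)
      by_cases hy : y = 0
      · exact Or.inl (by omega)
      · by_cases hy2 : y = 2
        · exact Or.inr (Or.inr (by omega))
        · exact Or.inr (Or.inl (by omega))
  have k3 : ¬ (x = 0 ∧ y ≤ 1 ∧ A = 0) := by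
    clear h h1 h2 h3 h4
    omega
  have k4 : ¬ (y = 1 ∧ 0 ≤ W ∧ x < 2 * W) := by
    clear h h1 h2 h3 h4
    omega
  clear h h1 h2 h3 h4 hWA hzA hWB hA01
  have hq : ∀ u' : ℤ, 0 ≤ u' → u' ≤ 2 → (0 ≤ v ∧ v ≤ 2 ∧ 0 ≤ u' ∧ u' ≤ 2) ∧
    ((x = 0 ∧ y = 0 ∧ A = 1) ∨
     (x = 0 ∧ y = 2 ∧ B = 1) ∨
     (u' = 2 ∧ y = 0 ∧ -2 ≤ x ∧ x ≤ 0 ∧ 2 * lo ≤ z ∧ z ≤ 2 * hi) ∨
     (u' = 2 ∧ x = 0 ∧ 0 ≤ y ∧ y ≤ 2 ∧ B = 1) ∨
     (x = -2 ∧ y = 0 ∧ 2 * lo ≤ z ∧ z ≤ 2 * hi) ∨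
     (y = 0 ∧ -2 ≤ x ∧ x ≤ 0 ∧ (z = 2 * lo ∨ z = 2 * hi)) ∨
     (0 ≤ W ∧ ((y = 0 ∧ 0 ≤ x ∧ x ≤ 2 * W) ∨ (x = 2 * W ∧ 0 ≤ y ∧ y ≤ 2) ∨ (y = 2 ∧ 0 ≤ x ∧ x ≤ 2 * W))) ∨
     (u' = 2 ∧ 0 ≤ W ∧ 0 ≤ x ∧ x ≤ 2 * W ∧ 0 ≤ y ∧ y ≤ 2)) := by
    intro u' h0 h2
    refine ⟨⟨hb.1, hb.2.1, h0, h2⟩, ?_⟩
    rcases key with key | key | key
    · exact Or.inl key
    · exact Or.inr (Or.inl key)
    · exact Or.inr (Or.inr (Or.inr (Or.inr (Or.inr (Or.inr (Or.inl key))))))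
  clear key
  refine ⟨fun ho => ⟨⟨⟨⟨⟨hq _ (by omega) (by omega), ?_⟩, ?_⟩, ?_⟩, ?_⟩, ?_⟩,
    fun ho => ⟨⟨⟨⟨⟨hq _ (by omega) (by omega), ?_⟩, ?_⟩, ?_⟩, ?_⟩, ?_⟩⟩ <;> omega

/-! ## From cells to coordinates -/

open Classical in
private noncomputable def zA (r : Str) (z : ℤ) : ℤ := if r.at_ false z then 1 else 0

open Classical in
private noncomputable def zB (r : Str) (z : ℤ) : ℤ := if r.at_ true z then 1 else 0

private noncomputable def zW (r : Str) (z : ℤ) : ℤ := if z % 2 = 0 then (r.cr (z / 2) : ℤ) - 1 else -1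

private theorem zA_iff (r : Str) (z : ℤ) : zA r z = 1 ↔ r.at_ false z := by
  unfold zA
  split_ifs with h <;> simp [h]

private theorem zB_iff (r : Str) (z : ℤ) : zB r z = 1 ↔ r.at_ true z := by
  unfold zB
  split_ifs with h <;> simp [h]

private theorem zA_01 (r : Str) (z : ℤ) : zA r z = 0 ∨ zA r z = 1 := by
  unfold zA
  split_ifs with h <;> simp

private theorem zB_01 (r : Str) (z : ℤ) : zB r z = 0 ∨ zB r z = 1 := by
  unfold zB
  split_ifs with h <;> simp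

private theorem cross_iff (r : Str) (s : ℕ) (z : ℤ) : r.cross s z ↔ zW r z = s := by
  unfold zW Str.cross
  split_ifs with h
  · constructor
    · rintro ⟨-, h2⟩
      rw [h2]
      push_cast
      ring
    · intro h2
      exact ⟨h, by omega⟩
  · constructor
    · rintro ⟨h1, -⟩
      exact absurd h1 h
    · intro h2
      exact h2.elim

private theorem at_mono (r : Str) (β : Bool) (z z' : ℤ) (hz : z % 2 = 1) (hz' : z' = z + 1 ∨ z' = z - 1)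
    (h : r.at_ β z) : r.at_ β z' := by
  rcases h with ⟨h1, h2, h3⟩ | ⟨h1, -⟩
  · rcases hz' with rfl | rfl
    · right
      have : (z + 1) / 2 - 1 = z / 2 := by omega
      rw [this]
      exact ⟨by omega, h1, h2, h3⟩
    · left
      have : (z - 1) / 2 = z / 2 := by omega
      rw [this]
      exact ⟨h1, h2, h3⟩
  · omega

private theorem zA_mono (r : Str) (z z' : ℤ) (hz : z % 2 = 1) (hz' : z' = z + 1 ∨ z' = z - 1) :
    zA r z ≤ zA r z' := by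
  rcases zA_01 r z with h | h
  · rw [h]
    rcases zA_01 r z' with h' | h' <;> omega
  · have := (zA_iff r z').2 (at_mono r false z z' hz hz' ((zA_iff r z).1 h))
    omega

private theorem zB_mono (r : Str) (z z' : ℤ) (hz : z % 2 = 1) (hz' : z' = z + 1 ∨ z' = z - 1) :
    zB r z ≤ zB r z' := by
  rcases zB_01 r z with h | h
  · rw [h]
    rcases zB_01 r z' with h' | h' <;> omega
  · have := (zB_iff r z').2 (at_mono r true z z' hz hz' ((zB_iff r z).1 h))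
    omega

private theorem fz_ok (m : ℕ) (r : Str) (h : r.OK m) (z : ℤ) :
    fz51 r.lo r.hi (zA r z) (zB r z) (zW r z) z := by
  have hlt := h.lt
  have hA := zA_iff r z
  have hB := zB_iff r z
  have hA01 := zA_01 r z
  have hB01 := zB_01 r z
  have hplo := h.pos_lo
  have hphi := h.pos_hi
  unfold fz51
  unfold Str.at_ at hA hB
  rcases Int.emod_two_eq_zero_or_one z with hz | hz
  · -- z even
    have hW : zW r z = (r.cr (z / 2) : ℤ) - 1 := by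
      unfold zW
      rw [if_pos hz]
    by_cases h1 : z / 2 < r.lo ∨ r.hi < z / 2
    · left
      have h2 := h.out (z / 2) (by omega)
      rw [h2] at hW
      refine ⟨?_, ?_, by omega, by omega⟩
      · rcases hA01 with h3 | h3
        · exact h3
        · rcases hA.1 h3 with h4 | h4 <;> omega
      · rcases hB01 with h3 | h3
        · exact h3
        · rcases hB.1 h3 with h4 | h4 <;> omega
    · by_cases h2 : z / 2 = r.lo
      · right; left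
        have h3 := h.out (z / 2) (by omega)
        rw [h3] at hW
        refine ⟨?_, ?_, by omega, by omega, by omega⟩
        · rw [hA, h2]
          left
          exact ⟨le_refl _, hlt, hplo⟩
        · rcases hB01 with h4 | h4
          · exact h4
          · rw [h2] at hB
            rcases hB.1 h4 with ⟨-, -, h5⟩ | h5
            · rw [hplo] at h5
              cases h5
            · omega
      · by_cases h2' : z / 2 = r.hi
        · right; left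
          have h3 := h.out (z / 2) (by omega)
          rw [h3] at hW
          refine ⟨?_, ?_, by omega, by omega, by omega⟩
          · rw [hA, h2']
            right
            exact ⟨hz, by omega, by omega, hphi⟩
          · rcases hB01 with h4 | h4
            · exact h4
            · rw [h2'] at hB
              rcases hB.1 h4 with h5 | ⟨-, -, -, h5⟩
              · omega
              · rw [hphi] at h5
                cases h5
        · have h3 := h.iff (z / 2) (by omega) (by omega)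
          have hA' : zA r z = 1 ↔ (r.pos (z / 2) = false ∨ r.pos (z / 2 - 1) = false) := by
            rw [hA]
            constructor
            · rintro (h5 | h5)
              · exact Or.inl h5.2.2
              · exact Or.inr h5.2.2.2
            · rintro (h5 | h5)
              · exact Or.inl ⟨by omega, by omega, h5⟩
              · exact Or.inr ⟨hz, by omega, by omega, h5⟩
          have hB' : zB r z = 1 ↔ (r.pos (z / 2) = true ∨ r.pos (z / 2 - 1) = true) := by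
            rw [hB]
            constructor
            · rintro (h5 | h5)
              · exact Or.inl h5.2.2
              · exact Or.inr h5.2.2.2
            · rintro (h5 | h5)
              · exact Or.inl ⟨by omega, by omega, h5⟩
              · exact Or.inr ⟨hz, by omega, by omega, h5⟩
          rcases hp : r.pos (z / 2) with _ | _ <;> rcases hp' : r.pos (z / 2 - 1) with _ | _ <;>
            rw [hp, hp'] at h3 hA' hB' <;> simp at h3 hA' hB'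
          · right; left
            rw [h3] at hW
            exact ⟨hA', by omega, by omega, by omega, by omega⟩
          · right; right; right
            exact ⟨hA', hB', by omega, by omega, by omega, hz⟩
          · right; right; right
            exact ⟨hA', hB', by omega, by omega, by omega, hz⟩
          · right; right; left
            rw [h3] at hW
            exact ⟨by omega, hB', by omega, by omega, by omega⟩
  · have hW : zW r z = -1 := by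
      unfold zW
      rw [if_neg (by omega)]
    have hA' : zA r z = 1 ↔ (r.lo ≤ z / 2 ∧ z / 2 < r.hi ∧ r.pos (z / 2) = false) := by
      rw [hA]
      constructor
      · rintro (h5 | h5)
        · exact h5
        · omega
      · exact Or.inl
    have hB' : zB r z = 1 ↔ (r.lo ≤ z / 2 ∧ z / 2 < r.hi ∧ r.pos (z / 2) = true) := by
      rw [hB]
      constructor
      · rintro (h5 | h5)
        · exact h5
        · omega
      · exact Or.inl
    by_cases h1 : r.lo ≤ z / 2 ∧ z / 2 < r.hi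
    · rcases hp : r.pos (z / 2) with _ | _ <;> rw [hp] at hA' hB' <;> simp at hA' hB'
      · right; left
        exact ⟨by tauto, by tauto, by omega, by omega, by omega⟩
      · right; right; left
        exact ⟨by tauto, by tauto, by omega, by omega, by omega⟩
    · left
      exact ⟨by tauto, by tauto, by omega, by omega⟩

private noncomputable def st51 (r : Str) (F : F10) : Set P := {c |
  F r.lo r.hi (zA r (c 2)) (zB r (c 2)) (zW r (c 2)) (c 0) (c 1) (c 2) (c 3) (c 4)}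

private theorem arc_iff (r : Str) (x y z : ℤ) : (∃ s, r.cross s z ∧ arc s x y) ↔
    (0 ≤ zW r z ∧ ((y = 0 ∧ 0 ≤ x ∧ x ≤ 2 * zW r z) ∨ (x = 2 * zW r z ∧ 0 ≤ y ∧ y ≤ 2) ∨
      (y = 2 ∧ 0 ≤ x ∧ x ≤ 2 * zW r z))) := by
  constructor
  · rintro ⟨s, h1, h2⟩
    rw [cross_iff] at h1
    unfold arc at h2
    omega
  · rintro ⟨h1, h2⟩
    obtain ⟨s, hs⟩ := Int.eq_ofNat_of_zero_le h1
    refine ⟨s, (cross_iff r s z).2 hs, ?_⟩
    unfold arc
    omega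

private theorem rect_iff (r : Str) (x y z : ℤ) : (∃ s, r.cross s z ∧ rect s x y) ↔
    (0 ≤ zW r z ∧ 0 ≤ x ∧ x ≤ 2 * zW r z ∧ 0 ≤ y ∧ y ≤ 2) := by
  constructor
  · rintro ⟨s, h1, h2⟩
    rw [cross_iff] at h1
    unfold rect at h2
    omega
  · rintro ⟨h1, h2⟩
    obtain ⟨s, hs⟩ := Int.eq_ofNat_of_zero_le h1
    refine ⟨s, (cross_iff r s z).2 hs, ?_⟩
    unfold rect
    omega

private theorem nu_false (u : ℤ) : nuP false u 0 ↔ (0 ≤ u ∧ u ≤ 2) := by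
  unfold nuP
  simp

private theorem en_false (u : ℤ) : en false u 0 ↔ u = 2 := by
  unfold en
  simp

private theorem rt_false : rt false = -2 := by
  unfold rt
  simp

private theorem R2_eq (m : ℕ) (r : Str) (h : r.OK m) : R2 r = st51 r q51 := by
  ext c
  have hf := fz_ok m r h (c 2)
  have hA := zA_iff r (c 2)
  have hB := zB_iff r (c 2)
  have hcr : (∃ s, r.cross s (c 2) ∧ arc s (c 0) (c 1) ∧ nuP false (c 4) 0) ↔
      ((∃ s, r.cross s (c 2) ∧ arc s (c 0) (c 1)) ∧ (0 ≤ c 4 ∧ c 4 ≤ 2)) := by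
    rw [← nu_false]
    constructor
    · rintro ⟨s, h1, h2, h3⟩
      exact ⟨⟨s, h1, h2⟩, h3⟩
    · rintro ⟨⟨s, h1, h2⟩, h3⟩
      exact ⟨s, h1, h2, h3⟩
  have hre : (∃ s, r.cross s (c 2) ∧ rect s (c 0) (c 1) ∧ en false (c 4) 0) ↔
      ((∃ s, r.cross s (c 2) ∧ rect s (c 0) (c 1)) ∧ c 4 = 2) := by
    rw [← en_false]
    constructor
    · rintro ⟨s, h1, h2, h3⟩
      exact ⟨⟨s, h1, h2⟩, h3⟩
    · rintro ⟨⟨s, h1, h2⟩, h3⟩
      exact ⟨s, h1, h2, h3⟩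
  have e0 : (Function.update c 3 0) 0 = c 0 := by simp
  have e1 : (Function.update c 3 0) 1 = c 1 := by simp
  have e2 : (Function.update c 3 0) 2 = c 2 := by simp
  have e3 : (Function.update c 3 0) 3 = 0 := by simp
  have e4 : (Function.update c 3 0) 4 = c 4 := by simp
  have key : (Function.update c 3 0 ∈ disc false r) ↔
      ((c 0 = 0 ∧ c 1 = 0 ∧ (0 ≤ c 4 ∧ c 4 ≤ 2) ∧ zA r (c 2) = 1) ∨
      (c 0 = 0 ∧ c 1 = 2 ∧ (0 ≤ c 4 ∧ c 4 ≤ 2) ∧ zB r (c 2) = 1) ∨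
      (c 4 = 2 ∧ c 1 = 0 ∧ -2 ≤ c 0 ∧ c 0 ≤ 0 ∧ 2 * r.lo ≤ c 2 ∧ c 2 ≤ 2 * r.hi) ∨
      (c 4 = 2 ∧ c 0 = 0 ∧ 0 ≤ c 1 ∧ c 1 ≤ 2 ∧ zB r (c 2) = 1) ∨
      (c 0 = -2 ∧ c 1 = 0 ∧ (0 ≤ c 4 ∧ c 4 ≤ 2) ∧ 2 * r.lo ≤ c 2 ∧ c 2 ≤ 2 * r.hi) ∨
      (c 1 = 0 ∧ -2 ≤ c 0 ∧ c 0 ≤ 0 ∧ (0 ≤ c 4 ∧ c 4 ≤ 2) ∧ (c 2 = 2 * r.lo ∨ c 2 = 2 * r.hi)) ∨
      ((0 ≤ zW r (c 2) ∧ ((c 1 = 0 ∧ 0 ≤ c 0 ∧ c 0 ≤ 2 * zW r (c 2)) ∨
        (c 0 = 2 * zW r (c 2) ∧ 0 ≤ c 1 ∧ c 1 ≤ 2) ∨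
        (c 1 = 2 ∧ 0 ≤ c 0 ∧ c 0 ≤ 2 * zW r (c 2)))) ∧ (0 ≤ c 4 ∧ c 4 ≤ 2)) ∨
      ((0 ≤ zW r (c 2) ∧ 0 ≤ c 0 ∧ c 0 ≤ 2 * zW r (c 2) ∧ 0 ≤ c 1 ∧ c 1 ≤ 2) ∧ c 4 = 2)) := by
    rw [← arc_iff, ← rect_iff, ← hcr, ← hre, hA, hB]
    unfold disc
    rw [Set.mem_ofPred_eq, e0, e1, e2, e3, e4, nu_false, en_false, rt_false]
  show (Function.update c 3 0 ∈ disc false r ∧ 0 ≤ c 3 ∧ c 3 ≤ 2) ↔
    q51 r.lo r.hi (zA r (c 2)) (zB r (c 2)) (zW r (c 2)) (c 0) (c 1) (c 2) (c 3) (c 4)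
  rw [key]
  unfold q51
  constructor
  · rintro ⟨h1 | h1 | h1 | h1 | h1 | h1 | h1 | h1, h2⟩
    · exact ⟨by omega, by left; omega⟩
    · exact ⟨by omega, by right; left; omega⟩
    · exact ⟨by omega, by right; right; left; omega⟩
    · exact ⟨by omega, by right; right; right; left; omega⟩
    · exact ⟨by omega, by right; right; right; right; left; omega⟩
    · exact ⟨by omega, by right; right; right; right; right; left; omega⟩
    · exact ⟨by omega, by right; right; right; right; right; right; left; exact h1.1⟩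
    · exact ⟨by omega, by right; right; right; right; right; right; right; exact ⟨h1.2, h1.1⟩⟩
  · rintro ⟨h2, h1 | h1 | h1 | h1 | h1 | h1 | h1 | h1⟩
    · exact ⟨by left; omega, by omega⟩
    · exact ⟨by right; left; omega, by omega⟩
    · exact ⟨by right; right; left; omega, by omega⟩
    · exact ⟨by right; right; right; left; omega, by omega⟩
    · exact ⟨by right; right; right; right; left; omega, by omega⟩
    · exact ⟨by right; right; right; right; right; left; omega, by omega⟩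
    · exact ⟨by right; right; right; right; right; right; left; exact ⟨h1, by omega⟩, by omega⟩
    · exact ⟨by right; right; right; right; right; right; right; exact ⟨h1.2, h1.1⟩, by omega⟩

private theorem CB_eq (m : ℕ) (r : Str) (h : r.OK m) :
    CB r = st51 r (mi51 (mi51 (mi51 (mi51 (mi51 q51 s1) s2) s3) s4) s5) := by
  ext c
  have hR : c ∈ R2 r ↔ q51 r.lo r.hi (zA r (c 2)) (zB r (c 2)) (zW r (c 2)) (c 0) (c 1) (c 2) (c 3) (c 4) := by
    rw [R2_eq m r h]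
    rfl
  show (c ∈ R2 r ∧ (c 3 = 0 ∨ (c 3 = 1 ∧ c 4 = 0 ∧ ¬ kap' r c) ∨
    (c 3 = 2 ∧ ¬ (kap' r c ∧ c 4 ≤ 1)))) ↔
    (((((q51 r.lo r.hi (zA r (c 2)) (zB r (c 2)) (zW r (c 2)) (c 0) (c 1) (c 2) (c 3) (c 4) ∧ _) ∧ _) ∧ _) ∧ _)
      ∧ _)
  rw [hR]
  have hb : q51 r.lo r.hi (zA r (c 2)) (zB r (c 2)) (zW r (c 2)) (c 0) (c 1) (c 2) (c 3) (c 4) →
      0 ≤ c 3 ∧ c 3 ≤ 2 ∧ 0 ≤ c 4 ∧ c 4 ≤ 2 := fun h => h.1
  unfold s1 s2 s3 s4 s5 kap'
  constructor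
  · rintro ⟨h1, h2⟩
    have h3 := hb h1
    exact ⟨⟨⟨⟨⟨h1, by omega⟩, by omega⟩, by omega⟩, by omega⟩, by omega⟩
  · rintro ⟨⟨⟨⟨⟨h1, h4⟩, h5⟩, h6⟩, h7⟩, h8⟩
    have h3 := hb h1
    exact ⟨h1, by omega⟩

private theorem add_e51 (c : P) (i j : Fin 5) : (c + e i) j = c j + (if j = i then 1 else 0) := rfl

private theorem sub_e51 (c : P) (i j : Fin 5) : (c - e i) j = c j - (if j = i then 1 else 0) := rfl

private theorem closed_mi (m : ℕ) (r : Str) (h : r.OK m) (F S : F10) (hF : Closed (st51 r F))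
    (hu : up51 F S) : Closed (st51 r (mi51 F S)) := by
  rintro c ⟨h1, h2⟩ i hi
  have hc := hF c h1 i hi
  have ho : c i % 2 = 1 := Int.odd_iff.1 hi
  obtain ⟨k0, k1, k2, k3, k4⟩ := hu _ _ _ _ _ _ _ _ _ _ h.lt (fz_ok m r h (c 2)) h1 h2
  refine ⟨⟨hc.1, ?_⟩, ⟨hc.2, ?_⟩⟩
  · fin_cases i
    · simpa [e] using (k0 ho).1
    · simpa [e] using (k1 ho).1
    · simpa [e] using (k2 ho _ _ _ (zA_mono r _ _ ho (Or.inl rfl)) (zB_mono r _ _ ho (Or.inl rfl))).1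
        (fz_ok m r h (c 2 + 1))
    · simpa [e] using (k3 ho).1
    · simpa [e] using (k4 ho).1
  · fin_cases i
    · simpa [e] using (k0 ho).2
    · simpa [e] using (k1 ho).2
    · simpa [e] using (k2 ho _ _ _ (zA_mono r _ _ ho (Or.inr rfl)) (zB_mono r _ _ ho (Or.inr rfl))).2
        (fz_ok m r h (c 2 - 1))
    · simpa [e] using (k3 ho).2
    · simpa [e] using (k4 ho).2

private theorem diff_mi (r : Str) (F S : F10) (c : P) (hc : c ∈ st51 r F \ st51 r (mi51 F S)) :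
    F r.lo r.hi (zA r (c 2)) (zB r (c 2)) (zW r (c 2)) (c 0) (c 1) (c 2) (c 3) (c 4) ∧
    S r.lo r.hi (zA r (c 2)) (zB r (c 2)) (zW r (c 2)) (c 0) (c 1) (c 2) (c 3) (c 4) := by
  refine ⟨hc.1, ?_⟩
  by_contra h
  exact hc.2 ⟨hc.1, h⟩

private theorem mk_diff (r : Str) (F S : F10) (c : P)
    (h : F r.lo r.hi (zA r (c 2)) (zB r (c 2)) (zW r (c 2)) (c 0) (c 1) (c 2) (c 3) (c 4) ∧
    S r.lo r.hi (zA r (c 2)) (zB r (c 2)) (zW r (c 2)) (c 0) (c 1) (c 2) (c 3) (c 4)) :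
    c ∈ st51 r F \ st51 r (mi51 F S) :=
  ⟨h.1, fun h' => h'.2 h.2⟩

private theorem step_u (m : ℕ) (r : Str) (h : r.OK m) (F S : F10) (hF : Closed (st51 r F))
    (hfin : (st51 r F).Finite) (hu : up51 F S) (ε : ℤ) (hε : ε = 1 ∨ ε = -1) (ht : tgu F S ε) :
    SlabStep (st51 r F) (st51 r (mi51 F S)) := by
  refine ⟨hF, closed_mi m r h F S hF hu, fun c hc => hc.1, hfin.subset Set.sdiff_subset, 4, ε, hε, ?_⟩
  intro c hc
  obtain ⟨h1, h2⟩ := diff_mi r F S c hc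
  obtain ⟨k0, k1⟩ := ht _ _ _ _ _ _ _ _ _ _ h.lt (fz_ok m r h (c 2)) h1 h2
  constructor
  · intro he
    apply mk_diff
    have := k0 (Int.even_iff.1 he)
    simpa [e] using this
  · intro he
    apply mk_diff
    have := k1 (Int.odd_iff.1 he)
    simpa [e] using this

private theorem step_x (m : ℕ) (r : Str) (h : r.OK m) (F S : F10) (hF : Closed (st51 r F))
    (hfin : (st51 r F).Finite) (hu : up51 F S) (ε : ℤ) (hε : ε = 1 ∨ ε = -1) (ht : tgx F S ε) :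
    SlabStep (st51 r F) (st51 r (mi51 F S)) := by
  refine ⟨hF, closed_mi m r h F S hF hu, fun c hc => hc.1, hfin.subset Set.sdiff_subset, 0, ε, hε, ?_⟩
  intro c hc
  obtain ⟨h1, h2⟩ := diff_mi r F S c hc
  obtain ⟨k0, k1⟩ := ht _ _ _ _ _ _ _ _ _ _ h.lt (fz_ok m r h (c 2)) h1 h2
  constructor
  · intro he
    apply mk_diff
    have := k0 (Int.even_iff.1 he)
    simpa [e] using this
  · intro he
    apply mk_diff
    have := k1 (Int.odd_iff.1 he)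
    simpa [e] using this

private theorem step_y (m : ℕ) (r : Str) (h : r.OK m) (F S : F10) (hF : Closed (st51 r F))
    (hfin : (st51 r F).Finite) (hu : up51 F S) (ε : ℤ) (hε : ε = 1 ∨ ε = -1) (ht : tgy F S ε) :
    SlabStep (st51 r F) (st51 r (mi51 F S)) := by
  refine ⟨hF, closed_mi m r h F S hF hu, fun c hc => hc.1, hfin.subset Set.sdiff_subset, 1, ε, hε, ?_⟩
  intro c hc
  obtain ⟨h1, h2⟩ := diff_mi r F S c hc
  obtain ⟨k0, k1⟩ := ht _ _ _ _ _ _ _ _ _ _ h.lt (fz_ok m r h (c 2)) h1 h2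
  constructor
  · intro he
    apply mk_diff
    have := k0 (Int.even_iff.1 he)
    simpa [e] using this
  · intro he
    apply mk_diff
    have := k1 (Int.odd_iff.1 he)
    simpa [e] using this

theorem col_R2_CB (m : ℕ) (r : Str) (h : r.OK m) : Col (R2 r) (CB r) := by
  have c0 : Closed (st51 r q51) := by
    rw [← R2_eq m r h]
    exact closed_R2 m r h
  have f0 : (st51 r q51).Finite := by
    rw [← R2_eq m r h]
    exact finite_R2 m r h
  have c1 := closed_mi m r h _ _ c0 up_1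
  have f1 : (st51 r (mi51 q51 s1)).Finite := f0.subset fun c hc => hc.1
  have c2 := closed_mi m r h _ _ c1 up_2
  have f2 : (st51 r (mi51 (mi51 q51 s1) s2)).Finite := f1.subset fun c hc => hc.1
  have c3 := closed_mi m r h _ _ c2 up_3
  have f3 : (st51 r (mi51 (mi51 (mi51 q51 s1) s2) s3)).Finite := f2.subset fun c hc => hc.1
  have c4 := closed_mi m r h _ _ c3 up_4
  have f4 : (st51 r (mi51 (mi51 (mi51 (mi51 q51 s1) s2) s3) s4)).Finite := f3.subset fun c hc => hc.1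
  rw [CB_eq m r h, R2_eq m r h]
  exact Col.step (step_u m r h _ _ c0 f0 up_1 1 (Or.inl rfl) tg_1)
    (Col.step (step_x m r h _ _ c1 f1 up_2 1 (Or.inl rfl) tg_2)
    (Col.step (step_y m r h _ _ c2 f2 up_3 1 (Or.inl rfl) tg_3)
    (Col.step (step_x m r h _ _ c3 f3 up_4 1 (Or.inl rfl) tg_4)
    (Col.one (step_u m r h _ _ c4 f4 up_5 (-1) (Or.inr rfl) tg_5)))))

end Pool.Agent.MKD
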